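import Pool.Agent.H37.SM.ZRG

/-!
# ZIND: the combinatorial induction

`x ω k` = the value of the functional `ω` at the direction `k`.  `Ap x Vt Y b k`: `b ∈ Y ∩ Vt`, `x b k = 1` and `x ω k = 0` for the other `ω ∈ Y`.

`zind`.  Induction on the number of elements outside `Y = X ∪ S`, for all `X` with `𝓕 X` and no apex of `Y` in `X`.  `𝓕 Y` (`hS`).  Let `b0, k0` be as in `H` for `Y`, `Ap Y b0 k0`, `k0` the only direction of `b0`; `b0 ∈ S` (`hapS`), `b0 ∉ X` (`hX0`).  Put `P = apex Y ⊆ S`, `P' = P.erase b0`.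
`∑_{B ⊆ P} (-1)^|B| J(X ∪ B) = ∑_{B ⊆ P'} (-1)^|B| (J(X ∪ B) - J(X ∪ B ∪ b0))` (`Finset.sum_powerset_insert`).  For `B ⊆ P'`: `X ∪ B ⊆ Y` does not contain `b0`, so `x ω k0 = 0` on `X ∪ B`; `hrel` for `(X ∪ B, k0)`: modulo regular functions `J(X ∪ B) = ∑_{ω ∉ X ∪ B} x ω k0 J(X ∪ B ∪ ω) = J(X ∪ B ∪ b0) + ∑_{ω ∉ Y} x ω k0 J(X ∪ B ∪ ω)`
(for `ω ∈ Y`, `ω ≠ b0`: `x ω k0 = 0`; `x b0 k0 = 1`).  So it is enough that for every `ω ∉ Y` with `x ω k0 ≠ 0` the sum `∑_{B ⊆ P'} (-1)^|B| J(X ∪ ω ∪ B)` is regular.  Let `Y' = Y ∪ ω`.  If not `𝓕 Y'`: every `J(X ∪ ω ∪ B) = 0` by `hJ` (`𝓕 (X ∪ ω ∪ B)` would give `𝓕 (X ∪ ω ∪ B ∪ S)` and `Y' ⊆ X ∪ ω ∪ B ∪ S`).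
If `𝓕 Y'`: `Ap Y' b k` implies `Ap Y b k` (`b ∈ S ⊆ Y` by `hapS`), and `b ≠ b0` (`Ap Y' b0 k` gives `Ap Y b0 k`, `k = k0`, but `x ω k0 ≠ 0`, `ω ∈ Y'`, `ω ≠ b0`); so `P'' = apex Y' ⊆ P'`.  Split `B = B1 ∪ B2`, `B1 ⊆ P' \ P''`, `B2 ⊆ P''`: the sum is `∑_{B1} (-1)^|B1| (∑_{B2 ⊆ P''} (-1)^|B2| J((X ∪ ω ∪ B1) ∪ B2))`, and the inner sums are regular by the induction
hypothesis for `X ∪ ω ∪ B1`: `(X ∪ ω ∪ B1) ∪ S = Y'` (`B1 ⊆ S`), `𝓕` by `hmono`, and no element of it is an apex of `Y'` (elements of `X` are no apexes of `Y`; `ω ∉ S`; `B1 ∩ P'' = ∅`).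
-/

set_option autoImplicit false

namespace Pool.Agent.H37.T5

open Finset

/-- `k` is an apex direction of `b` in `Y`. -/
def Ap {Ω E : Type} (x : Ω → E → ℤ) (Vt : Finset Ω) (Y : Finset Ω) (b : Ω) (k : E) : Prop :=
  b ∈ Y ∧ b ∈ Vt ∧ x b k = 1 ∧ ∀ ω ∈ Y, ω ≠ b → x ω k = 0

open Classical in
/-- The apexes of `Y`. -/
noncomputable def apex {Ω E : Type} (x : Ω → E → ℤ) (Vt : Finset Ω) (Y : Finset Ω) : Finset Ω :=
  Y.filter (fun b => ∃ k, Ap x Vt Y b k)

theorem mem_apex {Ω E : Type} {x : Ω → E → ℤ} {Vt Y : Finset Ω} {b : Ω} :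
    b ∈ apex x Vt Y ↔ ∃ k, Ap x Vt Y b k := by
  simp only [apex, mem_filter]
  exact ⟨fun h => h.2, fun ⟨k, h⟩ => ⟨h.1, k, h⟩⟩

theorem ZIND_split {Ω M : Type} [DecidableEq Ω] [AddCommMonoid M] (A B : Finset Ω)
    (hd : Disjoint A B) (f : Finset Ω → M) :
    ∑ C ∈ (A ∪ B).powerset, f C = ∑ C1 ∈ A.powerset, ∑ C2 ∈ B.powerset, f (C1 ∪ C2) := by
  rw [← Finset.sum_product']
  refine (Finset.sum_bij' (fun p _ => p.1 ∪ p.2) (fun C _ => (C ∩ A, C ∩ B)) ?_ ?_ ?_ ?_ ?_).symm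
  · rintro ⟨C1, C2⟩ h
    simp only [mem_product, mem_powerset] at h ⊢
    exact union_subset_union h.1 h.2
  · intro C hC
    simp only [mem_product, mem_powerset]
    exact ⟨inter_subset_right, inter_subset_right⟩
  · rintro ⟨C1, C2⟩ h
    simp only [mem_product, mem_powerset] at h
    ext a
    · simp only [mem_inter, mem_union]
      constructor
      · rintro ⟨h1 | h1, h2⟩
        · exact h1
        · exact absurd (h.2 h1) (disjoint_left.1 hd h2)
      · intro h1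
        exact ⟨Or.inl h1, h.1 h1⟩
    · simp only [mem_inter, mem_union]
      constructor
      · rintro ⟨h1 | h1, h2⟩
        · exact absurd h2 (disjoint_left.1 hd (h.1 h1))
        · exact h1
      · intro h1
        exact ⟨Or.inr h1, h.2 h1⟩
  · intro C hC
    rw [mem_powerset] at hC
    ext a
    simp only [mem_inter, mem_union]
    constructor
    · rintro (⟨h1, -⟩ | ⟨h1, -⟩) <;> exact h1
    · intro h1
      rcases mem_union.1 (hC h1) with h2 | h2
      · exact Or.inl ⟨h1, h2⟩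
      · exact Or.inr ⟨h1, h2⟩
  · intro p _
    rfl

theorem ZIND_neg (s0 : ℂ) (n : ℕ) {R : RatFunc ℂ} (h : H37.SM.Reg s0 R) :
    H37.SM.Reg s0 ((-1) ^ n * R) := by
  rcases Nat.even_or_odd n with hn | hn
  · rw [hn.neg_one_pow, one_mul]
    exact h
  · rw [hn.neg_one_pow, neg_one_mul]
    exact h.neg

section
variable {Ω E : Type} [Fintype Ω] [DecidableEq Ω] {s0 : ℂ} {J : Finset Ω → RatFunc ℂ}
  {S Vt : Finset Ω} {x : Ω → E → ℤ} {𝓕 : Finset Ω → Prop}

/-- ZIND -/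
theorem zind (hmono : ∀ X Y, X ⊆ Y → 𝓕 Y → 𝓕 X) (hS : ∀ X, 𝓕 X → 𝓕 (X ∪ S))
    (hJ : ∀ X, ¬ 𝓕 X → J X = 0)
    (hrel : ∀ X k, (∀ ω ∈ X, x ω k = 0) →
      H37.SM.Reg s0 (J X - ∑ ω ∈ univ \ X, (x ω k : RatFunc ℂ) * J (insert ω X)))
    (hapS : ∀ Y, S ⊆ Y → 𝓕 Y → ∀ b k, Ap x Vt Y b k → b ∈ S)
    (H : ∀ Y, S ⊆ Y → 𝓕 Y → ∃ b k, Ap x Vt Y b k ∧ ∀ k', Ap x Vt Y b k' → k' = k)
    (X : Finset Ω) (hX : 𝓕 X) (hX0 : ∀ b ∈ X, b ∉ apex x Vt (X ∪ S)) :
    H37.SM.Reg s0 (∑ B ∈ (apex x Vt (X ∪ S)).powerset, (-1) ^ B.card * J (X ∪ B)) := by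
  induction hn : (univ \ (X ∪ S)).card using Nat.strong_induction_on generalizing X with
  | _ n ih =>
  have hY : 𝓕 (X ∪ S) := hS X hX
  have hSY : S ⊆ X ∪ S := subset_union_right
  obtain ⟨b0, k0, hAp, huniq⟩ := H (X ∪ S) hSY hY
  have hb0S : b0 ∈ S := hapS _ hSY hY b0 k0 hAp
  have hb0P : b0 ∈ apex x Vt (X ∪ S) := mem_apex.2 ⟨k0, hAp⟩
  have hb0X : b0 ∉ X := fun h => hX0 b0 h hb0P
  have hPS : apex x Vt (X ∪ S) ⊆ S := by
    intro b hb
    obtain ⟨k, hk⟩ := mem_apex.1 hb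
    exact hapS _ hSY hY b k hk
  set P := apex x Vt (X ∪ S) with hP
  set P' := P.erase b0 with hP'
  have hins : P = insert b0 P' := (insert_erase hb0P).symm
  have hb0P' : b0 ∉ P' := notMem_erase _ _
  -- the regular rests
  have hB : ∀ B ∈ P'.powerset, H37.SM.Reg s0 (J (X ∪ B) - J (X ∪ insert b0 B) -
      ∑ ω ∈ univ \ (X ∪ S), (x ω k0 : RatFunc ℂ) * J (insert ω (X ∪ B))) := by
    intro B hBm
    have hBP' : B ⊆ P' := mem_powerset.1 hBm
    have hBS : B ⊆ S := (hBP'.trans (erase_subset _ _)).trans hPS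
    have hXB : X ∪ B ⊆ X ∪ S := union_subset_union_right hBS
    have hb0B : b0 ∉ X ∪ B := by
      rw [mem_union]
      rintro (h | h)
      · exact hb0X h
      · exact hb0P' (hBP' h)
    have hz : ∀ ω ∈ X ∪ S, ω ≠ b0 → x ω k0 = 0 := hAp.2.2.2
    have h1 := hrel (X ∪ B) k0 (fun ω hω => hz ω (hXB hω) (fun h => hb0B (h ▸ hω)))
    have h2 : ∑ ω ∈ univ \ (X ∪ B), (x ω k0 : RatFunc ℂ) * J (insert ω (X ∪ B)) =
        J (X ∪ insert b0 B) +
          ∑ ω ∈ univ \ (X ∪ S), (x ω k0 : RatFunc ℂ) * J (insert ω (X ∪ B)) := by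
      have hb0n : b0 ∉ univ \ (X ∪ S) := by
        simp only [mem_sdiff, mem_univ, true_and, not_not]
        exact hSY hb0S
      have h3 : insert b0 (univ \ (X ∪ S)) ⊆ univ \ (X ∪ B) := by
        intro ω hω
        rw [mem_insert] at hω
        rcases hω with rfl | hω
        · exact mem_sdiff.2 ⟨mem_univ _, hb0B⟩
        · exact mem_sdiff.2 ⟨mem_univ _, fun h => (mem_sdiff.1 hω).2 (hXB h)⟩
      rw [← Finset.sum_subset h3, Finset.sum_insert hb0n, hAp.2.2.1]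
      · rw [Int.cast_one, one_mul]
        congr 2
        ext a
        simp only [mem_insert, mem_union]
        tauto
      · intro ω _ hω
        rw [mem_insert, not_or] at hω
        have h4 : ω ∈ X ∪ S := by
          by_contra h5
          exact hω.2 (mem_sdiff.2 ⟨mem_univ _, h5⟩)
        rw [hz ω h4 hω.1, Int.cast_zero, zero_mul]
    rw [h2] at h1
    have h5 : J (X ∪ B) - J (X ∪ insert b0 B) -
        ∑ ω ∈ univ \ (X ∪ S), (x ω k0 : RatFunc ℂ) * J (insert ω (X ∪ B)) =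
        J (X ∪ B) - (J (X ∪ insert b0 B) +
          ∑ ω ∈ univ \ (X ∪ S), (x ω k0 : RatFunc ℂ) * J (insert ω (X ∪ B))) := by ring
    rw [h5]
    exact h1
  -- the inner sums
  have hω : ∀ ω ∈ univ \ (X ∪ S), H37.SM.Reg s0 ((x ω k0 : RatFunc ℂ) *
      ∑ B ∈ P'.powerset, (-1) ^ B.card * J (insert ω (X ∪ B))) := by
    intro ω hωm
    have hωY : ω ∉ X ∪ S := (mem_sdiff.1 hωm).2
    by_cases hx0 : x ω k0 = 0
    · rw [hx0, Int.cast_zero, zero_mul]
      exact H37.SM.reg_zero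
    refine (H37.SM.reg_intCast _).mul ?_
    have hSY' : S ⊆ insert ω (X ∪ S) := hSY.trans (subset_insert _ _)
    by_cases hF : 𝓕 (insert ω (X ∪ S))
    · have hP''P' : apex x Vt (insert ω (X ∪ S)) ⊆ P' := by
        intro b hb
        obtain ⟨k, hk⟩ := mem_apex.1 hb
        have hbS := hapS _ hSY' hF b k hk
        have hApY : Ap x Vt (X ∪ S) b k :=
          ⟨hSY hbS, hk.2.1, hk.2.2.1, fun ω' h1 h2 => hk.2.2.2 ω' (mem_insert_of_mem h1) h2⟩
        rw [hP', mem_erase]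
        refine ⟨?_, mem_apex.2 ⟨k, hApY⟩⟩
        rintro rfl
        have hk0 := huniq k hApY
        subst hk0
        exact hx0 (hk.2.2.2 ω (mem_insert_self _ _) (fun h => hωY (h ▸ hSY hb0S)))
      set P'' := apex x Vt (insert ω (X ∪ S)) with hP''
      have hsplit : P' = (P' \ P'') ∪ P'' := (sdiff_union_of_subset hP''P').symm
      rw [hsplit, ZIND_split _ _ sdiff_disjoint]
      refine H37.SM.Reg.sum _ _ fun B1 hB1 => ?_
      have hB1s : B1 ⊆ P' \ P'' := mem_powerset.1 hB1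
      have hB1S : B1 ⊆ S :=
        ((hB1s.trans sdiff_subset).trans (erase_subset _ _)).trans hPS
      have hXS : insert ω (X ∪ B1) ∪ S = insert ω (X ∪ S) := by
        ext a
        simp only [mem_insert, mem_union]
        constructor
        · rintro ((h | h | h) | h)
          · exact Or.inl h
          · exact Or.inr (Or.inl h)
          · exact Or.inr (Or.inr (hB1S h))
          · exact Or.inr (Or.inr h)
        · rintro (h | h | h)
          · exact Or.inl (Or.inl h)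
          · exact Or.inl (Or.inr (Or.inl h))
          · exact Or.inr h
      have hlt : (univ \ (insert ω (X ∪ B1) ∪ S)).card < n := by
        rw [hXS, ← hn]
        apply card_lt_card
        rw [ssubset_iff_of_subset (sdiff_subset_sdiff subset_rfl (subset_insert _ _))]
        exact ⟨ω, hωm, fun h => (mem_sdiff.1 h).2 (mem_insert_self _ _)⟩
      have hih := ih _ hlt (insert ω (X ∪ B1))
        (hmono _ _ (insert_subset_insert _ (union_subset_union_right hB1S)) hF)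
        (by
          intro b hb
          rw [hXS, ← hP'']
          intro hbP
          rw [mem_insert, mem_union] at hb
          rcases hb with rfl | hb | hb
          · exact hωY (hSY (hPS (mem_of_mem_erase (hP''P' hbP))))
          · exact hX0 b hb (mem_of_mem_erase (hP''P' hbP))
          · exact (mem_sdiff.1 (hB1s hb)).2 hbP) rfl
      rw [hXS, ← hP''] at hih
      have hsum : ∑ C2 ∈ P''.powerset, (-1 : RatFunc ℂ) ^ (B1 ∪ C2).card *
          J (insert ω (X ∪ (B1 ∪ C2))) = (-1) ^ B1.card *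
          ∑ B ∈ P''.powerset, (-1) ^ B.card * J (insert ω (X ∪ B1) ∪ B) := by
        rw [mul_sum]
        refine sum_congr rfl fun C2 hC2 => ?_
        have hd : Disjoint B1 C2 := by
          rw [disjoint_left]
          intro a ha ha2
          exact (mem_sdiff.1 (hB1s ha)).2 (mem_powerset.1 hC2 ha2)
        have he : insert ω (X ∪ (B1 ∪ C2)) = insert ω (X ∪ B1) ∪ C2 := by
          ext a
          simp only [mem_insert, mem_union]
          tauto
        rw [card_union_of_disjoint hd, he, pow_add, mul_assoc]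
      rw [hsum]
      exact ZIND_neg s0 _ hih
    · have h0 : ∑ B ∈ P'.powerset, (-1 : RatFunc ℂ) ^ B.card * J (insert ω (X ∪ B)) = 0 := by
        refine sum_eq_zero fun B _ => ?_
        rw [hJ, mul_zero]
        intro hF2
        refine hF (hmono _ _ ?_ (hS _ hF2))
        intro a ha
        simp only [mem_insert, mem_union] at ha ⊢
        tauto
      rw [h0]
      exact H37.SM.reg_zero
  -- assembly
  have hfin : ∑ B ∈ P.powerset, (-1 : RatFunc ℂ) ^ B.card * J (X ∪ B) =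
      ∑ B ∈ P'.powerset, (-1) ^ B.card * (J (X ∪ B) - J (X ∪ insert b0 B) -
        ∑ ω ∈ univ \ (X ∪ S), (x ω k0 : RatFunc ℂ) * J (insert ω (X ∪ B))) +
      ∑ ω ∈ univ \ (X ∪ S), (x ω k0 : RatFunc ℂ) *
        ∑ B ∈ P'.powerset, (-1) ^ B.card * J (insert ω (X ∪ B)) := by
    have e1 : ∑ ω ∈ univ \ (X ∪ S), (x ω k0 : RatFunc ℂ) *
        ∑ B ∈ P'.powerset, (-1) ^ B.card * J (insert ω (X ∪ B)) =
        ∑ B ∈ P'.powerset, (-1) ^ B.card *
          ∑ ω ∈ univ \ (X ∪ S), (x ω k0 : RatFunc ℂ) * J (insert ω (X ∪ B)) := by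
      simp only [mul_sum]
      rw [sum_comm]
      refine sum_congr rfl fun B _ => sum_congr rfl fun ω _ => ?_
      ring
    rw [e1, ← sum_add_distrib, hins, sum_powerset_insert hb0P', ← sum_add_distrib]
    refine sum_congr rfl fun B hBm => ?_
    have hb : b0 ∉ B := fun h => hb0P' (mem_powerset.1 hBm h)
    rw [card_insert_of_notMem hb, pow_succ]
    ring
  rw [hfin]
  refine (H37.SM.Reg.sum _ _ fun B hBm => ZIND_neg s0 _ (hB B hBm)).add
    (H37.SM.Reg.sum _ _ hω)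

end

end Pool.Agent.H37.T5
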