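import Pool.Agent.H37.T5.ZDefs

/-!
# ZHTA: generic heights with finitely many linear inequalities

Proof.  All conditions (1), (2), (3) are finitely many strict linear inequalities in `h`: in (2), (3) only independent `σ` with `v e` resp. `v l` in their span matter and then `β` on `σ` is unique (`coeff_unique`): choose it once for every such pair.  They are satisfied by `h1 = 0` on `P`, `h1 i = 1` for `i` not in `P`, `i ≠ e`, and `h1 e = H` large:
(1) left side `0`, right side `≥ ε t > 0`; (2) `H > ∑ |β|`; (3) `β e < 0`: `β e H + ∑ |β| < 0 ≤ h1 l` for `H` large.  The set `U` of these `h` is open, nonempty; the genericity of `h` for `v` and for `v'` means that `h` avoids finitely many proper subspaces (one for every independent `σ` and `l ∉ σ` with `v l` in the span of `σ`; see the proof of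
`H60.RegTri.exists_generic`): `H60.RegTri.exists_avoid`.
-/

set_option autoImplicit false

namespace Pool.Agent.H37.T5

open Finset H60.RegTri

/-- Genericity as avoiding finitely many proper subspaces. -/
theorem ZHTA_sub {ι κ : Type} [DecidableEq ι] (v : ι → κ → ℝ) :
    ∃ P : Finset ι × ι → Submodule ℝ (ι → ℝ), (∀ p, P p ≠ ⊤) ∧
      ∀ h : ι → ℝ, (∀ p, h ∉ P p) → ∀ τ, GenericOn v h τ := by
  let P : Finset ι × ι → Submodule ℝ (ι → ℝ) := fun p =>
    LinearMap.ker ((LinearMap.proj p.2 : (ι → ℝ) →ₗ[ℝ] ℝ)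
      - ∑ i ∈ p.1.erase p.2, cf v p.1 (v p.2) i • (LinearMap.proj i : (ι → ℝ) →ₗ[ℝ] ℝ))
  refine ⟨P, ?_, ?_⟩
  · intro p htop
    have h1 : (Pi.single p.2 1 : ι → ℝ) ∈ P p := by rw [htop]; trivial
    rw [LinearMap.mem_ker] at h1
    simp only [LinearMap.sub_apply, LinearMap.proj_apply, Pi.single_eq_same,
      LinearMap.sum_apply, LinearMap.smul_apply, smul_eq_mul] at h1
    have h2 : ∑ i ∈ p.1.erase p.2, cf v p.1 (v p.2) i * (Pi.single p.2 (1 : ℝ) : ι → ℝ) i = 0 := by
      refine Finset.sum_eq_zero fun i hi => ?_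
      rw [Pi.single_eq_of_ne (Finset.ne_of_mem_erase hi), mul_zero]
    rw [h2] at h1
    norm_num at h1
  · intro h hh τ σ _ hσ l _ hl β hβ heq
    refine hh (σ, l) ?_
    rw [LinearMap.mem_ker]
    simp only [LinearMap.sub_apply, LinearMap.proj_apply, LinearMap.sum_apply,
      LinearMap.smul_apply, smul_eq_mul]
    rw [Finset.erase_eq_of_notMem hl, heq, sub_eq_zero]
    refine Finset.sum_congr rfl fun i hi => ?_
    rw [cf_eq hσ β hβ hi]

/-- ZHTA -/
theorem zhta {ι κ κ' J : Type} [Fintype ι] [DecidableEq ι] [Fintype κ] [Fintype κ'] [Fintype J]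
    (v : ι → κ → ℝ) (v' : ι → κ' → ℝ) (e : ι) (P : ι → Prop) (he : ¬ P e)
    (C : J → Finset ι) (hC : ∀ t, ∀ c ∈ C t, P c) (u : J → ι) (hu : ∀ t, ¬ P (u t))
    (ε : J → ℝ) (hε : ∀ t, 0 < ε t) (y : J → ι → ℝ) (hy : ∀ t i, 0 ≤ y t i) :
    ∃ h : ι → ℝ, (∀ τ, GenericOn v h τ) ∧ (∀ τ, GenericOn v' h τ) ∧
      (∀ t, ∑ c ∈ C t, h c < ε t * h (u t) + ∑ i, y t i * h i) ∧
      (∀ σ : Finset ι, e ∉ σ → LinearIndepOn ℝ v (σ : Set ι) → ∀ β : ι → ℝ,
        v e = ∑ i ∈ σ, β i • v i → ∑ i ∈ σ, β i * h i < h e) ∧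
      (∀ σ : Finset ι, e ∈ σ → LinearIndepOn ℝ v (σ : Set ι) → ∀ l, l ∉ σ → ∀ β : ι → ℝ,
        v l = ∑ i ∈ σ, β i • v i → β e < 0 → ∑ i ∈ σ, β i * h i < h l) := by
  classical
  obtain ⟨P1, hP1, hP1'⟩ := ZHTA_sub v
  obtain ⟨P2, hP2, hP2'⟩ := ZHTA_sub v'
  let U : Set (ι → ℝ) := {h | (∀ t, ∑ c ∈ C t, h c < ε t * h (u t) + ∑ i, y t i * h i) ∧
    (∀ σ : Finset ι, e ∉ σ → ∑ i ∈ σ, cf v σ (v e) i * h i < h e) ∧
    (∀ p : Finset ι × ι, e ∈ p.1 → p.2 ∉ p.1 → cf v p.1 (v p.2) e < 0 →
      ∑ i ∈ p.1, cf v p.1 (v p.2) i * h i < h p.2)}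
  have hU : IsOpen U := by
    have hUe : U = (⋂ t, {h : ι → ℝ | ∑ c ∈ C t, h c < ε t * h (u t) + ∑ i, y t i * h i}) ∩
        ((⋂ σ : Finset ι, {h : ι → ℝ | e ∉ σ → ∑ i ∈ σ, cf v σ (v e) i * h i < h e}) ∩
        (⋂ p : Finset ι × ι, {h : ι → ℝ | e ∈ p.1 → p.2 ∉ p.1 → cf v p.1 (v p.2) e < 0 →
          ∑ i ∈ p.1, cf v p.1 (v p.2) i * h i < h p.2})) := by
      ext h
      simp only [U, Set.mem_setOf_eq, Set.mem_inter_iff, Set.mem_iInter]
    rw [hUe]
    refine (isOpen_iInter_of_finite fun t => ?_).inter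
      ((isOpen_iInter_of_finite fun σ => ?_).inter (isOpen_iInter_of_finite fun p => ?_))
    · exact isOpen_lt (by fun_prop) (by fun_prop)
    · by_cases h1 : e ∉ σ
      · simp only [h1, not_false_eq_true, true_imp_iff]
        exact isOpen_lt (by fun_prop) (by fun_prop)
      · simp [h1]
    · by_cases h1 : e ∈ p.1
      · by_cases h2 : p.2 ∉ p.1
        · by_cases h3 : cf v p.1 (v p.2) e < 0
          · simp only [h1, h2, h3, not_false_eq_true, true_imp_iff]
            exact isOpen_lt (by fun_prop) (by fun_prop)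
          · simp [h3]
        · simp [h2]
      · simp [h1]
  have hUne : U.Nonempty := by
    let T : Finset ι × ι → ℝ := fun p => ∑ i ∈ p.1, |cf v p.1 (v p.2) i|
    let R : Finset ι × ι → ℝ := fun p => T p * (1 + |cf v p.1 (v p.2) e|⁻¹)
    have hT : ∀ p, 0 ≤ T p := fun p => Finset.sum_nonneg fun i _ => abs_nonneg _
    have hR : ∀ p, 0 ≤ R p := fun p =>
      mul_nonneg (hT p) (add_nonneg zero_le_one (inv_nonneg.2 (abs_nonneg _)))
    let H : ℝ := 1 + ∑ p, R p
    have hH : ∀ p, R p < H := by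
      intro p
      have h1 := Finset.single_le_sum (f := R) (fun q _ => hR q) (Finset.mem_univ p)
      have h2 : H = 1 + ∑ p, R p := rfl
      linarith
    have hH1 : 1 ≤ H := by
      have h1 : 0 ≤ ∑ p, R p := Finset.sum_nonneg fun q _ => hR q
      have h2 : H = 1 + ∑ p, R p := rfl
      linarith
    have hTR : ∀ p, T p ≤ R p := by
      intro p
      have h1 : T p * 1 ≤ T p * (1 + |cf v p.1 (v p.2) e|⁻¹) :=
        mul_le_mul_of_nonneg_left (by
          have := inv_nonneg.2 (abs_nonneg (cf v p.1 (v p.2) e))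
          linarith) (hT p)
      linarith
    let h1 : ι → ℝ := fun i => if i = e then H else if P i then 0 else 1
    have hhe : h1 e = H := if_pos rfl
    have hhP : ∀ i, P i → h1 i = 0 := by
      intro i hi
      have h2 : i ≠ e := by rintro rfl; exact he hi
      simp only [h1, if_neg h2, if_pos hi]
    have hhn : ∀ i, ¬ P i → 1 ≤ h1 i := by
      intro i hi
      by_cases h2 : i = e
      · simp only [h1, if_pos h2]; exact hH1
      · simp only [h1, if_neg h2, if_neg hi]; exact le_refl _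
    have hh0 : ∀ i, 0 ≤ h1 i := by
      intro i
      by_cases hi : P i
      · rw [hhP i hi]
      · exact zero_le_one.trans (hhn i hi)
    have hh1 : ∀ i, i ≠ e → h1 i ≤ 1 := by
      intro i hi
      by_cases h2 : P i
      · rw [hhP i h2]; exact zero_le_one
      · simp only [h1, if_neg hi, if_neg h2]; exact le_refl _
    have hb : ∀ i, i ≠ e → ∀ b : ℝ, b * h1 i ≤ |b| := by
      intro i hi b
      calc b * h1 i ≤ |b| * h1 i := mul_le_mul_of_nonneg_right (le_abs_self b) (hh0 i)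
        _ ≤ |b| * 1 := mul_le_mul_of_nonneg_left (hh1 i hi) (abs_nonneg b)
        _ = |b| := mul_one _
    refine ⟨h1, ?_, ?_, ?_⟩
    · intro t
      rw [Finset.sum_eq_zero (fun c hc => hhP c (hC t c hc))]
      have h2 : 0 < ε t * h1 (u t) := mul_pos (hε t) (zero_lt_one.trans_le (hhn _ (hu t)))
      have h3 : 0 ≤ ∑ i, y t i * h1 i :=
        Finset.sum_nonneg fun i _ => mul_nonneg (hy t i) (hh0 i)
      linarith
    · intro σ hσ
      have h2 : ∑ i ∈ σ, cf v σ (v e) i * h1 i ≤ T (σ, e) :=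
        Finset.sum_le_sum fun i hi => hb i (by rintro rfl; exact hσ hi) _
      have h3 := hTR (σ, e)
      have h4 := hH (σ, e)
      rw [hhe]
      linarith
    · intro p hp1 hp2 hp3
      rw [← Finset.add_sum_erase _ _ hp1, hhe]
      have h2 : ∑ i ∈ p.1.erase e, cf v p.1 (v p.2) i * h1 i ≤ T p := by
        calc ∑ i ∈ p.1.erase e, cf v p.1 (v p.2) i * h1 i
            ≤ ∑ i ∈ p.1.erase e, |cf v p.1 (v p.2) i| :=
              Finset.sum_le_sum fun i hi => hb i (Finset.ne_of_mem_erase hi) _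
          _ ≤ T p := Finset.sum_le_sum_of_subset_of_nonneg (Finset.erase_subset _ _)
              (fun i _ _ => abs_nonneg _)
      set b := cf v p.1 (v p.2) e with hbdef
      have h3 : b * H < - T p := by
        have h4 : T p * |b|⁻¹ < H := by
          have h5 : T p * |b|⁻¹ ≤ R p := by
            have h6 : R p = T p * (1 + |b|⁻¹) := rfl
            rw [h6]
            have := hT p
            linarith
          exact h5.trans_lt (hH p)
        have h7 : 0 < |b| := abs_pos.2 hp3.ne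
        have h8 : |b| = - b := abs_of_neg hp3
        have h9 : |b| * (T p * |b|⁻¹) < |b| * H := mul_lt_mul_of_pos_left h4 h7
        have h10 : |b| * (T p * |b|⁻¹) = T p := by
          field_simp
        rw [h10, h8] at h9
        linarith
      have h11 := hh0 p.2
      linarith
  obtain ⟨h, hhU, hh⟩ := exists_avoid (Sum.elim P1 P2)
    (by rintro (p | p); exacts [hP1 p, hP2 p]) U hU hUne
  refine ⟨h, hP1' h (fun p => hh (Sum.inl p)), hP2' h (fun p => hh (Sum.inr p)), hhU.1, ?_, ?_⟩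
  · intro σ hσ hi β hβ
    have h1 := hhU.2.1 σ hσ
    rw [Finset.sum_congr rfl (fun i his => by rw [cf_eq hi β hβ his])] at h1
    exact h1
  · intro σ hσ hi l hl β hβ hb
    have h1 := hhU.2.2 (σ, l) hσ hl (by rw [cf_eq hi β hβ hσ]; exact hb)
    simp only at h1
    rw [Finset.sum_congr rfl (fun i his => by rw [cf_eq hi β hβ his])] at h1
    exact h1

end Pool.Agent.H37.T5
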