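import Pool.Agent.H56.SMC.CfgDefs

/-!
# Simplicial faces: definitions shared by the root side and the zeta side
-/

set_option autoImplicit false

namespace Pool.Agent.H37.T5

open Finset
open Pool.Agent.H56.SMC

/-- `(0, e_j)` in `ℝ^{1+n}`. -/
noncomputable def eR {n : ℕ} (j : Fin n) : Unit ⊕ Fin n → ℝ :=
  Sum.elim (fun _ => 0) (Pi.single j 1)

/-- `p0 = (|w|/N(w); 1, …, 1)`. -/
noncomputable def p0R {n r : ℕ} (a : Fin r → (Fin n →₀ ℕ)) (w : Fin n → ℕ) : Unit ⊕ Fin n → ℝ :=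
  Sum.elim (fun _ => (H22.wsum w : ℝ) / (H22.wmin a w : ℝ)) (fun _ => 1)

/-- The exponents on the face of `w` (`N(w) > 0`) lie in the simplex spanned by `σ`; the vectors
`(1, a_b)`, `b ∈ σ`, and `(0, e_j)`, `w_j = 0`, are linearly independent and `p0` lies in their
span. -/
structure FD {n r : ℕ} (a : Fin r → (Fin n →₀ ℕ)) (w : Fin n → ℕ) (σ : Finset (Fin r)) :
    Prop where
  pos : 0 < H22.wmin a w
  on : ∀ b ∈ σ, ∑ j, a b j * w j = H22.wmin a w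
  ind : LinearIndependent ℝ (Sum.elim (fun b : σ => H22.rowR a b.1)
    (fun j : {j : Fin n // w j = 0} => (eR j.1 : Unit ⊕ Fin n → ℝ)))
  conv : ∀ i, ∑ j, a i j * w j = H22.wmin a w →
    H22.pointR a i ∈ convexHull ℝ (H22.pointR a '' (σ : Set (Fin r)))
  span : p0R a w ∈ Submodule.span ℝ ({y | ∃ b ∈ σ, y = H22.rowR a b} ∪ {y | ∃ j, w j = 0 ∧ y = eR j})

/-- `j` is an apex direction of `b`. -/
def ApexD {n r : ℕ} (a : Fin r → (Fin n →₀ ℕ)) (w : Fin n → ℕ) (σ : Finset (Fin r)) (b : Fin r)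
    (j : Fin n) : Prop :=
  b ∈ σ ∧ w j ≠ 0 ∧ a b j = 1 ∧ ∀ b' ∈ σ, b' ≠ b → a b' j = 0

/-- Some `b ∈ σ` has exactly one apex direction. -/
def UB {n r : ℕ} (a : Fin r → (Fin n →₀ ℕ)) (w : Fin n → ℕ) (σ : Finset (Fin r)) : Prop :=
  ∃ b j, ApexD a w σ b j ∧ ∀ j', ApexD a w σ b j' → j' = j

/-- The face of `w` is a simplex (modulo the directions `e_j`, `w_j = 0`), possibly with further
exponents inside. -/
def SimpF {n r : ℕ} (a : Fin r → (Fin n →₀ ℕ)) (w : Fin n → ℕ) : Prop :=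
  ∃ σ : Finset (Fin r), σ.card = supCard w ∧ (∀ b ∈ σ, ∑ j, a b j * w j = H22.wmin a w) ∧
    ∀ i, ∑ j, a i j * w j = H22.wmin a w →
      H22.pointR a i ∈ convexHull ℝ (H22.pointR a '' (σ : Set (Fin r)))

end Pool.Agent.H37.T5
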