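import Pool.Agent.H56.SMC.Basic
import Pool.Agent.H56.SMC.CfgDefs

/-!
# Mixed supports

A family `ℓ_k`, `k : Fin s`, of functionals (the operators used are `D_k = Dop p a c (ℓ k)`), a set
`P` of indices (the directions without logarithmic poles).  Components: index sets `K`;
`LL ℓ P K = {u : ℓ_i(u) ≥ -1 for i ∈ P, and ℓ_i(u) ≥ 0 for i ∈ P, i ∉ K}`.
-/

set_option autoImplicit false

namespace Pool.Agent.H37.T5

open Finset AddMonoidAlgebra
open Pool.Agent.H56.SMC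

/-- The lattice points allowed in the components with index set `K`. -/
def LL {d s : ℕ} (ℓ : Fin s → Lat d) (P K : Finset (Fin s)) : Set (Lat d) :=
  {u | ∀ i ∈ P, -1 ≤ dt (ℓ i) u ∧ (i ∉ K → 0 ≤ dt (ℓ i) u)}

section
variable {R : Type} [CommRing R] {d s : ℕ} {ι : Type} [Fintype ι]

/-- `x = ∑_k D_k z_k` with `z_k` supported in `S` and allowed for the component `k`. -/
def ExL (p : Fin d → R) (a : ι → Lat d) (c : ι → R) (ℓ : Fin s → Lat d) (P : Finset (Fin s))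
    (S : Set (Lat d)) (x : LP R d) : Prop :=
  ∃ z : Fin s → LP R d, (∀ k, Supp (S ∩ LL ℓ P {k}) (z k)) ∧
    x = ∑ k, Dop p a c (ℓ k) (z k)

/-- Exactness at `H_1` of the mixed complex of the symbols. -/
def KExactL (a : ι → Lat d) (c : ι → R) (ℓ : Fin s → Lat d) (P : Finset (Fin s))
    (S : Set (Lat d)) : Prop :=
  ∀ r : Fin s → LP R d, (∀ k, Supp (S ∩ LL ℓ P {k}) (r k)) → ∑ k, gs a c (ℓ k) * r k = 0 →
    ∃ y : Fin s → Fin s → LP R d, (∀ k l, Supp (S ∩ LL ℓ P {k, l}) (y k l)) ∧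
      (∀ k l, y k l = -y l k) ∧ ∀ k, r k = ∑ l, gs a c (ℓ l) * y k l

end

end Pool.Agent.H37.T5
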