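import Pool.Agent.H37.T5.FDefs
import Pool.Agent.H56.T5.RTH

/-!
# Theorem R
-/

set_option autoImplicit false

namespace Pool.Agent.H37.T5

open Finset
open Pool.Agent.H56.SMC

/-- Theorem R -/
theorem rootS {n r : ℕ} (a : Fin r → (Fin n →₀ ℕ)) (ha : Function.Injective a)
    (κ : Fin r → ℂ) (hκ : ∀ i, κ i ≠ 0) (hnd : Nondeg a κ)
    (b : Polynomial ℂ) (P : H22.WeylS n) (hfe : H22.FunctionalEquation (fpoly a κ) b P)
    (w : Fin n → ℕ) (σ : Finset (Fin r)) (hF : FD a w σ) (hs : H22.wsum w ≠ H22.wmin a w)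
    (hU : ¬ UB a w σ) : b.IsRoot (-(H22.wsum w : ℂ) / (H22.wmin a w : ℂ)) :=
  Pool.Agent.H56.T5.rth a κ hnd b P hfe w σ hF hs hU

end Pool.Agent.H37.T5
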