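import Pool.Agent.H37.T5.ZHTA

/-!
# ZHTB: the heights

Proof.  `zhta` with `P i = IsCr A B s0 (v i)`, `J` = the pairs `(C, u)`, `C` a set of critical rays, `u` not critical, such that every `φ_ω` vanishing on `C` vanishes at `u` (a subtype of `Finset ι × ι`, classical `Fintype`), and `ε`, `y` chosen as follows: `p = ∑_{c∈C} v c`; `φ_ω(p) = 0` implies `φ_ω(v c) = 0` for all `c ∈ C` (`nn`), so `φ_ω(v u) = 0`; hence
for small `ε > 0` all `φ_ω(p - ε v_u) ≥ 0` (finitely many `ω`), and `hZ.gen` gives `p - ε v_u = ∑ y_i v_i`, `y ≥ 0`.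
-/

set_option autoImplicit false

namespace Pool.Agent.H37.T5

open Finset H60.RegTri

variable {ι κ Ω : Type} [Fintype ι] [DecidableEq ι] [Fintype κ] [Fintype Ω] [DecidableEq Ω]
  {v : ι → κ → ℤ} {φ : Ω → κ → ℤ} {A B : κ → ℤ} {s0 : ℂ}

/-- The property of the heights which separates the critical rays from the others. -/
def Pull (v : ι → κ → ℤ) (φ : Ω → κ → ℤ) (A B : κ → ℤ) (s0 : ℂ) (h : ι → ℝ) : Prop :=
  ∀ C : Finset ι, (∀ c ∈ C, IsCr A B s0 (v c)) → ∀ u, ¬ IsCr A B s0 (v u) →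
    (∀ ω, (∀ c ∈ C, pr (φ ω) (v c) = 0) → pr (φ ω) (v u) = 0) →
    ∃ (ε : ℝ) (y : ι → ℝ), 0 < ε ∧ (∀ i, 0 ≤ y i) ∧
      ∑ c ∈ C, vR v c = ε • vR v u + ∑ i, y i • vR v i ∧
      ∑ c ∈ C, h c < ε * h u + ∑ i, y i * h i

omit [Fintype ι] [DecidableEq ι] in
theorem ZHTB_prR_vR (x : κ → ℤ) (i : ι) : prR x (vR v i) = (pr x (v i) : ℝ) := by
  simp [prR, vR, pr]

omit [Fintype ι] [DecidableEq ι] in
theorem ZHTB_prR_sum (x : κ → ℤ) (C : Finset ι) :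
    prR x (∑ c ∈ C, vR v c) = ((∑ c ∈ C, pr x (v c) : ℤ) : ℝ) := by
  push_cast
  simp_rw [← ZHTB_prR_vR, prR, Finset.sum_apply, Finset.mul_sum]
  exact Finset.sum_comm

theorem ZHTB_prR_sub (x : κ → ℤ) (y z : κ → ℝ) : prR x (y - z) = prR x y - prR x z := by
  simp [prR, mul_sub, Finset.sum_sub_distrib]

theorem ZHTB_prR_smul (x : κ → ℤ) (c : ℝ) (y : κ → ℝ) : prR x (c • y) = c * prR x y := by
  simp only [prR, Pi.smul_apply, smul_eq_mul, Finset.mul_sum]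
  exact Finset.sum_congr rfl fun i _ => by ring

omit [DecidableEq ι] [DecidableEq Ω] in
theorem ZHTB_exists (hZ : ZS v φ A B s0) (C : Finset ι) (u : ι)
    (hu : ∀ ω, (∀ c ∈ C, pr (φ ω) (v c) = 0) → pr (φ ω) (v u) = 0) :
    ∃ (ε : ℝ) (y : ι → ℝ), 0 < ε ∧ (∀ i, 0 ≤ y i) ∧
      ∑ c ∈ C, vR v c = ε • vR v u + ∑ i, y i • vR v i := by
  have hN : 0 ≤ ∑ ω, pr (φ ω) (v u) := Finset.sum_nonneg fun ω _ => hZ.nn u ω
  have hNR : (0 : ℝ) ≤ ((∑ ω, pr (φ ω) (v u) : ℤ) : ℝ) := by exact_mod_cast hN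
  set N : ℝ := 1 + ((∑ ω, pr (φ ω) (v u) : ℤ) : ℝ) with hNdef
  have hNpos : 0 < N := by linarith
  have hgen := hZ.gen (∑ c ∈ C, vR v c - N⁻¹ • vR v u) (by
    intro ω
    rw [ZHTB_prR_sub, ZHTB_prR_smul, ZHTB_prR_sum, ZHTB_prR_vR, sub_nonneg]
    by_cases h0 : ∑ c ∈ C, pr (φ ω) (v c) = 0
    · have h1 : ∀ c ∈ C, pr (φ ω) (v c) = 0 :=
        (Finset.sum_eq_zero_iff_of_nonneg (fun c _ => hZ.nn c ω)).1 h0
      rw [hu ω h1, h0]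
      simp
    · have h1 : 0 ≤ ∑ c ∈ C, pr (φ ω) (v c) := Finset.sum_nonneg fun c _ => hZ.nn c ω
      have h2 : 1 ≤ ∑ c ∈ C, pr (φ ω) (v c) := by omega
      have h3 : (1 : ℝ) ≤ ((∑ c ∈ C, pr (φ ω) (v c) : ℤ) : ℝ) := by exact_mod_cast h2
      refine le_trans ?_ h3
      rw [inv_mul_le_iff₀ hNpos, mul_one]
      have h4 : pr (φ ω) (v u) ≤ ∑ ω, pr (φ ω) (v u) :=
        Finset.single_le_sum (f := fun ω => pr (φ ω) (v u)) (fun ω _ => hZ.nn u ω)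
          (Finset.mem_univ ω)
      have h5 : (pr (φ ω) (v u) : ℝ) ≤ ((∑ ω, pr (φ ω) (v u) : ℤ) : ℝ) := by exact_mod_cast h4
      linarith)
  obtain ⟨x, hx, hxe⟩ := hgen
  refine ⟨N⁻¹, x, inv_pos.2 hNpos, hx, ?_⟩
  rw [← hxe]
  abel

omit [DecidableEq Ω] in
/-- ZHTB -/
theorem zhtb_aux (hZ : ZS v φ A B s0) (e0 : ι) (he0 : ¬ IsCr A B s0 (v e0)) {κ' : Type} [Fintype κ']
    (v' : ι → κ' → ℝ) :
    ∃ h : ι → ℝ, (∀ τ, GenericOn (vR v) h τ) ∧ (∀ τ, GenericOn v' h τ) ∧ Pull v φ A B s0 h ∧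
      (∀ σ : Finset ι, e0 ∉ σ → LinearIndepOn ℝ (vR v) (σ : Set ι) → ∀ β : ι → ℝ,
        vR v e0 = ∑ i ∈ σ, β i • vR v i → ∑ i ∈ σ, β i * h i < h e0) := by
  classical
  let J : Type := {p : Finset ι × ι // (∀ c ∈ p.1, IsCr A B s0 (v c)) ∧ ¬ IsCr A B s0 (v p.2) ∧
    ∀ ω, (∀ c ∈ p.1, pr (φ ω) (v c) = 0) → pr (φ ω) (v p.2) = 0}
  have hJ := fun t : J => ZHTB_exists hZ t.1.1 t.1.2 t.2.2.2
  choose ε y hε hy he using hJ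
  letI : Fintype J := Fintype.ofFinite J
  obtain ⟨h, h1, h2, h3, h4, -⟩ := zhta (vR v) v' e0 (fun i => IsCr A B s0 (v i)) he0
    (fun t : J => t.1.1) (fun t c hc => t.2.1 c hc) (fun t : J => t.1.2) (fun t => t.2.2.1)
    ε hε y hy
  refine ⟨h, h1, h2, ?_, h4⟩
  intro C hC u hu hCu
  let t : J := ⟨(C, u), hC, hu, hCu⟩
  exact ⟨ε t, y t, hε t, hy t, he t, h3 t⟩

/-- ZHTB -/
theorem zhtb (hZ : ZS v φ A B s0) (e0 : ι) (he0 : ¬ IsCr A B s0 (v e0)) {κ' : Type} [Fintype κ']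
    (v' : ι → κ' → ℝ) :
    ∃ h : ι → ℝ, (∀ τ, GenericOn (vR v) h τ) ∧ (∀ τ, GenericOn v' h τ) ∧ Pull v φ A B s0 h ∧
      (∀ σ : Finset ι, e0 ∉ σ → LinearIndepOn ℝ (vR v) (σ : Set ι) → ∀ β : ι → ℝ,
        vR v e0 = ∑ i ∈ σ, β i • vR v i → ∑ i ∈ σ, β i * h i < h e0) :=
  zhtb_aux hZ e0 he0 v'

end Pool.Agent.H37.T5
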