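import Pool.Agent.H37.T5.ZLOC

/-!
# ZLAM: the expansion of `V` at a critical ray

Let `V0 j = A j + B j s0 ∈ ℂ`, `V0·v_c = 0` (`IsCr`).  `zlam`: the `|κ| - 1` functionals `φ_ω`, `ω ∈ Ω_c = {φ_ω(v_c) = 0}`, are independent over `ℝ`, hence over `ℂ` (integral vectors), and lie in `{x ∈ ℂ^κ : x·v_c = 0}`, which has dimension `|κ| - 1` (`v_c ≠ 0` by `hZ.ne`): they are a basis of it, and `V0` is in it.
`zlam_unique`: independence over `ℂ`.
`zlamsum`: `Λ·φ_ω(y)` for real `y`: pairing of the expansion with `y`.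
-/

set_option autoImplicit false

namespace Pool.Agent.H37.T5

open Finset H60.RegTri

variable {ι κ Ω : Type} [Fintype ι] [DecidableEq ι] [Fintype κ] [Fintype Ω] [DecidableEq Ω]
  {v : ι → κ → ℤ} {φ : Ω → κ → ℤ} {A B : κ → ℤ} {s0 : ℂ}

/-- `Λ` are the coefficients of an expansion of `V` at `s0`. -/
def IsLam (φ : Ω → κ → ℤ) (A B : κ → ℤ) (s0 : ℂ) (Λ : Ω → ℂ) : Prop :=
  ∀ j, (A j : ℂ) + (B j : ℂ) * s0 = ∑ ω, Λ ω * (φ ω j : ℂ)

omit [DecidableEq ι] [DecidableEq Ω] in
theorem ZLAM_cind (hZ : ZS v φ A B s0) (c : ι) (hc : IsCr A B s0 (v c)) (z : Ω → ℂ)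
    (hz : ∀ ω, z ω ≠ 0 → pr (φ ω) (v c) = 0) (h : ∀ j, ∑ ω, z ω * (φ ω j : ℂ) = 0) : z = 0 := by
  classical
  have hind := hZ.ind c hc
  have hcoe : ({ω | pr (φ ω) (v c) = 0} : Set Ω)
      = ((univ.filter (fun ω => pr (φ ω) (v c) = 0) : Finset Ω) : Set Ω) := by
    ext ω; simp
  rw [hcoe, linearIndepOn_finset_iff] at hind
  have hsupp : ∀ (w : Ω → ℝ) (_ : ∀ ω, z ω = 0 → w ω = 0) (j : κ),
      ∑ ω ∈ univ.filter (fun ω => pr (φ ω) (v c) = 0), w ω * (φ ω j : ℝ)
        = ∑ ω, w ω * (φ ω j : ℝ) := by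
    intro w hw j
    apply Finset.sum_subset (Finset.filter_subset _ _)
    intro ω _ hω
    have h1 : ¬ pr (φ ω) (v c) = 0 := by simpa using hω
    have h2 : z ω = 0 := by
      by_contra hne
      exact h1 (hz ω hne)
    rw [hw ω h2, zero_mul]
  have hre : ∀ ω ∈ univ.filter (fun ω => pr (φ ω) (v c) = 0), (z ω).re = 0 := by
    apply hind (fun ω => (z ω).re)
    funext j
    have h1 := congrArg Complex.re (h j)
    simp only [Complex.re_sum, Complex.mul_re, Complex.intCast_re, Complex.intCast_im, mul_zero,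
      sub_zero, Complex.zero_re] at h1
    simp only [Finset.sum_apply, Pi.smul_apply, smul_eq_mul, vR, Pi.zero_apply]
    rw [hsupp (fun ω => (z ω).re) (fun ω hω => by simp [hω]) j]
    exact h1
  have him : ∀ ω ∈ univ.filter (fun ω => pr (φ ω) (v c) = 0), (z ω).im = 0 := by
    apply hind (fun ω => (z ω).im)
    funext j
    have h1 := congrArg Complex.im (h j)
    simp only [Complex.im_sum, Complex.mul_im, Complex.intCast_re, Complex.intCast_im, mul_zero,
      zero_add, Complex.zero_im] at h1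
    simp only [Finset.sum_apply, Pi.smul_apply, smul_eq_mul, vR, Pi.zero_apply]
    rw [hsupp (fun ω => (z ω).im) (fun ω hω => by simp [hω]) j]
    exact h1
  funext ω
  by_contra hne
  have hne' : z ω ≠ 0 := hne
  have hmem : ω ∈ univ.filter (fun ω => pr (φ ω) (v c) = 0) := by
    simp [hz ω hne']
  exact hne' (Complex.ext (hre ω hmem) (him ω hmem))

omit [DecidableEq ι] [DecidableEq Ω] in
/-- ZLAM -/
theorem zlam (hZ : ZS v φ A B s0) (c : ι) (hc : IsCr A B s0 (v c)) :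
    ∃ Λ : Ω → ℂ, IsLam φ A B s0 Λ ∧ ∀ ω, Λ ω ≠ 0 → pr (φ ω) (v c) = 0 := by
  classical
  obtain ⟨S, hS⟩ : ∃ S : Finset Ω, S = univ.filter (fun ω => pr (φ ω) (v c) = 0) := ⟨_, rfl⟩
  have hmemS : ∀ ω, ω ∈ S ↔ pr (φ ω) (v c) = 0 := by intro ω; simp [hS]
  have hcard : S.card + 1 = Fintype.card κ := by rw [hS]; exact hZ.card c hc
  -- extension by zero
  have hext : ∀ (G : S → ℂ) (j : κ),
      ∑ ω, (if hω : ω ∈ S then G ⟨ω, hω⟩ else 0) * (φ ω j : ℂ) = ∑ i : S, G i * (φ i.1 j : ℂ) := by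
    intro G j
    have e1 : ∑ ω, (if hω : ω ∈ S then G ⟨ω, hω⟩ else 0) * (φ ω j : ℂ)
        = ∑ ω ∈ S, (if hω : ω ∈ S then G ⟨ω, hω⟩ else 0) * (φ ω j : ℂ) := by
      symm
      apply Finset.sum_subset (Finset.subset_univ _)
      intro ω _ hω
      rw [dif_neg hω, zero_mul]
    rw [e1, ← Finset.sum_coe_sort S
      (fun ω => (if hω : ω ∈ S then G ⟨ω, hω⟩ else 0) * (φ ω j : ℂ))]
    apply Finset.sum_congr rfl
    intro i _
    rw [dif_pos i.2]
  -- independence over ℂ
  have hli : LinearIndependent ℂ (fun (i : S) (j : κ) => (φ i.1 j : ℂ)) := by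
    rw [Fintype.linearIndependent_iff]
    intro G hG i
    have h1 := ZLAM_cind hZ c hc (fun ω => if hω : ω ∈ S then G ⟨ω, hω⟩ else 0) (by
        intro ω hω
        by_contra hne
        apply hω
        rw [dif_neg]
        rw [hmemS]
        exact hne) (by
        intro j
        rw [hext G j]
        have h2 := congrFun hG j
        simpa [Finset.sum_apply, Pi.smul_apply, smul_eq_mul] using h2)
    have h3 := congrFun h1 i.1
    simp only [dif_pos i.2, Pi.zero_apply] at h3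
    exact h3
  -- the hyperplane
  obtain ⟨F, hF⟩ : ∃ F : (κ → ℂ) →ₗ[ℂ] ℂ, ∀ x, F x = ∑ j, x j * (v c j : ℂ) :=
    ⟨{ toFun := fun x => ∑ j, x j * (v c j : ℂ)
       map_add' := by
        intro x y
        simp only [Pi.add_apply, add_mul, Finset.sum_add_distrib]
       map_smul' := by
        intro a x
        simp only [Pi.smul_apply, smul_eq_mul, RingHom.id_apply, Finset.mul_sum, mul_assoc] },
      fun _ => rfl⟩
  have hvc : ∃ j, v c j ≠ 0 := by
    by_contra hall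
    push Not at hall
    rcases hZ.ne c with h | h
    · exact h (by simp [pr, hall])
    · exact h (by simp [pr, hall])
  obtain ⟨j0, hj0⟩ := hvc
  have hj0C : (v c j0 : ℂ) ≠ 0 := by exact_mod_cast hj0
  have hsurj : Function.Surjective F := by
    intro z
    refine ⟨Pi.single j0 (z / (v c j0 : ℂ)), ?_⟩
    rw [hF, Finset.sum_eq_single j0]
    · rw [Pi.single_eq_same]
      field_simp
    · intro j _ hj
      rw [Pi.single_eq_of_ne hj, zero_mul]
    · intro hj
      exact absurd (Finset.mem_univ _) hj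
  have hker : Module.finrank ℂ (LinearMap.ker F) + 1 = Fintype.card κ := by
    have h1 := LinearMap.finrank_range_add_finrank_ker F
    rw [LinearMap.range_eq_top.mpr hsurj, finrank_top, Module.finrank_self,
      Module.finrank_fintype_fun_eq_card] at h1
    omega
  have hle : Submodule.span ℂ (Set.range (fun (i : S) (j : κ) => (φ i.1 j : ℂ))) ≤
      LinearMap.ker F := by
    rw [Submodule.span_le]
    rintro x ⟨i, rfl⟩
    rw [SetLike.mem_coe, LinearMap.mem_ker, hF]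
    have h1 := (hmemS i.1).mp i.2
    have h2 : ((pr (φ i.1) (v c) : ℤ) : ℂ) = 0 := by rw [h1]; simp
    rw [← h2]
    simp [pr]
  have heq := Submodule.eq_of_le_of_finrank_eq hle (by
    rw [finrank_span_eq_card hli, Fintype.card_coe]
    omega)
  have hV0 : (fun j => (A j : ℂ) + (B j : ℂ) * s0) ∈ LinearMap.ker F := by
    rw [LinearMap.mem_ker, hF]
    have h1 : (pr A (v c) : ℂ) + (pr B (v c) : ℂ) * s0 = 0 := hc
    rw [← h1]
    simp only [pr]
    push_cast
    rw [Finset.sum_mul, ← Finset.sum_add_distrib]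
    apply Finset.sum_congr rfl
    intro j _
    ring
  rw [← heq, Submodule.mem_span_range_iff_exists_fun] at hV0
  obtain ⟨G, hG⟩ := hV0
  refine ⟨fun ω => if hω : ω ∈ S then G ⟨ω, hω⟩ else 0, ?_, ?_⟩
  · intro j
    show (A j : ℂ) + (B j : ℂ) * s0
      = ∑ ω, (if hω : ω ∈ S then G ⟨ω, hω⟩ else 0) * (φ ω j : ℂ)
    rw [hext G j]
    have h1 := congrFun hG j
    simp only [Finset.sum_apply, Pi.smul_apply, smul_eq_mul] at h1
    exact h1.symm
  · intro ω hω
    by_contra hne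
    apply hω
    show (if hω : ω ∈ S then G ⟨ω, hω⟩ else 0) = 0
    rw [dif_neg]
    rw [hmemS]
    exact hne

omit [DecidableEq ι] [DecidableEq Ω] in
theorem zlam_unique (hZ : ZS v φ A B s0) (c : ι) (hc : IsCr A B s0 (v c)) (Λ Λ' : Ω → ℂ)
    (hΛ : IsLam φ A B s0 Λ) (hΛ' : IsLam φ A B s0 Λ')
    (h : ∀ ω, Λ ω ≠ 0 → pr (φ ω) (v c) = 0) (h' : ∀ ω, Λ' ω ≠ 0 → pr (φ ω) (v c) = 0) :
    Λ = Λ' := by
  have h1 := ZLAM_cind hZ c hc (Λ - Λ') (by
    intro ω hω
    by_contra hne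
    apply hω
    have e1 : Λ ω = 0 := by
      by_contra h2; exact hne (h ω h2)
    have e2 : Λ' ω = 0 := by
      by_contra h2; exact hne (h' ω h2)
    rw [Pi.sub_apply, e1, e2, sub_zero]) (by
    intro j
    simp only [Pi.sub_apply, sub_mul, Finset.sum_sub_distrib]
    rw [← hΛ j, ← hΛ' j, sub_self])
  exact sub_eq_zero.mp h1

omit [DecidableEq Ω] in
theorem zlam_pair (Λ : Ω → ℂ) (hΛ : IsLam φ A B s0 Λ) (x : κ → ℤ) :
    (pr A x : ℂ) + (pr B x : ℂ) * s0 = ∑ ω, Λ ω * (pr (φ ω) x : ℂ) := by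
  simp only [pr]
  push_cast
  calc (∑ j, (A j : ℂ) * (x j : ℂ)) + (∑ j, (B j : ℂ) * (x j : ℂ)) * s0
      = ∑ j, ((A j : ℂ) + (B j : ℂ) * s0) * (x j : ℂ) := by
        rw [Finset.sum_mul, ← Finset.sum_add_distrib]
        apply Finset.sum_congr rfl
        intro j _
        ring
    _ = ∑ j, (∑ ω, Λ ω * (φ ω j : ℂ)) * (x j : ℂ) := by
        apply Finset.sum_congr rfl
        intro j _
        rw [hΛ j]
    _ = ∑ ω, Λ ω * ∑ j, (φ ω j : ℂ) * (x j : ℂ) := by
        simp only [Finset.sum_mul, Finset.mul_sum]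
        rw [Finset.sum_comm]
        apply Finset.sum_congr rfl
        intro ω _
        apply Finset.sum_congr rfl
        intro j _
        ring

omit [DecidableEq Ω] in
theorem zlam_pairR (Λ : Ω → ℂ) (hΛ : IsLam φ A B s0 Λ) (y : κ → ℝ) :
    (prR A y : ℂ) + (prR B y : ℂ) * s0 = ∑ ω, Λ ω * (prR (φ ω) y : ℂ) := by
  simp only [prR]
  push_cast
  calc (∑ j, (A j : ℂ) * (y j : ℂ)) + (∑ j, (B j : ℂ) * (y j : ℂ)) * s0
      = ∑ j, ((A j : ℂ) + (B j : ℂ) * s0) * (y j : ℂ) := by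
        rw [Finset.sum_mul, ← Finset.sum_add_distrib]
        apply Finset.sum_congr rfl
        intro j _
        ring
    _ = ∑ j, (∑ ω, Λ ω * (φ ω j : ℂ)) * (y j : ℂ) := by
        apply Finset.sum_congr rfl
        intro j _
        rw [hΛ j]
    _ = ∑ ω, Λ ω * ∑ j, (φ ω j : ℂ) * (y j : ℂ) := by
        simp only [Finset.sum_mul, Finset.mul_sum]
        rw [Finset.sum_comm]
        apply Finset.sum_congr rfl
        intro ω _
        apply Finset.sum_congr rfl
        intro j _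
        ring

end Pool.Agent.H37.T5
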