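import Pool.Agent.H37.T5.ZRANK
import Pool.Agent.H37.T5.ZLAM
import Pool.Agent.H37.T5.ZHTB

/-!
# ZCLU: the critical rays of a simplex belong to one cluster

`zclu1`.  `C` = the critical elements of `σ` (contains `c0`).  Suppose `u` is not critical; `u ∈ Gx Ξ` (for `ω ∈ Ξ`, `φ_ω` vanishes on `σ ⊇ C`).  `Pull` gives `ε`, `y`: `p = ∑_C v c = ε v_u + ∑ y_l v_l`, `∑_C h c < ε h u + ∑ y_l h l`.  If `y_l ≠ 0` then `l ∈ Gx Ξ` (`0 = φ_ω(p)` is a sum of nonnegative terms).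
By `zrank` every `v l`, `l ∈ Gx Ξ`, is `∑_{i∈σ} β^l_i v_i`; `L(l) := ∑ β^l_i h i ≥ h l` (upperness, equality for `l ∈ σ`).  By linearity and `coeff_unique`: `∑_C h c = ε L(u) + ∑ y_l L(l) ≥ ε h u + ∑ y_l h l`: contradiction.
`zclu`.  `c` is critical (`zlam_pair`, all terms vanish).  Let `Ξ' = {ω : φ_ω = 0 on all critical elements of σ}`.  Suppose `Λ ω0 ≠ 0`, `φ_ω0(v_c') ≠ 0`; so `ω0 ∉ Ξ'`, but `φ_ω0(v_c) = 0` (`hc`).  `zloc` at `c`: `y` with `φ_ω0(y) = 1`, `φ_ω(y) = 0` for the other `ω` vanishing at `c`, `> 0` for the remaining ones.  `φ_Ξ'(y) = 0`, so `y = ∑ x_i v_i` with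
`x_i ≥ 0`, zero outside `Gx Ξ'` (`zcone`), and all rays of `Gx Ξ'` are critical by `zclu1`: `V0(y) = 0`, but by `zlam_pairR` `V0(y) = Λ ω0`: contradiction.
-/

set_option autoImplicit false

namespace Pool.Agent.H37.T5

open Finset H60.RegTri

variable {ι κ Ω : Type} [Fintype ι] [DecidableEq ι] [Fintype κ] [Fintype Ω] [DecidableEq Ω]
  {v : ι → κ → ℤ} {φ : Ω → κ → ℤ} {A B : κ → ℤ} {s0 : ℂ}

omit [Fintype ι] [DecidableEq ι] in
theorem ZCLU_prR_smul (x : κ → ℤ) (r : ℝ) (y : κ → ℝ) : prR x (r • y) = r * prR x y := by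
  simp only [prR, Pi.smul_apply, smul_eq_mul, Finset.mul_sum]
  exact sum_congr rfl fun j _ => by ring

omit [Fintype ι] [DecidableEq ι] in
theorem ZCLU_prR_add (x : κ → ℤ) (y z : κ → ℝ) : prR x (y + z) = prR x y + prR x z := by
  simp only [prR, Pi.add_apply, mul_add, Finset.sum_add_distrib]

omit [Fintype ι] [DecidableEq ι] in
theorem ZCLU_prR_sum (x : κ → ℤ) (s : Finset ι) (y : ι → κ → ℝ) :
    prR x (∑ i ∈ s, y i) = ∑ i ∈ s, prR x (y i) := by
  simp only [prR, Finset.sum_apply, Finset.mul_sum]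
  exact Finset.sum_comm

theorem zclu1 (hZ : ZS v φ A B s0) (h : ι → ℝ) (hp : Pull v φ A B s0 h) (Ξ : Finset Ω)
    (σ : Finset ι) (hσ : σ ∈ TT v φ h Ξ) (c0 : ι) (hc0 : c0 ∈ σ) (hcr : IsCr A B s0 (v c0))
    (u : ι) (hu : ∀ ω, (∀ c ∈ σ, IsCr A B s0 (v c) → pr (φ ω) (v c) = 0) →
      pr (φ ω) (v u) = 0) : IsCr A B s0 (v u) := by
  classical
  by_contra hncr
  obtain ⟨ε, y, hε, hy, hvec, hh⟩ := hp (σ.filter (fun c => IsCr A B s0 (v c)))
    (fun c hc => (mem_filter.1 hc).2) u hncr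
    (fun ω hω => hu ω fun c hc hc2 => hω c (mem_filter.2 ⟨hc, hc2⟩))
  obtain ⟨hup, hcard⟩ := mem_TT.1 hσ
  have hσG : ∀ c ∈ σ, ∀ ω ∈ Ξ, pr (φ ω) (v c) = 0 := fun c hc ω hω => mem_Gx.1 (hup.1 hc) ω hω
  have huG : ∀ ω ∈ Ξ, pr (φ ω) (v u) = 0 := fun ω hω => hu ω fun c hc _ => hσG c hc ω hω
  have hyG : ∀ l, y l ≠ 0 → ∀ ω ∈ Ξ, pr (φ ω) (v l) = 0 := by
    intro l hl ω hω
    have h1 := congrArg (prR (φ ω)) hvec
    rw [ZCLU_prR_add, ZCLU_prR_smul, ZCLU_prR_sum, ZCLU_prR_sum, prR_vR, huG ω hω] at h1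
    have h2 : ∑ i ∈ σ.filter (fun c => IsCr A B s0 (v c)), prR (φ ω) (vR v i) = 0 := by
      refine sum_eq_zero fun c hc => ?_
      rw [prR_vR, hσG c (mem_filter.1 hc).1 ω hω, Int.cast_zero]
    rw [h2, Int.cast_zero, mul_zero, zero_add] at h1
    have h3 : ∀ i ∈ (univ : Finset ι), 0 ≤ prR (φ ω) (y i • vR v i) := fun i _ => by
      rw [ZCLU_prR_smul, prR_vR]
      exact mul_nonneg (hy i) (by exact_mod_cast hZ.nn i ω)
    have h4 := (sum_eq_zero_iff_of_nonneg h3).1 h1.symm l (mem_univ l)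
    rw [ZCLU_prR_smul, prR_vR] at h4
    have h5 := (mul_eq_zero.1 h4).resolve_left hl
    exact_mod_cast h5
  set x' : ι → ℝ := fun l => y l + if l = u then ε else 0 with hx'
  have hx'0 : ∀ l, 0 ≤ x' l := fun l => by
    simp only [hx']
    have := hy l
    split_ifs <;> linarith
  have hfull : ∀ l ∈ Gx v φ Ξ, vR v l ∈ Submodule.span ℝ (vR v '' (σ : Set ι)) := by
    intro l hl
    rw [mem_span_iff]
    refine (zrank hZ h Ξ σ hσ c0 hc0 hcr).2 _ fun ω hω => ?_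
    rw [prR_vR, mem_Gx.1 hl ω hω, Int.cast_zero]
  have hsub : univ.filter (fun l => 0 < x' l) ⊆ Gx v φ Ξ := by
    intro l hl
    have hl' := (mem_filter.1 hl).2
    rw [mem_Gx]
    intro ω hω
    by_cases hlu : l = u
    · rw [hlu]; exact huG ω hω
    · have : y l ≠ 0 := by
        simp only [hx', hlu, if_false, add_zero] at hl'
        exact hl'.ne'
      exact hyG l this ω hω
  have hL : ∑ i ∈ σ, (if IsCr A B s0 (v i) then (1 : ℝ) else 0) • vR v i =
      ∑ c ∈ σ.filter (fun c => IsCr A B s0 (v c)), vR v c := by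
    rw [sum_filter]
    refine sum_congr rfl fun i _ => ?_
    split_ifs <;> simp
  have hR : ∑ i ∈ univ.filter (fun l => 0 < x' l), x' i • vR v i = ε • vR v u + ∑ i, y i • vR v i := by
    rw [sum_filter]
    have h1 : ∀ i ∈ (univ : Finset ι), (if 0 < x' i then x' i • vR v i else 0) =
        y i • vR v i + (if i = u then ε • vR v i else 0) := by
      intro i _
      have h2 : (if 0 < x' i then x' i • vR v i else 0) = x' i • vR v i := by
        split_ifs with h3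
        · rfl
        · rw [le_antisymm (not_lt.1 h3) (hx'0 i), zero_smul]
      rw [h2]
      simp only [hx', add_smul]
      split_ifs <;> simp
    rw [sum_congr rfl h1, sum_add_distrib, sum_ite_eq' univ u, if_pos (mem_univ u), add_comm]
  have hRh : ∑ i ∈ univ.filter (fun l => 0 < x' l), x' i * h i = ε * h u + ∑ i, y i * h i := by
    rw [sum_filter]
    have h1 : ∀ i ∈ (univ : Finset ι), (if 0 < x' i then x' i * h i else 0) =
        y i * h i + (if i = u then ε * h i else 0) := by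
      intro i _
      have h2 : (if 0 < x' i then x' i * h i else 0) = x' i * h i := by
        split_ifs with h3
        · rfl
        · rw [le_antisymm (not_lt.1 h3) (hx'0 i), zero_mul]
      rw [h2]
      simp only [hx', add_mul]
      split_ifs <;> simp
    rw [sum_congr rfl h1, sum_add_distrib, sum_ite_eq' univ u, if_pos (mem_univ u), add_comm]
  have hLh : ∑ i ∈ σ, (if IsCr A B s0 (v i) then (1 : ℝ) else 0) * h i =
      ∑ c ∈ σ.filter (fun c => IsCr A B s0 (v c)), h c := by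
    rw [sum_filter]
    refine sum_congr rfl fun i _ => ?_
    split_ifs <;> simp
  have hmain := (height_le (vR v) h (Gx v φ Ξ) σ (univ.filter (fun l => 0 < x' l)) hup hfull hsub
    (fun i => if IsCr A B s0 (v i) then (1 : ℝ) else 0) x' (fun i hi => (mem_filter.1 hi).2)
    (by rw [hL, hR]; exact hvec)).1
  rw [hRh, hLh] at hmain
  linarith

/-- ZCLU -/
theorem zclu (hZ : ZS v φ A B s0) (h : ι → ℝ) (hp : Pull v φ A B s0 h) (Λ : Ω → ℂ)
    (hΛ : IsLam φ A B s0 Λ) (Ξ : Finset Ω) (σ : Finset ι) (hσ : σ ∈ TT v φ h Ξ) (c : ι)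
    (hcσ : c ∈ σ) (hc : ∀ ω, Λ ω ≠ 0 → pr (φ ω) (v c) = 0) (c' : ι) (hc'σ : c' ∈ σ)
    (hc' : IsCr A B s0 (v c')) : ∀ ω, Λ ω ≠ 0 → pr (φ ω) (v c') = 0 := by
  classical
  intro ω0 hω0
  by_contra hne
  have hcr : IsCr A B s0 (v c) := by
    unfold IsCr
    rw [zlam_pair Λ hΛ (v c)]
    refine sum_eq_zero fun ω _ => ?_
    by_cases hω : Λ ω = 0
    · rw [hω, zero_mul]
    · rw [hc ω hω, Int.cast_zero, mul_zero]
  obtain ⟨y, hy1, hy2⟩ := zloc hZ c hcr (fun ω => if ω = ω0 then 1 else 0)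
  have hy0 : ∀ ω, 0 ≤ prR (φ ω) y := by
    intro ω
    by_cases hω : pr (φ ω) (v c) = 0
    · rw [hy1 ω hω]
      split_ifs <;> norm_num
    · exact (hy2 ω hω).le
  have hΞ' : ∀ ω ∈ univ.filter (fun ω : Ω => ∀ e ∈ σ, IsCr A B s0 (v e) → pr (φ ω) (v e) = 0),
      prR (φ ω) y = 0 := by
    intro ω hω
    have h1 := (mem_filter.1 hω).2
    have h2 : ω ≠ ω0 := by
      rintro rfl
      exact hne (h1 c' hc'σ hc')
    rw [hy1 ω (h1 c hcσ hcr), if_neg h2]
  obtain ⟨x, hx0, hxG, hxy⟩ := zcone hZ _ y hy0 hΞ'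
  have hcrit : ∀ i, x i ≠ 0 → IsCr A B s0 (v i) := by
    intro i hi
    have h1 : i ∈ Gx v φ (univ.filter (fun ω : Ω => ∀ e ∈ σ, IsCr A B s0 (v e) → pr (φ ω) (v e) = 0)) := by
      by_contra hcon
      exact hi (hxG i hcon)
    refine zclu1 hZ h hp Ξ σ hσ c hcσ hcr i fun ω hω => ?_
    exact mem_Gx.1 h1 ω (mem_filter.2 ⟨mem_univ _, hω⟩)
  have hV0 : (prR A y : ℂ) + (prR B y : ℂ) * s0 = 0 := by
    rw [hxy, ZCLU_prR_sum, ZCLU_prR_sum]
    push_cast
    rw [Finset.sum_mul, ← Finset.sum_add_distrib]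
    refine sum_eq_zero fun i _ => ?_
    rw [ZCLU_prR_smul, ZCLU_prR_smul, prR_vR, prR_vR]
    by_cases hi : x i = 0
    · rw [hi]; simp
    · have h1 := hcrit i hi
      unfold IsCr at h1
      push_cast
      linear_combination (x i : ℂ) * h1
  have hV1 := zlam_pairR Λ hΛ y
  rw [hV0] at hV1
  have hsum : ∑ ω, Λ ω * (prR (φ ω) y : ℂ) = Λ ω0 := by
    rw [sum_eq_single ω0]
    · rw [hy1 ω0 (hc ω0 hω0), if_pos rfl]; simp
    · intro ω _ hωne
      by_cases hω : Λ ω = 0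
      · rw [hω, zero_mul]
      · rw [hy1 ω (hc ω hω), if_neg hωne]; simp
    · intro hcon; exact absurd (mem_univ _) hcon
  rw [hsum] at hV1
  exact hω0 hV1.symm

end Pool.Agent.H37.T5
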