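import Pool.Agent.H37.T5.ZIND

/-!
# ZCOM: the sum over all sets of vertices

`zcom`.  For `T ⊆ Vt` with `𝓕 T` put `T0 = T \ apex (T ∪ S)`; `apex (T ∪ S) ⊆ S` (`hapS`, `𝓕 (T ∪ S)`), so `T0 ∪ S = T ∪ S`.  The map `T ↦ (T0, T ∩ apex (T ∪ S))` is a bijection from these `T` to the pairs `(T0, B)`, `T0 ⊆ Vt`, `𝓕 T0`, no apex of `T0 ∪ S` in `T0`, `B ⊆ apex (T0 ∪ S)` (note `apex ⊆ Vt`); `μ (T0 ∪ B) = μ T0` by `hμ` (add the elements of `B` one by one: each `b ∈ B` satisfies `Ap (T0 ∪ S) b k` for some `k`,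
and `T0 ∪ B' ∪ b ⊆ T0 ∪ S`).  So the sum is `∑_{T0} (-1)^|T0| μ(T0) ∑_{B ⊆ apex} (-1)^|B| J(T0 ∪ B)` + the terms with `J T = 0`: `zind`.
-/

set_option autoImplicit false

namespace Pool.Agent.H37.T5

open Finset

variable {Ω E : Type} [Fintype Ω] [DecidableEq Ω] {s0 : ℂ} {J : Finset Ω → RatFunc ℂ}
  {S Vt : Finset Ω} {x : Ω → E → ℤ} {𝓕 : Finset Ω → Prop}

omit [Fintype Ω] in
/-- the index does not change when apexes are added -/
theorem zcom_mu (μ : Finset Ω → ℕ)
    (hμ : ∀ T b k, b ∉ T → x b k = 1 → (∀ ω ∈ T, x ω k = 0) → μ (insert b T) = μ T)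
    (T0 : Finset Ω) (hd : ∀ b ∈ T0, b ∉ apex x Vt (T0 ∪ S)) (B : Finset Ω)
    (hB : B ⊆ apex x Vt (T0 ∪ S)) : μ (T0 ∪ B) = μ T0 := by
  induction B using Finset.induction_on with
  | empty => rw [union_empty]
  | insert b B' hb ih =>
    have hB' : B' ⊆ apex x Vt (T0 ∪ S) := fun ω h => hB (mem_insert_of_mem h)
    have hbP : b ∈ apex x Vt (T0 ∪ S) := hB (mem_insert_self b B')
    obtain ⟨k, hk⟩ := mem_apex.1 hbP
    rw [union_insert, hμ (T0 ∪ B') b k ?_ hk.2.2.1 ?_, ih hB']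
    · intro h
      rcases mem_union.1 h with h | h
      · exact hd b h hbP
      · exact hb h
    · intro ω h
      rcases mem_union.1 h with h | h
      · exact hk.2.2.2 ω (mem_union_left _ h) (fun e => hd ω h (e ▸ hbP))
      · obtain ⟨k', hk'⟩ := mem_apex.1 (hB' h)
        exact hk.2.2.2 ω hk'.1 (fun e => hb (e ▸ h))

/-- ZCOM -/
theorem zcom (hmono : ∀ X Y, X ⊆ Y → 𝓕 Y → 𝓕 X) (hS : ∀ X, 𝓕 X → 𝓕 (X ∪ S))
    (hJ : ∀ X, ¬ 𝓕 X → J X = 0)
    (hrel : ∀ X k, (∀ ω ∈ X, x ω k = 0) →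
      H37.SM.Reg s0 (J X - ∑ ω ∈ univ \ X, (x ω k : RatFunc ℂ) * J (insert ω X)))
    (hapS : ∀ Y, S ⊆ Y → 𝓕 Y → ∀ b k, Ap x Vt Y b k → b ∈ S)
    (H : ∀ Y, S ⊆ Y → 𝓕 Y → ∃ b k, Ap x Vt Y b k ∧ ∀ k', Ap x Vt Y b k' → k' = k)
    (μ : Finset Ω → ℕ)
    (hμ : ∀ T b k, b ∉ T → x b k = 1 → (∀ ω ∈ T, x ω k = 0) → μ (insert b T) = μ T) :
    H37.SM.Reg s0 (∑ T ∈ Vt.powerset, (-1) ^ T.card * (μ T : RatFunc ℂ) * J T) := by
  classical
  set f : Finset Ω → RatFunc ℂ := fun T => (-1) ^ T.card * (μ T : RatFunc ℂ) * J T with hf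
  have e1 : ∑ T ∈ Vt.powerset, f T = ∑ T ∈ Vt.powerset with 𝓕 T, f T := by
    rw [sum_filter]
    refine sum_congr rfl fun T _ => ?_
    by_cases h : 𝓕 T
    · rw [if_pos h]
    · rw [if_neg h, hf]
      simp only [hJ T h, mul_zero]
  have e2 : ∑ T ∈ Vt.powerset with 𝓕 T, f T =
      ∑ T0 ∈ Vt.powerset, ∑ T ∈ (Vt.powerset.filter 𝓕) with T \ apex x Vt (T ∪ S) = T0, f T := by
    rw [sum_fiberwise_of_maps_to]
    intro T hT
    have := mem_powerset.1 (mem_filter.1 hT).1
    exact mem_powerset.2 (sdiff_subset.trans this)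
  change H37.SM.Reg s0 (∑ T ∈ Vt.powerset, f T)
  rw [e1, e2]
  refine H37.SM.Reg.sum _ _ fun T0 hT0 => ?_
  have hT0V := mem_powerset.1 hT0
  -- an element of the fiber
  have key : ∀ T, 𝓕 T → T \ apex x Vt (T ∪ S) = T0 →
      T ∪ S = T0 ∪ S ∧ apex x Vt (T0 ∪ S) ⊆ S ∧ 𝓕 (T0 ∪ S) := by
    intro T hT h
    have hTS := hS T hT
    have hap : apex x Vt (T ∪ S) ⊆ S := by
      intro b hb
      obtain ⟨k, hk⟩ := mem_apex.1 hb
      exact hapS _ subset_union_right hTS b k hk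
    have e : T ∪ S = T0 ∪ S := by
      ext ω
      rw [← h]
      simp only [mem_union, mem_sdiff]
      constructor
      · rintro (h1 | h1)
        · by_cases h2 : ω ∈ apex x Vt (T ∪ S)
          · exact Or.inr (hap h2)
          · exact Or.inl ⟨h1, h2⟩
        · exact Or.inr h1
      · rintro (h1 | h1)
        · exact Or.inl h1.1
        · exact Or.inr h1
    exact ⟨e, e ▸ hap, e ▸ hTS⟩
  rcases ((Vt.powerset.filter 𝓕).filter (fun T => T \ apex x Vt (T ∪ S) = T0)).eq_empty_or_nonempty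
    with h0 | ⟨T1, hT1⟩
  · rw [h0, sum_empty]
    exact H37.SM.reg_zero
  · obtain ⟨hT1a, hT1b⟩ := mem_filter.1 hT1
    have hT1F := (mem_filter.1 hT1a).2
    obtain ⟨k1, hPS, hFS⟩ := key T1 hT1F hT1b
    have hPd : ∀ b ∈ T0, b ∉ apex x Vt (T0 ∪ S) := by
      intro b hb
      rw [← hT1b] at hb
      rw [← k1]
      exact (mem_sdiff.1 hb).2
    have hPV : apex x Vt (T0 ∪ S) ⊆ Vt := by
      intro b hb
      obtain ⟨k, hk⟩ := mem_apex.1 hb
      exact hk.2.1
    have hF0 : 𝓕 T0 := hmono _ _ subset_union_left hFS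
    have e3 : ∑ T ∈ (Vt.powerset.filter 𝓕) with T \ apex x Vt (T ∪ S) = T0, f T =
        ∑ B ∈ (apex x Vt (T0 ∪ S)).powerset, f (T0 ∪ B) := by
      symm
      refine sum_bij (fun B _ => T0 ∪ B) ?_ ?_ ?_ ?_
      · intro B hB
        have hB := mem_powerset.1 hB
        have e : T0 ∪ B ∪ S = T0 ∪ S := by
          rw [union_assoc, union_eq_right.2 (hB.trans hPS)]
        refine mem_filter.2 ⟨mem_filter.2 ⟨mem_powerset.2 (union_subset hT0V (hB.trans hPV)), ?_⟩, ?_⟩
        · exact hmono _ _ (union_subset subset_union_left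
            ((hB.trans hPS).trans subset_union_right)) hFS
        · rw [e]
          ext ω
          simp only [mem_sdiff, mem_union]
          constructor
          · rintro ⟨h1 | h1, h2⟩
            · exact h1
            · exact absurd (hB h1) h2
          · intro h1
            exact ⟨Or.inl h1, hPd ω h1⟩
      · intro B hB B' hB' h
        have hB := mem_powerset.1 hB
        have hB' := mem_powerset.1 hB'
        ext ω
        constructor
        · intro h1
          have h2 : ω ∈ T0 ∪ B' := by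
            have : ω ∈ T0 ∪ B := mem_union_right _ h1
            rwa [h] at this
          rcases mem_union.1 h2 with h3 | h3
          · exact absurd (hB h1) (hPd ω h3)
          · exact h3
        · intro h1
          have h2 : ω ∈ T0 ∪ B := by
            have : ω ∈ T0 ∪ B' := mem_union_right _ h1
            rwa [← h] at this
          rcases mem_union.1 h2 with h3 | h3
          · exact absurd (hB' h1) (hPd ω h3)
          · exact h3
      · intro T hT
        obtain ⟨ha, hb⟩ := mem_filter.1 hT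
        obtain ⟨k2, -, -⟩ := key T (mem_filter.1 ha).2 hb
        rw [k2] at hb
        refine ⟨T ∩ apex x Vt (T0 ∪ S), mem_powerset.2 inter_subset_right, ?_⟩
        ext ω
        rw [← hb]
        simp only [mem_union, mem_sdiff, mem_inter]
        rw [hb]
        constructor
        · rintro (h1 | h1)
          · exact h1.1
          · exact h1.1
        · intro h1
          by_cases h2 : ω ∈ apex x Vt (T0 ∪ S)
          · exact Or.inr ⟨h1, h2⟩
          · exact Or.inl ⟨h1, h2⟩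
      · intro B _
        rfl
    have e4 : ∑ B ∈ (apex x Vt (T0 ∪ S)).powerset, f (T0 ∪ B) =
        ((-1) ^ T0.card * (μ T0 : RatFunc ℂ)) *
          ∑ B ∈ (apex x Vt (T0 ∪ S)).powerset, (-1) ^ B.card * J (T0 ∪ B) := by
      rw [mul_sum]
      refine sum_congr rfl fun B hB => ?_
      have hB := mem_powerset.1 hB
      have hdis : Disjoint T0 B := by
        rw [disjoint_left]
        intro ω h1 h2
        exact hPd ω h1 (hB h2)
      rw [hf]
      simp only
      rw [card_union_of_disjoint hdis, zcom_mu μ hμ T0 hPd B hB, pow_add]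
      ring
    rw [e3, e4]
    have hz := zind hmono hS hJ hrel hapS H T0 hF0 hPd
    have hc : H37.SM.Reg s0 ((-1 : RatFunc ℂ) ^ T0.card * (μ T0 : RatFunc ℂ)) := by
      refine H37.SM.Reg.mul ?_ (H37.SM.reg_natCast _)
      have h1 := H37.SM.reg_intCast (s0 := s0) ((-1) ^ T0.card)
      push_cast at h1
      exact h1
    exact hc.mul hz

end Pool.Agent.H37.T5
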