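import Pool.Agent.H37.T5.ZDefs
import Pool.Agent.H22.Lattice
import Pool.Agent.H56.SMC.ZNL

/-!
# ZPYR: multiplicities of a pyramid of height one; small cases

`mulv_pyr`: as `H56.SMC.mulS_insert` / `faceVol_pyr` (file ZNL): the integral functional `pr e` is `1` at `φ b` and `0` at the other `φ ω`, so `ℤ^κ = ℤ (φ b) ⊕ ker(pr e)` and the torsion of the quotient does not change.  `mulv_empty`: the torsion of `ℤ^κ` is trivial.
-/

set_option autoImplicit false

namespace Pool.Agent.H37.T5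

open Finset H60.RegTri

/-- ZPYR -/
theorem mulv_pyr {Ω κ : Type} [Fintype κ] [DecidableEq Ω] (φ : Ω → κ → ℤ) (T : Finset Ω) (b : Ω)
    (hb : b ∉ T) (e : κ → ℤ) (h0 : ∀ ω ∈ T, pr (φ ω) e = 0) (h1 : pr (φ b) e = 1) :
    mulv φ (insert b T) = mulv φ T := by
  classical
  have _ := hb
  set v : Option T → (κ → ℤ) := fun o => o.elim (φ b) (fun w => φ w.1) with hv
  have h2 : mulv φ (insert b T) = H22.latIndex v := by
    unfold mulv H22.latIndex
    have h3 : Set.range (fun i : (insert b T : Finset Ω) => φ i) = Set.range v := by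
      ext z
      simp only [Set.mem_range]
      constructor
      · rintro ⟨⟨l, hl⟩, rfl⟩
        rcases Finset.mem_insert.1 hl with rfl | hl'
        · exact ⟨none, rfl⟩
        · exact ⟨some ⟨l, hl'⟩, rfl⟩
      · rintro ⟨o, rfl⟩
        cases o with
        | none => exact ⟨⟨b, Finset.mem_insert_self _ _⟩, rfl⟩
        | some l => exact ⟨⟨l.1, Finset.mem_insert_of_mem l.2⟩, rfl⟩
    rw [h3]
  rw [h2]
  let Φ : (κ → ℤ) →ₗ[ℤ] ℤ := ∑ j, e j • LinearMap.proj j
  have hΦ : ∀ z, Φ z = pr z e := by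
    intro z
    simp [Φ, LinearMap.sum_apply, pr, mul_comm]
  exact H37.SM.latIndex_insert v Φ (fun l => by rw [hΦ]; exact h0 l.1 l.2)
    (by rw [hΦ]; exact Or.inl h1)

theorem mulv_empty {Ω κ : Type} (φ : Ω → κ → ℤ) : mulv φ ∅ = 1 := by
  unfold mulv H22.latIndex
  rw [Nat.card_eq_one_iff_unique]
  refine ⟨⟨?_⟩, ⟨0⟩⟩
  have hr : Set.range (fun i : (∅ : Finset Ω) => φ i) = ∅ := by
    ext z
    simp
  rw [hr, Submodule.span_empty]
  have key : ∀ x : Submodule.torsion ℤ ((κ → ℤ) ⧸ (⊥ : Submodule ℤ (κ → ℤ))), x = 0 := by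
    rintro ⟨x, hx⟩
    obtain ⟨y, rfl⟩ := Submodule.Quotient.mk_surjective _ x
    rw [Submodule.mem_torsion_iff] at hx
    obtain ⟨k, hk⟩ := hx
    have h1 : (k : ℤ) • y ∈ (⊥ : Submodule ℤ (κ → ℤ)) := by
      rw [← Submodule.Quotient.mk_eq_zero, Submodule.Quotient.mk_smul]
      exact hk
    rw [Submodule.mem_bot] at h1
    have hk0 : (k : ℤ) ≠ 0 := nonZeroDivisors.coe_ne_zero k
    have h2 : y = 0 := (smul_eq_zero.1 h1).resolve_left hk0
    apply Subtype.ext
    simp [h2]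
  intro x y
  rw [key x, key y]

end Pool.Agent.H37.T5
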