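import Pool.Agent.H37.T5.ZID
import Pool.Agent.H37.T5.ZCLU
import Pool.Agent.H37.T5.ZCOM
import Pool.Agent.H37.T5.ZPYR

/-!
# ZABS: the abstract theorem

Proof.  For every critical `c` let `Λ^c` be as in `zlam` (unique, `zlam_unique`); `L` = the finite set of these `Λ^c`; for `Λ ∈ L` let `Cl Λ = {c : φ_ω(v_c) = 0 whenever Λ ω ≠ 0}` (critical by `zlam_pair`; contains the `c` with `Λ^c = Λ`), `S = {ω : Λ ω ≠ 0}`, `𝓕 Y = ∃ c ∈ Cl Λ, ∀ ω ∈ Y, φ_ω(v_c) = 0`.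
(1) For `Λ ∈ L` `zcom` with `J = JJ v φ A B h (Cl Λ)`, `x ω k = pr (φ ω) (e k)`, `μ T = (mulv φ T)^2` (`mulv_pyr`): `hS` as `φ_ω(v_c) = 0` for `ω ∈ S`, `c ∈ Cl Λ`; `hJ`: `σ ∈ TC X` with `c ∈ σ ∩ Cl` gives `𝓕 X`; `hrel` = `zid` (`hcl` by `zclu`: for `σ ∈ TC`, `c' ∈ σ ∩ Cl`, `c ∈ σ` critical, `c ∈ Cl`);
`hapS`: `1 = pr A (e k) + pr B (e k) s0 = ∑ Λ ω φ_ω(e k) = Λ b` for `Ap Y b k`, `S ⊆ Y`; `H` from the hypothesis `H` (`c ∈ Cl Λ`).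
(2) For every `T`: `∑_{σ ∈ TT T} tmv σ = (regular: the σ without critical ray, `tm_regv`) + ∑_{Λ ∈ L} ∑_{σ ∈ TC (Cl Λ) T} tmv σ`: every `σ ∈ TT T` with a critical ray `c` belongs to exactly one `TC (Cl Λ) T`, `Λ ∈ L`: to `Λ = Λ^c`; if `c' ∈ σ ∩ Cl Λ'`, `Λ' = Λ^{c''} ∈ L`, then `zclu` (for `Λ'`, `c'`, and the critical `c`) gives `c ∈ Cl Λ'`, and `zlam_unique` at `c`: `Λ' = Λ^c`.
`∑_{σ ∈ TC} tmv σ = mulv φ T * JJ T` (`mulv_ne`).  Sum over `T` with the signs and `mulv φ T`; `Reg.sum`, `Reg.mul`, `reg_natCast`.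
-/

set_option autoImplicit false

namespace Pool.Agent.H37.T5

open Finset H60.RegTri

variable {ι κ Ω : Type} [Fintype ι] [DecidableEq ι] [Fintype κ] [DecidableEq κ] [Fintype Ω]
  [DecidableEq Ω] {v : ι → κ → ℤ} {φ : Ω → κ → ℤ} {A B : κ → ℤ} {s0 : ℂ}

open Classical in
/-- the cluster of `Λ` -/
private noncomputable def ZABS_Cl {ι κ Ω : Type} [Fintype ι] [Fintype κ] (v : ι → κ → ℤ)
    (φ : Ω → κ → ℤ) (Λ : Ω → ℂ) : Finset ι :=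
  univ.filter (fun c => ∀ ω, Λ ω ≠ 0 → pr (φ ω) (v c) = 0)

omit [DecidableEq ι] [DecidableEq κ] [Fintype Ω] [DecidableEq Ω] in
private theorem ZABS_mem {Λ : Ω → ℂ} {c : ι} :
    c ∈ ZABS_Cl v φ Λ ↔ ∀ ω, Λ ω ≠ 0 → pr (φ ω) (v c) = 0 := by
  simp [ZABS_Cl]

omit [DecidableEq ι] [DecidableEq κ] [DecidableEq Ω] in
private theorem ZABS_cr {Λ : Ω → ℂ} (hΛ : IsLam φ A B s0 Λ) {c : ι} (hc : c ∈ ZABS_Cl v φ Λ) :
    IsCr A B s0 (v c) := by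
  unfold IsCr
  rw [zlam_pair Λ hΛ (v c)]
  refine Finset.sum_eq_zero fun ω _ => ?_
  by_cases h : Λ ω = 0
  · rw [h, zero_mul]
  · rw [ZABS_mem.1 hc ω h, Int.cast_zero, mul_zero]

/-- the statement for one cluster -/
private theorem ZABS_one (hZ : ZS v φ A B s0) (h : ι → ℝ) (hgen : ∀ τ, GenericOn (vR v) h τ)
    (hp : Pull v φ A B s0 h) (Vt : Finset Ω) {E : Type} (e : E → κ → ℤ)
    (heA : ∀ k, pr A (e k) = 1) (heB : ∀ k, pr B (e k) = 0)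
    (H : ∀ Λ : Ω → ℂ, IsLam φ A B s0 Λ → ∀ c : ι, IsCr A B s0 (v c) → ∀ Y : Finset Ω,
      (∀ ω ∈ Y, pr (φ ω) (v c) = 0) → (∀ ω, Λ ω ≠ 0 → ω ∈ Y) →
      ∃ b k, Ap (fun ω k => pr (φ ω) (e k)) Vt Y b k ∧
        ∀ k', Ap (fun ω k => pr (φ ω) (e k)) Vt Y b k' → k' = k)
    (Λ : Ω → ℂ) (hΛ : IsLam φ A B s0 Λ) :
    H37.SM.Reg s0 (∑ T ∈ Vt.powerset, (-1) ^ T.card * (((mulv φ T) ^ 2 : ℕ) : RatFunc ℂ) *
      JJ v φ A B h (ZABS_Cl v φ Λ) T) := by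
  classical
  have hCl : ∀ c ∈ ZABS_Cl v φ Λ, IsCr A B s0 (v c) := fun c hc => ZABS_cr hΛ hc
  have hcl : ∀ Ξ, ∀ σ ∈ TC v φ h (ZABS_Cl v φ Λ) Ξ, ∀ c ∈ σ, IsCr A B s0 (v c) → c ∈ ZABS_Cl v φ Λ := by
    intro Ξ σ hσ c hcσ hc
    obtain ⟨hTT, c', hc'σ, hc'⟩ := mem_TC.1 hσ
    exact ZABS_mem.2 (zclu hZ h hp Λ hΛ Ξ σ hTT c' hc'σ (ZABS_mem.1 hc') c hcσ hc)
  refine zcom (S := univ.filter (fun ω => Λ ω ≠ 0)) (x := fun ω k => pr (φ ω) (e k))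
    (𝓕 := fun Y => ∃ c ∈ ZABS_Cl v φ Λ, ∀ ω ∈ Y, pr (φ ω) (v c) = 0) ?_ ?_ ?_ ?_ ?_ ?_
    (fun T => (mulv φ T) ^ 2) ?_
  · rintro X Y hXY ⟨c, hc, hcY⟩
    exact ⟨c, hc, fun ω hω => hcY ω (hXY hω)⟩
  · rintro X ⟨c, hc, hcX⟩
    refine ⟨c, hc, fun ω hω => ?_⟩
    rcases Finset.mem_union.1 hω with h1 | h1
    · exact hcX ω h1
    · exact ZABS_mem.1 hc ω (Finset.mem_filter.1 h1).2
  · intro X hX
    unfold JJ
    have h1 : TC v φ h (ZABS_Cl v φ Λ) X = ∅ := by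
      rw [Finset.eq_empty_iff_forall_notMem]
      intro σ hσ
      obtain ⟨hTT, c, hcσ, hc⟩ := mem_TC.1 hσ
      exact hX ⟨c, hc, mem_Gx.1 ((mem_TT.1 hTT).1.1 hcσ)⟩
    rw [h1, Finset.sum_empty, mul_zero]
  · intro X k hX
    exact zid hZ h hgen (ZABS_Cl v φ Λ) hCl hcl X (e k) hX (heA k) (heB k)
  · rintro Y hSY ⟨c, hc, hcY⟩ b k ⟨hbY, hbV, hb1, hb2⟩
    rw [Finset.mem_filter]
    refine ⟨Finset.mem_univ _, fun hb0 => ?_⟩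
    have h1 := zlam_pair Λ hΛ (e k)
    rw [heA, heB] at h1
    have h2 : ∑ ω, Λ ω * (pr (φ ω) (e k) : ℂ) = 0 := by
      refine Finset.sum_eq_zero fun ω _ => ?_
      by_cases hω : Λ ω = 0
      · rw [hω, zero_mul]
      · have h3 : ω ∈ Y := hSY (Finset.mem_filter.2 ⟨Finset.mem_univ _, hω⟩)
        have h4 : ω ≠ b := fun h5 => hω (by rw [h5]; exact hb0)
        have h5 : pr (φ ω) (e k) = 0 := hb2 ω h3 h4
        rw [h5, Int.cast_zero, mul_zero]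
    rw [h2] at h1
    norm_num at h1
  · rintro Y hSY ⟨c, hc, hcY⟩
    exact H Λ hΛ c (hCl c hc) Y hcY (fun ω hω => hSY (Finset.mem_filter.2 ⟨Finset.mem_univ _, hω⟩))
  · intro T b k hbT hb1 hT0
    show mulv φ (insert b T) ^ 2 = mulv φ T ^ 2
    rw [mulv_pyr φ T b hbT (e k) hT0 hb1]

private theorem ZABS_neg_one (n : ℕ) : H37.SM.Reg s0 ((-1 : RatFunc ℂ) ^ n) := by
  have h := H37.SM.reg_intCast (s0 := s0) ((-1) ^ n)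
  push_cast at h
  exact h

/-- ZABS -/
theorem zabs (hZ : ZS v φ A B s0) (h : ι → ℝ) (hgen : ∀ τ, GenericOn (vR v) h τ)
    (hp : Pull v φ A B s0 h) (Vt : Finset Ω) {E : Type} (e : E → κ → ℤ)
    (heA : ∀ k, pr A (e k) = 1) (heB : ∀ k, pr B (e k) = 0)
    (H : ∀ Λ : Ω → ℂ, IsLam φ A B s0 Λ → ∀ c : ι, IsCr A B s0 (v c) → ∀ Y : Finset Ω,
      (∀ ω ∈ Y, pr (φ ω) (v c) = 0) → (∀ ω, Λ ω ≠ 0 → ω ∈ Y) →
      ∃ b k, Ap (fun ω k => pr (φ ω) (e k)) Vt Y b k ∧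
        ∀ k', Ap (fun ω k => pr (φ ω) (e k)) Vt Y b k' → k' = k) :
    H37.SM.Reg s0 (∑ T ∈ Vt.powerset,
      (-1) ^ T.card * (mulv φ T : RatFunc ℂ) * ∑ σ ∈ TT v φ h T, tmv A B v σ) := by
  classical
  -- the expansions
  have hex : ∀ c : ι, ∃ Λ : Ω → ℂ, IsCr A B s0 (v c) →
      IsLam φ A B s0 Λ ∧ ∀ ω, Λ ω ≠ 0 → pr (φ ω) (v c) = 0 := by
    intro c
    by_cases hc : IsCr A B s0 (v c)
    · obtain ⟨Λ, h1⟩ := zlam hZ c hc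
      exact ⟨Λ, fun _ => h1⟩
    · exact ⟨0, fun h1 => absurd h1 hc⟩
  choose Lc hLc using hex
  set L : Finset (Ω → ℂ) := (univ.filter (fun c => IsCr A B s0 (v c))).image Lc with hL
  have hLlam : ∀ Λ ∈ L, IsLam φ A B s0 Λ := by
    intro Λ hΛ
    obtain ⟨c, hc, rfl⟩ := Finset.mem_image.1 hΛ
    exact (hLc c (Finset.mem_filter.1 hc).2).1
  -- the decomposition for one set of functionals
  have hdec : ∀ T : Finset Ω, H37.SM.Reg s0 (∑ σ ∈ TT v φ h T, tmv A B v σ -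
      ∑ Λ ∈ L, (mulv φ T : RatFunc ℂ) * JJ v φ A B h (ZABS_Cl v φ Λ) T) := by
    intro T
    have h1 : ∀ Λ ∈ L, (mulv φ T : RatFunc ℂ) * JJ v φ A B h (ZABS_Cl v φ Λ) T =
        ∑ σ ∈ TT v φ h T, if ∃ c ∈ σ, c ∈ ZABS_Cl v φ Λ then tmv A B v σ else 0 := by
      intro Λ _
      have hm : (mulv φ T : RatFunc ℂ) ≠ 0 := Nat.cast_ne_zero.mpr (mulv_ne φ T)
      unfold JJ
      rw [← mul_assoc, mul_inv_cancel₀ hm, one_mul, ← Finset.sum_filter]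
      refine Finset.sum_congr ?_ fun _ _ => rfl
      ext σ
      rw [mem_TC, Finset.mem_filter]
    rw [Finset.sum_congr rfl h1, Finset.sum_comm, ← Finset.sum_sub_distrib]
    refine H37.SM.Reg.sum _ _ fun σ hσ => ?_
    by_cases hcr : ∃ c ∈ σ, IsCr A B s0 (v c)
    · obtain ⟨c, hcσ, hc⟩ := hcr
      have h2 : ∑ Λ ∈ L, (if ∃ c ∈ σ, c ∈ ZABS_Cl v φ Λ then tmv A B v σ else 0) = tmv A B v σ := by
        rw [Finset.sum_eq_single (Lc c)]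
        · rw [if_pos ⟨c, hcσ, ZABS_mem.2 (hLc c hc).2⟩]
        · intro Λ hΛ hne
          rw [if_neg]
          rintro ⟨c', hc'σ, hc'⟩
          apply hne
          exact zlam_unique hZ c hc Λ (Lc c) (hLlam Λ hΛ) (hLc c hc).1
            (zclu hZ h hp Λ (hLlam Λ hΛ) T σ hσ c' hc'σ (ZABS_mem.1 hc') c hcσ hc) (hLc c hc).2
        · intro hn
          exact absurd (Finset.mem_image.2 ⟨c, Finset.mem_filter.2 ⟨Finset.mem_univ _, hc⟩, rfl⟩) hn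
      rw [h2, sub_self]
      exact H37.SM.reg_zero
    · have h2 : ∑ Λ ∈ L, (if ∃ c ∈ σ, c ∈ ZABS_Cl v φ Λ then tmv A B v σ else 0) = 0 := by
        refine Finset.sum_eq_zero fun Λ hΛ => ?_
        rw [if_neg]
        rintro ⟨c', hc'σ, hc'⟩
        exact hcr ⟨c', hc'σ, ZABS_cr (hLlam Λ hΛ) hc'⟩
      rw [h2, sub_zero]
      unfold tmv
      exact (H37.SM.reg_natCast _).mul (tm_regv hZ σ fun i hi hcr' => hcr ⟨i, hi, hcr'⟩)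
  have key : ∑ T ∈ Vt.powerset,
      (-1) ^ T.card * (mulv φ T : RatFunc ℂ) * ∑ σ ∈ TT v φ h T, tmv A B v σ =
      ∑ T ∈ Vt.powerset, (-1) ^ T.card * (mulv φ T : RatFunc ℂ) *
        (∑ σ ∈ TT v φ h T, tmv A B v σ -
          ∑ Λ ∈ L, (mulv φ T : RatFunc ℂ) * JJ v φ A B h (ZABS_Cl v φ Λ) T) +
      ∑ Λ ∈ L, ∑ T ∈ Vt.powerset, (-1) ^ T.card * (((mulv φ T) ^ 2 : ℕ) : RatFunc ℂ) *
        JJ v φ A B h (ZABS_Cl v φ Λ) T := by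
    rw [Finset.sum_comm (s := L), ← Finset.sum_add_distrib]
    refine Finset.sum_congr rfl fun T _ => ?_
    have h1 : ∑ Λ ∈ L, (-1) ^ T.card * (((mulv φ T) ^ 2 : ℕ) : RatFunc ℂ) *
        JJ v φ A B h (ZABS_Cl v φ Λ) T = (-1) ^ T.card * (mulv φ T : RatFunc ℂ) *
        ∑ Λ ∈ L, (mulv φ T : RatFunc ℂ) * JJ v φ A B h (ZABS_Cl v φ Λ) T := by
      rw [Finset.mul_sum]
      refine Finset.sum_congr rfl fun Λ _ => ?_
      push_cast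
      ring
    rw [h1]
    ring
  rw [key]
  refine H37.SM.Reg.add (H37.SM.Reg.sum _ _ fun T _ => ?_) (H37.SM.Reg.sum _ _ fun Λ hΛ => ?_)
  · exact ((ZABS_neg_one _).mul (H37.SM.reg_natCast _)).mul (hdec T)
  · exact ZABS_one hZ h hgen hp Vt e heA heB H Λ (hLlam Λ hΛ)

end Pool.Agent.H37.T5
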