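import Pool.Agent.H37.T5.ZLOC

/-!
# ZLOCZ: an integral interior point

`zlocZ`: an integral point in the relative interior of the face `{φ_Y = 0}`: as `zloc` with `x_ω = 1` for `ω ∈ Ω_c`, `ω ∉ Y`, and `x_ω = 0` for `ω ∈ Y`; the system has a rational solution (the functionals are integral and independent: over `ℚ`), multiply by the denominator; `C` a large integer; the further requirement `hF`: finitely many further
integral functionals `ψ_t` with `ψ_t(v_c) > 0` also become positive.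
-/

set_option autoImplicit false

namespace Pool.Agent.H37.T5

open Finset H60.RegTri

variable {ι κ Ω : Type} [Fintype ι] [DecidableEq ι] [Fintype κ] [Fintype Ω] [DecidableEq Ω]
  {v : ι → κ → ℤ} {φ : Ω → κ → ℤ} {A B : κ → ℤ} {s0 : ℂ}

theorem ZLOCZ_surj {Ω' κ : Type} [Fintype Ω'] [Fintype κ] (a : Ω' → κ → ℤ)
    (ha : LinearIndependent ℝ (fun ω => (fun j => (a ω j : ℝ) : κ → ℝ))) (x : Ω' → ℚ) :
    ∃ y : κ → ℚ, ∀ ω, ∑ j, (a ω j : ℚ) * y j = x ω := by
  classical
  have h1 : LinearIndependent ℚ (fun ω => (fun j => (a ω j : ℝ) : κ → ℝ)) := by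
    apply LinearIndependent.restrict_scalars (K := ℝ) _ ha
    intro r s hrs
    simpa using hrs
  have h2 : LinearIndependent ℚ (fun ω => (fun j => (a ω j : ℚ) : κ → ℚ)) := by
    let f : (κ → ℚ) →ₗ[ℚ] (κ → ℝ) :=
      { toFun := fun y j => (y j : ℝ)
        map_add' := fun y z => by ext j; simp
        map_smul' := fun c y => by ext j; simp [Rat.smul_def] }
    apply LinearIndependent.of_comp f
    have h0 : (f ∘ fun ω => (fun j => (a ω j : ℚ) : κ → ℚ)) =
        fun ω => (fun j => (a ω j : ℝ) : κ → ℝ) := by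
      funext ω j
      show (((a ω j : ℚ)) : ℝ) = (a ω j : ℝ)
      push_cast
      rfl
    rw [h0]
    exact h1
  set M : Matrix Ω' κ ℚ := Matrix.of (fun ω j => (a ω j : ℚ)) with hM
  have h3 : M.rank = Fintype.card Ω' := LinearIndependent.rank_matrix h2
  have h4 : LinearMap.range M.mulVecLin = ⊤ := by
    apply Submodule.eq_top_of_finrank_eq
    rw [← Matrix.rank, h3]
    simp
  have h5 : x ∈ LinearMap.range M.mulVecLin := by rw [h4]; trivial
  obtain ⟨y, hy⟩ := h5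
  refine ⟨y, fun ω => ?_⟩
  rw [← hy]
  simp [Matrix.mulVec, dotProduct, hM]

theorem ZLOCZ_int {κ : Type} [Fintype κ] (y : κ → ℚ) :
    ∃ (D : ℤ) (z : κ → ℤ), 0 < D ∧ ∀ j, (z j : ℚ) = D * y j := by
  classical
  refine ⟨∏ j, ((y j).den : ℤ), fun j => (∏ i ∈ univ.erase j, ((y i).den : ℤ)) * (y j).num,
    Finset.prod_pos fun j _ => by exact_mod_cast (y j).den_pos, fun j => ?_⟩
  rw [← Finset.mul_prod_erase univ _ (Finset.mem_univ j)]
  push_cast
  have := Rat.num_div_den (y j)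
  have hd : ((y j).den : ℚ) ≠ 0 := by exact_mod_cast (y j).den_ne_zero
  rw [div_eq_iff hd] at this
  rw [this]
  ring

/-- ZLOCZ -/
theorem zlocZ (hZ : ZS v φ A B s0) (c : ι) (hc : IsCr A B s0 (v c)) (Y : Finset Ω)
    (hY : ∀ ω ∈ Y, pr (φ ω) (v c) = 0) {T : Type} [Fintype T] (ψ : T → κ → ℤ)
    (hψ : ∀ t, 0 < pr (ψ t) (v c)) :
    ∃ p : κ → ℤ, (∀ ω, 0 ≤ pr (φ ω) p) ∧ (∀ ω, pr (φ ω) p = 0 ↔ ω ∈ Y) ∧
      ∀ t, 0 < pr (ψ t) p := by
  classical
  have hind := hZ.ind c hc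
  obtain ⟨y, hy⟩ := ZLOCZ_surj (Ω' := {ω // pr (φ ω) (v c) = 0}) (fun ω => φ ω) hind
    (fun ω => if (ω : Ω) ∈ Y then 0 else 1)
  obtain ⟨D, z, hD, hz⟩ := ZLOCZ_int y
  have hzω : ∀ ω, pr (φ ω) (v c) = 0 → pr (φ ω) z = if ω ∈ Y then 0 else D := by
    intro ω hω
    have h1 := hy ⟨ω, hω⟩
    have h2 : (pr (φ ω) z : ℚ) = D * ∑ j, (φ ω j : ℚ) * y j := by
      rw [pr, Finset.mul_sum]
      push_cast
      refine Finset.sum_congr rfl fun j _ => ?_
      rw [hz]
      ring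
    have h3 : (pr (φ ω) z : ℚ) = ((if ω ∈ Y then 0 else D : ℤ) : ℚ) := by
      rw [h2]
      simp only at h1
      rw [h1]
      split_ifs <;> simp
    exact_mod_cast h3
  set K : ℤ := 1 + ∑ ω, |pr (φ ω) z| + ∑ t, |pr (ψ t) z| with hK
  have hlin : ∀ x : κ → ℤ, pr x (fun j => z j + K * v c j) = pr x z + K * pr x (v c) := by
    intro x
    simp only [pr]
    rw [Finset.mul_sum, ← Finset.sum_add_distrib]
    refine Finset.sum_congr rfl fun j _ => ?_
    ring
  have hs1 : 0 ≤ ∑ ω, |pr (φ ω) z| := Finset.sum_nonneg fun _ _ => abs_nonneg _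
  have hs2 : 0 ≤ ∑ t, |pr (ψ t) z| := Finset.sum_nonneg fun _ _ => abs_nonneg _
  have hK0 : 0 < K := by rw [hK]; omega
  have hpos : ∀ ω, pr (φ ω) (v c) ≠ 0 → 0 < pr (φ ω) (fun j => z j + K * v c j) := by
    intro ω hω
    rw [hlin]
    have h1 : 1 ≤ pr (φ ω) (v c) := by
      have := hZ.nn c ω
      omega
    have h2 : |pr (φ ω) z| ≤ ∑ ω, |pr (φ ω) z| :=
      Finset.single_le_sum (f := fun ω => |pr (φ ω) z|) (fun _ _ => abs_nonneg _)
        (Finset.mem_univ ω)
    have h3 := neg_abs_le (pr (φ ω) z)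
    have h4 : K * 1 ≤ K * pr (φ ω) (v c) := mul_le_mul_of_nonneg_left h1 hK0.le
    omega
  have hψ' : ∀ t, 0 < pr (ψ t) (fun j => z j + K * v c j) := by
    intro t
    rw [hlin]
    have h1 : 1 ≤ pr (ψ t) (v c) := hψ t
    have h2 : |pr (ψ t) z| ≤ ∑ t, |pr (ψ t) z| :=
      Finset.single_le_sum (f := fun t => |pr (ψ t) z|) (fun _ _ => abs_nonneg _)
        (Finset.mem_univ t)
    have h3 := neg_abs_le (pr (ψ t) z)
    have h4 : K * 1 ≤ K * pr (ψ t) (v c) := mul_le_mul_of_nonneg_left h1 hK0.le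
    omega
  refine ⟨fun j => z j + K * v c j, fun ω => ?_, fun ω => ?_, hψ'⟩
  · by_cases hω : pr (φ ω) (v c) = 0
    · rw [hlin, hω, hzω ω hω]
      split_ifs <;> omega
    · exact (hpos ω hω).le
  · by_cases hω : pr (φ ω) (v c) = 0
    · rw [hlin, hω, hzω ω hω]
      split_ifs with h
      · simp [h]
      · simp only [mul_zero, add_zero, h, iff_false]
        omega
    · have := hpos ω hω
      constructor
      · intro h; omega
      · intro h; exact absurd (hY ω h) hω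


end Pool.Agent.H37.T5
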