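import Pool.Agent.H37.T5.ZZS
import Pool.Agent.H37.T5.ZLOCZ
import Pool.Agent.H37.T5.ZLAM

/-!
# ZAPA: an integral weight in the interior of a face near a critical ray

`w` critical (`CritW`), `w ∈ R`, simplicial; `Y` a set of functionals vanishing at `(-N(w); w)`, containing the support of `Λ` (`IsLam`).  `zlocZ` at `c = some w` with `T = {i : a_i not on the face of w}` and `ψ_i = homRow a i` (`ψ_i·(-N(w); w) = a_i·w - N(w) > 0`) gives `p ∈ ℤ^{1+n}`.  `w' j = (p (inr j)).toNat` (`p (inr j) = pr (ph (inr j)) p ≥ 0`), `t = -p (inl ())`.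
(1) `Y` contains some `inl b`: the coordinate `inl ()` of `IsLam`: `-s0 = ∑_b Λ (inl b)`, `s0 ≠ 0`.
(2) all `i`: `a_i·w' - t = homRow a i·p ≥ 0`: off the face of `w` by `ψ`, on the face by `zsd_conv` (convex combination of vertices, `pr (ph (inl t)) p ≥ 0`); equality for `b`: so `N(w') = t`, `p = lf a w'`.
(3) `|w'| + N(w') s0 = pr AA p + pr BB p s0 = ∑ Λ ω pr (ph ω) p = 0` (`zlam_pair`; `Λ ω ≠ 0` implies `ω ∈ Y`, `pr (ph ω) p = 0`).
(4) `N(w') > 0`: otherwise `|w'| = 0` by (3), `w' = 0`, `p = 0`, so `Y` is everything and `w j = 0` for all `j`: contradiction with `w ≠ 0`.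
(5) `i` on the face of `w'`: `homRow a i·p = 0`, so `i` is on the face of `w` (`ψ`), and in `(1, a_i) = ∑ θ_t (1, a_t)` only `t` with `pr (ph (inl t)) p = 0`, i.e. `inl t ∈ Y`, occur.
-/

set_option autoImplicit false

namespace Pool.Agent.H37.T5

open Finset H60.RegTri
open Pool.Agent.H56.SMC

theorem ZAPA_wmin_le {n r : ℕ} (a : Fin r → (Fin n →₀ ℕ)) (v : Fin n → ℕ) (i : Fin r) :
    H22.wmin a v ≤ ∑ j, a i j * v j :=
  ciInf_le (OrderBot.bddBelow _) i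

theorem ZAPA_exists {n r : ℕ} (hr : 0 < r) (a : Fin r → (Fin n →₀ ℕ)) (v : Fin n → ℕ) :
    ∃ i, ∑ j, a i j * v j = H22.wmin a v := by
  have : Nonempty (Fin r) := ⟨⟨0, hr⟩⟩
  exact Nat.sInf_mem (Set.range_nonempty _)

theorem ZAPA_real {n r : ℕ} (a : Fin r → (Fin n →₀ ℕ)) (i : Fin r) (p : Unit ⊕ Fin n → ℤ) :
    (pr (H22.homRow a i) p : ℝ) = ∑ y, H22.rowR a i y * (p y : ℝ) := by
  unfold pr
  push_cast
  refine Finset.sum_congr rfl fun y _ => ?_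
  rcases y with y | y <;> simp [H22.homRow, H22.rowR]

theorem ZAPA_comb {n r : ℕ} (a : Fin r → (Fin n →₀ ℕ)) (i : Fin r) (p : Unit ⊕ Fin n → ℤ)
    (θ : Vx a → ℝ) (h : H22.rowR a i = ∑ t, θ t • H22.rowR a t.1) :
    (pr (H22.homRow a i) p : ℝ) = ∑ t, θ t * (pr (ph a (Sum.inl t)) p : ℝ) := by
  have h1 : ∀ t : Vx a, (pr (ph a (Sum.inl t)) p : ℝ) = ∑ y, H22.rowR a t.1 y * (p y : ℝ) :=
    fun t => ZAPA_real a t.1 p
  rw [ZAPA_real, h]
  simp only [h1, Finset.mul_sum, Finset.sum_apply, Pi.smul_apply, smul_eq_mul, Finset.sum_mul]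
  rw [Finset.sum_comm]
  refine Finset.sum_congr rfl fun t _ => Finset.sum_congr rfl fun y _ => ?_
  ring

theorem ZAPA_lf {n r : ℕ} (a : Fin r → (Fin n →₀ ℕ)) (i : Fin r) (w : Fin n → ℕ) :
    pr (H22.homRow a i) (lf a w) = (∑ j, a i j * w j : ℕ) - (H22.wmin a w : ℤ) := by
  simp [pr, lf, H22.homRow, Fintype.sum_sum_type]
  ring

theorem ZAPA_hom {n r : ℕ} (a : Fin r → (Fin n →₀ ℕ)) (i : Fin r) (p : Unit ⊕ Fin n → ℤ) :
    pr (H22.homRow a i) p = p (Sum.inl ()) + ∑ j, (a i j : ℤ) * p (Sum.inr j) := by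
  simp [pr, H22.homRow, Fintype.sum_sum_type]

theorem ZAPA_inr {n r : ℕ} (a : Fin r → (Fin n →₀ ℕ)) (j : Fin n) (p : Unit ⊕ Fin n → ℤ) :
    pr (ph a (Sum.inr j)) p = p (Sum.inr j) := by
  simp [pr, ph, Fintype.sum_sum_type, Pi.single_apply]

/-- ZAPA -/
theorem zapa {n r : ℕ} (a : Fin r → (Fin n →₀ ℕ)) (ha : Function.Injective a) (hr : 0 < r)
    (R : Finset (Fin n → ℕ)) (hR : RaySet a R) (s0 : ℂ) (hs0 : s0 ≠ 0)
    (hsimp : ∀ w, CritW a s0 w → SimpF a w) (Λ : OmT a → ℂ) (hΛ : IsLam (ph a) AA BB s0 Λ)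
    (c : Option R) (hc : IsCr AA BB s0 (vv a R c)) (Y : Finset (OmT a))
    (hY : ∀ ω ∈ Y, pr (ph a ω) (vv a R c) = 0) (hΛY : ∀ ω, Λ ω ≠ 0 → ω ∈ Y) :
    ∃ w' : Fin n → ℕ, 0 < H22.wmin a w' ∧ s0 = -(H22.wsum w' : ℂ) / (H22.wmin a w' : ℂ) ∧
      (∀ b : Vx a, ∑ j, a b.1 j * w' j = H22.wmin a w' ↔ Sum.inl b ∈ Y) ∧
      (∀ j, w' j = 0 ↔ Sum.inr j ∈ Y) ∧
      ∀ i, ∑ j, a i j * w' j = H22.wmin a w' → ∃ θ : Vx a → ℝ, (∀ t, 0 ≤ θ t) ∧
        ∑ t, θ t = 1 ∧ (∀ t, θ t ≠ 0 → Sum.inl t ∈ Y) ∧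
        H22.rowR a i = ∑ t, θ t • H22.rowR a t.1 := by
  classical
  have hZ := zzs a ha hr R hR s0 hs0 hsimp
  obtain ⟨w, hw⟩ : ∃ w, c = some w := by
    rcases c with _ | w
    · exact absurd ((IsCr_rho (n := n) s0).1 hc) hs0
    · exact ⟨w, rfl⟩
  subst hw
  have hcw : IsCr AA BB s0 (lf a w.1) := hc
  have hfac : FacetNormal a w.1 := hR.facet w.1 w.2
  have hcrit : CritW a s0 w.1 := (IsCr_lf s0 w.1 hfac).1 hcw
  have hsf := hsimp w.1 hcrit
  -- the integral point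
  obtain ⟨p, hp0, hpY, hpψ⟩ := zlocZ hZ (some w) hc Y hY
    (T := {i : Fin r // ∑ j, a i j * w.1 j ≠ H22.wmin a w.1}) (fun i => H22.homRow a i.1)
    (fun i => by
      show 0 < pr (H22.homRow a i.1) (lf a w.1)
      rw [ZAPA_lf]
      have h1 := ZAPA_wmin_le a w.1 i.1
      have h2 := i.2
      omega)
  have hpr : ∀ j, 0 ≤ p (Sum.inr j) := fun j => by
    have := hp0 (Sum.inr j)
    rwa [ZAPA_inr] at this
  obtain ⟨w', hw'⟩ : ∃ w' : Fin n → ℕ, ∀ j, (w' j : ℤ) = p (Sum.inr j) :=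
    ⟨fun j => (p (Sum.inr j)).toNat, fun j => Int.toNat_of_nonneg (hpr j)⟩
  have hhom : ∀ i, pr (H22.homRow a i) p = p (Sum.inl ()) + ((∑ j, a i j * w' j : ℕ) : ℤ) := by
    intro i
    rw [ZAPA_hom]
    push_cast
    congr 1
    exact Finset.sum_congr rfl fun j _ => by rw [hw']
  -- (1)
  obtain ⟨b, hb⟩ : ∃ b : Vx a, Sum.inl b ∈ Y := by
    by_contra hcon
    push Not at hcon
    have h1 := hΛ (Sum.inl ())
    have h2 : ∑ ω, Λ ω * (ph a ω (Sum.inl ()) : ℂ) = 0 := by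
      rw [Fintype.sum_sum_type]
      have h3 : ∀ b : Vx a, Λ (Sum.inl b) = 0 := fun b => by
        by_contra hne
        exact hcon b (hΛY _ hne)
      simp [h3, ph]
    rw [h2] at h1
    have h4 : -s0 = 0 := by
      have h5 : ((AA : Unit ⊕ Fin n → ℤ) (Sum.inl ()) : ℂ) +
          ((BB : Unit ⊕ Fin n → ℤ) (Sum.inl ()) : ℂ) * s0 = -s0 := by
        simp [AA, BB]
      rw [← h5]; exact h1
    exact hs0 (neg_eq_zero.1 h4)
  have hbp : pr (H22.homRow a b.1) p = 0 := (hpY (Sum.inl b)).2 hb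
  -- (2)
  have hon : ∀ i, ∑ j, a i j * w.1 j = H22.wmin a w.1 → ∃ θ : Vx a → ℝ, (∀ t, 0 ≤ θ t) ∧
      ∑ t, θ t = 1 ∧ H22.rowR a i = ∑ t, θ t • H22.rowR a t.1 ∧
      (pr (H22.homRow a i) p : ℝ) = ∑ t, θ t * (pr (ph a (Sum.inl t)) p : ℝ) := by
    intro i hi
    obtain ⟨θ, h1, h2, -, h4⟩ := zsd_conv a ha w.1 hfac hsf i hi
    exact ⟨θ, h1, h2, h4, ZAPA_comb a i p θ h4⟩
  have hnn : ∀ i, 0 ≤ pr (H22.homRow a i) p := by
    intro i
    by_cases hi : ∑ j, a i j * w.1 j = H22.wmin a w.1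
    · obtain ⟨θ, h1, -, -, h4⟩ := hon i hi
      have h5 : (0 : ℝ) ≤ (pr (H22.homRow a i) p : ℝ) := by
        rw [h4]
        refine Finset.sum_nonneg fun t _ => mul_nonneg (h1 t) ?_
        exact_mod_cast hp0 (Sum.inl t)
      exact_mod_cast h5
    · exact (hpψ ⟨i, hi⟩).le
  have hmin : p (Sum.inl ()) = -(H22.wmin a w' : ℤ) := by
    rw [hhom] at hbp
    obtain ⟨i0, hi0⟩ := ZAPA_exists hr a w'
    have h1 := hnn i0
    rw [hhom, hi0] at h1
    have h2 := ZAPA_wmin_le a w' b.1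
    omega
  have hplf : p = lf a w' := by
    funext y
    rcases y with y | y
    · show p (Sum.inl y) = -(H22.wmin a w' : ℤ)
      rw [← hmin]
    · show p (Sum.inr y) = (w' y : ℤ)
      rw [hw']
  have hin : ∀ b : Vx a, ∑ j, a b.1 j * w' j = H22.wmin a w' ↔ Sum.inl b ∈ Y := by
    intro b
    rw [← hpY (Sum.inl b), hplf, pr_inl_lf]
    constructor
    · intro h; rw [h]; ring
    · intro h; omega
  have hir : ∀ j, w' j = 0 ↔ Sum.inr j ∈ Y := by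
    intro j
    rw [← hpY (Sum.inr j), hplf, pr_inr_lf]
    constructor
    · intro h; rw [h]; rfl
    · intro h; exact_mod_cast h
  -- (3)
  have hsum : (H22.wsum w' : ℂ) + (H22.wmin a w' : ℂ) * s0 = 0 := by
    have h1 := zlam_pair Λ hΛ p
    have h2 : ∑ ω, Λ ω * (pr (ph a ω) p : ℂ) = 0 := by
      refine Finset.sum_eq_zero fun ω _ => ?_
      by_cases hω : Λ ω = 0
      · rw [hω, zero_mul]
      · rw [(hpY ω).2 (hΛY ω hω)]
        simp
    rw [h2, hplf, pr_AA_lf, pr_BB_lf] at h1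
    exact_mod_cast h1
  -- (4)
  have hpos : 0 < H22.wmin a w' := by
    by_contra hcon
    have h0 : H22.wmin a w' = 0 := by omega
    rw [h0] at hsum
    have h1 : H22.wsum w' = 0 := by
      have h2 : (H22.wsum w' : ℂ) = 0 := by simpa using hsum
      exact_mod_cast h2
    have h2 : ∀ j, w' j = 0 := fun j => (Finset.sum_eq_zero_iff.1 h1) j (mem_univ j)
    apply hfac.1
    funext j
    have h3 : Sum.inr j ∈ Y := (hir j).1 (h2 j)
    have h4 : pr (ph a (Sum.inr j)) (lf a w.1) = 0 := hY _ h3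
    rw [pr_inr_lf] at h4
    exact_mod_cast h4
  refine ⟨w', hpos, ?_, hin, hir, ?_⟩
  · have h1 : (H22.wmin a w' : ℂ) ≠ 0 := by exact_mod_cast hpos.ne'
    rw [eq_div_iff h1]
    linear_combination hsum
  · intro i hi
    have h1 : pr (H22.homRow a i) p = 0 := by
      rw [hhom, hmin, hi]; ring
    have h2 : ∑ j, a i j * w.1 j = H22.wmin a w.1 := by
      by_contra hne
      have := hpψ ⟨i, hne⟩
      have h3 : 0 < pr (H22.homRow a i) p := this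
      omega
    obtain ⟨θ, h3, h4, h5, h6⟩ := hon i h2
    refine ⟨θ, h3, h4, fun t ht => ?_, h5⟩
    rw [h1] at h6
    have h7 : ∀ t ∈ (univ : Finset (Vx a)), 0 ≤ θ t * (pr (ph a (Sum.inl t)) p : ℝ) :=
      fun t _ => mul_nonneg (h3 t) (by exact_mod_cast hp0 (Sum.inl t))
    have h8 : ∑ t, θ t * (pr (ph a (Sum.inl t)) p : ℝ) = 0 := by
      rw [← h6]; simp
    have h9 := (Finset.sum_eq_zero_iff_of_nonneg h7).1 h8 t (mem_univ t)
    have h10 : (pr (ph a (Sum.inl t)) p : ℝ) = 0 := (mul_eq_zero.1 h9).resolve_left ht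
    exact (hpY (Sum.inl t)).1 (by exact_mod_cast h10)

end Pool.Agent.H37.T5
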