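import Pool.Agent.H37.T5.ZAPA
import Pool.Agent.H37.T5.ZIND

/-!
# ZAPB: the hypothesis of the induction from unique apex directions

`w'` from `zapa`, `σ = {b.1 : inl b ∈ Y}`.  `FD a w' σ`: `pos`, `on` clear; `ind`: the vectors `rowR a b = vR (ph a) (inl b)` (`inl b ∈ Y`) and `eR j = vR (ph a) (inr j)` (`w' j = 0`, i.e. `inr j ∈ Y`) are a subfamily of the independent family of the functionals vanishing at the critical ray `c` (`ZS.ind` of `zzs`, `hY`); `conv`: from the coefficients `θ` (`rowR` gives `∑ θ = 1` and `pointR`);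
`span`: `p0R a w' = (|w'|/N(w'); 1, …, 1)` and `-s0 = |w'|/N(w')`, so coordinatewise `IsLam` says `(p0R y : ℂ) = ∑_ω Λ ω (ph a ω y : ℂ)`; take real parts: `p0R = ∑_{ω ∈ Y} Re(Λ ω) • vR (ph a) ω`.
The hypothesis `hUB` gives `b, j` with `ApexD a w' σ b j`, `j` unique.  `ApexD a w' σ b j` iff `Ap (fun ω k => pr (ph a ω) (eD k)) Vt Y (inl b) j` (`Vt` = all `inl`): `pr_inl_eD`, `pr_inr_eD` (`inr j' ∈ Y` has value `0` at `eD j` iff `j' ≠ j`, so all iff `w' j ≠ 0`).
-/

set_option autoImplicit false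

namespace Pool.Agent.H37.T5

open Finset H60.RegTri
open Pool.Agent.H56.SMC

private theorem zapb_vR_inl {n r : ℕ} (a : Fin r → (Fin n →₀ ℕ)) (b : Vx a) :
    vR (ph a) (Sum.inl b) = H22.rowR a b.1 := by
  funext j
  rcases j with u | j
  · simp [vR, ph, H22.homRow, H22.rowR]
  · simp [vR, ph, H22.homRow, H22.rowR]

private theorem zapb_vR_inr {n r : ℕ} (a : Fin r → (Fin n →₀ ℕ)) (k : Fin n) :
    vR (ph a) (Sum.inr k) = eR k := by
  funext j
  rcases j with u | j
  · simp [vR, ph, eR]
  · simp only [vR, ph, eR, Sum.elim_inr, Pi.single_apply]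
    split_ifs <;> simp

/-- ZAPB -/
theorem zapb {n r : ℕ} (a : Fin r → (Fin n →₀ ℕ)) (ha : Function.Injective a) (hr : 0 < r)
    (R : Finset (Fin n → ℕ)) (hR : RaySet a R) (s0 : ℂ) (hs0 : s0 ≠ 0)
    (hsimp : ∀ w, CritW a s0 w → SimpF a w)
    (hUB : ∀ (w : Fin n → ℕ) (σ : Finset (Fin r)), FD a w σ →
      s0 = -(H22.wsum w : ℂ) / (H22.wmin a w : ℂ) → UB a w σ)
    (Λ : OmT a → ℂ) (hΛ : IsLam (ph a) AA BB s0 Λ)
    (c : Option R) (hc : IsCr AA BB s0 (vv a R c)) (Y : Finset (OmT a))
    (hY : ∀ ω ∈ Y, pr (ph a ω) (vv a R c) = 0) (hΛY : ∀ ω, Λ ω ≠ 0 → ω ∈ Y) :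
    ∃ b k, Ap (fun (ω : OmT a) (k : Fin n) => pr (ph a ω) (eD k)) (inL (univ : Finset (Vx a))) Y b k
      ∧ ∀ k', Ap (fun (ω : OmT a) (k : Fin n) => pr (ph a ω) (eD k)) (inL (univ : Finset (Vx a)))
        Y b k' → k' = k := by
  classical
  obtain ⟨w, hpos, hs, hb, hj, hconv⟩ := zapa a ha hr R hR s0 hs0 hsimp Λ hΛ c hc Y hY hΛY
  have hZ := zzs a ha hr R hR s0 hs0 hsimp
  set σ : Finset (Fin r) := (univ.filter (fun b : Vx a => (Sum.inl b : OmT a) ∈ Y)).image
    (fun b : Vx a => b.1) with hσ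
  have hmem : ∀ i, i ∈ σ ↔ ∃ b : Vx a, (Sum.inl b : OmT a) ∈ Y ∧ b.1 = i := by
    intro i
    rw [hσ, mem_image]
    simp only [mem_filter, mem_univ, true_and]
  have hmem' : ∀ b : Vx a, b.1 ∈ σ ↔ (Sum.inl b : OmT a) ∈ Y := by
    intro b
    rw [hmem]
    constructor
    · rintro ⟨b', h1, h2⟩
      have h3 : b' = b := Subtype.ext h2
      rwa [h3] at h1
    · intro h
      exact ⟨b, h, rfl⟩
  have hFD : FD a w σ := by
    refine ⟨hpos, ?_, ?_, ?_, ?_⟩
    · intro i hi
      obtain ⟨b, h1, rfl⟩ := (hmem i).1 hi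
      exact (hb b).2 h1
    · have hind : LinearIndependent ℝ
          (fun ω : {ω | pr (ph a ω) (vv a R c) = 0} => vR (ph a) ω.1) := hZ.ind c hc
      have hvx : ∀ i : σ, ∃ b : Vx a, (Sum.inl b : OmT a) ∈ Y ∧ b.1 = i.1 := fun i =>
        (hmem i.1).1 i.2
      choose g hg1 hg2 using hvx
      let f : σ ⊕ {j : Fin n // w j = 0} → {ω | pr (ph a ω) (vv a R c) = 0} :=
        Sum.elim (fun i => ⟨Sum.inl (g i), hY _ (hg1 i)⟩)
          (fun j => ⟨Sum.inr j.1, hY _ ((hj j.1).1 j.2)⟩)
      have hf : Function.Injective f := by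
        intro x y hxy
        have h1 : (f x).1 = (f y).1 := congrArg Subtype.val hxy
        rcases x with x | x <;> rcases y with y | y
        · have h2 : g x = g y := Sum.inl_injective h1
          have h3 : x.1 = y.1 := by rw [← hg2 x, ← hg2 y, h2]
          rw [Subtype.ext h3]
        · exact absurd h1 Sum.inl_ne_inr
        · exact absurd h1 Sum.inr_ne_inl
        · have h2 : x.1 = y.1 := Sum.inr_injective h1
          rw [Subtype.ext h2]
      have h3 := hind.comp f hf
      convert h3 using 1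
      funext x
      rcases x with x | x
      · change H22.rowR a x.1 = vR (ph a) (Sum.inl (g x))
        rw [zapb_vR_inl, hg2]
      · change eR x.1 = vR (ph a) (Sum.inr x.1)
        rw [zapb_vR_inr]
    · intro i hi
      obtain ⟨θ, h0, h1, h2, h3⟩ := hconv i hi
      have h4 : H22.pointR a i = ∑ t ∈ univ.filter (fun t => θ t ≠ 0), θ t • H22.pointR a t.1 := by
        rw [Finset.sum_filter_of_ne]
        · funext j
          have h5 := congrFun h3 (Sum.inr j)
          simp only [Finset.sum_apply, Pi.smul_apply, H22.rowR, Sum.elim_inr] at h5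
          simp only [Finset.sum_apply, Pi.smul_apply, H22.pointR]
          exact h5
        · intro t _ ht h5
          apply ht
          rw [h5, zero_smul]
      rw [h4]
      refine (convex_convexHull ℝ _).sum_mem (fun t _ => h0 t) ?_ ?_
      · rw [Finset.sum_filter_of_ne]
        · exact h1
        · intro t _ ht
          exact ht
      · intro t ht
        apply subset_convexHull
        exact ⟨t.1, (hmem' t).2 (h2 t (mem_filter.1 ht).2), rfl⟩
    · have hval : ∀ y, p0R a w y = ∑ ω, (Λ ω).re * (ph a ω y : ℝ) := by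
        intro y
        have h1 := hΛ y
        have h2 : (AA y : ℂ) + (BB y : ℂ) * s0 = ((p0R a w y : ℝ) : ℂ) := by
          rcases y with u | k
          · simp only [AA, BB, p0R, Sum.elim_inl]
            rw [hs]
            push_cast
            ring
          · simp only [AA, BB, p0R, Sum.elim_inr]
            push_cast
            ring
        rw [h2] at h1
        have h3 := congrArg Complex.re h1
        rw [Complex.ofReal_re, Complex.re_sum] at h3
        rw [h3]
        refine sum_congr rfl fun ω _ => ?_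
        have h4 : ((ph a ω y : ℤ) : ℂ) = (((ph a ω y : ℤ) : ℝ) : ℂ) := by push_cast; rfl
        rw [h4, Complex.re_mul_ofReal]
      have hsum : p0R a w = ∑ ω, (Λ ω).re • vR (ph a) ω := by
        funext y
        rw [hval y, Finset.sum_apply]
        rfl
      rw [hsum]
      refine Submodule.sum_mem _ fun ω _ => ?_
      by_cases h0 : Λ ω = 0
      · rw [h0, Complex.zero_re, zero_smul]
        exact Submodule.zero_mem _
      · refine Submodule.smul_mem _ _ (Submodule.subset_span ?_)
        have hωY := hΛY ω h0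
        rcases ω with b | k
        · left
          exact ⟨b.1, (hmem' b).2 hωY, zapb_vR_inl a b⟩
        · right
          exact ⟨k, (hj k).2 hωY, zapb_vR_inr a k⟩
  have hAp : ∀ (b : Vx a) (k : Fin n),
      Ap (fun (ω : OmT a) (k : Fin n) => pr (ph a ω) (eD k)) (inL (univ : Finset (Vx a))) Y
        (Sum.inl b) k ↔ ApexD a w σ b.1 k := by
    intro b k
    constructor
    · rintro ⟨h1, -, h3, h4⟩
      refine ⟨(hmem' b).2 h1, ?_, ?_, ?_⟩
      · intro h5
        have h6 := h4 (Sum.inr k) ((hj k).1 h5) Sum.inr_ne_inl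
        simp only [pr_inr_eD, if_true] at h6
        exact one_ne_zero h6
      · simp only [pr_inl_eD] at h3
        exact_mod_cast h3
      · intro b' hb' hne
        obtain ⟨t, ht, rfl⟩ := (hmem b').1 hb'
        have h6 := h4 (Sum.inl t) ht (fun h => hne (congrArg Subtype.val (Sum.inl_injective h)))
        simp only [pr_inl_eD] at h6
        exact_mod_cast h6
    · rintro ⟨h1, h2, h3, h4⟩
      refine ⟨(hmem' b).1 h1, ?_, ?_, ?_⟩
      · exact mem_map.2 ⟨b, mem_univ _, rfl⟩
      · simp only [pr_inl_eD]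
        exact_mod_cast h3
      · intro ω hω hne
        rcases ω with t | j
        · simp only [pr_inl_eD]
          have h5 := h4 t.1 ((hmem' t).2 hω) (fun h => hne (congrArg Sum.inl (Subtype.ext h)))
          exact_mod_cast h5
        · simp only [pr_inr_eD]
          rw [if_neg]
          rintro rfl
          exact h2 ((hj j).2 hω)
  obtain ⟨b, k, h1, h2⟩ := hUB w σ hFD hs
  obtain ⟨t, -, rfl⟩ := (hmem b).1 h1.1
  exact ⟨Sum.inl t, k, (hAp t k).2 h1, fun k' hk' => h2 k' ((hAp t k').1 hk')⟩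

end Pool.Agent.H37.T5
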