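import Pool.Agent.H37.T5.ZRANK

/-!
# ZFAC: facets of a simplex on the boundary

`σ` is a basis of `K = {y : φ_Ξ(y) = 0}` (`zrank`).  Let `β(y)` be the coefficient at `b` for `y ∈ K`.  `Ω_c = {ω : φ_ω(v_c) = 0} ⊇ Ξ` is independent with `|κ| - 1` elements (`hZ.ind`, `hZ.card`).  For `ω ∈ Ω_c`, `ω ∉ Ξ` let `y_ω` be a point of the cone with `φ_ω(y_ω) = 1`, `φ_ω'(y_ω) = 0` for the other `ω' ∈ Ω_c` (`zloc`), so `y_ω ∈ K`;
`x_ω := β(y_ω) ≥ 0` by `zcone` and `hno` (`β` is linear on `K`).  For `y ∈ K`: `y - ∑_{ω ∈ Ω_c - Ξ} φ_ω(y) y_ω` is killed by all `φ_ω`, `ω ∈ Ω_c`, hence a multiple of `v_c` (the kernel of `|κ| - 1` independent functionals has dimension one), and `β(v_c) = 0` as `c ∈ σ.erase b`: `β(y) = ∑_{Ω_c - Ξ} x_ω φ_ω(y)`.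
`β(v_b) = 1`, so some `x_ω > 0`.  For `t ∈ σ.erase b`: `0 = β(v_t) = ∑ x_ω φ_ω(v_t)` with nonnegative terms, so `φ_ω(v_t) = 0` whenever `x_ω > 0`.  If `ω'` is another element outside `Ξ` vanishing on `σ.erase b` (it is in `Ω_c` since `c ∈ σ.erase b`) then the `|Ξ| + 2` independent functionals `Ξ, ω, ω'` vanish on the
`|κ| - |Ξ| - 1` independent vectors `v_t`: contradiction (dimension).  So there is exactly one `ω`, `x_ω > 0`, and `1 = β(v_b) = x_ω φ_ω(v_b)` gives `φ_ω(v_b) > 0`.  `σ.erase b ∈ TT (insert ω Ξ)`: the cardinality; a relation of `l ∈ Gx (insert ω Ξ)`, `l ∉ σ.erase b` with `σ.erase b` is a relation with `σ` with coefficient `0` at `b`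
(and `l ≠ b` since `φ_ω(v_b) > 0`).
-/

set_option autoImplicit false

namespace Pool.Agent.H37.T5

open Finset H60.RegTri

variable {ι κ Ω : Type} [Fintype ι] [DecidableEq ι] [Fintype κ] [Fintype Ω] [DecidableEq Ω]
  {v : ι → κ → ℤ} {φ : Ω → κ → ℤ} {A B : κ → ℤ} {s0 : ℂ}

/-- the pairing as a linear map -/
noncomputable def zfac_lin (x : κ → ℤ) : (κ → ℝ) →ₗ[ℝ] ℝ where
  toFun y := prR x y
  map_add' y z := by
    simp only [prR, Pi.add_apply, mul_add, sum_add_distrib]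
  map_smul' k y := by
    simp only [prR, Pi.smul_apply, smul_eq_mul, RingHom.id_apply, mul_sum]
    exact sum_congr rfl fun j _ => by ring

omit [Fintype ι] [DecidableEq ι] in
/-- linear functionals with prescribed values on independent vectors -/
theorem zfac_ext (w : ι → κ → ℝ) (σ : Finset ι) (hσ : LinearIndepOn ℝ w (σ : Set ι))
    (f : ι → ℝ) : ∃ L : (κ → ℝ) →ₗ[ℝ] ℝ, ∀ i ∈ σ, L (w i) = f i := by
  have hli : LinearIndependent ℝ (fun i : (σ : Set ι) => w i) := hσ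
  let F : Submodule.span ℝ (Set.range (fun i : (σ : Set ι) => w i)) →ₗ[ℝ] ℝ :=
    (Finsupp.linearCombination ℝ (fun i : (σ : Set ι) => f i)).comp hli.repr
  obtain ⟨L, hL⟩ := LinearMap.exists_extend F
  refine ⟨L, fun i hi => ?_⟩
  have hmem : w i ∈ Submodule.span ℝ (Set.range (fun i : (σ : Set ι) => w i)) :=
    Submodule.subset_span ⟨⟨i, hi⟩, rfl⟩
  have h1 : L (w i) = F ⟨w i, hmem⟩ := by
    rw [← hL]; rfl
  have h2 : hli.repr ⟨w i, hmem⟩ = Finsupp.single (⟨i, hi⟩ : (σ : Set ι)) 1 :=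
    hli.repr_eq_single ⟨i, hi⟩ ⟨w i, hmem⟩ rfl
  rw [h1]
  show Finsupp.linearCombination ℝ (fun i : (σ : Set ι) => f i) (hli.repr ⟨w i, hmem⟩) = f i
  rw [h2, Finsupp.linearCombination_single, one_smul]

/-- ZFAC -/
theorem zfac (hZ : ZS v φ A B s0) (h : ι → ℝ) (Ξ : Finset Ω) (σ : Finset ι)
    (hσ : σ ∈ TT v φ h Ξ) (b : ι) (hb : b ∈ σ) (c : ι) (hcσ : c ∈ σ.erase b)
    (hc : IsCr A B s0 (v c)) (hno : ∀ u ∈ Gx v φ Ξ, 0 ≤ cf (vR v) σ (vR v u) b) :
    ∃ ω, ω ∉ Ξ ∧ 0 < pr (φ ω) (v b) ∧ (∀ t ∈ σ.erase b, pr (φ ω) (v t) = 0) ∧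
      σ.erase b ∈ TT v φ h (insert ω Ξ) ∧
      ∀ ω', ω' ∉ Ξ → (∀ t ∈ σ.erase b, pr (φ ω') (v t) = 0) → ω' = ω := by
  classical
  obtain ⟨⟨hσG, hσi, hσu⟩, hcard⟩ := mem_TT.1 hσ
  have hcb : c ≠ b := (Finset.mem_erase.1 hcσ).1
  have hcs : c ∈ σ := (Finset.mem_erase.1 hcσ).2
  have hcG := mem_Gx.1 (hσG hcs)
  obtain ⟨-, hspan⟩ := zrank hZ h Ξ σ hσ c hcs hc
  obtain ⟨L, hL⟩ := zfac_ext (vR v) σ hσi (fun i => if i = b then 1 else 0)
  have hLb : L (vR v b) = 1 := by rw [hL b hb, if_pos rfl]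
  have hLt : ∀ t ∈ σ.erase b, L (vR v t) = 0 := by
    intro t ht
    rw [hL t (Finset.mem_erase.1 ht).2, if_neg (Finset.mem_erase.1 ht).1]
  -- `L` is the coefficient
  have hLcf : ∀ y : κ → ℝ, (∀ ω ∈ Ξ, prR (φ ω) y = 0) → L y = cf (vR v) σ y b := by
    intro y hy
    have h1 := cf_sum (hspan y hy)
    conv_lhs => rw [h1]
    rw [map_sum]
    have h2 : ∀ i ∈ σ, L (cf (vR v) σ y i • vR v i) = if i = b then cf (vR v) σ y b else 0 := by
      intro i hi
      rw [map_smul, hL i hi]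
      split_ifs with h3
      · rw [h3]; simp
      · simp
    rw [Finset.sum_congr rfl h2, Finset.sum_ite_eq' σ b, if_pos hb]
  have hLG : ∀ u ∈ Gx v φ Ξ, 0 ≤ L (vR v u) := by
    intro u hu
    rw [hLcf]
    · exact hno u hu
    · intro ω hω
      rw [prR_vR, mem_Gx.1 hu ω hω]
      simp
  -- the points `y_ω`
  have hy : ∀ ω : Ω, ∃ y : κ → ℝ, (∀ ω', pr (φ ω') (v c) = 0 →
      prR (φ ω') y = if ω' = ω then 1 else 0) ∧
      ∀ ω', pr (φ ω') (v c) ≠ 0 → 0 < prR (φ ω') y :=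
    fun ω => zloc hZ c hc (fun ω' => if ω' = ω then 1 else 0)
  choose yy hyy1 hyy2 using hy
  have hyK : ∀ ω, ω ∉ Ξ → ∀ ω' ∈ Ξ, prR (φ ω') (yy ω) = 0 := by
    intro ω hω ω' hω'
    rw [hyy1 ω ω' (hcG ω' hω'), if_neg]
    rintro rfl
    exact hω hω'
  have hyL : ∀ ω, ω ∉ Ξ → 0 ≤ L (yy ω) := by
    intro ω hω
    obtain ⟨x, hx0, hxG, hxy⟩ := zcone hZ Ξ (yy ω) (by
      intro ω'
      by_cases h0 : pr (φ ω') (v c) = 0
      · rw [hyy1 ω ω' h0]
        split_ifs <;> norm_num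
      · exact (hyy2 ω ω' h0).le) (hyK ω hω)
    rw [hxy, map_sum]
    refine Finset.sum_nonneg fun i _ => ?_
    rw [map_smul, smul_eq_mul]
    by_cases hi : i ∈ Gx v φ Ξ
    · exact mul_nonneg (hx0 i) (hLG i hi)
    · rw [hxG i hi, zero_mul]
  -- the functionals vanishing at `c`
  set Oc : Finset Ω := univ.filter (fun ω => pr (φ ω) (v c) = 0) with hOc
  have hmemOc : ∀ ω, ω ∈ Oc ↔ pr (φ ω) (v c) = 0 := fun ω => by simp [hOc]
  have hexp : ∀ y : κ → ℝ, (∀ ω ∈ Ξ, prR (φ ω) y = 0) →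
      L y = ∑ ω ∈ Oc \ Ξ, prR (φ ω) y * L (yy ω) := by
    intro y hy
    have hz : ∀ ω' ∈ Oc, prR (φ ω') (y - ∑ ω ∈ Oc \ Ξ, prR (φ ω) y • yy ω) = 0 := by
      intro ω' hω'
      have h1 : prR (φ ω') (y - ∑ ω ∈ Oc \ Ξ, prR (φ ω) y • yy ω) =
          prR (φ ω') y - ∑ ω ∈ Oc \ Ξ, prR (φ ω) y * prR (φ ω') (yy ω) := by
        have h2 := map_sub (zfac_lin (φ ω')) y (∑ ω ∈ Oc \ Ξ, prR (φ ω) y • yy ω)
        rw [map_sum] at h2
        simp only [map_smul, smul_eq_mul] at h2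
        exact h2
      rw [h1]
      have h3 : ∀ ω ∈ Oc \ Ξ, prR (φ ω) y * prR (φ ω') (yy ω) =
          if ω = ω' then prR (φ ω') y else 0 := by
        intro ω _
        rw [hyy1 ω ω' ((hmemOc ω').1 hω')]
        by_cases h4 : ω' = ω
        · subst h4; simp
        · rw [if_neg h4, if_neg (fun h5 => h4 h5.symm), mul_zero]
      rw [Finset.sum_congr rfl h3, Finset.sum_ite_eq' (Oc \ Ξ) ω']
      by_cases h6 : ω' ∈ Ξ
      · rw [if_neg (by simp [h6]), hy ω' h6, sub_zero]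
      · rw [if_pos (Finset.mem_sdiff.2 ⟨hω', h6⟩), sub_self]
    have hcc := hZ.card c hc
    obtain ⟨β, hβ⟩ := zrank2 hZ Oc {c} (hσi.mono (by
        intro t ht
        rw [Finset.coe_singleton, Set.mem_singleton_iff] at ht
        rw [ht]; exact hcs))
      (by
        intro t ht
        rw [Finset.mem_singleton] at ht
        rw [ht]
        exact mem_Gx.2 fun ω hω => (hmemOc ω).1 hω)
      (by
        rw [Finset.card_singleton, add_comm]
        rw [← hcc])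
      c (Finset.mem_singleton_self c) hc _ hz
    rw [Finset.sum_singleton] at hβ
    have h7 : L (y - ∑ ω ∈ Oc \ Ξ, prR (φ ω) y • yy ω) = 0 := by
      rw [hβ, map_smul, hLt c hcσ, smul_zero]
    rw [map_sub, map_sum, sub_eq_zero] at h7
    rw [h7]
    exact Finset.sum_congr rfl fun ω _ => by rw [map_smul, smul_eq_mul]
  have hG0 : ∀ t ∈ σ, ∀ ω ∈ Ξ, prR (φ ω) (vR v t) = 0 := by
    intro t ht ω hω
    rw [prR_vR, mem_Gx.1 (hσG ht) ω hω]
    simp
  -- choice of `ω`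
  obtain ⟨ω, hω, hωpos⟩ : ∃ ω ∈ Oc \ Ξ, 0 < prR (φ ω) (vR v b) * L (yy ω) := by
    have h1 := hexp (vR v b) (hG0 b hb)
    rw [hLb] at h1
    by_contra hcon
    push Not at hcon
    have h2 := Finset.sum_nonpos hcon
    linarith
  have hωΞ : ω ∉ Ξ := (Finset.mem_sdiff.1 hω).2
  have hprn : ∀ ω t, 0 ≤ prR (φ ω) (vR v t) := by
    intro ω t
    rw [prR_vR]
    exact_mod_cast hZ.nn t ω
  have hx0 := hyL ω hωΞ
  have hxpos : 0 < L (yy ω) := by
    rcases hx0.lt_or_eq with h1 | h1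
    · exact h1
    · rw [← h1, mul_zero] at hωpos
      exact absurd hωpos (lt_irrefl _)
  have hbpos : 0 < pr (φ ω) (v b) := by
    have h1 : 0 < prR (φ ω) (vR v b) := by
      rcases (hprn ω b).lt_or_eq with h1 | h1
      · exact h1
      · rw [← h1, zero_mul] at hωpos
        exact absurd hωpos (lt_irrefl _)
    rw [prR_vR] at h1
    exact_mod_cast h1
  have hvan : ∀ t ∈ σ.erase b, pr (φ ω) (v t) = 0 := by
    intro t ht
    have h1 := hexp (vR v t) (hG0 t (Finset.mem_erase.1 ht).2)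
    rw [hLt t ht] at h1
    have h2 := (Finset.sum_eq_zero_iff_of_nonneg (fun ω' hω' =>
      mul_nonneg (hprn ω' t) (hyL ω' (Finset.mem_sdiff.1 hω').2))).1 h1.symm ω hω
    rcases mul_eq_zero.1 h2 with h3 | h3
    · rw [prR_vR] at h3
      exact_mod_cast h3
    · exact absurd h3 hxpos.ne'
  refine ⟨ω, hωΞ, hbpos, hvan, ?_, ?_⟩
  · rw [mem_TT]
    refine ⟨⟨?_, hσi.mono (by exact_mod_cast Finset.erase_subset b σ), ?_⟩, ?_⟩
    · intro t ht
      rw [mem_Gx]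
      intro ω' hω'
      rcases Finset.mem_insert.1 hω' with h1 | h1
      · rw [h1]; exact hvan t ht
      · exact mem_Gx.1 (hσG (Finset.mem_erase.1 ht).2) ω' h1
    · intro l hl hlσ β hβ
      have hlb : l ≠ b := by
        rintro rfl
        have h1 := mem_Gx.1 hl ω (Finset.mem_insert_self _ _)
        rw [h1] at hbpos
        exact absurd hbpos (lt_irrefl _)
      have hls : l ∉ σ := fun h1 => hlσ (Finset.mem_erase.2 ⟨hlb, h1⟩)
      have hlG : l ∈ Gx v φ Ξ := Gx_mono (Finset.subset_insert ω Ξ) hl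
      have e1 : ∑ i ∈ σ, (if i = b then 0 else β i) • vR v i =
          ∑ i ∈ σ.erase b, β i • vR v i := by
        rw [← Finset.add_sum_erase σ _ hb, if_pos rfl, zero_smul, zero_add]
        exact Finset.sum_congr rfl fun i hi => by rw [if_neg (Finset.mem_erase.1 hi).1]
      have e2 : ∑ i ∈ σ, (if i = b then 0 else β i) * h i =
          ∑ i ∈ σ.erase b, β i * h i := by
        rw [← Finset.add_sum_erase σ _ hb, if_pos rfl, zero_mul, zero_add]
        exact Finset.sum_congr rfl fun i hi => by rw [if_neg (Finset.mem_erase.1 hi).1]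
      have h2 := hσu l hlG hls (fun i => if i = b then 0 else β i) (by rw [e1]; exact hβ)
      rw [e2] at h2
      exact h2
    · rw [Finset.card_erase_of_mem hb, Finset.card_insert_of_notMem hωΞ]
      have h1 : 0 < σ.card := Finset.card_pos.2 ⟨b, hb⟩
      omega
  · intro ω' hω' hvan'
    by_contra hne
    obtain ⟨β, hβ⟩ := hspan (yy ω') (hyK ω' hω')
    have hcω : pr (φ ω) (v c) = 0 := hvan c hcσ
    have hcω' : pr (φ ω') (v c) = 0 := hvan' c hcσ
    have key : ∀ ω'' : Ω, (∀ t ∈ σ.erase b, pr (φ ω'') (v t) = 0) →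
        prR (φ ω'') (yy ω') = β b * (pr (φ ω'') (v b) : ℝ) := by
      intro ω'' h1
      have h2 := congrArg (zfac_lin (φ ω'')) hβ
      rw [map_sum] at h2
      simp only [map_smul, smul_eq_mul] at h2
      have h3 : ∑ i ∈ σ, β i * zfac_lin (φ ω'') (vR v i) = β b * (pr (φ ω'') (v b) : ℝ) := by
        rw [← Finset.add_sum_erase σ _ hb]
        have h4 : ∑ i ∈ σ.erase b, β i * zfac_lin (φ ω'') (vR v i) = 0 := by
          refine Finset.sum_eq_zero fun i hi => ?_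
          have h5 : zfac_lin (φ ω'') (vR v i) = (pr (φ ω'') (v i) : ℝ) := prR_vR (v := v) _ _
          rw [h5, h1 i hi]
          simp
        have h6 : zfac_lin (φ ω'') (vR v b) = (pr (φ ω'') (v b) : ℝ) := prR_vR (v := v) _ _
        rw [h4, h6, add_zero]
      exact h2.trans h3
    have h1 := key ω hvan
    rw [hyy1 ω' ω hcω, if_neg (fun h2 => hne h2.symm)] at h1
    have h2 := key ω' hvan'
    rw [hyy1 ω' ω' hcω', if_pos rfl] at h2
    have h3 : (0 : ℝ) < (pr (φ ω) (v b) : ℝ) := by exact_mod_cast hbpos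
    have h4 : β b = 0 := by
      rcases mul_eq_zero.1 h1.symm with h5 | h5
      · exact h5
      · exact absurd h5 h3.ne'
    rw [h4, zero_mul] at h2
    exact one_ne_zero h2

end Pool.Agent.H37.T5
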