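import Pool.Agent.H37.T5.ZVOL

/-!
# ZVOLB: the multiplicity of a pyramid over a facet

`zvol2`: `mul(τ + b) * ν(Ξ + ω) * 1 = φ_ω(b) * mul(τ) * ν(Ξ)` if `τ + b` independent with `|τ| + 1 + |Ξ| = D`, `φ` vanishes on `τ + b` for `Ξ`, `φ_ω` vanishes on `τ`, `φ_ω(b) > 0`.  `Ξ + ω` is independent (evaluate at `b`; `hΞ`).  Choose `u_ω'` (`ω' ∈ Ξ`) with `det(φ_ω''(u_ω')) ≠ 0` (exists since `Ξ` is independent over `ℝ`, hence the integral matrix `φ_Ξ` has a nonzero minor: unit vectors `u`).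
`zvol` for `(τ + b, Ξ, u)` and for `(τ, Ξ + ω, (b, u))`: the matrix `φ_{Ξ+ω}(b, u)` is block triangular with `φ_Ξ(b) = 0`: its determinant is `± φ_ω(b) det φ_Ξ(u)`; the big determinants agree up to sign.
-/

set_option autoImplicit false

namespace Pool.Agent.H37.T5

open Finset H60.RegTri

variable {ι κ Ω : Type} [Fintype ι] [DecidableEq ι] [Fintype κ] [DecidableEq κ] [Fintype Ω]
  [DecidableEq Ω]

/-- the Gram determinant of independent integral functionals -/
private theorem ZVOLB_gram {κ Ω : Type} [Fintype κ] [Fintype Ω] [DecidableEq Ω] (φ : Ω → κ → ℤ)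
    (Ξ : Finset Ω) (hΞ : LinearIndepOn ℝ (vR φ) (Ξ : Set Ω)) :
    (Matrix.of fun ω ω' : Ξ => pr (φ ω) (φ ω')).det ≠ 0 := by
  intro hdet
  obtain ⟨x, hx0, hx⟩ := Matrix.exists_mulVec_eq_zero_iff.2 hdet
  apply hx0
  have h1 : ∀ ω : Ξ, ∑ ω' : Ξ, pr (φ ω) (φ ω') * x ω' = 0 := fun ω => congrFun hx ω
  have h2 : ∑ j, (∑ ω : Ξ, x ω * φ ω j) * (∑ ω : Ξ, x ω * φ ω j) = 0 := by
    calc ∑ j, (∑ ω : Ξ, x ω * φ ω j) * (∑ ω : Ξ, x ω * φ ω j)
        = ∑ ω : Ξ, x ω * ∑ ω' : Ξ, pr (φ ω) (φ ω') * x ω' := by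
          simp only [pr, Finset.sum_mul, Finset.mul_sum]
          rw [Finset.sum_comm]
          refine Finset.sum_congr rfl fun ω _ => ?_
          rw [Finset.sum_comm]
          refine Finset.sum_congr rfl fun ω' _ => Finset.sum_congr rfl fun j _ => ?_
          ring
      _ = 0 := Finset.sum_eq_zero fun ω _ => by rw [h1, mul_zero]
  have h3 : ∀ j, ∑ ω : Ξ, x ω * φ ω j = 0 := by
    intro j
    have := (Finset.sum_eq_zero_iff_of_nonneg fun j _ => mul_self_nonneg _).1 h2 j (Finset.mem_univ j)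
    exact mul_self_eq_zero.1 this
  have h4 := Fintype.linearIndependent_iff.1 hΞ (fun ω => (x ω : ℝ)) (by
    funext j
    rw [Finset.sum_apply, Pi.zero_apply]
    have := h3 j
    have h5 : ((∑ ω : Ξ, x ω * φ ω j : ℤ) : ℝ) = 0 := by rw [this]; simp
    push_cast at h5
    exact h5)
  funext ω
  exact_mod_cast h4 ω

/-- ZVOL2 -/
theorem zvol2 (v : ι → κ → ℤ) (φ : Ω → κ → ℤ) (τ : Finset ι) (b : ι) (hbτ : b ∉ τ)
    (Ξ : Finset Ω) (ω : Ω) (hωΞ : ω ∉ Ξ)
    (hB : LinearIndepOn ℝ (vR v) ((insert b τ : Finset ι) : Set ι))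
    (hΞ : LinearIndepOn ℝ (vR φ) (Ξ : Set Ω))
    (h0 : ∀ i ∈ insert b τ, ∀ ω ∈ Ξ, pr (φ ω) (v i) = 0)
    (hc : (insert b τ).card + Ξ.card = Fintype.card κ)
    (hω : ∀ i ∈ τ, pr (φ ω) (v i) = 0) (hωb : 0 < pr (φ ω) (v b)) :
    (mulv v (insert b τ) : ℤ) * mulv φ (insert ω Ξ) = pr (φ ω) (v b) * mulv v τ * mulv φ Ξ := by
  -- `insert ω Ξ` is independent
  have hΞ' : LinearIndepOn ℝ (vR φ) ((insert ω Ξ : Finset Ω) : Set Ω) := by
    rw [Finset.coe_insert]
    refine hΞ.insert ?_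
    intro hmem
    set L : (κ → ℝ) →ₗ[ℝ] ℝ := ∑ j, (v b j : ℝ) • LinearMap.proj j with hL
    have hLa : ∀ ω' : Ω, L (vR φ ω') = (pr (φ ω') (v b) : ℝ) := by
      intro ω'
      simp only [hL, LinearMap.sum_apply, LinearMap.smul_apply, LinearMap.proj_apply, smul_eq_mul, vR, pr]
      push_cast
      exact Finset.sum_congr rfl fun j _ => mul_comm _ _
    have h1 : Submodule.span ℝ (vR φ '' (Ξ : Set Ω)) ≤ LinearMap.ker L := by
      rw [Submodule.span_le]
      rintro _ ⟨ω', hω', rfl⟩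
      rw [SetLike.mem_coe, LinearMap.mem_ker, hLa, h0 b (Finset.mem_insert_self b τ) ω' hω']
      simp
    have h2 := h1 hmem
    rw [LinearMap.mem_ker, hLa] at h2
    have h3 : pr (φ ω) (v b) = 0 := by exact_mod_cast h2
    omega
  have hτ : LinearIndepOn ℝ (vR v) (τ : Set ι) :=
    hB.mono (by rw [Finset.coe_insert]; exact Set.subset_insert _ _)
  have hcardτ : (insert b τ).card = τ.card + 1 := Finset.card_insert_of_notMem hbτ
  have hcardΞ : (insert ω Ξ).card = Ξ.card + 1 := Finset.card_insert_of_notMem hωΞ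
  -- the equivalences
  have hce : Fintype.card ((insert b τ : Finset ι) ⊕ Ξ) = Fintype.card κ := by
    rw [Fintype.card_sum, Fintype.card_coe, Fintype.card_coe, hc]
  set e : ((insert b τ : Finset ι) ⊕ Ξ) ≃ κ := Fintype.equivOfCardEq hce with he
  set r : (τ ⊕ (insert ω Ξ : Finset Ω)) → ((insert b τ : Finset ι) ⊕ Ξ) :=
    Sum.elim (fun i => Sum.inl ⟨i, Finset.mem_insert_of_mem i.2⟩)
      (fun ω'' => if h : (ω'' : Ω) = ω then Sum.inl ⟨b, Finset.mem_insert_self b τ⟩
        else Sum.inr ⟨ω'', Finset.mem_of_mem_insert_of_ne ω''.2 h⟩) with hr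
  have hrinj : Function.Injective r := by
    rintro (i | w) (i' | w') h
    · simp only [hr, Sum.elim_inl, Sum.inl.injEq, Subtype.mk.injEq] at h
      rw [Subtype.ext h]
    · simp only [hr, Sum.elim_inl, Sum.elim_inr] at h
      split_ifs at h with h1
      · simp only [Sum.inl.injEq, Subtype.mk.injEq] at h
        exact absurd (h ▸ i.2) hbτ
    · simp only [hr, Sum.elim_inl, Sum.elim_inr] at h
      split_ifs at h with h1
      · simp only [Sum.inl.injEq, Subtype.mk.injEq] at h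
        exact absurd (h ▸ i'.2) hbτ
    · simp only [hr, Sum.elim_inr] at h
      split_ifs at h with h1 h2 h2
      · rw [Subtype.ext (h1.trans h2.symm)]
      · simp only [Sum.inr.injEq, Subtype.mk.injEq] at h
        rw [Subtype.ext h]
  have hrbij : Function.Bijective r := by
    rw [Fintype.bijective_iff_injective_and_card]
    refine ⟨hrinj, ?_⟩
    rw [Fintype.card_sum, Fintype.card_sum, Fintype.card_coe, Fintype.card_coe, Fintype.card_coe,
      Fintype.card_coe, hcardτ, hcardΞ]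
    omega
  set ρ : (τ ⊕ (insert ω Ξ : Finset Ω)) ≃ ((insert b τ : Finset ι) ⊕ Ξ) := Equiv.ofBijective r hrbij
    with hρ
  have hρr : ∀ x, ρ x = r x := fun x => rfl
  set W : ((insert b τ : Finset ι) ⊕ Ξ) → κ → ℤ :=
    Sum.elim (fun i : (insert b τ : Finset ι) => v i) (fun ω : Ξ => φ ω) with hW
  have key1 := zvol v φ (insert b τ) Ξ hB hΞ h0 hc e (fun ω => φ ω)
  have key2 := zvol v φ τ (insert ω Ξ) hτ hΞ' (by
    intro i hi ω' hω'
    rcases Finset.mem_insert.1 hω' with h | h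
    · rw [h]
      exact hω i hi
    · exact h0 i (Finset.mem_insert_of_mem hi) ω' h) (by omega) (ρ.trans e)
    (fun ω'' => W (ρ (Sum.inr ω'')))
  -- the big determinants agree
  have hbig : (Matrix.of fun x y : τ ⊕ (insert ω Ξ : Finset Ω) =>
        Sum.elim (fun i : τ => v i) (fun ω'' : (insert ω Ξ : Finset Ω) => W (ρ (Sum.inr ω''))) x
          ((ρ.trans e) y)).det =
      (Matrix.of fun x y : (insert b τ : Finset ι) ⊕ Ξ => W x (e y)).det := by
    rw [← Matrix.det_submatrix_equiv_self ρ (Matrix.of fun x y : (insert b τ : Finset ι) ⊕ Ξ => W x (e y))]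
    congr 1
    ext x y
    rw [Matrix.submatrix_apply, Matrix.of_apply, Matrix.of_apply]
    rcases x with i | w
    · rfl
    · rfl
  -- the small determinants
  have hsmall : (Matrix.of fun w w' : (insert ω Ξ : Finset Ω) =>
        pr (φ w) (W (ρ (Sum.inr w')))).det =
      pr (φ ω) (v b) * (Matrix.of fun w w' : Ξ => pr (φ w) (φ w')).det := by
    set s : (Unit ⊕ Ξ) → (insert ω Ξ : Finset Ω) :=
      Sum.elim (fun _ => ⟨ω, Finset.mem_insert_self ω Ξ⟩)
        (fun w => ⟨w, Finset.mem_insert_of_mem w.2⟩) with hs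
    have hsinj : Function.Injective s := by
      rintro (i | w) (i' | w') h
      · rfl
      · simp only [hs, Sum.elim_inl, Sum.elim_inr, Subtype.mk.injEq] at h
        exact absurd (h ▸ w'.2) hωΞ
      · simp only [hs, Sum.elim_inl, Sum.elim_inr, Subtype.mk.injEq] at h
        exact absurd (h ▸ w.2) hωΞ
      · simp only [hs, Sum.elim_inr, Subtype.mk.injEq] at h
        rw [Subtype.ext h]
    have hsbij : Function.Bijective s := by
      rw [Fintype.bijective_iff_injective_and_card]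
      refine ⟨hsinj, ?_⟩
      rw [Fintype.card_sum, Fintype.card_coe, Fintype.card_coe, hcardΞ, Fintype.card_unit]
      omega
    have hWω : W (ρ (Sum.inr ⟨ω, Finset.mem_insert_self ω Ξ⟩)) = v b := by
      rw [hρr]
      simp [hr, hW]
    have hWw : ∀ w : Ξ, W (ρ (Sum.inr ⟨w, Finset.mem_insert_of_mem w.2⟩)) = φ w := by
      intro w
      rw [hρr]
      have hne : (w : Ω) ≠ ω := fun h => hωΞ (h ▸ w.2)
      simp [hr, hW, hne]
    rw [← Matrix.det_submatrix_equiv_self (Equiv.ofBijective s hsbij)]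
    have hblock : (Matrix.of fun w w' : (insert ω Ξ : Finset Ω) =>
          pr (φ w) (W (ρ (Sum.inr w')))).submatrix (Equiv.ofBijective s hsbij)
          (Equiv.ofBijective s hsbij) =
        Matrix.fromBlocks (Matrix.of fun _ _ : Unit => pr (φ ω) (v b))
          (Matrix.of fun (_ : Unit) (w' : Ξ) => pr (φ ω) (φ w')) 0
          (Matrix.of fun w w' : Ξ => pr (φ w) (φ w')) := by
      ext x y
      rcases x with x | x <;> rcases y with y | y
      · rw [Matrix.fromBlocks_apply₁₁]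
        show pr (φ ω) (W (ρ (Sum.inr ⟨ω, Finset.mem_insert_self ω Ξ⟩))) = pr (φ ω) (v b)
        rw [hWω]
      · rw [Matrix.fromBlocks_apply₁₂]
        show pr (φ ω) (W (ρ (Sum.inr ⟨y, Finset.mem_insert_of_mem y.2⟩))) = pr (φ ω) (φ y)
        rw [hWw]
      · rw [Matrix.fromBlocks_apply₂₁]
        show pr (φ x) (W (ρ (Sum.inr ⟨ω, Finset.mem_insert_self ω Ξ⟩))) = 0
        rw [hWω]
        exact h0 b (Finset.mem_insert_self b τ) x x.2
      · rw [Matrix.fromBlocks_apply₂₂]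
        show pr (φ x) (W (ρ (Sum.inr ⟨y, Finset.mem_insert_of_mem y.2⟩))) = pr (φ x) (φ y)
        rw [hWw]
    rw [hblock, Matrix.det_fromBlocks_zero₂₁, Matrix.det_unique]
    rfl
  rw [hbig, hsmall, abs_mul, abs_of_pos hωb] at key2
  have hd := ZVOLB_gram φ Ξ hΞ
  set d : ℤ := |(Matrix.of fun w w' : Ξ => pr (φ w) (φ w')).det| with hddef
  have hd0 : d ≠ 0 := by
    rw [hddef]
    exact abs_ne_zero.2 hd
  apply mul_right_cancel₀ hd0
  have key1' : (mulv v (insert b τ) : ℤ) * d =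
      (mulv φ Ξ : ℤ) * |(Matrix.of fun x y : (insert b τ : Finset ι) ⊕ Ξ => W x (e y)).det| := key1
  linear_combination (mulv φ (insert ω Ξ) : ℤ) * key1' - (mulv φ Ξ : ℤ) * key2

end Pool.Agent.H37.T5
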