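import Pool.Agent.H37.T5.ZEXT
import Pool.Agent.H37.T5.ZVOLB
import Pool.Agent.H37.T5.ZFAC

/-!
# ZBD: the boundary pairs

Bijection between the pairs `(σ, b) ∈ PrB` and the pairs `(ω, τ)`, `ω ∉ Ξ`, `τ ∈ TC (insert ω Ξ)`: `(σ, b) ↦ (ω, σ.erase b)` with `ω` from `zfac` (`¬ Neg` gives `hno`; the critical ray in `σ.erase b` from `PrT`, `hCl`); conversely `τ` contains a `c ∈ Cl`, critical, `c ∈ Gx (insert ω Ξ)`; `zgx` gives `u ∈ Gx Ξ` with `φ_ω(u) > 0`; `zext` with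
`G = Gx Ξ`, `ψ = prR (φ ω)` (its zero set in `G` is `Gx (insert ω Ξ)`), `hspan` by `zrank2` for `insert u τ` (independent, cardinality `|κ| - |Ξ|`), gives a unique `b`, and `(insert b τ, b) ∈ PrB`: not `Neg` since for `u ∈ Gx Ξ` with coefficient `β` at `b`: `0 ≤ φ_ω(u) = β φ_ω(b)` (`φ_ω` vanishes on `τ`).
Uniqueness in `zext` and in `zfac` shows that the maps are inverse (`Finset.sum_bij` or `sum_sigma`, `sum_nbij'`).  Terms: with `σ = insert b τ`: `φ_ω(e) = c_b φ_ω(b)` (`e = ∑ c_i v_i` by `zrank`), and `mul(σ) ν(Ξ+ω) = φ_ω(b) mul(τ) ν(Ξ)` (`zvol2`), so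
`ν(Ξ)⁻¹ c_b mul(σ) P = φ_ω(e) ν(Ξ+ω)⁻¹ mul(τ) P` with `P = ∏_τ 1/V`, i.e. `ν(Ξ)⁻¹ cE * tmE σ b = φ_ω(e) ν(Ξ+ω)⁻¹ tmv τ` (`mulv_ne`).
-/

set_option autoImplicit false

namespace Pool.Agent.H37.T5

open Finset H60.RegTri

variable {ι κ Ω : Type} [Fintype ι] [DecidableEq ι] [Fintype κ] [DecidableEq κ] [Fintype Ω]
  [DecidableEq Ω] {v : ι → κ → ℤ} {φ : Ω → κ → ℤ} {A B : κ → ℤ} {s0 : ℂ}

/-- `prR x` as a linear map -/
private def ZBD_psi {κ : Type} [Fintype κ] (x : κ → ℤ) : (κ → ℝ) →ₗ[ℝ] ℝ where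
  toFun := prR x
  map_add' := fun y z => by
    simp only [prR, Pi.add_apply, mul_add, Finset.sum_add_distrib]
  map_smul' := fun c y => by
    simp only [prR, Pi.smul_apply, smul_eq_mul, RingHom.id_apply, Finset.mul_sum]
    refine Finset.sum_congr rfl fun i _ => ?_
    ring

private theorem ZBD_psi_apply {κ : Type} [Fintype κ] (x : κ → ℤ) (y : κ → ℝ) : ZBD_psi x y = prR x y := rfl

private theorem ZBD_psi_v {ι κ : Type} [Fintype κ] (v : ι → κ → ℤ) (x : κ → ℤ) (i : ι) :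
    ZBD_psi x (vR v i) = (pr x (v i) : ℝ) := by
  rw [ZBD_psi_apply]
  simp only [prR, vR, pr]
  push_cast
  rfl

/-- apply `φ_ω` to a combination over `insert b τ`, `φ_ω` vanishing on `τ` -/
private theorem ZBD_comb {ι κ : Type} [DecidableEq ι] [Fintype κ] (v : ι → κ → ℤ) (x : κ → ℤ)
    (τ : Finset ι) (b : ι) (hb : b ∉ τ) (hτ : ∀ t ∈ τ, pr x (v t) = 0) (β : ι → ℝ) :
    prR x (∑ i ∈ insert b τ, β i • vR v i) = β b * (pr x (v b) : ℝ) := by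
  rw [← ZBD_psi_apply, map_sum, Finset.sum_insert hb, Finset.sum_eq_zero, add_zero, map_smul, ZBD_psi_v,
    smul_eq_mul]
  intro t ht
  rw [map_smul, ZBD_psi_v, hτ t ht, Int.cast_zero, smul_zero]

omit [DecidableEq κ] in
private theorem ZBD_fac (hZ : ZS v φ A B s0) (h : ι → ℝ) (Cl : Finset ι)
    (hCl : ∀ c ∈ Cl, IsCr A B s0 (v c)) (Ξ : Finset Ω) (p : Finset ι × ι) (hp : p ∈ PrB v φ h Cl Ξ) :
    ∃ ω, ω ∉ Ξ ∧ 0 < pr (φ ω) (v p.2) ∧ (∀ t ∈ p.1.erase p.2, pr (φ ω) (v t) = 0) ∧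
      p.1.erase p.2 ∈ TC v φ h Cl (insert ω Ξ) ∧
      ∀ ω', ω' ∉ Ξ → (∀ t ∈ p.1.erase p.2, pr (φ ω') (v t) = 0) → ω' = ω := by
  obtain ⟨hT, hN⟩ := mem_PrB.1 hp
  obtain ⟨hTC, hb, c, hc, hcb, hcCl⟩ := mem_PrT.1 hT
  have hTT := (mem_TC.1 hTC).1
  have hno : ∀ u ∈ Gx v φ Ξ, 0 ≤ cf (vR v) p.1 (vR v u) p.2 := by
    intro u hu
    by_contra hlt
    exact hN ⟨u, hu, not_le.mp hlt⟩
  obtain ⟨ω, h1, h2, h3, h4, h5⟩ := zfac hZ h Ξ p.1 hTT p.2 hb c (Finset.mem_erase.mpr ⟨hcb, hc⟩) (hCl c hcCl) hno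
  exact ⟨ω, h1, h2, h3, mem_TC.2 ⟨h4, c, Finset.mem_erase.mpr ⟨hcb, hc⟩, hcCl⟩, h5⟩

omit [DecidableEq κ] in
private theorem ZBD_ext (hZ : ZS v φ A B s0) (h : ι → ℝ) (hgen : ∀ τ, GenericOn (vR v) h τ) (Cl : Finset ι)
    (hCl : ∀ c ∈ Cl, IsCr A B s0 (v c)) (Ξ : Finset Ω) (ω : Ω) (hω : ω ∉ Ξ) (τ : Finset ι)
    (hτ : τ ∈ TC v φ h Cl (insert ω Ξ)) :
    ∃ b, b ∈ Gx v φ Ξ ∧ 0 < pr (φ ω) (v b) ∧ b ∉ τ ∧ (∀ t ∈ τ, pr (φ ω) (v t) = 0) ∧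
      (insert b τ, b) ∈ PrB v φ h Cl Ξ ∧
      ∀ b' ∈ Gx v φ Ξ, 0 < pr (φ ω) (v b') → UpperOn (vR v) h (Gx v φ Ξ) (insert b' τ) → b' = b := by
  obtain ⟨hTT, c, hcτ, hcCl⟩ := mem_TC.1 hτ
  obtain ⟨hU, hcard⟩ := mem_TT.1 hTT
  have hcG := hU.1 hcτ
  have hcr := hCl c hcCl
  have hcΞ : c ∈ Gx v φ Ξ := Gx_mono (Finset.subset_insert ω Ξ) hcG
  have hcω : pr (φ ω) (v c) = 0 := mem_Gx.1 hcG ω (Finset.mem_insert_self _ _)
  obtain ⟨u, huG, hu⟩ := zgx hZ c hcr Ξ hcΞ ω hcω hω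
  have hτ0 : ∀ t ∈ τ, pr (φ ω) (v t) = 0 := fun t ht => mem_Gx.1 (hU.1 ht) ω (Finset.mem_insert_self _ _)
  have hcardΞ : (insert ω Ξ).card = Ξ.card + 1 := Finset.card_insert_of_notMem hω
  have hspan : ∀ u ∈ Gx v φ Ξ, 0 < ZBD_psi (φ ω) (vR v u) → ∀ l ∈ Gx v φ Ξ,
      ∃ β : ι → ℝ, vR v l = ∑ i ∈ insert u τ, β i • vR v i := by
    intro u huG hu l hl
    rw [ZBD_psi_v] at hu
    have hu' : 0 < pr (φ ω) (v u) := by exact_mod_cast hu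
    have huτ : u ∉ τ := fun hh => by rw [hτ0 u hh] at hu'; exact lt_irrefl _ hu'
    refine zrank2 hZ Ξ (insert u τ) ?_ ?_ ?_ c (Finset.mem_insert_of_mem hcτ) hcr (vR v l) ?_
    · rw [Finset.coe_insert]
      refine LinearIndepOn.insert hU.2.1 ?_
      intro hmem
      obtain ⟨β, hβ⟩ := (mem_span_iff (vR v) τ (vR v u)).1 hmem
      have h0 : ZBD_psi (φ ω) (vR v u) = 0 := by
        rw [hβ, map_sum]
        refine Finset.sum_eq_zero fun t ht => ?_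
        rw [map_smul, ZBD_psi_v, hτ0 t ht, Int.cast_zero, smul_zero]
      rw [ZBD_psi_v] at h0
      rw [h0] at hu
      exact lt_irrefl _ hu
    · intro i hi
      rcases Finset.mem_insert.1 hi with h1 | h1
      · rw [h1]; exact huG
      · exact Gx_mono (Finset.subset_insert ω Ξ) (hU.1 h1)
    · rw [Finset.card_insert_of_notMem huτ]
      omega
    · intro ω' hω'
      rw [prR_vR, mem_Gx.1 hl ω' hω', Int.cast_zero]
  obtain ⟨b, hbG, hbpos, hbU, hbuniq⟩ := zext (vR v) h hgen (Gx v φ Ξ) (ZBD_psi (φ ω))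
    (fun l _ => by rw [ZBD_psi_v]; exact_mod_cast hZ.nn l ω)
    ⟨u, huG, by rw [ZBD_psi_v]; exact_mod_cast hu⟩ τ
    (fun l hl => ⟨Gx_mono (Finset.subset_insert ω Ξ) (hU.1 hl), by rw [ZBD_psi_v, hτ0 l hl, Int.cast_zero]⟩)
    ⟨hU.2.1, fun l hl hl0 hlτ β hβ => by
      refine hU.2.2 l ?_ hlτ β hβ
      rw [ZBD_psi_v] at hl0
      have hl0' : pr (φ ω) (v l) = 0 := by exact_mod_cast hl0
      rw [mem_Gx]
      intro ω' hω'
      rcases Finset.mem_insert.1 hω' with h1 | h1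
      · rw [h1]; exact hl0'
      · exact mem_Gx.1 hl ω' h1⟩
    hspan
  have hbpos' : 0 < pr (φ ω) (v b) := by
    rw [ZBD_psi_v] at hbpos
    exact_mod_cast hbpos
  have hbτ : b ∉ τ := fun hh => by rw [hτ0 b hh] at hbpos'; exact lt_irrefl _ hbpos'
  refine ⟨b, hbG, hbpos', hbτ, hτ0, ?_, ?_⟩
  · rw [mem_PrB, mem_PrT, mem_TC, mem_TT]
    refine ⟨⟨⟨⟨hbU, ?_⟩, c, Finset.mem_insert_of_mem hcτ, hcCl⟩, Finset.mem_insert_self _ _, c,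
      Finset.mem_insert_of_mem hcτ, ?_, hcCl⟩, ?_⟩
    · show (insert b τ).card + Ξ.card = _
      rw [Finset.card_insert_of_notMem hbτ]
      omega
    · show c ≠ b
      intro hh
      rw [hh] at hcτ
      exact hbτ hcτ
    · rintro ⟨u, hu, hneg⟩
      have hrep := cf_sum (hspan b hbG hbpos u hu)
      have h1 : prR (φ ω) (vR v u) = cf (vR v) (insert b τ) (vR v u) b * (pr (φ ω) (v b) : ℝ) := by
        conv_lhs => rw [hrep]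
        exact ZBD_comb v (φ ω) τ b hbτ hτ0 _
      rw [prR_vR] at h1
      have h2 : (0 : ℝ) ≤ (pr (φ ω) (v u) : ℝ) := by exact_mod_cast hZ.nn u ω
      have h3 : (0 : ℝ) < (pr (φ ω) (v b) : ℝ) := by exact_mod_cast hbpos'
      have h4 : cf (vR v) (insert b τ) (vR v u) b < 0 := hneg
      have h5 := mul_neg_of_neg_of_pos h4 h3
      linarith
  · intro b' hb' hpos' hU'
    exact hbuniq b' hb' (by rw [ZBD_psi_v]; exact_mod_cast hpos') hU'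

private theorem ZBD_term (hZ : ZS v φ A B s0) (h : ι → ℝ) (Cl : Finset ι)
    (hCl : ∀ c ∈ Cl, IsCr A B s0 (v c)) (Ξ : Finset Ω) (e : κ → ℤ)
    (he : ∀ ω ∈ Ξ, pr (φ ω) e = 0) (p : Finset ι × ι) (hp : p ∈ PrB v φ h Cl Ξ) (ω : Ω)
    (hω : ω ∉ Ξ) (hpos : 0 < pr (φ ω) (v p.2)) (h0 : ∀ t ∈ p.1.erase p.2, pr (φ ω) (v t) = 0) :
    (mulv φ Ξ : RatFunc ℂ)⁻¹ * (cE v p.1 e p.2 * tmE A B v p.1 p.2) =
      (pr (φ ω) e : RatFunc ℂ) * ((mulv φ (insert ω Ξ) : RatFunc ℂ)⁻¹ * tmv A B v (p.1.erase p.2)) := by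
  obtain ⟨σ, b⟩ := p
  obtain ⟨hT, -⟩ := mem_PrB.1 hp
  obtain ⟨hTC, hb, c, hc, hcb, hcCl⟩ := mem_PrT.1 hT
  obtain ⟨hTT, -⟩ := mem_TC.1 hTC
  obtain ⟨hU, hcard⟩ := mem_TT.1 hTT
  change 0 < pr (φ ω) (v b) at hpos
  change ∀ t ∈ σ.erase b, pr (φ ω) (v t) = 0 at h0
  change b ∈ σ at hb
  change UpperOn (vR v) h (Gx v φ Ξ) σ at hU
  change σ.card + Ξ.card = Fintype.card κ at hcard
  change (mulv φ Ξ : RatFunc ℂ)⁻¹ * (cE v σ e b * tmE A B v σ b) =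
      (pr (φ ω) e : RatFunc ℂ) * ((mulv φ (insert ω Ξ) : RatFunc ℂ)⁻¹ * tmv A B v (σ.erase b))
  obtain ⟨τ, hτ⟩ : ∃ τ, τ = σ.erase b := ⟨_, rfl⟩
  have hbτ : b ∉ τ := by rw [hτ]; exact Finset.notMem_erase _ _
  have hστ : σ = insert b τ := by rw [hτ, Finset.insert_erase hb]
  rw [← hτ] at h0 ⊢
  obtain ⟨hΞ, hrep⟩ := zrank hZ h Ξ σ hTT c hc (hCl c hcCl)
  -- the coefficient
  have heR : ∀ x : κ → ℤ, prR x (fun j => (e j : ℝ)) = (pr x e : ℝ) := by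
    intro x
    simp only [prR, pr]
    push_cast
    rfl
  have hsum := cf_sum (hrep (fun j => (e j : ℝ)) (fun ω' hω' => by rw [heR, he ω' hω', Int.cast_zero]))
  have hcoef : cf (vR v) σ (fun j => (e j : ℝ)) b * (pr (φ ω) (v b) : ℝ) = (pr (φ ω) e : ℝ) := by
    rw [← heR (φ ω)]
    conv_rhs => rw [hsum]
    rw [hστ]
    exact (ZBD_comb v (φ ω) τ b hbτ h0 _).symm
  -- the volumes
  have hvol := zvol2 v φ τ b hbτ Ξ ω hω (by rw [← hστ]; exact hU.2.1) hΞ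
    (fun i hi ω' hω' => mem_Gx.1 (hU.1 (by rw [hστ]; exact hi)) ω' hω') (by rw [← hστ]; exact hcard) h0 hpos
  rw [← hστ] at hvol
  have hvol' : (mulv v σ : RatFunc ℂ) * (mulv φ (insert ω Ξ) : RatFunc ℂ) =
      (pr (φ ω) (v b) : RatFunc ℂ) * (mulv v τ : RatFunc ℂ) * (mulv φ Ξ : RatFunc ℂ) := by
    exact_mod_cast congrArg (fun z : ℤ => (z : RatFunc ℂ)) hvol
  have hcoef' : cE v σ e b * (pr (φ ω) (v b) : RatFunc ℂ) = (pr (φ ω) e : RatFunc ℂ) := by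
    unfold cE
    rw [← map_intCast (RatFunc.C : ℂ →+* RatFunc ℂ) (pr (φ ω) (v b)), ← map_mul,
      ← map_intCast (RatFunc.C : ℂ →+* RatFunc ℂ) (pr (φ ω) e)]
    congr 1
    exact_mod_cast congrArg (fun z : ℝ => (z : ℂ)) hcoef
  have hm1 : (mulv φ Ξ : RatFunc ℂ) ≠ 0 := Nat.cast_ne_zero.mpr (mulv_ne φ Ξ)
  have hm2 : (mulv φ (insert ω Ξ) : RatFunc ℂ) ≠ 0 := Nat.cast_ne_zero.mpr (mulv_ne φ _)
  unfold tmE tmv
  rw [← hτ, ← hcoef']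
  generalize (∏ i ∈ τ, (VL A B (v i))⁻¹) = P
  field_simp
  linear_combination (cE v σ e b * P) * hvol'

/-- ZBD -/
theorem zbd (hZ : ZS v φ A B s0) (h : ι → ℝ) (hgen : ∀ τ, GenericOn (vR v) h τ) (Cl : Finset ι)
    (hCl : ∀ c ∈ Cl, IsCr A B s0 (v c)) (Ξ : Finset Ω) (e : κ → ℤ)
    (he : ∀ ω ∈ Ξ, pr (φ ω) e = 0) :
    (mulv φ Ξ : RatFunc ℂ)⁻¹ * ∑ p ∈ PrB v φ h Cl Ξ, cE v p.1 e p.2 * tmE A B v p.1 p.2 =
      ∑ ω ∈ univ \ Ξ, (pr (φ ω) e : RatFunc ℂ) * JJ v φ A B h Cl (insert ω Ξ) := by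
  have hR : ∑ ω ∈ univ \ Ξ, (pr (φ ω) e : RatFunc ℂ) * JJ v φ A B h Cl (insert ω Ξ) =
      ∑ q ∈ (univ \ Ξ).sigma (fun ω => TC v φ h Cl (insert ω Ξ)),
        (pr (φ q.1) e : RatFunc ℂ) * ((mulv φ (insert q.1 Ξ) : RatFunc ℂ)⁻¹ * tmv A B v q.2) := by
    rw [Finset.sum_sigma]
    refine Finset.sum_congr rfl fun ω _ => ?_
    unfold JJ
    rw [Finset.mul_sum, Finset.mul_sum]
  rw [hR, Finset.mul_sum]
  have hfac := ZBD_fac hZ h Cl hCl Ξ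
  choose W hW1 hW2 hW3 hW4 hW5 using hfac
  refine Finset.sum_bij (fun p hp => (⟨W p hp, p.1.erase p.2⟩ : Σ _ : Ω, Finset ι)) ?_ ?_ ?_ ?_
  · intro p hp
    rw [Finset.mem_sigma]
    exact ⟨Finset.mem_sdiff.mpr ⟨Finset.mem_univ _, hW1 p hp⟩, hW4 p hp⟩
  · intro p hp p' hp' heq
    have he1 : W p hp = W p' hp' := congrArg Sigma.fst heq
    have he2 : p.1.erase p.2 = p'.1.erase p'.2 := by
      have := (Sigma.mk.inj_iff.mp heq).2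
      exact eq_of_heq this
    obtain ⟨b, hb1, hb2, hb3, hb4, hb5, hb6⟩ := ZBD_ext hZ h hgen Cl hCl Ξ (W p hp) (hW1 p hp) _ (hW4 p hp)
    have key : ∀ r : Finset ι × ι, ∀ hr : r ∈ PrB v φ h Cl Ξ, 0 < pr (φ (W p hp)) (v r.2) →
        r.1.erase r.2 = p.1.erase p.2 → r.2 = b ∧ r.1 = insert b (p.1.erase p.2) := by
      intro r hr hpos her
      obtain ⟨hT, -⟩ := mem_PrB.1 hr
      obtain ⟨hTC, hb, -⟩ := mem_PrT.1 hT
      obtain ⟨hU, -⟩ := mem_TT.1 (mem_TC.1 hTC).1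
      have hins : insert r.2 (p.1.erase p.2) = r.1 := by rw [← her, Finset.insert_erase hb]
      have h1 := hb6 r.2 (hU.1 hb) hpos (by rw [hins]; exact hU)
      exact ⟨h1, by rw [← h1, hins]⟩
    have k1 := key p hp (hW2 p hp) rfl
    have k2 := key p' hp' (by rw [he1]; exact hW2 p' hp') he2.symm
    exact Prod.ext (k1.2.trans k2.2.symm) (k1.1.trans k2.1.symm)
  · rintro ⟨ω, τ⟩ hq
    rw [Finset.mem_sigma] at hq
    have hω : ω ∉ Ξ := (Finset.mem_sdiff.mp hq.1).2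
    obtain ⟨b, hb1, hb2, hb3, hb4, hb5, hb6⟩ := ZBD_ext hZ h hgen Cl hCl Ξ ω hω τ hq.2
    refine ⟨(insert b τ, b), hb5, ?_⟩
    have her : (insert b τ).erase b = τ := Finset.erase_insert hb3
    have h1 := hW5 (insert b τ, b) hb5 ω hω (by
      intro t ht
      refine hb4 t ?_
      have : t ∈ (insert b τ).erase b := ht
      rwa [her] at this)
    show (⟨W (insert b τ, b) hb5, (insert b τ).erase b⟩ : Σ _ : Ω, Finset ι) = ⟨ω, τ⟩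
    rw [her, ← h1]
  · intro p hp
    exact ZBD_term hZ h Cl hCl Ξ e he p hp (W p hp) (hW1 p hp) (hW2 p hp) (hW3 p hp)

end Pool.Agent.H37.T5
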