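import Pool.Agent.H37.T5.ZDefs
import Pool.Agent.H37.T5.FDefs
import Pool.Agent.H56.SMC.ZNDefs

/-!
# The zeta side: the concrete setting

Rays: the elements of `R` (as `(-N(w); w)`) and `(1; 0)`, in `ℤ^{1+n}`; functionals `(1, a_i)` for
the vertices `a_i` and `(0, e_j)`; `V(x) = ∑ x_j - x_0 s`.
-/

set_option autoImplicit false

namespace Pool.Agent.H37.T5

open Finset H60.RegTri
open Pool.Agent.H56.SMC

/-- The vertices of the Newton polyhedron. -/
def Vx {n r : ℕ} (a : Fin r → (Fin n →₀ ℕ)) : Type := {i : Fin r // H22.IsFace a {i}}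

open Classical in
noncomputable instance {n r : ℕ} (a : Fin r → (Fin n →₀ ℕ)) : Fintype (Vx a) :=
  inferInstanceAs (Fintype {i : Fin r // H22.IsFace a {i}})

instance {n r : ℕ} (a : Fin r → (Fin n →₀ ℕ)) : DecidableEq (Vx a) :=
  inferInstanceAs (DecidableEq {i : Fin r // H22.IsFace a {i}})

/-- The index set of the functionals. -/
abbrev OmT {n r : ℕ} (a : Fin r → (Fin n →₀ ℕ)) : Type := Vx a ⊕ Fin n

/-- The functionals. -/
def ph {n r : ℕ} (a : Fin r → (Fin n →₀ ℕ)) : OmT a → Unit ⊕ Fin n → ℤ :=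
  Sum.elim (fun i => H22.homRow a i.1) (fun j => Sum.elim (fun _ => 0) (Pi.single j 1))

/-- The vector `(-N(w); w)`. -/
noncomputable def lf {n r : ℕ} (a : Fin r → (Fin n →₀ ℕ)) (w : Fin n → ℕ) : Unit ⊕ Fin n → ℤ :=
  Sum.elim (fun _ => -(H22.wmin a w : ℤ)) (fun j => (w j : ℤ))

/-- The vector `(1; 0)`. -/
def rho {n : ℕ} : Unit ⊕ Fin n → ℤ := Sum.elim (fun _ => 1) (fun _ => 0)

/-- The rays. -/
noncomputable def vv {n r : ℕ} (a : Fin r → (Fin n →₀ ℕ)) (R : Finset (Fin n → ℕ)) :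
    Option R → Unit ⊕ Fin n → ℤ := fun o => o.elim rho (fun w => lf a w.1)

/-- The constant part of `V`. -/
def AA {n : ℕ} : Unit ⊕ Fin n → ℤ := Sum.elim (fun _ => 0) (fun _ => 1)

/-- The linear part of `V`. -/
def BB {n : ℕ} : Unit ⊕ Fin n → ℤ := Sum.elim (fun _ => -1) (fun _ => 0)

/-- The direction `(0; e_k)`. -/
def eD {n : ℕ} (k : Fin n) : Unit ⊕ Fin n → ℤ := Sum.elim (fun _ => 0) (Pi.single k 1)

/-- The vertices in `τ`. -/
noncomputable def vt {n r : ℕ} (a : Fin r → (Fin n →₀ ℕ)) (τ : Finset (Fin r)) : Finset (Vx a) :=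
  univ.filter (fun i => i.1 ∈ τ)

open Classical in
/-- The exponents in the convex hull of `T`. -/
noncomputable def cls {n r : ℕ} (a : Fin r → (Fin n →₀ ℕ)) (T : Finset (Vx a)) :
    Finset (Fin r) :=
  univ.filter (fun i => H22.pointR a i ∈ convexHull ℝ {x | ∃ t ∈ T, x = H22.pointR a t.1})

/-- A set of vertices as a set of functionals. -/
def inL {n r : ℕ} {a : Fin r → (Fin n →₀ ℕ)} (T : Finset (Vx a)) : Finset (OmT a) :=
  T.map ⟨Sum.inl, Sum.inl_injective⟩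

/-- `J_T`. -/
noncomputable def JT {n r : ℕ} (a : Fin r → (Fin n →₀ ℕ)) (R : Finset (Fin n → ℕ))
    (h : Option R → ℝ) (T : Finset (Vx a)) : RatFunc ℂ :=
  ∑ σ ∈ TT (vv a R) (ph a) h (inL T), tmv AA BB (vv a R) σ

/-- The configuration of the rays of `R` in `ℝ^n`, and zero. -/
def rv0 {n : ℕ} (R : Finset (Fin n → ℕ)) : Option R → Fin n → ℝ :=
  fun o => o.elim (fun _ => 0) (rv R)

section
variable {n r : ℕ} {a : Fin r → (Fin n →₀ ℕ)}

theorem vt_mem {τ : Finset (Fin r)} {i : Vx a} : i ∈ vt a τ ↔ i.1 ∈ τ := by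
  simp [vt]

theorem mem_cls {T : Finset (Vx a)} {i : Fin r} : i ∈ cls a T ↔
    H22.pointR a i ∈ convexHull ℝ {x | ∃ t ∈ T, x = H22.pointR a t.1} := by
  simp [cls]

theorem pr_AA_lf (w : Fin n → ℕ) : pr AA (lf a w) = (H22.wsum w : ℤ) := by
  simp [pr, AA, lf, H22.wsum, Fintype.sum_sum_type]

theorem pr_BB_lf (w : Fin n → ℕ) : pr BB (lf a w) = (H22.wmin a w : ℤ) := by
  simp [pr, BB, lf, Fintype.sum_sum_type]

theorem pr_AA_rho : pr (AA : Unit ⊕ Fin n → ℤ) rho = 0 := by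
  simp [pr, AA, rho, Fintype.sum_sum_type]

theorem pr_BB_rho : pr (BB : Unit ⊕ Fin n → ℤ) rho = -1 := by
  simp [pr, BB, rho, Fintype.sum_sum_type]

theorem pr_AA_eD (k : Fin n) : pr AA (eD k) = 1 := by
  simp [pr, AA, eD, Fintype.sum_sum_type]

theorem pr_BB_eD (k : Fin n) : pr BB (eD k) = 0 := by
  simp [pr, BB, eD, Fintype.sum_sum_type]

theorem pr_inl_lf (i : Vx a) (w : Fin n → ℕ) :
    pr (ph a (Sum.inl i)) (lf a w) = (∑ j, a i.1 j * w j : ℕ) - (H22.wmin a w : ℤ) := by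
  simp [pr, ph, lf, H22.homRow, Fintype.sum_sum_type]
  ring

theorem pr_inr_lf (j : Fin n) (w : Fin n → ℕ) : pr (ph a (Sum.inr j)) (lf a w) = w j := by
  simp [pr, ph, lf, Fintype.sum_sum_type, Pi.single_apply]

theorem pr_inl_rho (i : Vx a) : pr (ph a (Sum.inl i)) rho = 1 := by
  simp [pr, ph, rho, H22.homRow, Fintype.sum_sum_type]

theorem pr_inr_rho (j : Fin n) : pr (ph a (Sum.inr j)) rho = 0 := by
  simp [pr, ph, rho, Fintype.sum_sum_type]

theorem pr_inl_eD (i : Vx a) (k : Fin n) : pr (ph a (Sum.inl i)) (eD k) = a i.1 k := by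
  simp [pr, ph, eD, H22.homRow, Fintype.sum_sum_type, Pi.single_apply]

theorem pr_inr_eD (j k : Fin n) : pr (ph a (Sum.inr j)) (eD k) = if j = k then 1 else 0 := by
  simp only [pr, ph, eD, Fintype.sum_sum_type, Sum.elim_inr, Sum.elim_inl, Pi.single_apply]
  by_cases h : j = k <;> simp [h, eq_comm]

theorem VL_lf (w : Fin n → ℕ) : VL AA BB (lf a w) = WW a w := by
  rw [VL, pr_AA_lf, pr_BB_lf, WW]
  push_cast
  rfl

theorem VL_rho : VL (AA : Unit ⊕ Fin n → ℤ) BB rho = -RatFunc.X := by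
  rw [VL, pr_AA_rho, pr_BB_rho]
  push_cast
  ring

theorem IsCr_rho (s0 : ℂ) : IsCr (AA : Unit ⊕ Fin n → ℤ) BB s0 rho ↔ s0 = 0 := by
  rw [IsCr, pr_AA_rho, pr_BB_rho]
  push_cast
  constructor
  · intro h
    linear_combination -h
  · intro h
    rw [h]; ring

theorem IsCr_lf (s0 : ℂ) (w : Fin n → ℕ) (hw : FacetNormal a w) :
    IsCr AA BB s0 (lf a w) ↔ CritW a s0 w := by
  rw [IsCr, pr_AA_lf, pr_BB_lf, CritW]
  push_cast
  have hsum : H22.wsum w ≠ 0 := by
    intro h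
    apply hw.1
    funext j
    have h1 : ∑ j, w j = 0 := h
    exact (Finset.sum_eq_zero_iff.1 h1) j (mem_univ j)
  constructor
  · intro h
    have h1 : 0 < H22.wmin a w := by
      rcases Nat.eq_zero_or_pos (H22.wmin a w) with h0 | h0
      · rw [h0] at h
        push_cast at h
        rw [zero_mul, add_zero] at h
        exact absurd (by exact_mod_cast h) hsum
      · exact h0
    have h2 : (H22.wmin a w : ℂ) ≠ 0 := by exact_mod_cast h1.ne'
    refine ⟨hw, h1, ?_⟩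
    rw [eq_div_iff h2]
    linear_combination h
  · rintro ⟨-, h1, h2⟩
    have h3 : (H22.wmin a w : ℂ) ≠ 0 := by exact_mod_cast h1.ne'
    rw [h2]
    field_simp
    ring

end

end Pool.Agent.H37.T5
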