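import Pool.Agent.H60.RegTri
import Pool.Agent.H22.GDefs
import Pool.Agent.H37.SM.ZRG

/-!
# The zeta side: abstract setting

Finitely many rays `v i ∈ ℤ^κ` and functionals `φ ω ∈ ℤ^κ`, nonnegative on the rays; the cone
`{φ ≥ 0}` is generated by the rays.  `V(x) = A·x + (B·x) s` is a linear function with values in
`ℤ[s]`, not zero on the rays.  A ray is critical if `V(x)` vanishes at `s = s0`.  The functionals
vanishing at a critical ray are linearly independent and their number is `|κ| - 1`.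
-/

set_option autoImplicit false

namespace Pool.Agent.H37.T5

open Finset H60.RegTri

/-- The pairing of integral vectors. -/
def pr {κ : Type} [Fintype κ] (x y : κ → ℤ) : ℤ := ∑ j, x j * y j

/-- The pairing of an integral functional with a real vector. -/
def prR {κ : Type} [Fintype κ] (x : κ → ℤ) (y : κ → ℝ) : ℝ := ∑ j, (x j : ℝ) * y j

/-- Integral vectors as real vectors. -/
def vR {ι κ : Type} (v : ι → κ → ℤ) : ι → κ → ℝ := fun i j => (v i j : ℝ)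

/-- `V(x) = A·x + (B·x) s`. -/
noncomputable def VL {κ : Type} [Fintype κ] (A B x : κ → ℤ) : RatFunc ℂ :=
  (pr A x : RatFunc ℂ) + (pr B x : RatFunc ℂ) * RatFunc.X

/-- `V(x)` vanishes at `s0`. -/
def IsCr {κ : Type} [Fintype κ] (A B : κ → ℤ) (s0 : ℂ) (x : κ → ℤ) : Prop :=
  (pr A x : ℂ) + (pr B x : ℂ) * s0 = 0

/-- The multiplicity of the vectors `v i`, `i ∈ σ`. -/
noncomputable def mulv {ι κ : Type} (v : ι → κ → ℤ) (σ : Finset ι) : ℕ :=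
  H22.latIndex (fun i : σ => v i)

/-- The contribution of a simplicial cone. -/
noncomputable def tmv {ι κ : Type} [Fintype κ] (A B : κ → ℤ) (v : ι → κ → ℤ) (σ : Finset ι) :
    RatFunc ℂ := (mulv v σ : RatFunc ℂ) * ∏ i ∈ σ, (VL A B (v i))⁻¹

/-- The contribution without the factor of `b`. -/
noncomputable def tmE {ι κ : Type} [Fintype κ] [DecidableEq ι] (A B : κ → ℤ) (v : ι → κ → ℤ)
    (σ : Finset ι) (b : ι) : RatFunc ℂ :=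
  (mulv v σ : RatFunc ℂ) * ∏ i ∈ σ.erase b, (VL A B (v i))⁻¹

/-- The setting. -/
structure ZS {ι κ Ω : Type} [Fintype ι] [Fintype κ] [Fintype Ω] (v : ι → κ → ℤ)
    (φ : Ω → κ → ℤ) (A B : κ → ℤ) (s0 : ℂ) : Prop where
  ne : ∀ i, pr A (v i) ≠ 0 ∨ pr B (v i) ≠ 0
  nn : ∀ i ω, 0 ≤ pr (φ ω) (v i)
  gen : ∀ y : κ → ℝ, (∀ ω, 0 ≤ prR (φ ω) y) →
    ∃ x : ι → ℝ, (∀ i, 0 ≤ x i) ∧ y = ∑ i, x i • vR v i
  ind : ∀ i, IsCr A B s0 (v i) → LinearIndepOn ℝ (vR φ) {ω | pr (φ ω) (v i) = 0}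
  card : ∀ i, IsCr A B s0 (v i) →
    (univ.filter (fun ω => pr (φ ω) (v i) = 0)).card + 1 = Fintype.card κ

section
variable {ι κ Ω : Type} [Fintype ι] [Fintype κ]

open Classical in
/-- The rays at which all `φ ω`, `ω ∈ Ξ`, vanish. -/
noncomputable def Gx (v : ι → κ → ℤ) (φ : Ω → κ → ℤ) (Ξ : Finset Ω) : Finset ι :=
  univ.filter (fun i => ∀ ω ∈ Ξ, pr (φ ω) (v i) = 0)

theorem mem_Gx {v : ι → κ → ℤ} {φ : Ω → κ → ℤ} {Ξ : Finset Ω} {i : ι} :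
    i ∈ Gx v φ Ξ ↔ ∀ ω ∈ Ξ, pr (φ ω) (v i) = 0 := by
  simp [Gx]

theorem Gx_mono {v : ι → κ → ℤ} {φ : Ω → κ → ℤ} {Ξ Ξ' : Finset Ω} (h : Ξ ⊆ Ξ') :
    Gx v φ Ξ' ⊆ Gx v φ Ξ := fun _ hi => mem_Gx.2 fun ω hω => mem_Gx.1 hi ω (h hω)

open Classical in
/-- The upper simplices of the rays at which `φ` vanishes on `Ξ`, with `|κ| - |Ξ|` elements. -/
noncomputable def TT (v : ι → κ → ℤ) (φ : Ω → κ → ℤ) (h : ι → ℝ) (Ξ : Finset Ω) :
    Finset (Finset ι) :=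
  univ.filter (fun σ => UpperOn (vR v) h (Gx v φ Ξ) σ ∧ σ.card + Ξ.card = Fintype.card κ)

theorem mem_TT {v : ι → κ → ℤ} {φ : Ω → κ → ℤ} {h : ι → ℝ} {Ξ : Finset Ω} {σ : Finset ι} :
    σ ∈ TT v φ h Ξ ↔ UpperOn (vR v) h (Gx v φ Ξ) σ ∧ σ.card + Ξ.card = Fintype.card κ := by
  simp [TT]

open Classical in
/-- Those which contain an element of `Cl`. -/
noncomputable def TC (v : ι → κ → ℤ) (φ : Ω → κ → ℤ) (h : ι → ℝ) (Cl : Finset ι)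
    (Ξ : Finset Ω) : Finset (Finset ι) := (TT v φ h Ξ).filter (fun σ => ∃ c ∈ σ, c ∈ Cl)

theorem mem_TC {v : ι → κ → ℤ} {φ : Ω → κ → ℤ} {h : ι → ℝ} {Cl : Finset ι} {Ξ : Finset Ω}
    {σ : Finset ι} : σ ∈ TC v φ h Cl Ξ ↔ σ ∈ TT v φ h Ξ ∧ ∃ c ∈ σ, c ∈ Cl := by
  simp [TC]

open Classical in
/-- The pairs `(σ, b)`, `b ∈ σ`, such that `σ - b` contains an element of `Cl`. -/
noncomputable def PrT (v : ι → κ → ℤ) (φ : Ω → κ → ℤ) (h : ι → ℝ) (Cl : Finset ι)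
    (Ξ : Finset Ω) : Finset (Finset ι × ι) :=
  ((TC v φ h Cl Ξ) ×ˢ (univ : Finset ι)).filter
    (fun p => p.2 ∈ p.1 ∧ ∃ c ∈ p.1, c ≠ p.2 ∧ c ∈ Cl)

theorem mem_PrT {v : ι → κ → ℤ} {φ : Ω → κ → ℤ} {h : ι → ℝ} {Cl : Finset ι} {Ξ : Finset Ω}
    {p : Finset ι × ι} : p ∈ PrT v φ h Cl Ξ ↔
      p.1 ∈ TC v φ h Cl Ξ ∧ p.2 ∈ p.1 ∧ ∃ c ∈ p.1, c ≠ p.2 ∧ c ∈ Cl := by
  simp [PrT]

open Classical in
/-- The coefficients of `y` with respect to `σ`. -/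
noncomputable def cf (v : ι → κ → ℝ) (σ : Finset ι) (y : κ → ℝ) : ι → ℝ :=
  if h : ∃ β : ι → ℝ, y = ∑ i ∈ σ, β i • v i then (fun i => if i ∈ σ then h.choose i else 0)
  else fun _ => 0

omit [Fintype ι] [Fintype κ] in
theorem cf_sum {v : ι → κ → ℝ} {σ : Finset ι} {y : κ → ℝ}
    (h : ∃ β : ι → ℝ, y = ∑ i ∈ σ, β i • v i) : y = ∑ i ∈ σ, cf v σ y i • v i := by
  classical
  have h1 := h.choose_spec
  rw [cf, dif_pos h]
  refine h1.trans (sum_congr rfl fun i hi => ?_)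
  rw [if_pos hi]

omit [Fintype ι] [Fintype κ] in
theorem cf_eq {v : ι → κ → ℝ} {σ : Finset ι} (hσ : LinearIndepOn ℝ v (σ : Set ι)) {y : κ → ℝ}
    (β : ι → ℝ) (h : y = ∑ i ∈ σ, β i • v i) {i : ι} (hi : i ∈ σ) : cf v σ y i = β i := by
  have h1 := cf_sum ⟨β, h⟩
  exact coeff_unique v σ hσ _ _ (h1.symm.trans h) i hi

/-- The pair is an interior pair. -/
def Neg (v : ι → κ → ℤ) (φ : Ω → κ → ℤ) (Ξ : Finset Ω) (p : Finset ι × ι) : Prop :=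
  ∃ u ∈ Gx v φ Ξ, cf (vR v) p.1 (vR v u) p.2 < 0

open Classical in
/-- The interior pairs. -/
noncomputable def PrN (v : ι → κ → ℤ) (φ : Ω → κ → ℤ) (h : ι → ℝ) (Cl : Finset ι)
    (Ξ : Finset Ω) : Finset (Finset ι × ι) := (PrT v φ h Cl Ξ).filter (fun p => Neg v φ Ξ p)

open Classical in
/-- The boundary pairs. -/
noncomputable def PrB (v : ι → κ → ℤ) (φ : Ω → κ → ℤ) (h : ι → ℝ) (Cl : Finset ι)
    (Ξ : Finset Ω) : Finset (Finset ι × ι) := (PrT v φ h Cl Ξ).filter (fun p => ¬ Neg v φ Ξ p)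

theorem mem_PrN {v : ι → κ → ℤ} {φ : Ω → κ → ℤ} {h : ι → ℝ} {Cl : Finset ι} {Ξ : Finset Ω}
    {p : Finset ι × ι} : p ∈ PrN v φ h Cl Ξ ↔ p ∈ PrT v φ h Cl Ξ ∧ Neg v φ Ξ p := by
  simp [PrN]

theorem mem_PrB {v : ι → κ → ℤ} {φ : Ω → κ → ℤ} {h : ι → ℝ} {Cl : Finset ι} {Ξ : Finset Ω}
    {p : Finset ι × ι} : p ∈ PrB v φ h Cl Ξ ↔ p ∈ PrT v φ h Cl Ξ ∧ ¬ Neg v φ Ξ p := by
  simp [PrB]

/-- The coefficient of the integral vector `e` at `b` as a constant rational function. -/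
noncomputable def cE (v : ι → κ → ℤ) (σ : Finset ι) (e : κ → ℤ) (b : ι) : RatFunc ℂ :=
  RatFunc.C ((cf (vR v) σ (fun j => (e j : ℝ)) b : ℝ) : ℂ)

/-- `J'(Ξ)`, the contribution of the simplices with an element of `Cl`. -/
noncomputable def JJ [Fintype Ω] (v : ι → κ → ℤ) (φ : Ω → κ → ℤ) (A B : κ → ℤ) (h : ι → ℝ)
    (Cl : Finset ι) (Ξ : Finset Ω) : RatFunc ℂ :=
  (mulv φ Ξ : RatFunc ℂ)⁻¹ * ∑ σ ∈ TC v φ h Cl Ξ, tmv A B v σ

end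

end Pool.Agent.H37.T5
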