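import Pool.Agent.H37.T5.ZLOC

/-!
# ZRANK: the span of a simplex with a critical ray

`zrank`: `σ ∈ TT Ξ` contains a critical `c`: `c ∈ Gx Ξ` so `Ξ ⊆ Ω_c`, `Ξ` is independent, the space `{y : φ_Ξ(y) = 0}` has dimension `|κ| - |Ξ| = |σ|`, and contains the independent `v_i`, `i ∈ σ`, which are therefore a basis.
`zrank2`: the same for an independent family.
-/

set_option autoImplicit false

namespace Pool.Agent.H37.T5

open Finset H60.RegTri

variable {ι κ Ω : Type} [Fintype ι] [DecidableEq ι] [Fintype κ] [Fintype Ω] [DecidableEq Ω]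
  {v : ι → κ → ℤ} {φ : Ω → κ → ℤ} {A B : κ → ℤ} {s0 : ℂ}

/-- The basic dimension count. -/
theorem ZRANK_aux (hZ : ZS v φ A B s0) (Ξ : Finset Ω) (σ : Finset ι)
    (hσ : LinearIndepOn ℝ (vR v) (σ : Set ι)) (hσG : σ ⊆ Gx v φ Ξ)
    (hcard : σ.card + Ξ.card = Fintype.card κ) (c : ι) (hcσ : c ∈ σ)
    (hc : IsCr A B s0 (v c)) :
    LinearIndepOn ℝ (vR φ) (Ξ : Set Ω) ∧
    ∀ y : κ → ℝ, (∀ ω ∈ Ξ, prR (φ ω) y = 0) → ∃ β : ι → ℝ, y = ∑ i ∈ σ, β i • vR v i := by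
  have hind : LinearIndepOn ℝ (vR φ) (Ξ : Set Ω) := by
    refine (hZ.ind c hc).mono ?_
    intro ω hω
    exact mem_Gx.1 (hσG hcσ) ω hω
  refine ⟨hind, fun y hy => ?_⟩
  let L : (κ → ℝ) →ₗ[ℝ] (Ξ → ℝ) :=
    { toFun := fun y ω => prR (φ (ω : Ω)) y
      map_add' := fun y y' => funext fun ω => ZLOC_prR_add _ y y'
      map_smul' := fun C y => funext fun ω => ZLOC_prR_smul _ C y }
  have hL : LinearMap.range L = ⊤ := by
    rw [LinearMap.range_eq_top]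
    intro x
    obtain ⟨y, hy⟩ := ZLOC_surj (fun t : Ξ => vR φ (t : Ω)) hind x
    exact ⟨y, funext hy⟩
  have hker : Module.finrank ℝ (LinearMap.ker L) = σ.card := by
    have h1 := LinearMap.finrank_range_add_finrank_ker L
    rw [hL, finrank_top, Module.finrank_fintype_fun_eq_card, Module.finrank_fintype_fun_eq_card,
      Fintype.card_coe] at h1
    omega
  have hle : Submodule.span ℝ (vR v '' (σ : Set ι)) ≤ LinearMap.ker L := by
    rw [Submodule.span_le]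
    rintro _ ⟨i, hi, rfl⟩
    rw [SetLike.mem_coe, LinearMap.mem_ker]
    funext ω
    change prR (φ (ω : Ω)) (vR v i) = 0
    rw [prR_vR, mem_Gx.1 (hσG hi) ω ω.2, Int.cast_zero]
  have hfr : Module.finrank ℝ (Submodule.span ℝ (vR v '' (σ : Set ι))) = σ.card := by
    have h1 : LinearIndependent ℝ (fun t : σ => vR v (t : ι)) := hσ
    have h2 := finrank_span_eq_card h1
    rw [Fintype.card_coe] at h2
    have h3 : (vR v '' (σ : Set ι)) = Set.range (fun t : σ => vR v (t : ι)) := by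
      rw [Set.image_eq_range]
      rfl
    rw [h3, h2]
  have heq := Submodule.eq_of_le_of_finrank_eq hle (hfr.trans hker.symm)
  have hyk : y ∈ LinearMap.ker L := by
    rw [LinearMap.mem_ker]
    funext ω
    exact hy ω ω.2
  rw [← heq] at hyk
  exact (mem_span_iff (vR v) σ y).1 hyk

/-- ZRANK -/
theorem zrank (hZ : ZS v φ A B s0) (h : ι → ℝ) (Ξ : Finset Ω) (σ : Finset ι)
    (hσ : σ ∈ TT v φ h Ξ) (c : ι) (hcσ : c ∈ σ) (hc : IsCr A B s0 (v c)) :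
    LinearIndepOn ℝ (vR φ) (Ξ : Set Ω) ∧
    ∀ y : κ → ℝ, (∀ ω ∈ Ξ, prR (φ ω) y = 0) → ∃ β : ι → ℝ, y = ∑ i ∈ σ, β i • vR v i := by
  obtain ⟨⟨h1, h2, -⟩, h3⟩ := mem_TT.1 hσ
  exact ZRANK_aux hZ Ξ σ h2 h1 h3 c hcσ hc

/-- The dimension of the common kernel, in the form needed for extensions. -/
theorem zrank2 (hZ : ZS v φ A B s0) (Ξ : Finset Ω) (σ : Finset ι)
    (hσ : LinearIndepOn ℝ (vR v) (σ : Set ι)) (hσG : σ ⊆ Gx v φ Ξ)
    (hcard : σ.card + Ξ.card = Fintype.card κ) (c : ι) (hcσ : c ∈ σ)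
    (hc : IsCr A B s0 (v c)) (y : κ → ℝ) (hy : ∀ ω ∈ Ξ, prR (φ ω) y = 0) :
    ∃ β : ι → ℝ, y = ∑ i ∈ σ, β i • vR v i :=
  (ZRANK_aux hZ Ξ σ hσ hσG hcard c hcσ hc).2 y hy

end Pool.Agent.H37.T5
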