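import Pool.Agent.H37.T5.ZVOL

/-!
# ZVOLC: the multiplicities of adjacent simplices

`zvol3`: `v b' = β v b + τ`-part (real coefficients), `b, b' ∉ τ`: `mul(τ + b') = |β| mul(τ + b)`: `zvol` for both with the same `Ξ`, `u`, and multilinearity of the determinant over `ℝ`.
-/

set_option autoImplicit false

namespace Pool.Agent.H37.T5

open Finset H60.RegTri

variable {ι κ Ω : Type} [Fintype ι] [DecidableEq ι] [Fintype κ] [DecidableEq κ] [Fintype Ω]
  [DecidableEq Ω]

omit [Fintype ι] in
theorem ZVOLC_swap {τ : Finset ι} {b b' : ι} (hb : b ∉ τ) (hb' : b' ∉ τ) (a : ι) :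
    a ∈ insert b τ ↔ Equiv.swap b b' a ∈ insert b' τ := by
  rw [Finset.mem_insert, Finset.mem_insert]
  by_cases h1 : a = b
  · subst h1
    rw [Equiv.swap_apply_left]
    simp
  · by_cases h2 : a = b'
    · subst h2
      rw [Equiv.swap_apply_right]
      constructor
      · rintro (h | h)
        · exact absurd h h1
        · exact absurd h hb'
      · rintro (h | h)
        · exact absurd h.symm h1
        · exact absurd h hb
    · rw [Equiv.swap_apply_of_ne_of_ne h1 h2]
      simp [h1, h2]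

omit [Fintype Ω] [DecidableEq κ] in
/-- the Gram determinant of independent functionals is not zero -/
theorem ZVOLC_gram (φ : Ω → κ → ℤ) (Ξ : Finset Ω) (hΞ : LinearIndepOn ℝ (vR φ) (Ξ : Set Ω)) :
    (Matrix.of fun ω ω' : Ξ => pr (φ ω) (φ ω')).det ≠ 0 := by
  intro hdet
  obtain ⟨c, hc0, hc⟩ := Matrix.exists_mulVec_eq_zero_iff.2 hdet
  apply hc0
  set y : κ → ℤ := fun j => ∑ ω' : Ξ, c ω' * φ ω' j with hy
  have h1 : ∀ ω : Ξ, pr (φ ω) y = 0 := by
    intro ω
    have := congrFun hc ω
    rw [Matrix.mulVec, dotProduct] at this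
    simp only [Matrix.of_apply, pr, Pi.zero_apply] at this
    rw [← this]
    simp only [pr, hy, Finset.mul_sum, Finset.sum_mul]
    rw [Finset.sum_comm]
    apply Finset.sum_congr rfl
    intro ω' _
    apply Finset.sum_congr rfl
    intro j _
    ring
  have h2 : ∑ j, y j * y j = 0 := by
    have : ∑ j, y j * y j = ∑ ω : Ξ, c ω * pr (φ ω) y := by
      simp only [pr, Finset.mul_sum]
      rw [Finset.sum_comm]
      apply Finset.sum_congr rfl
      intro j _
      conv_lhs => rw [hy]
      simp only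
      rw [Finset.sum_mul]
      apply Finset.sum_congr rfl
      intro ω _
      ring
    rw [this]
    apply Finset.sum_eq_zero
    intro ω _
    rw [h1 ω, mul_zero]
  have h3 : ∀ j, y j = 0 := by
    intro j
    have := (Finset.sum_eq_zero_iff_of_nonneg (fun j _ => mul_self_nonneg (y j))).1 h2 j
      (Finset.mem_univ j)
    exact mul_self_eq_zero.1 this
  have h4 : LinearIndependent ℝ (fun ω : Ξ => vR φ ω) := hΞ
  rw [Fintype.linearIndependent_iff] at h4
  have h5 : ∑ ω : Ξ, (c ω : ℝ) • vR φ ω = 0 := by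
    funext j
    have := h3 j
    simp only [Finset.sum_apply, Pi.smul_apply, smul_eq_mul, vR, Pi.zero_apply]
    have h6 := congrArg (fun z : ℤ => (z : ℝ)) this
    simp only [hy] at h6
    push_cast at h6
    exact h6
  have h7 := h4 (fun ω => (c ω : ℝ)) h5
  funext ω
  exact_mod_cast h7 ω

/-- ZVOL3 -/
theorem zvol3 (v : ι → κ → ℤ) (φ : Ω → κ → ℤ) (τ : Finset ι) (b b' : ι) (hbτ : b ∉ τ)
    (hb'τ : b' ∉ τ) (Ξ : Finset Ω)
    (hB : LinearIndepOn ℝ (vR v) ((insert b τ : Finset ι) : Set ι))
    (hB' : LinearIndepOn ℝ (vR v) ((insert b' τ : Finset ι) : Set ι))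
    (hΞ : LinearIndepOn ℝ (vR φ) (Ξ : Set Ω))
    (h0 : ∀ i ∈ insert b τ, ∀ ω ∈ Ξ, pr (φ ω) (v i) = 0)
    (h0' : ∀ i ∈ insert b' τ, ∀ ω ∈ Ξ, pr (φ ω) (v i) = 0)
    (hc : (insert b τ).card + Ξ.card = Fintype.card κ)
    (β : ι → ℝ) (hβ : vR v b' = ∑ i ∈ insert b τ, β i • vR v i) :
    (mulv v (insert b' τ) : ℝ) = |β b| * mulv v (insert b τ) := by
  classical
  have hcard : Fintype.card (((insert b τ : Finset ι) : Type) ⊕ Ξ) = Fintype.card κ := by
    rw [Fintype.card_sum, Fintype.card_coe, Fintype.card_coe]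
    exact hc
  let e : (((insert b τ : Finset ι) : Type) ⊕ Ξ) ≃ κ := Fintype.equivOfCardEq hcard
  have hsw : ∀ a, a ∈ insert b τ ↔ Equiv.swap b b' a ∈ insert b' τ := ZVOLC_swap hbτ hb'τ
  let f : ((insert b τ : Finset ι) : Type) ≃ ((insert b' τ : Finset ι) : Type) :=
    (Equiv.swap b b').subtypeEquiv hsw
  let F : (((insert b τ : Finset ι) : Type) ⊕ Ξ) ≃ (((insert b' τ : Finset ι) : Type) ⊕ Ξ) :=
    Equiv.sumCongr f (Equiv.refl _)
  let e' : (((insert b' τ : Finset ι) : Type) ⊕ Ξ) ≃ κ := F.symm.trans e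
  have hc' : (insert b' τ).card + Ξ.card = Fintype.card κ := by
    rw [Finset.card_insert_of_notMem hb'τ]
    rw [Finset.card_insert_of_notMem hbτ] at hc
    exact hc
  have z1 := zvol v φ (insert b τ) Ξ hB hΞ h0 hc e (fun ω => φ ω)
  have z2 := zvol v φ (insert b' τ) Ξ hB' hΞ h0' hc' e' (fun ω => φ ω)
  have hg := ZVOLC_gram φ Ξ hΞ
  set g := (Matrix.of fun ω ω' : Ξ => pr (φ ω) (φ ω')).det with hgd
  set M := (Matrix.of fun x y : ((insert b τ : Finset ι) : Type) ⊕ Ξ =>
        Sum.elim (fun i : ((insert b τ : Finset ι) : Type) => v i) (fun ω : Ξ => φ ω) x (e y))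
    with hM
  set M' := (Matrix.of fun x y : ((insert b' τ : Finset ι) : Type) ⊕ Ξ =>
        Sum.elim (fun i : ((insert b' τ : Finset ι) : Type) => v i) (fun ω : Ξ => φ ω) x (e' y))
    with hM'
  have hFe : ∀ y, e' (F y) = e y := by
    intro y
    change e (F.symm (F y)) = e y
    rw [Equiv.symm_apply_apply]
  have hent : ∀ x y, (Int.castRingHom ℝ).mapMatrix (M'.submatrix F F) x y
      = ((Sum.elim (fun i : ((insert b' τ : Finset ι) : Type) => v i)
        (fun ω : Ξ => φ ω) (F x) (e y) : ℤ) : ℝ) := by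
    intro x y
    rw [← hFe y]
    rfl
  have hdet : (M'.det : ℝ) = β b * (M.det : ℝ) := by
    have h1 : M'.det = (M'.submatrix F F).det := (Matrix.det_submatrix_equiv_self F M').symm
    rw [h1]
    have h2 : ((M'.submatrix F F).det : ℝ)
        = ((Int.castRingHom ℝ).mapMatrix (M'.submatrix F F)).det :=
      (Int.castRingHom ℝ).map_det _
    have h3 : (M.det : ℝ) = ((Int.castRingHom ℝ).mapMatrix M).det :=
      (Int.castRingHom ℝ).map_det _
    rw [h2, h3]
    let c : ((insert b τ : Finset ι) : Type) ⊕ Ξ → ℝ := Sum.elim (fun i => β i) (fun _ => 0)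
    have h4 : (Int.castRingHom ℝ).mapMatrix (M'.submatrix F F)
        = ((Int.castRingHom ℝ).mapMatrix M).updateRow
          (Sum.inl ⟨b, Finset.mem_insert_self b τ⟩)
          (∑ k, c k • ((Int.castRingHom ℝ).mapMatrix M) k) := by
      ext x y
      rw [hent]
      rcases x with ⟨i, hi⟩ | ω
      · by_cases hib : i = b
        · subst hib
          rw [Matrix.updateRow_self]
          have h5 := congrFun hβ (e y)
          simp only [vR, Finset.sum_apply, Pi.smul_apply, smul_eq_mul] at h5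
          rw [Finset.sum_apply, Fintype.sum_sum_type]
          have h6 : ∑ k : ((insert i τ : Finset ι) : Type),
              (c (Sum.inl k) • ((Int.castRingHom ℝ).mapMatrix M) (Sum.inl k)) y
              = ∑ k ∈ insert i τ, β k * (v k (e y) : ℝ) := by
            rw [← Finset.sum_coe_sort (insert i τ) (fun k => β k * (v k (e y) : ℝ))]
            rfl
          have h7 : ∑ k : Ξ,
              (c (Sum.inr k) • ((Int.castRingHom ℝ).mapMatrix M) (Sum.inr k)) y = 0 := by
            apply Finset.sum_eq_zero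
            intro k _
            simp [c]
          rw [h6, h7, add_zero, ← h5]
          have h8 : (f ⟨i, hi⟩ : ι) = b' := Equiv.swap_apply_left i b'
          change ((v (f ⟨i, hi⟩ : ι) (e y) : ℤ) : ℝ) = _
          rw [h8]
        · rw [Matrix.updateRow_ne]
          · have hiτ : i ∈ τ := (Finset.mem_insert.1 hi).resolve_left hib
            have hib' : i ≠ b' := fun h => hb'τ (h ▸ hiτ)
            have h8 : Equiv.swap b b' i = i := Equiv.swap_apply_of_ne_of_ne hib hib'
            have h9 : (f ⟨i, hi⟩ : ι) = i := h8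
            change ((v (f ⟨i, hi⟩ : ι) (e y) : ℤ) : ℝ) = _
            rw [h9]
            rfl
          · intro h
            rw [Sum.inl.injEq] at h
            exact hib (congrArg Subtype.val h)
      · rw [Matrix.updateRow_ne]
        · rfl
        · exact fun h => by cases h
    rw [h4, Matrix.det_updateRow_sum]
    simp [c]
  have z1' : (mulv v (insert b τ) : ℝ) * |(g : ℝ)| = (mulv φ Ξ : ℝ) * |(M.det : ℝ)| := by
    have := congrArg (Int.cast : ℤ → ℝ) z1
    rw [Int.cast_mul, Int.cast_mul, Int.cast_abs, Int.cast_abs, Int.cast_natCast,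
      Int.cast_natCast] at this
    exact this
  have z2' : (mulv v (insert b' τ) : ℝ) * |(g : ℝ)| = (mulv φ Ξ : ℝ) * |(M'.det : ℝ)| := by
    have := congrArg (Int.cast : ℤ → ℝ) z2
    rw [Int.cast_mul, Int.cast_mul, Int.cast_abs, Int.cast_abs, Int.cast_natCast,
      Int.cast_natCast] at this
    exact this
  rw [hdet, abs_mul] at z2'
  have hg' : |(g : ℝ)| ≠ 0 := by
    rw [abs_ne_zero]
    exact_mod_cast hg
  have h9 : (mulv v (insert b' τ) : ℝ) * |(g : ℝ)|
      = (|β b| * (mulv v (insert b τ) : ℝ)) * |(g : ℝ)| := by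
    rw [z2', mul_assoc, z1']; ring
  exact mul_right_cancel₀ hg' h9


end Pool.Agent.H37.T5
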