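import Pool.Agent.H37.T5.ZPM
import Pool.Agent.H37.T5.ZVOLC
import Pool.Agent.H37.T5.ZRANK

/-!
# ZIN: the interior pairs cancel

For `p = (σ, b) ∈ PrN`: `σ` is a basis of `K = {φ_Ξ = 0}` (`zrank`, the critical ray `c ∈ σ.erase b`), so `zpm` (with `G = Gx Ξ`, `B = σ`) gives a unique `b'` and `σ' = insert b' (σ.erase b)`, upper, `b' ∉ σ`, coefficient `β = cf σ b' b < 0`.  Then `(σ', b') ∈ PrN`: same cardinality, `σ'.erase b' = σ.erase b` contains `c`; it is interior: `v b = (1/β) v b' + …` has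
negative coefficient at `b'`.  The map `(σ, b) ↦ (σ', b')` is an involution (uniqueness in `zpm`) without fixed points.  Terms: `tmE σ b = mul(σ) P`, `tmE σ' b' = mul(σ') P` with the same product `P`; `mul(σ') = |β| mul(σ) = -β mul(σ)` (`zvol3`), and `e = c_b v_b + τ`-part `= (c_b/β) v_b' + τ`-part, so `c_{b'}(σ') = c_b/β` (`cf_eq`): the two terms add up to `0`.
`Finset.sum_involution` (the involution as a function chosen by `zpm`).
-/

set_option autoImplicit false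

namespace Pool.Agent.H37.T5

open Finset H60.RegTri

variable {ι κ Ω : Type} [Fintype ι] [DecidableEq ι] [Fintype κ] [DecidableEq κ] [Fintype Ω]
  [DecidableEq Ω] {v : ι → κ → ℤ} {φ : Ω → κ → ℤ} {A B : κ → ℤ} {s0 : ℂ}

omit [Fintype ι] [Fintype κ] [DecidableEq κ] [Fintype Ω] [DecidableEq Ω] in
/-- Exchange of a basis vector: the coefficients. -/
theorem ZIN_cf {w : ι → κ → ℝ} {σ : Finset ι} {b b' : ι} (hb : b ∈ σ) (hb' : b' ∉ σ)
    (hσ' : LinearIndepOn ℝ w ((insert b' (σ.erase b) : Finset ι) : Set ι)) {β : ι → ℝ}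
    (hβ : w b' = ∑ i ∈ σ, β i • w i) (hβ0 : β b ≠ 0) {y : κ → ℝ} {c : ι → ℝ}
    (hc : y = ∑ i ∈ σ, c i • w i) :
    cf w (insert b' (σ.erase b)) y b' = c b / β b := by
  have hb'' : b' ∉ σ.erase b := fun h => hb' (Finset.mem_of_mem_erase h)
  have key : y = ∑ i ∈ insert b' (σ.erase b),
      (fun i => if i = b' then c b / β b else c i - c b / β b * β i) i • w i := by
    rw [Finset.sum_insert hb'']
    simp only [if_true]
    have h1 : ∑ i ∈ σ.erase b, (if i = b' then c b / β b else c i - c b / β b * β i) • w i =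
        ∑ i ∈ σ.erase b, (c i - c b / β b * β i) • w i := by
      refine Finset.sum_congr rfl fun i hi => ?_
      rw [if_neg]
      rintro rfl
      exact hb'' hi
    rw [h1, hβ, hc, ← Finset.add_sum_erase σ _ hb, ← Finset.add_sum_erase σ (fun i => β i • w i) hb,
      smul_add, Finset.smul_sum, smul_smul, div_mul_cancel₀ _ hβ0, add_assoc,
      ← Finset.sum_add_distrib]
    congr 1
    refine Finset.sum_congr rfl fun i _ => ?_
    rw [smul_smul, ← add_smul]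
    congr 1
    ring
  rw [cf_eq hσ' _ key (Finset.mem_insert_self _ _)]
  simp

/-- ZIN -/
theorem zin (hZ : ZS v φ A B s0) (h : ι → ℝ) (hgen : ∀ τ, GenericOn (vR v) h τ) (Cl : Finset ι)
    (hCl : ∀ c ∈ Cl, IsCr A B s0 (v c)) (Ξ : Finset Ω) (e : κ → ℤ)
    (he : ∀ ω ∈ Ξ, pr (φ ω) e = 0) :
    ∑ p ∈ PrN v φ h Cl Ξ, cE v p.1 e p.2 * tmE A B v p.1 p.2 = 0 := by
  classical
  have hfull : ∀ p ∈ PrN v φ h Cl Ξ, LinearIndepOn ℝ (vR φ) (Ξ : Set Ω) ∧
      ∀ y : κ → ℝ, (∀ ω ∈ Ξ, prR (φ ω) y = 0) → ∃ β : ι → ℝ, y = ∑ i ∈ p.1, β i • vR v i := by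
    intro p hp
    rw [mem_PrN, mem_PrT, mem_TC] at hp
    obtain ⟨⟨⟨h1, c, hc, hcl⟩, _⟩, _⟩ := hp
    exact zrank hZ h Ξ p.1 h1 c hc (hCl c hcl)
  have hG : ∀ l ∈ Gx v φ Ξ, ∀ ω ∈ Ξ, prR (φ ω) (vR v l) = 0 := by
    intro l hl ω hω
    rw [prR_vR, mem_Gx.1 hl ω hω, Int.cast_zero]
  have key : ∀ p ∈ PrN v φ h Cl Ξ, ∃ b' ∈ Gx v φ Ξ, b' ∉ p.1 ∧
      UpperOn (vR v) h (Gx v φ Ξ) (insert b' (p.1.erase p.2)) ∧ cf (vR v) p.1 (vR v b') p.2 < 0 ∧
      ∀ b'' ∈ Gx v φ Ξ, b'' ∉ p.1 →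
        UpperOn (vR v) h (Gx v φ Ξ) (insert b'' (p.1.erase p.2)) → b'' = b' := by
    intro p hp
    have hp' := hp
    rw [mem_PrN, mem_PrT, mem_TC, mem_TT] at hp'
    obtain ⟨⟨⟨⟨h1, _⟩, _⟩, hb, _⟩, hneg⟩ := hp'
    exact zpm (vR v) h hgen (Gx v φ Ξ) p.1 h1 (fun l hl => (hfull p hp).2 _ (hG l hl)) p.2 hb hneg
  choose f hfG hfσ hfU hfneg hfuniq using key
  -- properties of the pair
  have hcf : ∀ (p : Finset ι × ι) (hp : p ∈ PrN v φ h Cl Ξ) (y : κ → ℝ),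
      (∀ ω ∈ Ξ, prR (φ ω) y = 0) →
      cf (vR v) (insert (f p hp) (p.1.erase p.2)) y (f p hp) =
        cf (vR v) p.1 y p.2 / cf (vR v) p.1 (vR v (f p hp)) p.2 := by
    intro p hp y hy
    have hp' := hp
    rw [mem_PrN, mem_PrT, mem_TC, mem_TT] at hp'
    obtain ⟨⟨⟨⟨h1, _⟩, _⟩, hb, _⟩, hneg⟩ := hp'
    exact ZIN_cf hb (hfσ p hp) (hfU p hp).2.1
      (cf_sum ((hfull p hp).2 _ (hG _ (hfG p hp)))) (hfneg p hp).ne
      (cf_sum ((hfull p hp).2 y hy))
  have herase : ∀ (p : Finset ι × ι) (hp : p ∈ PrN v φ h Cl Ξ),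
      (insert (f p hp) (p.1.erase p.2)).erase (f p hp) = p.1.erase p.2 := by
    intro p hp
    exact Finset.erase_insert fun hmem => hfσ p hp (Finset.mem_of_mem_erase hmem)
  have hins : ∀ (p : Finset ι × ι), p ∈ PrN v φ h Cl Ξ → insert p.2 (p.1.erase p.2) = p.1 := by
    intro p hp
    rw [mem_PrN, mem_PrT] at hp
    exact Finset.insert_erase hp.1.2.1
  refine Finset.sum_involution
    (fun p hp => (insert (f p hp) (p.1.erase p.2), f p hp)) ?_ ?_ ?_ ?_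
  · -- the two terms cancel
    intro p hp
    have hp' := hp
    rw [mem_PrN, mem_PrT, mem_TC, mem_TT] at hp'
    obtain ⟨⟨⟨⟨h1, hcard⟩, _⟩, hb, _⟩, hneg⟩ := hp'
    set b' := f p hp with hb'def
    set βb := cf (vR v) p.1 (vR v b') p.2 with hβb
    have hβneg : βb < 0 := hfneg p hp
    have hbτ : p.2 ∉ p.1.erase p.2 := Finset.notMem_erase _ _
    have hb'τ : b' ∉ p.1.erase p.2 := fun hmem => hfσ p hp (Finset.mem_of_mem_erase hmem)
    have hm := zvol3 v φ (p.1.erase p.2) p.2 b' hbτ hb'τ Ξ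
      (by rw [hins p hp]; exact h1.2.1) (hfU p hp).2.1 (hfull p hp).1
      (by
        rw [hins p hp]
        intro i hi ω hω
        exact mem_Gx.1 (h1.1 hi) ω hω)
      (by
        intro i hi ω hω
        exact mem_Gx.1 ((hfU p hp).1 hi) ω hω)
      (by rw [hins p hp]; exact hcard)
      (cf (vR v) p.1 (vR v b')) (by
        rw [hins p hp]
        exact cf_sum ((hfull p hp).2 _ (hG _ (hfG p hp))))
    rw [hins p hp, ← hβb, abs_of_neg hβneg] at hm
    have hy : ∀ ω ∈ Ξ, prR (φ ω) (fun j => (e j : ℝ)) = 0 := by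
      intro ω hω
      have h2 := he ω hω
      unfold pr at h2
      show ∑ j, ((φ ω j : ℝ)) * ((e j : ℝ)) = 0
      exact_mod_cast h2
    have hc2 := hcf p hp _ hy
    rw [← hb'def, ← hβb] at hc2
    simp only [cE, tmE]
    rw [hc2, herase p hp]
    set P := ∏ i ∈ p.1.erase p.2, (VL A B (v i))⁻¹ with hP
    set c := cf (vR v) p.1 (fun j => (e j : ℝ)) p.2 with hc
    have hmC : ((mulv v (insert b' (p.1.erase p.2)) : ℕ) : RatFunc ℂ) =
        RatFunc.C ((-βb * (mulv v p.1 : ℝ) : ℝ) : ℂ) := by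
      rw [← hm]
      simp
    have hmC2 : ((mulv v p.1 : ℕ) : RatFunc ℂ) = RatFunc.C (((mulv v p.1 : ℝ) : ℝ) : ℂ) := by
      simp
    have e1 : RatFunc.C ((c : ℝ) : ℂ) * (RatFunc.C (((mulv v p.1 : ℝ) : ℝ) : ℂ)) +
        RatFunc.C ((c / βb : ℝ) : ℂ) * RatFunc.C ((-βb * (mulv v p.1 : ℝ) : ℝ) : ℂ) = 0 := by
      rw [← map_mul, ← map_mul, ← map_add]
      have e2 : ((c : ℝ) : ℂ) * (((mulv v p.1 : ℝ) : ℝ) : ℂ) +
          ((c / βb : ℝ) : ℂ) * ((-βb * (mulv v p.1 : ℝ) : ℝ) : ℂ) = 0 := by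
        rw [← Complex.ofReal_mul, ← Complex.ofReal_mul, ← Complex.ofReal_add]
        have e3 : c * (mulv v p.1 : ℝ) + c / βb * (-βb * (mulv v p.1 : ℝ)) = 0 := by
          have := hβneg.ne
          field_simp
          ring
        rw [e3, Complex.ofReal_zero]
      rw [e2, map_zero]
    rw [hmC, hmC2]
    calc _ = (RatFunc.C ((c : ℝ) : ℂ) * (RatFunc.C (((mulv v p.1 : ℝ) : ℝ) : ℂ)) +
        RatFunc.C ((c / βb : ℝ) : ℂ) * RatFunc.C ((-βb * (mulv v p.1 : ℝ) : ℝ) : ℂ)) * P := by ring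
      _ = 0 := by rw [e1, zero_mul]
  · -- no fixed points
    intro p hp _ heq
    have h2 : f p hp = p.2 := congrArg Prod.snd heq
    have hp' := hp
    rw [mem_PrN, mem_PrT] at hp'
    exact hfσ p hp (h2 ▸ hp'.1.2.1)
  · -- membership
    intro p hp
    have hp' := hp
    rw [mem_PrN, mem_PrT, mem_TC, mem_TT] at hp'
    obtain ⟨⟨⟨⟨h1, hcard⟩, _⟩, hb, c, hc, hcb, hcl⟩, hneg⟩ := hp'
    have hb'τ : f p hp ∉ p.1.erase p.2 := fun hmem => hfσ p hp (Finset.mem_of_mem_erase hmem)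
    have hcσ' : c ∈ insert (f p hp) (p.1.erase p.2) :=
      Finset.mem_insert_of_mem (Finset.mem_erase.2 ⟨hcb, hc⟩)
    rw [mem_PrN, mem_PrT, mem_TC, mem_TT]
    refine ⟨⟨⟨⟨hfU p hp, ?_⟩, c, hcσ', hcl⟩, Finset.mem_insert_self _ _, c, hcσ', ?_, hcl⟩, ?_⟩
    · rw [Finset.card_insert_of_notMem hb'τ, Finset.card_erase_add_one hb]
      exact hcard
    · rintro rfl
      exact hfσ p hp hc
    · refine ⟨p.2, h1.1 hb, ?_⟩
      have h2 := hcf p hp (vR v p.2) (hG _ (h1.1 hb))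
      have h3 : cf (vR v) p.1 (vR v p.2) p.2 = 1 := by
        rw [cf_eq h1.2.1 (fun i => if i = p.2 then 1 else 0) _ hb]
        · simp
        · simp [hb]
      rw [h3] at h2
      show cf (vR v) (insert (f p hp) (p.1.erase p.2)) (vR v p.2) (f p hp) < 0
      rw [h2]
      exact div_neg_of_pos_of_neg one_pos (hfneg p hp)
  · -- involution
    intro p hp
    have hp' := hp
    rw [mem_PrN, mem_PrT, mem_TC, mem_TT] at hp'
    obtain ⟨⟨⟨⟨h1, hcard⟩, _⟩, hb, c, hc, hcb, hcl⟩, hneg⟩ := hp'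
    have h2 := fun hq => hfuniq (insert (f p hp) (p.1.erase p.2), f p hp) hq p.2 (h1.1 hb)
      (by
        intro hmem
        rcases Finset.mem_insert.1 hmem with h3 | h3
        · exact hfσ p hp (h3 ▸ hb)
        · exact Finset.notMem_erase _ _ h3)
      (by
        show UpperOn (vR v) h (Gx v φ Ξ)
          (insert p.2 ((insert (f p hp) (p.1.erase p.2)).erase (f p hp)))
        rw [herase p hp, hins p hp]
        exact h1)
    ext1
    · simp only
      rw [← h2, herase p hp, hins p hp]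
    · simp only
      rw [← h2]

end Pool.Agent.H37.T5
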