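import Pool.Agent.H37.T5.ZSPL
import Pool.Agent.H37.T5.ZIN
import Pool.Agent.H37.T5.ZBD

/-!
# ZEMP: the empty set

`zemp`: `Ξ = ∅`, `e = v e0`: every `σ ∈ TC ∅` contains `e0` (it is a basis of `ℝ^κ`, so `v e0 = ∑ β v`; if `e0 ∉ σ` upperness gives `h e0 < ∑ β h`, contradicting `htop`), so `c_b = 1` for `b = e0` and `0` for the other `b`: `∑_{p ∈ PrT} cE * tmE = ∑_{σ ∈ TC ∅} tmE σ e0 = V(v e0) ∑ tmv σ` (the pair `(σ, e0)` is in `PrT` since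
the element of `Cl` in `σ` is critical, `≠ e0`).  `zin`, `zbd` for `Ξ = ∅`, and `insert ω ∅ = {ω}`.
-/

set_option autoImplicit false

namespace Pool.Agent.H37.T5

open Finset H60.RegTri

variable {ι κ Ω : Type} [Fintype ι] [DecidableEq ι] [Fintype κ] [DecidableEq κ] [Fintype Ω]
  [DecidableEq Ω] {v : ι → κ → ℤ} {φ : Ω → κ → ℤ} {A B : κ → ℤ} {s0 : ℂ}

omit [DecidableEq κ] in
theorem ZEMP_mem (hZ : ZS v φ A B s0) (h : ι → ℝ) (e0 : ι)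
    (htop : ∀ σ : Finset ι, e0 ∉ σ → LinearIndepOn ℝ (vR v) (σ : Set ι) → ∀ β : ι → ℝ,
      vR v e0 = ∑ i ∈ σ, β i • vR v i → ∑ i ∈ σ, β i * h i < h e0)
    (Cl : Finset ι) (hCl : ∀ c ∈ Cl, IsCr A B s0 (v c)) {σ : Finset ι}
    (hσ : σ ∈ TC v φ h Cl ∅) : e0 ∈ σ := by
  obtain ⟨h1, c, hcσ, hcC⟩ := mem_TC.1 hσ
  by_contra hcon
  obtain ⟨β, hβ⟩ := (zrank hZ h ∅ σ h1 c hcσ (hCl c hcC)).2 (vR v e0) (by simp)
  obtain ⟨⟨h2, h3, h4⟩, h5⟩ := mem_TT.1 h1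
  have h6 := htop σ hcon h3 β hβ
  have h7 := h4 e0 (mem_Gx.2 (by simp)) hcon β hβ
  exact absurd h6 (not_lt.2 h7.le)

omit [DecidableEq κ] [Fintype Ω] [DecidableEq Ω] in
theorem ZEMP_cE (e0 : ι) {σ : Finset ι} (hσ : LinearIndepOn ℝ (vR v) (σ : Set ι))
    (he0 : e0 ∈ σ) {b : ι} (hb : b ∈ σ) : cE v σ (v e0) b = if b = e0 then 1 else 0 := by
  have h1 : cf (vR v) σ (fun j => (v e0 j : ℝ)) b = if b = e0 then 1 else 0 := by
    refine cf_eq hσ (fun i => if i = e0 then 1 else 0) ?_ hb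
    rw [Finset.sum_eq_single e0]
    · rw [if_pos rfl, one_smul]
      rfl
    · intro i _ hi
      rw [if_neg hi, zero_smul]
    · intro h; exact absurd he0 h
  rw [cE, h1]
  split_ifs <;> simp

/-- ZEMP -/
theorem zemp (hZ : ZS v φ A B s0) (h : ι → ℝ) (hgen : ∀ τ, GenericOn (vR v) h τ) (e0 : ι)
    (he0 : ¬ IsCr A B s0 (v e0))
    (htop : ∀ σ : Finset ι, e0 ∉ σ → LinearIndepOn ℝ (vR v) (σ : Set ι) → ∀ β : ι → ℝ,
      vR v e0 = ∑ i ∈ σ, β i • vR v i → ∑ i ∈ σ, β i * h i < h e0)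
    (Cl : Finset ι) (hCl : ∀ c ∈ Cl, IsCr A B s0 (v c)) :
    VL A B (v e0) * JJ v φ A B h Cl ∅ =
      ∑ ω, (pr (φ ω) (v e0) : RatFunc ℂ) * JJ v φ A B h Cl {ω} := by
  classical
  have hN := zin hZ h hgen Cl hCl ∅ (v e0) (by simp)
  have hB := zbd hZ h hgen Cl hCl ∅ (v e0) (by simp)
  have hD : ∀ σ ∈ TC v φ h Cl ∅, tmE A B v σ e0 = VL A B (v e0) * tmv A B v σ := by
    intro σ hσ
    have he := ZEMP_mem hZ h e0 htop Cl hCl hσ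
    rw [tmE, tmv, ← Finset.mul_prod_erase σ _ he]
    have := VL_ne hZ e0
    field_simp
  have hC : ∑ p ∈ PrT v φ h Cl ∅, cE v p.1 (v e0) p.2 * tmE A B v p.1 p.2 =
      ∑ σ ∈ TC v φ h Cl ∅, tmE A B v σ e0 := by
    rw [PrT, Finset.sum_filter, Finset.sum_product]
    refine Finset.sum_congr rfl fun σ hσ => ?_
    have he := ZEMP_mem hZ h e0 htop Cl hCl hσ
    obtain ⟨h1, c, hcσ, hcC⟩ := mem_TC.1 hσ
    obtain ⟨⟨h2, h3, h4⟩, h5⟩ := mem_TT.1 h1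
    rw [Finset.sum_eq_single e0]
    · have h6 : e0 ∈ σ ∧ ∃ c ∈ σ, c ≠ e0 ∧ c ∈ Cl :=
        ⟨he, c, hcσ, fun hh => he0 (hh ▸ hCl c hcC), hcC⟩
      simp only [h6, if_true]
      rw [ZEMP_cE e0 h3 he he, if_pos rfl, one_mul]
      simp
    · intro b _ hb
      split_ifs with h6
      · simp only at h6
        rw [ZEMP_cE e0 h3 he h6.1, if_neg hb, zero_mul]
      · rfl
    · intro h; exact absurd (Finset.mem_univ _) h
  have hS : ∑ p ∈ PrT v φ h Cl ∅, cE v p.1 (v e0) p.2 * tmE A B v p.1 p.2 =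
      ∑ p ∈ PrN v φ h Cl ∅, cE v p.1 (v e0) p.2 * tmE A B v p.1 p.2 +
      ∑ p ∈ PrB v φ h Cl ∅, cE v p.1 (v e0) p.2 * tmE A B v p.1 p.2 := by
    rw [PrN, PrB, Finset.sum_filter_add_sum_filter_not]
  rw [hN, zero_add] at hS
  rw [← hS, hC, Finset.sum_congr rfl hD, ← Finset.mul_sum] at hB
  rw [JJ, mul_left_comm, hB]
  simp


end Pool.Agent.H37.T5
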