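import Pool.Agent.H37.T5.ZPS

/-!
# ZEXT: extension of an upper simplex of a facet

`zext` (extension).  `τ` upper in `G0 = {l ∈ G : ψ (v l) = 0}`.  For `u ∈ G` with `ψ (v u) > 0` the family `insert u τ` is independent (`ψ` vanishes on `τ`, not at `u`) and spans `G` (`hspan`).  Fix `u0 ∈ G` with `ψ (v u0) > 0`; every `u ∈ G` is `v u = (ψ(v u)/ψ(v u0)) v u0 + ∑_τ β^u i v i` (coefficient of `u0` by applying `ψ`); put `m(u) = (h u - ∑_τ β^u i h i)/ψ(v u)` for `ψ(v u) > 0` and choose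
`b` maximising `m`.  `insert b τ` is upper in `G`: for `l ∈ G`, `ψ(v l) > 0`, `l ≠ b`: `v l = c v b + ∑_τ (β^l i - c β^b i) v i`, `c = ψ(v l)/ψ(v b)`, and `c h b + ∑_τ (β^l i - c β^b i) h i = ψ(v l) m(b) + ∑_τ β^l i h i ≥ ψ(v l) m(l) + ∑_τ β^l i h i = h l`, not equal by `hgen`.
For `l ∈ G`, `ψ(v l) = 0`, `l ∉ τ`: the coefficient at `b` of `v l` is `0` and `hτ` applies.  Uniqueness: if `b'` also works, `b' ≠ b`, then `v b' = (ψ(v b')/ψ(v b)) v b + τ`-part with positive coefficient, contradicting `zps`.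
-/

set_option autoImplicit false

namespace Pool.Agent.H37.T5

open Finset H60.RegTri

variable {ι κ : Type} [Fintype ι] [DecidableEq ι] [Fintype κ]

omit [Fintype ι] [Fintype κ] in
/-- the value of `ψ` at a combination of `insert b τ` -/
theorem ZEXT_psi (v : ι → κ → ℝ) (ψ : (κ → ℝ) →ₗ[ℝ] ℝ) (τ : Finset ι)
    (hτ : ∀ l ∈ τ, ψ (v l) = 0) (b : ι) (hb : b ∉ τ) (β : ι → ℝ) :
    ψ (∑ i ∈ insert b τ, β i • v i) = β b * ψ (v b) := by
  rw [map_sum, Finset.sum_insert hb, map_smul, smul_eq_mul, Finset.sum_eq_zero, add_zero]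
  intro i hi
  rw [map_smul, hτ i hi, smul_zero]

omit [Fintype ι] [Fintype κ] in
/-- independence of `insert b τ` -/
theorem ZEXT_ind (v : ι → κ → ℝ) (ψ : (κ → ℝ) →ₗ[ℝ] ℝ) (τ : Finset ι)
    (hτ : ∀ l ∈ τ, ψ (v l) = 0) (hi : LinearIndepOn ℝ v (τ : Set ι)) (b : ι)
    (hb : ψ (v b) ≠ 0) : LinearIndepOn ℝ v ((insert b τ : Finset ι) : Set ι) := by
  rw [Finset.coe_insert]
  apply LinearIndepOn.insert hi
  intro hmem
  obtain ⟨β, hβ⟩ := (mem_span_iff v τ (v b)).mp hmem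
  apply hb
  rw [hβ, map_sum]
  refine Finset.sum_eq_zero fun i hi => ?_
  rw [map_smul, hτ i hi, smul_zero]

/-- ZEXT -/
theorem zext (v : ι → κ → ℝ) (h : ι → ℝ) (hgen : ∀ τ, GenericOn v h τ) (G : Finset ι)
    (ψ : (κ → ℝ) →ₗ[ℝ] ℝ) (hψ : ∀ l ∈ G, 0 ≤ ψ (v l)) (hpos : ∃ u ∈ G, 0 < ψ (v u))
    (τ : Finset ι) (hτG : ∀ l ∈ τ, l ∈ G ∧ ψ (v l) = 0)
    (hτ : LinearIndepOn ℝ v (τ : Set ι) ∧ ∀ l ∈ G, ψ (v l) = 0 → l ∉ τ → ∀ β : ι → ℝ,
      v l = ∑ i ∈ τ, β i • v i → h l < ∑ i ∈ τ, β i * h i)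
    (hspan : ∀ u ∈ G, 0 < ψ (v u) → ∀ l ∈ G, ∃ β : ι → ℝ, v l = ∑ i ∈ insert u τ, β i • v i) :
    ∃ b ∈ G, 0 < ψ (v b) ∧ UpperOn v h G (insert b τ) ∧
      ∀ b' ∈ G, 0 < ψ (v b') → UpperOn v h G (insert b' τ) → b' = b := by
  have hτ0 : ∀ l ∈ τ, ψ (v l) = 0 := fun l hl => (hτG l hl).2
  have hnot : ∀ u, 0 < ψ (v u) → u ∉ τ := by
    intro u hu hut
    have := hτ0 u hut
    linarith
  obtain ⟨u0, hu0, hu0p⟩ := hpos
  -- the expansion with respect to `insert u0 τ`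
  have hex : ∀ u, ∃ β : ι → ℝ, u ∈ G →
      v u = (ψ (v u) / ψ (v u0)) • v u0 + ∑ i ∈ τ, β i • v i := by
    intro u
    by_cases hu : u ∈ G
    · obtain ⟨γ, hγ⟩ := hspan u0 hu0 hu0p u hu
      refine ⟨γ, fun _ => ?_⟩
      have h1 : ψ (v u) = γ u0 * ψ (v u0) := by
        conv_lhs => rw [hγ]
        exact ZEXT_psi v ψ τ hτ0 u0 (hnot u0 hu0p) γ
      have h2 : ψ (v u) / ψ (v u0) = γ u0 := by
        rw [h1, mul_div_assoc, div_self hu0p.ne', mul_one]
      rw [h2]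
      conv_lhs => rw [hγ]
      rw [Finset.sum_insert (hnot u0 hu0p)]
    · exact ⟨0, fun h => absurd h hu⟩
  choose bt hbt using hex
  -- the maximal slope
  obtain ⟨b, hb, hmax⟩ := Finset.exists_max_image (G.filter fun u => 0 < ψ (v u))
    (fun u => (h u - ∑ i ∈ τ, bt u i * h i) / ψ (v u)) ⟨u0, Finset.mem_filter.2 ⟨hu0, hu0p⟩⟩
  obtain ⟨hbG, hbp⟩ := Finset.mem_filter.1 hb
  have hbτ := hnot b hbp
  have hindb := ZEXT_ind v ψ τ hτ0 hτ.1 b hbp.ne'
  have hsub : insert b τ ⊆ G := by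
    intro i hi
    rcases Finset.mem_insert.1 hi with rfl | hi
    · exact hbG
    · exact (hτG i hi).1
  have hup : UpperOn v h G (insert b τ) := by
    refine ⟨hsub, hindb, ?_⟩
    intro l hl hlb β hβ
    have hlτ : l ∉ τ := fun h1 => hlb (Finset.mem_insert_of_mem h1)
    have h1 : ψ (v l) = β b * ψ (v b) := by
      conv_lhs => rw [hβ]
      exact ZEXT_psi v ψ τ hτ0 b hbτ β
    have hβ' := hβ
    rw [Finset.sum_insert hbτ] at hβ' ⊢
    rcases (hψ l hl).lt_or_eq with hp | hp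
    · -- positive
      refine lt_of_le_of_ne ?_ (by
        have := hgen G (insert b τ) hsub hindb l hl hlb β hβ
        rwa [Finset.sum_insert hbτ] at this)
      have hc : β b = ψ (v l) / ψ (v b) := by
        rw [h1, mul_div_assoc, div_self hbp.ne', mul_one]
      have e1 := hbt l hl
      have e2 := hbt b hbG
      have e3 : ∑ i ∈ τ, β i • v i = ∑ i ∈ τ, (bt l i - β b * bt b i) • v i := by
        have e4 : ∑ i ∈ τ, (bt l i - β b * bt b i) • v i =
            ∑ i ∈ τ, bt l i • v i - β b • ∑ i ∈ τ, bt b i • v i := by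
          rw [Finset.smul_sum, ← Finset.sum_sub_distrib]
          refine Finset.sum_congr rfl fun i _ => ?_
          rw [sub_smul, smul_smul]
        have e5 : ∑ i ∈ τ, bt l i • v i = v l - (ψ (v l) / ψ (v u0)) • v u0 :=
          (sub_eq_of_eq_add' e1).symm
        have e6 : ∑ i ∈ τ, bt b i • v i = v b - (ψ (v b) / ψ (v u0)) • v u0 :=
          (sub_eq_of_eq_add' e2).symm
        rw [e4, e5, e6, smul_sub, smul_smul]
        have e7 : β b * (ψ (v b) / ψ (v u0)) = ψ (v l) / ψ (v u0) := by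
          rw [h1]; ring
        rw [e7]
        have e8 : ∑ i ∈ τ, β i • v i = v l - β b • v b := (sub_eq_of_eq_add' hβ').symm
        rw [e8]
        abel
      have hco := coeff_unique v τ hτ.1 _ _ e3
      have e9 : ∑ i ∈ τ, β i * h i = ∑ i ∈ τ, bt l i * h i - β b * ∑ i ∈ τ, bt b i * h i := by
        rw [Finset.mul_sum, ← Finset.sum_sub_distrib]
        refine Finset.sum_congr rfl fun i hi => ?_
        rw [hco i hi]
        ring
      have hm := hmax l (Finset.mem_filter.2 ⟨hl, hp⟩)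
      rw [div_le_iff₀ hp] at hm
      rw [e9, hc]
      have e10 : (h b - ∑ i ∈ τ, bt b i * h i) / ψ (v b) * ψ (v l) =
          ψ (v l) / ψ (v b) * h b - ψ (v l) / ψ (v b) * ∑ i ∈ τ, bt b i * h i := by ring
      rw [e10] at hm
      linarith
    · -- zero
      have hb0 : β b = 0 := by
        rw [← hp] at h1
        rcases mul_eq_zero.1 h1.symm with h2 | h2
        · exact h2
        · exact absurd h2 hbp.ne'
      rw [hb0, zero_smul, zero_add] at hβ'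
      rw [hb0, zero_mul, zero_add]
      exact hτ.2 l hl hp.symm hlτ β hβ'
  refine ⟨b, hbG, hbp, hup, ?_⟩
  intro b' hb'G hb'p hup'
  by_contra hne
  have hb'τ := hnot b' hb'p
  obtain ⟨β, hβ⟩ := hspan b hbG hbp b' hb'G
  have h1 := zps v h G τ b b' (fun h => hne h.symm) hbτ hb'τ hup hup' β hβ
  have h2 : ψ (v b') = β b * ψ (v b) := by
    conv_lhs => rw [hβ]
    exact ZEXT_psi v ψ τ hτ0 b hbτ β
  have h3 := mul_neg_of_neg_of_pos h1 hbp
  linarith


end Pool.Agent.H37.T5
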