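import Pool.Agent.H37.T5.ZSD

/-!
# ZFBB: sets of vertices of a simplicial facet span faces

Let `w` be a simplicial facet normal.
(B) `T` a nonempty set of vertices on the face of `w`.  `zfb_face`: `IsFace a (cls a T)`: by `zsd_ind` there is a real `y` with `(1,a_t)·y = 0` for `t ∈ T`, `= 1` for the other vertices on the face of `w`, `y_j = 1` for `w_j = 0`; add a large multiple of `(-N(w); w)`: `> 0` on the exponents off the face and `y_j > 0` for `w_j > 0`; the exponents with `(1,a_i)·y = 0` (the minimum) are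
those `i` on the face with `θ` supported in `T`, i.e. in `cls a T`.  `zfb_vt`: `vt a (cls a T) = T` (a vertex `{i}` which is a convex combination of points `a_t` is one of them; `ha`).  `zfb_mem`: `toReal w ∈ minCone a (cls a T)`.
-/

set_option autoImplicit false

namespace Pool.Agent.H37.T5

open Finset H60.RegTri
open Pool.Agent.H56.SMC

variable {n r : ℕ} (a : Fin r → (Fin n →₀ ℕ))

/-- independent functionals take prescribed values -/
theorem ZFBB_solve {s κ : Type} [Fintype κ] [DecidableEq κ] (v : s → κ → ℝ)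
    (hv : LinearIndependent ℝ v) (c : s → ℝ) :
    ∃ y : κ → ℝ, ∀ i, ∑ x, v i x * y x = c i := by
  obtain ⟨g, hg⟩ := LinearMap.exists_extend ((Module.Basis.span hv).constr ℝ c)
  refine ⟨fun x => g (fun j => if x = j then 1 else 0), fun i => ?_⟩
  have h1 := LinearMap.pi_apply_eq_sum_univ g (v i)
  simp only [smul_eq_mul] at h1
  rw [← h1]
  have h2 := LinearMap.congr_fun hg (Module.Basis.span hv i)
  rw [Module.Basis.constr_basis] at h2
  rw [← h2]
  simp only [LinearMap.comp_apply, Submodule.subtype_apply, Module.Basis.span_apply]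

theorem ZFBB_lin (k : Fin n → ℝ) : IsLinearMap ℝ (fun x : Fin n → ℝ => ∑ j, x j * k j) where
  map_add x y := by
    simp only [Pi.add_apply, add_mul, sum_add_distrib]
  map_smul c x := by
    simp only [Pi.smul_apply, smul_eq_mul, mul_sum, mul_assoc]

theorem ZFBB_hull {T : Finset (Vx a)} {k : Fin n → ℝ} {c : ℝ}
    (hT : ∀ t ∈ T, ∑ j, (a t.1 j : ℝ) * k j = c) {i : Fin r} (hi : i ∈ cls a T) :
    ∑ j, (a i j : ℝ) * k j = c := by
  rw [mem_cls] at hi
  have h1 : convexHull ℝ {x | ∃ t ∈ T, x = H22.pointR a t.1}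
      ⊆ {x : Fin n → ℝ | ∑ j, x j * k j = c} := by
    apply convexHull_min _ (convex_hyperplane (ZFBB_lin k) c)
    rintro x ⟨t, ht, rfl⟩
    exact hT t ht
  exact h1 hi

theorem ZFBB_hull_lt {T : Finset (Vx a)} {k : Fin n → ℝ} {c : ℝ}
    (hT : ∀ t ∈ T, c < ∑ j, (a t.1 j : ℝ) * k j) {i : Fin r} (hi : i ∈ cls a T) :
    c < ∑ j, (a i j : ℝ) * k j := by
  rw [mem_cls] at hi
  have h1 : convexHull ℝ {x | ∃ t ∈ T, x = H22.pointR a t.1}
      ⊆ {x : Fin n → ℝ | c < ∑ j, x j * k j} := by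
    apply convexHull_min _ (convex_halfSpace_gt (ZFBB_lin k) c)
    rintro x ⟨t, ht, rfl⟩
    exact hT t ht
  exact h1 hi

theorem ZFBB_wmin_le (w : Fin n → ℕ) (i : Fin r) : H22.wmin a w ≤ ∑ j, a i j * w j :=
  ciInf_le' _ i

/-- a large multiple -/
theorem ZFBB_large {ι : Type} [Fintype ι] (x : ι → ℝ) : ∃ M : ℝ, 0 ≤ M ∧ ∀ i, 0 < x i + M := by
  refine ⟨∑ i, |x i| + 1, by positivity, fun i => ?_⟩
  have h1 : |x i| ≤ ∑ i, |x i| := single_le_sum (f := fun i => |x i|) (fun i _ => abs_nonneg _)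
    (mem_univ i)
  have h2 := neg_abs_le (x i)
  linarith

theorem zfb_face (ha : Function.Injective a) (w : Fin n → ℕ) (hw : FacetNormal a w)
    (hs : SimpF a w) (T : Finset (Vx a)) (hT : T.Nonempty)
    (hTw : ∀ t ∈ T, ∑ j, a t.1 j * w j = H22.wmin a w) : H22.IsFace a (cls a T) := by
  classical
  have hind := zsd_ind a ha w hw hs
  obtain ⟨y, hy⟩ := ZFBB_solve (fun ω : {ω | pr (ph a ω) (lf a w) = 0} => vR (ph a) ω) hind
    (fun ω => Sum.elim (fun t : Vx a => if t ∈ T then (0 : ℝ) else 1) (fun _ => 1) ω.1)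
  set y0 : ℝ := y (Sum.inl ()) with hy0
  -- values
  have hv1 : ∀ t : Vx a, ∑ j, a t.1 j * w j = H22.wmin a w →
      y0 + ∑ j, (a t.1 j : ℝ) * y (Sum.inr j) = if t ∈ T then (0 : ℝ) else 1 := by
    intro t ht
    have hmem : (Sum.inl t : OmT a) ∈ {ω | pr (ph a ω) (lf a w) = 0} := by
      simp only [Set.mem_ofPred_eq]
      rw [pr_inl_lf, ht, sub_self]
    have h1 := hy ⟨Sum.inl t, hmem⟩
    simp only [Sum.elim_inl] at h1
    rw [← h1, vR_inl, Fintype.sum_sum_type]
    simp [H22.rowR, hy0]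
  have hv2 : ∀ j : Fin n, w j = 0 → y (Sum.inr j) = 1 := by
    intro j hj
    have hmem : (Sum.inr j : OmT a) ∈ {ω | pr (ph a ω) (lf a w) = 0} := by
      simp only [Set.mem_ofPred_eq]
      rw [pr_inr_lf, hj]
      rfl
    have h1 := hy ⟨Sum.inr j, hmem⟩
    simp only [Sum.elim_inr] at h1
    rw [← h1, vR_inr, Fintype.sum_sum_type]
    simp [eR, Pi.single_apply]
  obtain ⟨M1, hM10, hM1⟩ := ZFBB_large (fun j : Fin n => y (Sum.inr j))
  obtain ⟨M2, hM20, hM2⟩ := ZFBB_large (fun i : Fin r => y0 + ∑ j, (a i j : ℝ) * y (Sum.inr j))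
  set M := M1 + M2 with hM
  set k : Fin n → ℝ := fun j => y (Sum.inr j) + M * w j with hk
  have hk0 : ∀ j, 0 ≤ k j := by
    intro j
    simp only [hk]
    rcases Nat.eq_zero_or_pos (w j) with h0 | h0
    · rw [hv2 j h0, h0]
      norm_num
    · have h1 : (1 : ℝ) ≤ (w j : ℝ) := by exact_mod_cast h0
      have h2 := hM1 j
      have h3 : M1 * 1 ≤ M * (w j : ℝ) := by
        apply mul_le_mul _ h1 zero_le_one (by linarith)
        linarith
      linarith
  -- the affine function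
  have hf : ∀ i, ∑ j, (a i j : ℝ) * k j
      = ∑ j, (a i j : ℝ) * y (Sum.inr j) + M * ((∑ j, a i j * w j : ℕ) : ℝ) := by
    intro i
    simp only [hk, mul_add, sum_add_distrib]
    congr 1
    push_cast
    rw [mul_sum]
    apply sum_congr rfl
    intro j _
    ring
  set K : ℝ := -y0 + M * (H22.wmin a w : ℝ) with hK
  have hoff : ∀ i, ∑ j, a i j * w j ≠ H22.wmin a w → K < ∑ j, (a i j : ℝ) * k j := by
    intro i hi
    have h1 : H22.wmin a w + 1 ≤ ∑ j, a i j * w j := by
      have := ZFBB_wmin_le a w i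
      omega
    have h2 : (H22.wmin a w : ℝ) + 1 ≤ ((∑ j, a i j * w j : ℕ) : ℝ) := by exact_mod_cast h1
    have h3 := hM2 i
    have h4 : M * ((H22.wmin a w : ℝ) + 1) ≤ M * ((∑ j, a i j * w j : ℕ) : ℝ) :=
      mul_le_mul_of_nonneg_left h2 (by linarith)
    rw [hf i, hK]
    linarith
  have hon : ∀ i, ∑ j, a i j * w j = H22.wmin a w → ∃ θ : Vx a → ℝ, (∀ t, 0 ≤ θ t) ∧
      ∑ t, θ t = 1 ∧ H22.rowR a i = ∑ t, θ t • H22.rowR a t.1 ∧
      ∑ j, (a i j : ℝ) * k j = K + ∑ t, θ t * (if t ∈ T then (0 : ℝ) else 1) := by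
    intro i hi
    obtain ⟨θ, hθ0, hθ1, hθw, hθ⟩ := zsd_conv a ha w hw hs i hi
    refine ⟨θ, hθ0, hθ1, hθ, ?_⟩
    rw [hf i, hi, hK]
    have h1 : ∀ j, (a i j : ℝ) = ∑ t, θ t * (a t.1 j : ℝ) := by
      intro j
      have := congrFun hθ (Sum.inr j)
      simpa [H22.rowR, Finset.sum_apply] using this
    have h2 : y0 + ∑ j, (a i j : ℝ) * y (Sum.inr j)
        = ∑ t, θ t * (if t ∈ T then (0 : ℝ) else 1) := by
      have h3 : ∑ j, (a i j : ℝ) * y (Sum.inr j)
          = ∑ t, θ t * ∑ j, (a t.1 j : ℝ) * y (Sum.inr j) := by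
        simp only [h1, sum_mul, mul_sum]
        rw [sum_comm]
        apply sum_congr rfl
        intro t _
        apply sum_congr rfl
        intro j _
        ring
      have h4 : y0 = ∑ t, θ t * y0 := by rw [← sum_mul, hθ1, one_mul]
      rw [h3, h4, ← sum_add_distrib]
      apply sum_congr rfl
      intro t _
      by_cases ht : θ t = 0
      · rw [ht]; ring
      · rw [← hv1 t (hθw t ht)]; ring
    linarith
  have hge : ∀ i, K ≤ ∑ j, (a i j : ℝ) * k j := by
    intro i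
    by_cases hi : ∑ j, a i j * w j = H22.wmin a w
    · obtain ⟨θ, hθ0, -, -, h1⟩ := hon i hi
      rw [h1]
      have : 0 ≤ ∑ t, θ t * (if t ∈ T then (0 : ℝ) else 1) := by
        apply sum_nonneg
        intro t _
        apply mul_nonneg (hθ0 t)
        split_ifs <;> norm_num
      linarith
    · exact (hoff i hi).le
  have hTK : ∀ t ∈ T, ∑ j, (a t.1 j : ℝ) * k j = K := by
    intro t ht
    have h1 := hv1 t (hTw t ht)
    rw [if_pos ht] at h1
    rw [hf, hTw t ht, hK]
    linarith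
  refine ⟨k, hk0, fun l => ⟨fun hl l' => ?_, fun hl => ?_⟩⟩
  · rw [ZFBB_hull a hTK hl]
    exact hge l'
  · obtain ⟨t0, ht0⟩ := hT
    have h1 : ∑ j, (a l j : ℝ) * k j = K := by
      apply le_antisymm _ (hge l)
      rw [← hTK t0 ht0]
      exact hl t0.1
    have hlw : ∑ j, a l j * w j = H22.wmin a w := by
      by_contra hcon
      have := hoff l hcon
      linarith
    obtain ⟨θ, hθ0, hθ1, hθ, h2⟩ := hon l hlw
    rw [h1] at h2
    have h3 : ∑ t, θ t * (if t ∈ T then (0 : ℝ) else 1) = 0 := by linarith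
    have h4 : ∀ t, t ∉ T → θ t = 0 := by
      intro t ht
      have h5 := (sum_eq_zero_iff_of_nonneg (fun t _ => mul_nonneg (hθ0 t)
        (by split_ifs <;> norm_num : (0 : ℝ) ≤ if t ∈ T then (0 : ℝ) else 1))).1 h3 t (mem_univ t)
      rw [if_neg ht, mul_one] at h5
      exact h5
    rw [mem_cls]
    have h5 : H22.pointR a l = ∑ t ∈ T, θ t • H22.pointR a t.1 := by
      have h6 : H22.pointR a l = ∑ t, θ t • H22.pointR a t.1 := by
        funext j
        have := congrFun hθ (Sum.inr j)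
        simpa [H22.rowR, H22.pointR, Finset.sum_apply] using this
      rw [h6]
      symm
      apply sum_subset (subset_univ T)
      intro t _ ht
      rw [h4 t ht, zero_smul]
    have h6 : ∑ t ∈ T, θ t = 1 := by
      rw [← hθ1]
      apply sum_subset (subset_univ T)
      intro t _ ht
      exact h4 t ht
    rw [h5]
    have h7 : Convex ℝ (convexHull ℝ {x | ∃ t ∈ T, x = H22.pointR a t.1}) := convex_convexHull ℝ _
    apply h7.sum_mem (fun t _ => hθ0 t) h6
    intro t ht
    exact subset_convexHull ℝ _ ⟨t, ht, rfl⟩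

theorem zfb_vt (ha : Function.Injective a) (T : Finset (Vx a)) : vt a (cls a T) = T := by
  classical
  ext i
  rw [vt_mem]
  constructor
  · intro hi
    by_contra hiT
    obtain ⟨k, hk0, hk⟩ := i.2
    have h1 : ∀ l', ∑ j, (a i.1 j : ℝ) * k j ≤ ∑ j, (a l' j : ℝ) * k j :=
      (hk i.1).1 (mem_singleton_self _)
    have h2 : ∀ t ∈ T, ∑ j, (a i.1 j : ℝ) * k j < ∑ j, (a t.1 j : ℝ) * k j := by
      intro t ht
      by_contra hcon
      push Not at hcon
      have h3 : t.1 ∈ ({i.1} : Finset (Fin r)) := (hk t.1).2 (fun l' => hcon.trans (h1 l'))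
      have h4 : t = i := Subtype.ext (mem_singleton.1 h3)
      exact hiT (h4 ▸ ht)
    have h3 := ZFBB_hull_lt a h2 hi
    exact lt_irrefl _ h3
  · intro hi
    rw [mem_cls]
    exact subset_convexHull ℝ _ ⟨i, hi, rfl⟩

theorem zfb_mem (w : Fin n → ℕ) (T : Finset (Vx a))
    (hTw : ∀ t ∈ T, ∑ j, a t.1 j * w j = H22.wmin a w) :
    H22.toReal w ∈ H22.minCone a (cls a T) := by
  refine ⟨fun j => Nat.cast_nonneg _, fun i hi l => ?_⟩
  have h1 : ∑ j, (a i j : ℝ) * H22.toReal w j = (H22.wmin a w : ℝ) := by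
    apply ZFBB_hull a _ hi
    intro t ht
    rw [← hTw t ht]
    push_cast
    rfl
  rw [h1]
  have h2 : (H22.wmin a w : ℝ) ≤ ((∑ j, a l j * w j : ℕ) : ℝ) := by
    exact_mod_cast ZFBB_wmin_le a w l
  refine h2.trans (le_of_eq ?_)
  push_cast
  rfl

end Pool.Agent.H37.T5
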