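import Pool.Agent.H37.T5.ZCD

/-!
# ZVX: vertices

`exists_vertex`.  Let `u j = L^(j+1)` with `L` larger than all `a i j`: the numbers `∑ a_ij u_j` are pairwise distinct (`a` injective, digits in base `L`); or choose `u > 0` outside finitely many hyperplanes (`H60.RegTri.exists_avoid`).  Let `m = min_i a_i·k`, `δ > 0` the smallest difference `a_i·k - m` over the `i` not attaining the minimum (if any), and `ε > 0` with
`ε |a_i·u - a_l·u| < δ` for all `i, l`.  The minimiser `p` of `a_i·(k + ε u)` is unique, so `IsFace a {p}` (weight `k + ε u ≥ 0`), and it minimises `a_i·k`.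
-/

set_option autoImplicit false

namespace Pool.Agent.H37.T5

open Finset H60.RegTri
open Pool.Agent.H56.SMC

/-- minimise `f` and then `g`: a small multiple of `g` is added to `f` -/
theorem ZVX_step {r : ℕ} (hr : 0 < r) (f g : Fin r → ℝ) : ∃ ε : ℝ, 0 < ε ∧ ∀ p,
    (∀ l, f p + ε * g p ≤ f l + ε * g l) →
      (∀ l, f p ≤ f l) ∧ ∀ l, (∀ l', f l ≤ f l') → g p ≤ g l := by
  have : Nonempty (Fin r) := ⟨⟨0, hr⟩⟩
  obtain ⟨p0, -, hp0⟩ := exists_min_image (univ : Finset (Fin r)) f univ_nonempty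
  have h1 : ∀ᶠ ε in nhdsWithin (0 : ℝ) (Set.Ioi 0),
      ∀ l, f p0 < f l → f p0 + ε * g p0 < f l + ε * g l := by
    rw [Filter.eventually_all]
    intro l
    by_cases hl : f p0 < f l
    · have hc1 : Continuous (fun ε : ℝ => f p0 + ε * g p0) := by fun_prop
      have hc2 : Continuous (fun ε : ℝ => f l + ε * g l) := by fun_prop
      have h2 : ∀ᶠ ε in nhds (0 : ℝ), f p0 + ε * g p0 < f l + ε * g l :=
        (hc1.tendsto 0).eventually_lt (hc2.tendsto 0) (by simpa using hl)
      exact (h2.filter_mono nhdsWithin_le_nhds).mono fun ε hε _ => hε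
    · exact Filter.Eventually.of_forall fun ε h => absurd h hl
  obtain ⟨ε, hε1, hε⟩ := (h1.and self_mem_nhdsWithin).exists
  refine ⟨ε, hε, fun p hp => ?_⟩
  have hpp : f p ≤ f p0 := by
    by_contra hcon
    push Not at hcon
    have := hε1 p hcon
    have := hp p0
    linarith
  have hmin : ∀ l, f p ≤ f l := fun l => hpp.trans (hp0 l (mem_univ l))
  refine ⟨hmin, fun l hl => ?_⟩
  have h3 : f l = f p := le_antisymm (hl p) (hmin l)
  have h4 := hp l
  rw [h3] at h4
  have h5 : ε * g p ≤ ε * g l := by linarith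
  exact le_of_mul_le_mul_left h5 hε

/-- ZVX -/
theorem exists_vertex {n r : ℕ} (a : Fin r → (Fin n →₀ ℕ)) (ha : Function.Injective a)
    (hr : 0 < r) (k : Fin n → ℝ) (hk : ∀ j, 0 ≤ k j) :
    ∃ p, H22.IsFace a {p} ∧ ∀ l, ∑ j, (a p j : ℝ) * k j ≤ ∑ j, (a l j : ℝ) * k j := by
  classical
  have key : ∀ m : ℕ, ∃ k' : Fin n → ℝ, (∀ j, 0 ≤ k' j) ∧
      (∀ p, (∀ l, ∑ j, (a p j : ℝ) * k' j ≤ ∑ j, (a l j : ℝ) * k' j) →
        ∀ l, ∑ j, (a p j : ℝ) * k j ≤ ∑ j, (a l j : ℝ) * k j) ∧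
      ∀ p q, (∀ l, ∑ j, (a p j : ℝ) * k' j ≤ ∑ j, (a l j : ℝ) * k' j) →
        (∀ l, ∑ j, (a q j : ℝ) * k' j ≤ ∑ j, (a l j : ℝ) * k' j) →
        ∀ j : Fin n, j.val < m → a p j = a q j := by
    intro m
    induction m with
    | zero => exact ⟨k, hk, fun p hp => hp, fun p q _ _ j hj => absurd hj (Nat.not_lt_zero _)⟩
    | succ m ih =>
      obtain ⟨k', hk'0, hk'1, hk'2⟩ := ih
      by_cases hm : m < n
      · obtain ⟨ε, hε, hstep⟩ := ZVX_step hr (fun i => ∑ j, (a i j : ℝ) * k' j)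
          (fun i => (a i ⟨m, hm⟩ : ℝ))
        have hsum : ∀ i, ∑ j, (a i j : ℝ) * (k' j + ε * (if j = ⟨m, hm⟩ then 1 else 0))
            = ∑ j, (a i j : ℝ) * k' j + ε * (a i ⟨m, hm⟩ : ℝ) := by
          intro i
          simp only [mul_add, sum_add_distrib]
          congr 1
          rw [sum_eq_single_of_mem (⟨m, hm⟩ : Fin n) (mem_univ _)]
          · rw [if_pos rfl]; ring
          · intro j _ hj
            rw [if_neg hj]; ring
        refine ⟨fun j => k' j + ε * (if j = ⟨m, hm⟩ then 1 else 0), ?_, ?_, ?_⟩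
        · intro j
          have : (0 : ℝ) ≤ if j = ⟨m, hm⟩ then 1 else 0 := by split_ifs <;> norm_num
          have h2 := hk'0 j
          positivity
        · intro p hp
          simp only [hsum] at hp
          exact hk'1 p (hstep p hp).1
        · intro p q hp hq j hj
          simp only [hsum] at hp hq
          obtain ⟨hp1, hp2⟩ := hstep p hp
          obtain ⟨hq1, hq2⟩ := hstep q hq
          rcases Nat.lt_succ_iff_lt_or_eq.1 hj with h | h
          · exact hk'2 p q hp1 hq1 j h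
          · have hjm : j = ⟨m, hm⟩ := Fin.ext h
            subst hjm
            have h3 := le_antisymm (hp2 q hq1) (hq2 p hp1)
            exact_mod_cast h3
      · refine ⟨k', hk'0, hk'1, fun p q hp hq j hj => ?_⟩
        exact hk'2 p q hp hq j (by omega)
  obtain ⟨k', hk'0, hk'1, hk'2⟩ := key n
  have : Nonempty (Fin r) := ⟨⟨0, hr⟩⟩
  obtain ⟨p, -, hp⟩ := exists_min_image (univ : Finset (Fin r))
    (fun i => ∑ j, (a i j : ℝ) * k' j) univ_nonempty
  have hp' : ∀ l, ∑ j, (a p j : ℝ) * k' j ≤ ∑ j, (a l j : ℝ) * k' j := fun l => hp l (mem_univ l)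
  refine ⟨p, ⟨k', hk'0, fun l => ⟨fun hl => ?_, fun hl => ?_⟩⟩, hk'1 p hp'⟩
  · rw [mem_singleton.1 hl]
    exact hp'
  · rw [mem_singleton]
    apply ha
    ext j
    exact hk'2 l p hl hp' j j.2

end Pool.Agent.H37.T5
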