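import Pool.Agent.H37.T5.ZSD
import Pool.Agent.H37.T5.ZVX

/-!
# ZFBA: faces under a simplicial facet and their vertices

Let `w` be a simplicial facet normal.
(A) `τ` a face (`IsFace a τ`), `toReal w ∈ minCone a τ`: all `i ∈ τ` are on the face of `w` (`H22.wmin_eq`).  `τ = {minimisers of k}`, `k ≥ 0`.  `zfb_cls`: `cls a (vt a τ) = τ`: `i ∈ τ`: `(1,a_i) = ∑ θ_t (1,a_t)` (`zsd_conv`), `a_i·k` minimal, so `θ_t ≠ 0` only for `t` with `a_t·k` minimal, `t ∈ τ`: `a_i` is in the convex hull of `vt a τ`.  Conversely a convex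
combination of points of `τ` has minimal value.  `zfb_ne`: `exists_vertex` for `k`.  `zfb_rank`: the span of `rowR` on `τ` is the span on the vertices of `τ`, which are independent (`zsd_ind`, all on the face of `w`).  `zfb_cone`: for `y ≥ 0`: `y ∈ minCone a τ` iff `y ∈ minCone a (vertices of τ)` (convex combinations).
-/

set_option autoImplicit false

namespace Pool.Agent.H37.T5

open Finset H60.RegTri
open Pool.Agent.H56.SMC

variable {n r : ℕ} (a : Fin r → (Fin n →₀ ℕ))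

theorem ZFBA_val {i : Fin r} {θ : Vx a → ℝ}
    (h : H22.rowR a i = ∑ t, θ t • H22.rowR a t.1) (y : Fin n → ℝ) :
    ∑ j, (a i j : ℝ) * y j = ∑ t, θ t * ∑ j, (a t.1 j : ℝ) * y j := by
  have h1 : ∀ j, (a i j : ℝ) = ∑ t, θ t * (a t.1 j : ℝ) := by
    intro j
    have := congrFun h (Sum.inr j)
    simpa [H22.rowR, Finset.sum_apply] using this
  simp_rw [Finset.mul_sum]
  rw [Finset.sum_comm]
  refine sum_congr rfl fun j _ => ?_
  rw [h1 j, Finset.sum_mul]
  refine sum_congr rfl fun t _ => ?_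
  ring

theorem ZFBA_on (w : Fin n → ℕ) (τ : Finset (Fin r))
    (hwτ : H22.toReal w ∈ H22.minCone a τ) {i : Fin r} (hi : i ∈ τ) :
    ∑ j, a i j * w j = H22.wmin a w := by
  have hmin : ∀ l, ∑ j, a i j * w j ≤ ∑ j, a l j * w j := by
    intro l
    have := hwτ.2 i hi l
    unfold H22.toReal at this
    exact_mod_cast this
  unfold H22.wmin
  have : Nonempty (Fin r) := ⟨i⟩
  apply le_antisymm
  · exact le_ciInf hmin
  · exact ciInf_le (OrderBot.bddBelow _) i

theorem ZFBA_conv (ha : Function.Injective a) (w : Fin n → ℕ) (hw : FacetNormal a w)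
    (hs : SimpF a w) (τ : Finset (Fin r)) (hτ : H22.IsFace a τ)
    (hwτ : H22.toReal w ∈ H22.minCone a τ) (i : Fin r) (hi : i ∈ τ) :
    ∃ θ : Vx a → ℝ, (∀ t, 0 ≤ θ t) ∧ ∑ t, θ t = 1 ∧ (∀ t, θ t ≠ 0 → t ∈ vt a τ) ∧
      H22.rowR a i = ∑ t, θ t • H22.rowR a t.1 := by
  obtain ⟨θ, h1, h2, -, h4⟩ := zsd_conv a ha w hw hs i (ZFBA_on a w τ hwτ hi)
  refine ⟨θ, h1, h2, ?_, h4⟩
  obtain ⟨k, hk, hmem⟩ := hτ
  have hi' := (hmem i).1 hi
  have hv := ZFBA_val a h4 k
  have hsum : ∑ t, θ t * (∑ j, (a t.1 j : ℝ) * k j - ∑ j, (a i j : ℝ) * k j) = 0 := by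
    simp_rw [mul_sub]
    rw [Finset.sum_sub_distrib, ← hv, ← Finset.sum_mul, h2, one_mul, sub_self]
  have hz := (Finset.sum_eq_zero_iff_of_nonneg (fun t _ =>
    mul_nonneg (h1 t) (sub_nonneg.2 (hi' t.1)))).1 hsum
  intro t ht
  rw [vt_mem, hmem]
  intro l
  have h5 := hz t (mem_univ t)
  have h6 : ∑ j, (a t.1 j : ℝ) * k j - ∑ j, (a i j : ℝ) * k j = 0 :=
    (mul_eq_zero.1 h5).resolve_left ht
  have h7 := hi' l
  linarith

theorem zfb_cls (ha : Function.Injective a) (w : Fin n → ℕ) (hw : FacetNormal a w)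
    (hs : SimpF a w) (τ : Finset (Fin r)) (hτ : H22.IsFace a τ)
    (hwτ : H22.toReal w ∈ H22.minCone a τ) : cls a (vt a τ) = τ := by
  ext i
  rw [mem_cls]
  constructor
  · intro hi
    obtain ⟨k, hk, hmem⟩ := hτ
    rw [hmem]
    intro l
    have hconv : Convex ℝ {y : Fin n → ℝ | ∑ j, y j * k j ≤ ∑ j, (a l j : ℝ) * k j} := by
      intro x hx y hy p q hp hq hpq
      simp only [Set.mem_ofPred_eq] at hx hy ⊢
      have e : ∑ j, (p • x + q • y) j * k j = p * ∑ j, x j * k j + q * ∑ j, y j * k j := by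
        rw [Finset.mul_sum, Finset.mul_sum, ← Finset.sum_add_distrib]
        refine sum_congr rfl fun j _ => ?_
        simp only [Pi.add_apply, Pi.smul_apply, smul_eq_mul]
        ring
      rw [e]
      have h3 := mul_le_mul_of_nonneg_left hx hp
      have h4 := mul_le_mul_of_nonneg_left hy hq
      calc _ ≤ p * ∑ j, (a l j : ℝ) * k j + q * ∑ j, (a l j : ℝ) * k j := add_le_add h3 h4
        _ = _ := by rw [← add_mul, hpq, one_mul]
    have hsub : {x | ∃ t ∈ vt a τ, x = H22.pointR a t.1} ⊆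
        {y : Fin n → ℝ | ∑ j, y j * k j ≤ ∑ j, (a l j : ℝ) * k j} := by
      rintro x ⟨t, ht, rfl⟩
      exact (hmem t.1).1 (vt_mem.1 ht) l
    exact convexHull_min hsub hconv hi
  · intro hi
    obtain ⟨θ, h1, h2, h3, h4⟩ := ZFBA_conv a ha w hw hs τ hτ hwτ i hi
    have h0 : ∀ t ∉ vt a τ, θ t = 0 := fun t ht => by
      by_contra h
      exact ht (h3 t h)
    have e1 : H22.pointR a i = ∑ t ∈ vt a τ, θ t • H22.pointR a t.1 := by
      rw [Finset.sum_subset (Finset.subset_univ _)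
        (fun t _ ht => by rw [h0 t ht, zero_smul])]
      funext j
      have := congrFun h4 (Sum.inr j)
      simpa [H22.rowR, H22.pointR, Finset.sum_apply] using this
    have e2 : ∑ t ∈ vt a τ, θ t = 1 := by
      rw [← h2]
      exact Finset.sum_subset (Finset.subset_univ _) (fun t _ ht => h0 t ht)
    rw [e1]
    exact (convex_convexHull ℝ _).sum_mem (fun t _ => h1 t) e2
      (fun t ht => subset_convexHull ℝ _ ⟨t, ht, rfl⟩)

theorem zfb_ne (ha : Function.Injective a) (hr : 0 < r) (τ : Finset (Fin r))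
    (hτ : H22.IsFace a τ) : (vt a τ).Nonempty := by
  obtain ⟨k, hk, hmem⟩ := hτ
  obtain ⟨p, hp, hmin⟩ := exists_vertex a ha hr k hk
  exact ⟨⟨p, hp⟩, vt_mem.2 ((hmem p).2 hmin)⟩

theorem zfb_rank (ha : Function.Injective a) (w : Fin n → ℕ) (hw : FacetNormal a w)
    (hs : SimpF a w) (τ : Finset (Fin r)) (hτ : H22.IsFace a τ)
    (hwτ : H22.toReal w ∈ H22.minCone a τ) : H22.faceRank a τ = (vt a τ).card := by
  have hind : LinearIndependent ℝ (fun t : {t // t ∈ vt a τ} => H22.rowR a t.1.1) := by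
    have h1 := zsd_ind a ha w hw hs
    have hmem : ∀ t : {t // t ∈ vt a τ},
        (Sum.inl t.1 : OmT a) ∈ {ω : OmT a | pr (ph a ω) (lf a w) = 0} := by
      intro t
      show pr (ph a (Sum.inl t.1)) (lf a w) = 0
      rw [pr_inl_lf, ZFBA_on a w τ hwτ (vt_mem.1 t.2), sub_self]
    have h2 := h1.comp (fun t : {t // t ∈ vt a τ} =>
      (⟨Sum.inl t.1, hmem t⟩ : {ω : OmT a | pr (ph a ω) (lf a w) = 0})) (by
        intro t t' h
        have := congrArg Subtype.val h
        exact Subtype.ext (Sum.inl_injective this))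
    have e : (fun t : {t // t ∈ vt a τ} => H22.rowR a t.1.1) =
        fun t : {t // t ∈ vt a τ} => vR (ph a) (Sum.inl t.1) :=
      funext fun t => (vR_inl a t.1).symm
    rw [e]
    exact h2
  unfold H22.faceRank
  have hspan : Submodule.span ℝ (H22.rowR a '' (τ : Set (Fin r))) =
      Submodule.span ℝ (Set.range (fun t : {t // t ∈ vt a τ} => H22.rowR a t.1.1)) := by
    apply le_antisymm
    · rw [Submodule.span_le]
      rintro x ⟨i, hi, rfl⟩
      obtain ⟨θ, h1, h2, h3, h4⟩ := ZFBA_conv a ha w hw hs τ hτ hwτ i hi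
      rw [h4]
      refine Submodule.sum_mem _ fun t _ => ?_
      by_cases h : θ t = 0
      · rw [h, zero_smul]
        exact Submodule.zero_mem _
      · exact Submodule.smul_mem _ _ (Submodule.subset_span ⟨⟨t, h3 t h⟩, rfl⟩)
    · rw [Submodule.span_le]
      rintro x ⟨t, rfl⟩
      exact Submodule.subset_span ⟨t.1.1, vt_mem.1 t.2, rfl⟩
  rw [hspan, finrank_span_eq_card hind, Fintype.card_coe]

theorem zfb_cone (ha : Function.Injective a) (w : Fin n → ℕ) (hw : FacetNormal a w)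
    (hs : SimpF a w) (τ : Finset (Fin r)) (hτ : H22.IsFace a τ)
    (hwτ : H22.toReal w ∈ H22.minCone a τ) (y : Fin n → ℝ) :
    y ∈ H22.minCone a τ ↔ (∀ j, 0 ≤ y j) ∧ ∀ t ∈ vt a τ, ∀ l,
      ∑ j, (a t.1 j : ℝ) * y j ≤ ∑ j, (a l j : ℝ) * y j := by
  constructor
  · rintro ⟨h1, h2⟩
    exact ⟨h1, fun t ht l => h2 t.1 (vt_mem.1 ht) l⟩
  · rintro ⟨h1, h2⟩
    refine ⟨h1, fun i hi l => ?_⟩
    obtain ⟨θ, h3, h4, h5, h6⟩ := ZFBA_conv a ha w hw hs τ hτ hwτ i hi
    rw [ZFBA_val a h6 y]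
    calc ∑ t, θ t * ∑ j, (a t.1 j : ℝ) * y j ≤ ∑ t, θ t * ∑ j, (a l j : ℝ) * y j := by
          refine sum_le_sum fun t _ => ?_
          by_cases h : θ t = 0
          · rw [h, zero_mul, zero_mul]
          · exact mul_le_mul_of_nonneg_left (h2 t (h5 t h) l) (h3 t)
      _ = ∑ j, (a l j : ℝ) * y j := by rw [← Finset.sum_mul, h4, one_mul]

end Pool.Agent.H37.T5
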