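import Pool.Agent.H37.T5.ZSM
import Pool.Agent.H37.T5.ZABS
import Pool.Agent.H37.T5.ZAPB
import Pool.Agent.H56.SMC.ZTC
import Pool.Agent.H56.SMC.ZNR

/-!
# ZFIN: Theorem N

Proof.  Suppose `s0` is a pole.  `ztc` gives a critical facet normal, so `s0 ≠ 0` (`|w| ≠ 0`).  `R` from `exists_raySet`, `zzs`; `zhtb` with `e0 = none` (`IsCr_rho`) and `v' = rv0 R` gives `h`.  `zabs` with `Vt = inL univ`, `e = eD` (`pr_AA_eD`, `pr_BB_eD`), `H` = `zapb`: the sum over `T ∈ (inL univ).powerset` is regular; it is the sum over `T : Finset (Vx a)`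
(bijection `T ↦ inL T`).  `zsm`: `Z + X/(X+1) * (this sum)` is regular, `X/(X+1)` is regular at `s0 ≠ -1`, so `Z` is regular: contradiction (`Reg s0 Z` means `¬ Z.denom.IsRoot s0`).
-/

set_option autoImplicit false

namespace Pool.Agent.H37.T5

open Finset H60.RegTri
open Pool.Agent.H56.SMC

/-- Theorem N -/
theorem polesN {n r : ℕ} (a : Fin r → (Fin n →₀ ℕ)) (ha : Function.Injective a)
    (hne : ∃ i, a i ≠ 0) (s0 : ℂ) (hs1 : s0 ≠ -1)
    (hsimp : ∀ w, CritW a s0 w → SimpF a w)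
    (hUB : ∀ (w : Fin n → ℕ) (σ : Finset (Fin r)), FD a w σ →
      s0 = -(H22.wsum w : ℂ) / (H22.wmin a w : ℂ) → UB a w σ)
    (𝒟 : ∀ τ, H22.FaceCones a τ) (𝒯 : ∀ τ, H22.FaceTriang a τ) :
    ¬ (H22.topZetaG a 𝒟 𝒯).denom.IsRoot s0 := by
  classical
  intro hs
  rcases ztc a 𝒟 𝒯 s0 hs with h | ⟨w0, hw0, hN0, hs00⟩
  · exact hs1 h
  have hs0 : s0 ≠ 0 := by
    intro h0
    rw [h0] at hs00
    have h1 : (H22.wmin a w0 : ℂ) ≠ 0 := by exact_mod_cast hN0.ne'
    rw [eq_comm, div_eq_zero_iff] at hs00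
    rcases hs00 with h2 | h2
    · rw [neg_eq_zero] at h2
      have h3 : H22.wsum w0 = 0 := by exact_mod_cast h2
      apply hw0.1
      funext j
      exact (Finset.sum_eq_zero_iff.1 h3) j (mem_univ j)
    · exact h1 h2
  have hr : 0 < r := by
    obtain ⟨i, _⟩ := hne
    exact Nat.pos_of_ne_zero (fun h => by subst h; exact i.elim0)
  obtain ⟨R, hR⟩ := exists_raySet a hr
  have hZ := zzs a ha hr R hR s0 hs0 hsimp
  obtain ⟨h, hgen, hgen', hp, htop⟩ := zhtb hZ none (fun hc => hs0 ((IsCr_rho s0).1 hc)) (rv0 R)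
  have h1 := zabs hZ h hgen hp (inL (univ : Finset (Vx a))) (eD : Fin n → Unit ⊕ Fin n → ℤ)
    pr_AA_eD pr_BB_eD
    (fun Λ hΛ c hc Y hY hΛY => zapb a ha hr R hR s0 hs0 hsimp hUB Λ hΛ c hc Y hY hΛY)
  have h2 := zsm a ha hr R hR h hgen hgen' s0 hs0 hs1 hsimp htop 𝒟 𝒯
  have h3 : ∑ T : Finset (Vx a), (-1) ^ T.card * (mulv (ph a) (inL T) : RatFunc ℂ) * JT a R h T =
      ∑ T ∈ (inL (univ : Finset (Vx a))).powerset,
        (-1) ^ T.card * (mulv (ph a) T : RatFunc ℂ) *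
          ∑ σ ∈ TT (vv a R) (ph a) h T, tmv AA BB (vv a R) σ := by
    refine Finset.sum_bij (fun T _ => inL T) ?_ ?_ ?_ ?_
    · intro T _
      rw [mem_powerset]
      exact Finset.map_subset_map.2 (subset_univ _)
    · intro T _ T' _ hTT
      exact Finset.map_injective _ hTT
    · intro T hT
      rw [mem_powerset] at hT
      obtain ⟨T', -, hT'⟩ := Finset.subset_map_iff.1 hT
      exact ⟨T', mem_univ _, hT'.symm⟩
    · intro T _
      rw [inL, card_map]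
      rfl
  rw [← h3] at h1
  have h4 := h2.sub ((H37.SM.reg_X_div hs1).mul h1)
  rw [add_sub_cancel_right] at h4
  exact h4 hs

end Pool.Agent.H37.T5
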