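import Pool.Agent.H37.T5.ZVX

/-!
# ZGN: the rays generate the cone

`y = (y0; k)`: `k ≥ 0` (`inr`).  `exists_vertex` gives a vertex `q` with `a_q·k` minimal; `k ∈ H22.minCone a {q}`; `hR.gen`: `k = ∑ x_w w`, `x ≥ 0`, over the `w ∈ raysIn a R {q}`; for these `a_q·w = N(w)` (`H22.wmin_eq`), so `∑ x_w (-N(w); w) = (-a_q·k; k)`.
`y = ∑ x_w (-N(w); w) + (y0 + a_q·k) (1; 0)` and `y0 + a_q·k = prR (ph (inl q)) y ≥ 0`.
-/

set_option autoImplicit false

namespace Pool.Agent.H37.T5

open Finset H60.RegTri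
open Pool.Agent.H56.SMC

/-- the pairing with `(0, e_j)` -/
theorem ZGN_pr_inr {n r : ℕ} (a : Fin r → (Fin n →₀ ℕ)) (j : Fin n) (y : Unit ⊕ Fin n → ℝ) :
    prR (ph a (Sum.inr j)) y = y (Sum.inr j) := by
  classical
  simp only [prR, ph, Fintype.sum_sum_type, Sum.elim_inr, Sum.elim_inl, Pi.single_apply]
  simp

/-- the pairing with `(1, a_i)` -/
theorem ZGN_pr_inl {n r : ℕ} (a : Fin r → (Fin n →₀ ℕ)) (i : Vx a) (y : Unit ⊕ Fin n → ℝ) :
    prR (ph a (Sum.inl i)) y = y (Sum.inl ()) + ∑ j, (a i.1 j : ℝ) * y (Sum.inr j) := by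
  simp [prR, ph, H22.homRow, Fintype.sum_sum_type]

/-- ZGN -/
theorem zgn {n r : ℕ} (a : Fin r → (Fin n →₀ ℕ)) (ha : Function.Injective a) (hr : 0 < r)
    (R : Finset (Fin n → ℕ)) (hR : RaySet a R) (y : Unit ⊕ Fin n → ℝ)
    (hy : ∀ ω, 0 ≤ prR (ph a ω) y) :
    ∃ x : Option R → ℝ, (∀ i, 0 ≤ x i) ∧ y = ∑ i, x i • vR (vv a R) i := by
  classical
  have hk : ∀ j, 0 ≤ y (Sum.inr j) := fun j => by
    have h1 := hy (Sum.inr j)
    rwa [ZGN_pr_inr] at h1
  obtain ⟨p, hp, hmin⟩ := exists_vertex a ha hr (fun j => y (Sum.inr j)) hk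
  have hmem : (fun j => y (Sum.inr j)) ∈ H22.minCone a {p} := by
    refine ⟨hk, fun i hi l => ?_⟩
    rw [mem_singleton] at hi
    subst hi
    exact hmin l
  obtain ⟨x, hx0, hx⟩ := hR.gen {p} (singleton_nonempty p) _ hmem
  have hN : ∀ w ∈ raysIn a R {p}, ((H22.wmin a w.1 : ℕ) : ℝ) = ∑ j, (a p j : ℝ) * rv R w j := by
    intro w hw
    have h1 : H22.toReal w.1 ∈ H22.minCone a {p} := mem_raysIn.1 hw
    rw [H22.wmin_eq h1 (mem_singleton_self p)]
    push_cast
    rfl
  have hkj : ∀ j, y (Sum.inr j) = ∑ w ∈ raysIn a R {p}, x w * rv R w j := by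
    intro j
    have h1 := congrFun hx j
    simpa [Finset.sum_apply] using h1
  refine ⟨fun o => o.elim (y (Sum.inl ()) + ∑ j, (a p j : ℝ) * y (Sum.inr j))
    (fun w => if w ∈ raysIn a R {p} then x w else 0), ?_, ?_⟩
  · rintro (_ | w)
    · have h1 := hy (Sum.inl (⟨p, hp⟩ : Vx a))
      have h2 := ZGN_pr_inl a (⟨p, hp⟩ : Vx a) y
      have h3 : 0 ≤ y (Sum.inl ()) + ∑ j, (a p j : ℝ) * y (Sum.inr j) := h1.trans_eq h2
      exact h3
    · show 0 ≤ (if w ∈ raysIn a R {p} then x w else 0)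
      split_ifs with h
      · exact hx0 w h
      · exact le_rfl
  · rw [Fintype.sum_option]
    funext o
    rcases o with o | j
    · have h1 : ∑ j, (a p j : ℝ) * y (Sum.inr j) =
          ∑ w ∈ raysIn a R {p}, x w * ((H22.wmin a w.1 : ℕ) : ℝ) := by
        calc ∑ j, (a p j : ℝ) * y (Sum.inr j)
            = ∑ j, ∑ w ∈ raysIn a R {p}, x w * ((a p j : ℝ) * rv R w j) := by
              refine sum_congr rfl fun j _ => ?_
              rw [hkj j, mul_sum]
              exact sum_congr rfl fun w _ => by ring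
          _ = _ := by
              rw [sum_comm]
              refine sum_congr rfl fun w hw => ?_
              rw [hN w hw, mul_sum]
      simp only [Pi.add_apply, Pi.smul_apply, Finset.sum_apply, smul_eq_mul, Option.elim]
      have h2 : vR (vv a R) none (Sum.inl o) = 1 := by simp [vR, vv, rho]
      have h3 : ∀ w : R, vR (vv a R) (some w) (Sum.inl o) = -((H22.wmin a w.1 : ℕ) : ℝ) := by
        intro w; simp [vR, vv, lf]
      rw [h2, h1]
      have h4 : ∑ w : R, (if w ∈ raysIn a R {p} then x w else 0) * vR (vv a R) (some w) (Sum.inl o)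
          = -∑ w ∈ raysIn a R {p}, x w * ((H22.wmin a w.1 : ℕ) : ℝ) := by
        rw [← sum_neg_distrib]
        rw [← Finset.sum_subset (Finset.subset_univ (raysIn a R {p}))]
        · refine sum_congr rfl fun w hw => ?_
          rw [if_pos hw, h3]; ring
        · intro w _ hw
          rw [if_neg hw, zero_mul]
      rw [h4]
      ring
    · simp only [Pi.add_apply, Pi.smul_apply, Finset.sum_apply, smul_eq_mul, Option.elim]
      have h2 : vR (vv a R) none (Sum.inr j) = 0 := by simp [vR, vv, rho]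
      have h3 : ∀ w : R, vR (vv a R) (some w) (Sum.inr j) = rv R w j := by
        intro w; simp [vR, vv, lf, rv, H22.toReal]
      rw [h2, mul_zero, zero_add, hkj j]
      rw [← Finset.sum_subset (Finset.subset_univ (raysIn a R {p}))]
      · refine sum_congr rfl fun w hw => ?_
        rw [if_pos hw, h3]
      · intro w _ hw
        rw [if_neg hw, zero_mul]

end Pool.Agent.H37.T5
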