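import Pool.Agent.H37.T5.ZSPL
import Pool.Agent.H37.T5.ZIN
import Pool.Agent.H37.T5.ZBD

/-!
# ZID: the relations modulo regular functions

`zid`: `V(e) = 1`; sum over `σ ∈ TC Ξ` of `zsplit`; the pairs `(σ, b)` with an element of `Cl` in `σ.erase b` are `PrT = PrN ∪ PrB`: `zin`, `zbd`; for the other pairs `σ.erase b` contains no critical ray at all (`hcl`), the terms are regular (`cE` is a constant).
-/

set_option autoImplicit false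

namespace Pool.Agent.H37.T5

open Finset H60.RegTri

variable {ι κ Ω : Type} [Fintype ι] [DecidableEq ι] [Fintype κ] [DecidableEq κ] [Fintype Ω]
  [DecidableEq Ω] {v : ι → κ → ℤ} {φ : Ω → κ → ℤ} {A B : κ → ℤ} {s0 : ℂ}

omit [Fintype ι] [DecidableEq ι] [Fintype κ] [DecidableEq κ] [Fintype Ω] [DecidableEq Ω] in
theorem ZID_regC (c : ℂ) : H37.SM.Reg s0 (RatFunc.C c) := by
  rw [H37.SM.reg_iff]
  refine ⟨Polynomial.C c, 1, by simp, ?_⟩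
  rw [RatFunc.algebraMap_C, map_one, div_one]

omit [Fintype ι] [DecidableEq ι] [Fintype κ] [DecidableEq κ] [Fintype Ω] [DecidableEq Ω] in
theorem ZID_regInv (n : ℕ) : H37.SM.Reg s0 ((n : RatFunc ℂ)⁻¹) := by
  have h : ((n : RatFunc ℂ)⁻¹) = RatFunc.C ((n : ℂ)⁻¹) := by
    rw [map_inv₀, map_natCast]
  rw [h]
  exact ZID_regC _

/-- ZID -/
theorem zid (hZ : ZS v φ A B s0) (h : ι → ℝ) (hgen : ∀ τ, GenericOn (vR v) h τ) (Cl : Finset ι)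
    (hCl : ∀ c ∈ Cl, IsCr A B s0 (v c))
    (hcl : ∀ Ξ, ∀ σ ∈ TC v φ h Cl Ξ, ∀ c ∈ σ, IsCr A B s0 (v c) → c ∈ Cl)
    (Ξ : Finset Ω) (e : κ → ℤ) (he : ∀ ω ∈ Ξ, pr (φ ω) e = 0) (heA : pr A e = 1)
    (heB : pr B e = 0) :
    H37.SM.Reg s0 (JJ v φ A B h Cl Ξ -
      ∑ ω ∈ univ \ Ξ, (pr (φ ω) e : RatFunc ℂ) * JJ v φ A B h Cl (insert ω Ξ)) := by
  classical
  have hV : VL A B e = 1 := by
    simp [VL, heA, heB]
  set F : Finset ι × ι → RatFunc ℂ := fun p => cE v p.1 e p.2 * tmE A B v p.1 p.2 with hF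
  -- splitting of all terms
  have h1 : ∑ σ ∈ TC v φ h Cl Ξ, tmv A B v σ = ∑ σ ∈ TC v φ h Cl Ξ, ∑ b ∈ σ, F (σ, b) := by
    refine sum_congr rfl fun σ hσ => ?_
    obtain ⟨hT, c, hc, hcC⟩ := mem_TC.1 hσ
    have hU := (mem_TT.1 hT).1
    have hz := (zrank hZ h Ξ σ hT c hc (hCl c hcC)).2 (fun j => (e j : ℝ)) (fun ω hω => by
      have h2 := he ω hω
      simp only [prR, pr] at h2 ⊢
      exact_mod_cast h2)
    have h3 := zsplit hZ σ hU.2.1 e hz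
    rw [hV, one_mul] at h3
    exact h3
  set P : Finset (Finset ι × ι) :=
    ((TC v φ h Cl Ξ) ×ˢ (univ : Finset ι)).filter (fun p => p.2 ∈ p.1) with hP
  have h2 : ∑ σ ∈ TC v φ h Cl Ξ, ∑ b ∈ σ, F (σ, b) = ∑ p ∈ P, F p := by
    rw [hP, sum_filter, sum_product]
    refine sum_congr rfl fun σ _ => ?_
    rw [← sum_filter]
    exact sum_congr (by ext b; simp) fun _ _ => rfl
  have h3 : ∑ p ∈ P, F p = ∑ p ∈ PrT v φ h Cl Ξ, F p +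
      ∑ p ∈ P.filter (fun p => ¬ ∃ c ∈ p.1, c ≠ p.2 ∧ c ∈ Cl), F p := by
    rw [← sum_filter_add_sum_filter_not P (fun p => ∃ c ∈ p.1, c ≠ p.2 ∧ c ∈ Cl)]
    congr 1
    refine sum_congr ?_ fun _ _ => rfl
    ext p
    rw [mem_PrT]
    simp [hP, and_assoc]
  have h4 : ∑ p ∈ PrT v φ h Cl Ξ, F p = ∑ p ∈ PrN v φ h Cl Ξ, F p + ∑ p ∈ PrB v φ h Cl Ξ, F p := by
    rw [← sum_filter_add_sum_filter_not (PrT v φ h Cl Ξ) (fun p => Neg v φ Ξ p)]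
    congr 1
  have h5 := zin hZ h hgen Cl hCl Ξ e he
  have h6 := zbd hZ h hgen Cl hCl Ξ e he
  have h7 : JJ v φ A B h Cl Ξ -
      ∑ ω ∈ univ \ Ξ, (pr (φ ω) e : RatFunc ℂ) * JJ v φ A B h Cl (insert ω Ξ) =
      (mulv φ Ξ : RatFunc ℂ)⁻¹ *
        ∑ p ∈ P.filter (fun p => ¬ ∃ c ∈ p.1, c ≠ p.2 ∧ c ∈ Cl), F p := by
    rw [← h6, JJ, h1, h2, h3, h4, h5]
    ring
  rw [h7]
  refine (ZID_regInv _).mul (H37.SM.Reg.sum _ _ fun p hp => ?_)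
  rw [mem_filter, hP, mem_filter, mem_product] at hp
  obtain ⟨⟨⟨hpT, _⟩, _⟩, hno⟩ := hp
  refine (ZID_regC _).mul ((H37.SM.reg_natCast _).mul (tm_regv hZ _ fun i hi hcr => hno ?_))
  exact ⟨i, mem_of_mem_erase hi, ne_of_mem_erase hi, hcl Ξ p.1 hpT i (mem_of_mem_erase hi) hcr⟩

end Pool.Agent.H37.T5
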