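import Pool.Agent.H37.T5.ZCD
import Pool.Agent.H56.SMC.ZNL

/-!
# ZJM: multiplicities of lifted rays

`mulv (vv a R) (σ.map some) = mulS σ` for `σ ⊆ raysIn a R τ`: the automorphism `(y0; y) ↦ (y0 + a_t·y; y)` of `ℤ^{1+n}` maps `(-N(w); w)` to `(0; w)`, and the torsion of `ℤ^{1+n}/⟨(0; w)⟩` is the torsion of `ℤ^n/⟨w⟩` (compare the proofs of `mulS_insert`, `faceVol_pyr` in ZNL).
-/

set_option autoImplicit false

namespace Pool.Agent.H37.T5

open Finset H60.RegTri
open Pool.Agent.H56.SMC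

theorem ZJM_tor {M M' : Type*} [AddCommGroup M] [AddCommGroup M'] (F : M →ₗ[ℤ] M') {q : M}
    (hq : q ∈ Submodule.torsion ℤ M) : F q ∈ Submodule.torsion ℤ M' := by
  rw [Submodule.mem_torsion_iff] at hq ⊢
  obtain ⟨a, ha⟩ := hq
  refine ⟨a, ?_⟩
  have h : F ((a : ℤ) • q) = 0 := by
    have : (a : ℤ) • q = 0 := ha
    rw [this, map_zero]
  rw [map_smul] at h
  exact h

theorem ZJM_card {M M' : Type*} [AddCommGroup M] [AddCommGroup M'] (S : Submodule ℤ M)
    (S' : Submodule ℤ M') (f : M →ₗ[ℤ] M') (g : M' →ₗ[ℤ] M) (l : M →ₗ[ℤ] ℤ)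
    (hfS : S ≤ S'.comap f) (hgS : S' ≤ S.comap g) (hfg : ∀ y, f (g y) = y)
    (hl : ∀ x ∈ S, l x = 0) (hgf : ∀ x, l x = 0 → g (f x) = x) :
    Nat.card (Submodule.torsion ℤ (M ⧸ S)) = Nat.card (Submodule.torsion ℤ (M' ⧸ S')) := by
  refine Nat.card_congr ⟨fun q => ⟨S.mapQ S' f hfS q.1, ZJM_tor _ q.2⟩,
    fun q => ⟨S'.mapQ S g hgS q.1, ZJM_tor _ q.2⟩, ?_, ?_⟩
  · rintro ⟨q, hq⟩
    apply Subtype.ext
    obtain ⟨x, rfl⟩ := Submodule.mkQ_surjective _ q
    change S'.mapQ S g hgS (S.mapQ S' f hfS (S.mkQ x)) = S.mkQ x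
    rw [Submodule.mkQ_apply, Submodule.mapQ_apply, Submodule.mapQ_apply]
    congr 1
    apply hgf
    rw [Submodule.mem_torsion_iff] at hq
    obtain ⟨m, hm⟩ := hq
    have h1 : S.mkQ ((m : ℤ) • x) = 0 := by
      rw [map_smul]
      exact hm
    rw [Submodule.mkQ_apply, Submodule.Quotient.mk_eq_zero] at h1
    have h2 := hl _ h1
    rw [map_smul, smul_eq_mul] at h2
    exact (mul_eq_zero.1 h2).resolve_left (nonZeroDivisors.ne_zero m.2)
  · rintro ⟨q, hq⟩
    apply Subtype.ext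
    obtain ⟨y, rfl⟩ := Submodule.mkQ_surjective _ q
    change S.mapQ S' f hfS (S'.mapQ S g hgS (S'.mkQ y)) = S'.mkQ y
    rw [Submodule.mkQ_apply, Submodule.mapQ_apply, Submodule.mapQ_apply, hfg]

variable {n r : ℕ} (a : Fin r → (Fin n →₀ ℕ))

/-- The multiplicities. -/
theorem zjt_mul (R : Finset (Fin n → ℕ)) (t : Fin r) (σ : Finset R)
    (hσ : ∀ w ∈ σ, ∑ j, a t j * w.1 j = H22.wmin a w.1) :
    mulv (vv a R) (σ.map ⟨some, Option.some_injective _⟩) = mulS σ := by
  classical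
  unfold mulv mulS H22.latIndex
  let L : (Fin n → ℤ) →ₗ[ℤ] ℤ := ∑ j, (a t j : ℤ) • LinearMap.proj j
  have hL : ∀ y, L y = ∑ j, (a t j : ℤ) * y j := by
    intro y
    simp [L, LinearMap.sum_apply]
  let f : (Unit ⊕ Fin n → ℤ) →ₗ[ℤ] (Fin n → ℤ) :=
    { toFun := fun x j => x (Sum.inr j)
      map_add' := fun _ _ => rfl
      map_smul' := fun _ _ => rfl }
  let g : (Fin n → ℤ) →ₗ[ℤ] (Unit ⊕ Fin n → ℤ) :=
    { toFun := fun y => Sum.elim (fun _ => - L y) y
      map_add' := fun y z => by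
        funext o
        cases o with
        | inl _ => simp; ring
        | inr _ => simp
      map_smul' := fun c y => by
        funext o
        cases o with
        | inl _ =>
          change - L (c • y) = c * (- L y)
          rw [map_smul, smul_eq_mul]
          ring
        | inr _ => simp }
  let l : (Unit ⊕ Fin n → ℤ) →ₗ[ℤ] ℤ := LinearMap.proj (Sum.inl ()) + L ∘ₗ f
  have hg : ∀ w ∈ σ, g (fun j => ((w.1 j : ℕ) : ℤ)) = lf a w.1 := by
    intro w hw
    funext o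
    cases o with
    | inl _ =>
      change - L _ = -(H22.wmin a w.1 : ℤ)
      rw [hL, ← hσ w hw]
      push_cast
      rfl
    | inr j => rfl
  have hf : ∀ w : Fin n → ℕ, f (lf a w) = fun j => ((w j : ℕ) : ℤ) := fun w => rfl
  have hmem : ∀ w ∈ σ, lf a w.1 ∈ Set.range (fun i : (σ.map ⟨some, Option.some_injective _⟩ :
      Finset (Option R)) => vv a R i) := by
    intro w hw
    exact ⟨⟨some w, by simpa using hw⟩, rfl⟩
  have hmem' : ∀ x ∈ Set.range (fun i : (σ.map ⟨some, Option.some_injective _⟩ :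
      Finset (Option R)) => vv a R i), ∃ w ∈ σ, x = lf a w.1 := by
    rintro _ ⟨⟨o, ho⟩, rfl⟩
    obtain ⟨w, hw, rfl⟩ := Finset.mem_map.1 ho
    exact ⟨w, hw, rfl⟩
  refine ZJM_card _ _ f g l ?_ ?_ (fun y => rfl) ?_ ?_
  · rw [Submodule.span_le]
    intro x hx
    obtain ⟨w, hw, rfl⟩ := hmem' x hx
    rw [SetLike.mem_coe, Submodule.mem_comap, hf]
    exact Submodule.subset_span ⟨⟨w, hw⟩, rfl⟩
  · rw [Submodule.span_le]
    rintro _ ⟨⟨w, hw⟩, rfl⟩
    rw [SetLike.mem_coe, Submodule.mem_comap]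
    have h := hg w hw
    simp only [] at h ⊢
    rw [h]
    exact Submodule.subset_span (hmem w hw)
  · intro x hx
    have h : Submodule.span ℤ (Set.range (fun i : (σ.map ⟨some, Option.some_injective _⟩ :
        Finset (Option R)) => vv a R i)) ≤ LinearMap.ker l := by
      rw [Submodule.span_le]
      intro z hz
      obtain ⟨w, hw, rfl⟩ := hmem' z hz
      change l (lf a w.1) = 0
      change -(H22.wmin a w.1 : ℤ) + L (f (lf a w.1)) = 0
      rw [hf, hL, ← hσ w hw]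
      push_cast
      ring
    exact h hx
  · intro x hx
    have hx' : x (Sum.inl ()) + L (f x) = 0 := hx
    funext o
    cases o with
    | inl u =>
      change - L (f x) = x (Sum.inl u)
      have : x (Sum.inl u) = x (Sum.inl ()) := rfl
      rw [this]
      linarith
    | inr j => rfl

end Pool.Agent.H37.T5
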