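import Pool.Agent.H37.T5.ZFB
import Pool.Agent.H37.T5.ZJM
import Pool.Agent.H56.SMC.ZNJT

/-!
# ZJT: `J_τ` through the lifted rays

`T = vt a τ`, nonempty (`zfb_ne`).  `jf_tri` with the heights `fun w => h (some w)` (generic for `rv R` by `hgen'`: a relation in `rv R` is a relation in `rv0 R`) gives `JfunG a τ 𝒟 = ∑_{σ ∈ upT R h' (raysIn a R τ) (n + 1 - faceRank a τ)} tm a σ`, `faceRank a τ = |T|` (`zfb_rank`).  The map `σ ↦ σ.map some` is a bijection onto `TT (vv a R) (ph a) h (inL T)`: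
(1) `Gx (vv a R) (ph a) (inL T)` consists of the `some w` with `w ∈ raysIn a R τ`: `rho` is excluded (`pr_inl_rho`, `T` nonempty); `pr_inl_lf = 0` for all `t ∈ T` iff `a_t·w = N(w)` iff `toReal w ∈ minCone a τ` (`zfb_cone`, `wmin` = minimum).
(2) for a fixed `t ∈ T` all these vectors `(-N(w); w)` satisfy first coordinate `= -a_t·w`, so a linear relation between the `rv R w` is the same as one between the `vR (vv a R) (some w)`: `UpperOn` corresponds, and independence.  (3) the cardinality: `σ.card + |T| = n + 1`, `|T| ≤ n + 1`.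
(4) the multiplicities: `zjt_mul`.  (5) the products: `VL_lf`.
-/

set_option autoImplicit false

namespace Pool.Agent.H37.T5

open Finset H60.RegTri
open Pool.Agent.H56.SMC

variable {n r : ℕ} (a : Fin r → (Fin n →₀ ℕ))

/-- the embedding `some` -/
abbrev ZJT_e {α : Type} : α ↪ Option α := ⟨some, Option.some_injective _⟩

/-- the lift `y ↦ (-(a_t·y); y)` -/
noncomputable def ZJT_L (t : Fin r) : (Fin n → ℝ) →ₗ[ℝ] (Unit ⊕ Fin n → ℝ) where
  toFun y := Sum.elim (fun _ => -(∑ j, (a t j : ℝ) * y j)) y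
  map_add' x y := by
    funext o
    rcases o with o | j
    · simp only [Sum.elim_inl, Pi.add_apply, mul_add, sum_add_distrib]; ring
    · simp
  map_smul' c y := by
    funext o
    rcases o with o | j
    · simp only [Sum.elim_inl, Pi.smul_apply, smul_eq_mul, RingHom.id_apply, mul_neg, neg_inj,
        mul_sum]
      exact sum_congr rfl fun j _ => by ring
    · simp

theorem ZJT_L_inj (t : Fin r) : Function.Injective (ZJT_L a t : (Fin n → ℝ) →ₗ[ℝ] _) := by
  intro x y hxy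
  funext j
  exact congrFun hxy (Sum.inr j)

theorem ZJT_vec (R : Finset (Fin n → ℕ)) (t : Fin r) (w : R)
    (hw : ∑ j, a t j * w.1 j = H22.wmin a w.1) :
    vR (vv a R) (some w) = ZJT_L a t (rv R w) := by
  funext o
  rcases o with o | j
  · show ((-(H22.wmin a w.1 : ℤ) : ℤ) : ℝ) = -(∑ j, (a t j : ℝ) * ((w.1 j : ℕ) : ℝ))
    rw [← hw]
    push_cast
    rfl
  · show (((w.1 j : ℕ) : ℤ) : ℝ) = ((w.1 j : ℕ) : ℝ)
    push_cast
    rfl

theorem ZJT_wmin (w : Fin n → ℕ) (t : Fin r) :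
    (∀ l, ∑ j, (a t j : ℝ) * H22.toReal w j ≤ ∑ j, (a l j : ℝ) * H22.toReal w j) ↔
      ∑ j, a t j * w j = H22.wmin a w := by
  constructor
  · intro h
    have h1 : H22.toReal w ∈ H22.minCone a {t} := by
      refine ⟨fun j => Nat.cast_nonneg _, fun i hi l => ?_⟩
      rw [mem_singleton] at hi
      subst hi
      exact h l
    exact (H22.wmin_eq h1 (mem_singleton_self t)).symm
  · intro h l
    have h1 : H22.wmin a w ≤ ∑ j, a l j * w j := Nat.sInf_le ⟨l, rfl⟩
    rw [← h] at h1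
    unfold H22.toReal
    exact_mod_cast h1

/-- the rays at which the functionals of `T` vanish -/
theorem ZJT_Gx (ha : Function.Injective a) (R : Finset (Fin n → ℕ)) (w : Fin n → ℕ)
    (hw : FacetNormal a w) (hs : SimpF a w) (τ : Finset (Fin r)) (hτ : H22.IsFace a τ)
    (hwτ : H22.toReal w ∈ H22.minCone a τ) (hne : (vt a τ).Nonempty) :
    Gx (vv a R) (ph a) (inL (vt a τ)) = (raysIn a R τ).map ZJT_e := by
  ext o
  rw [mem_Gx, mem_map]
  have hin : ∀ P : OmT a → Prop, (∀ ω ∈ inL (vt a τ), P ω) ↔ ∀ t ∈ vt a τ, P (Sum.inl t) := by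
    intro P
    unfold inL
    rw [forall_mem_map]
    rfl
  rw [hin]
  rcases o with _ | u
  · constructor
    · intro h
      obtain ⟨t, ht⟩ := hne
      have h1 := h t ht
      have h2 : pr (ph a (Sum.inl t)) rho = 1 := pr_inl_rho t
      rw [show vv a R none = rho from rfl, h2] at h1
      exact absurd h1 one_ne_zero
    · rintro ⟨x, -, hx⟩
      exact absurd hx (by simp)
  · have h1 : (∀ t ∈ vt a τ, pr (ph a (Sum.inl t)) (vv a R (some u)) = 0) ↔
        u ∈ raysIn a R τ := by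
      rw [mem_raysIn, zfb_cone a ha w hw hs τ hτ hwτ]
      have h2 : ∀ j, 0 ≤ rv R u j := fun j => Nat.cast_nonneg _
      constructor
      · intro h
        refine ⟨h2, fun t ht => ?_⟩
        refine (ZJT_wmin a u.1 t.1).2 ?_
        have h3 := h t ht
        rw [show vv a R (some u) = lf a u.1 from rfl, pr_inl_lf] at h3
        have h4 : ((∑ j, a t.1 j * u.1 j : ℕ) : ℤ) = (H22.wmin a u.1 : ℤ) := by linarith
        exact_mod_cast h4
      · rintro ⟨-, h⟩ t ht
        have h3 := (ZJT_wmin a u.1 t.1).1 (h t ht)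
        rw [show vv a R (some u) = lf a u.1 from rfl, pr_inl_lf, h3, sub_self]
    rw [h1]
    constructor
    · intro h
      exact ⟨u, h, rfl⟩
    · rintro ⟨x, hx, hxe⟩
      have : x = u := Option.some_injective _ hxe
      rwa [this] at hx

/-- linear independence -/
theorem ZJT_indep {ι κ κ' : Type} (v : ι → κ → ℝ) (v' : Option ι → κ' → ℝ)
    (L : (κ → ℝ) →ₗ[ℝ] (κ' → ℝ)) (hL : Function.Injective L) (σ : Finset ι)
    (hv : ∀ i ∈ σ, v' (some i) = L (v i)) :
    LinearIndepOn ℝ v' ((σ.map ZJT_e : Finset (Option ι)) : Set (Option ι)) ↔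
      LinearIndepOn ℝ v (σ : Set ι) := by
  classical
  rw [linearIndepOn_finset_iff, linearIndepOn_finset_iff]
  have hsum : ∀ g : Option ι → ℝ, ∑ i ∈ σ.map ZJT_e, g i • v' i =
      L (∑ i ∈ σ, g (some i) • v i) := by
    intro g
    rw [sum_map, map_sum]
    refine sum_congr rfl fun i hi => ?_
    rw [map_smul, ← hv i hi]
    rfl
  constructor
  · intro h f hf i hi
    have h1 := h (fun o => o.elim 0 f) (by
      rw [hsum]
      show L (∑ i ∈ σ, f i • v i) = 0
      rw [hf, map_zero]) (some i) (mem_map.2 ⟨i, hi, rfl⟩)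
    exact h1
  · intro h f hf i hi
    rw [hsum] at hf
    have h1 : ∑ i ∈ σ, f (some i) • v i = 0 := hL (by rw [hf, map_zero])
    obtain ⟨u, hu, rfl⟩ := mem_map.1 hi
    exact h (fun i => f (some i)) h1 u hu

theorem ZJT_upper {ι κ κ' : Type} (v : ι → κ → ℝ) (v' : Option ι → κ' → ℝ)
    (L : (κ → ℝ) →ₗ[ℝ] (κ' → ℝ)) (hL : Function.Injective L) (G : Finset ι)
    (hv : ∀ i ∈ G, v' (some i) = L (v i)) (h : Option ι → ℝ) (σ : Finset ι) :
    UpperOn v' h (G.map ZJT_e) (σ.map ZJT_e) ↔ UpperOn v (fun i => h (some i)) G σ := by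
  classical
  unfold UpperOn
  rw [map_subset_map]
  constructor
  · rintro ⟨h1, h2, h3⟩
    refine ⟨h1, (ZJT_indep v v' L hL σ fun i hi => hv i (h1 hi)).1 h2, fun l hl hlσ β hβ => ?_⟩
    have h4 := h3 (some l) (mem_map.2 ⟨l, hl, rfl⟩) (by
      intro hc
      obtain ⟨x, hx, hxe⟩ := mem_map.1 hc
      have : x = l := Option.some_injective _ hxe
      exact hlσ (this ▸ hx)) (fun o => o.elim 0 β) (by
      rw [hv l hl, hβ, sum_map, map_sum]
      refine sum_congr rfl fun i hi => ?_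
      rw [map_smul, ← hv i (h1 hi)]
      rfl)
    rw [sum_map] at h4
    exact h4
  · rintro ⟨h1, h2, h3⟩
    refine ⟨h1, (ZJT_indep v v' L hL σ fun i hi => hv i (h1 hi)).2 h2, fun l hl hlσ β hβ => ?_⟩
    obtain ⟨l, hl', rfl⟩ := mem_map.1 hl
    have hlσ' : l ∉ σ := fun hc => hlσ (mem_map.2 ⟨l, hc, rfl⟩)
    have h4 := h3 l hl' hlσ' (fun i => β (some i)) (by
      apply hL
      rw [← hv l hl']
      refine hβ.trans ?_
      rw [sum_map, map_sum]
      refine sum_congr rfl fun i hi => ?_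
      rw [map_smul, ← hv i (h1 hi)]
      rfl)
    rw [sum_map]
    exact h4

/-- generic heights -/
theorem ZJT_gen (R : Finset (Fin n → ℕ)) (h : Option R → ℝ)
    (hgen' : ∀ τ, GenericOn (rv0 R) h τ) (τ : Finset R) :
    GenericOn (rv R) (fun w => h (some w)) τ := by
  intro σ hσ hind l hl hlσ β hβ
  have hv : ∀ i ∈ σ, rv0 R (some i) = (LinearMap.id : (Fin n → ℝ) →ₗ[ℝ] _) (rv R i) :=
    fun i _ => rfl
  have h1 := hgen' (τ.map ZJT_e) (σ.map ZJT_e) (map_subset_map.2 hσ)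
    ((ZJT_indep (rv R) (rv0 R) LinearMap.id (fun _ _ h => h) σ hv).2 hind) (some l)
    (mem_map.2 ⟨l, hl, rfl⟩) (by
      intro hc
      obtain ⟨x, hx, hxe⟩ := mem_map.1 hc
      have : x = l := Option.some_injective _ hxe
      exact hlσ (this ▸ hx)) (fun o => o.elim 0 β) (by
      rw [sum_map]
      exact hβ)
  rw [sum_map] at h1
  exact h1

theorem ZJT_rank_le (τ : Finset (Fin r)) : H22.faceRank a τ ≤ n + 1 := by
  unfold H22.faceRank
  refine (Submodule.finrank_le _).trans ?_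
  rw [Module.finrank_fintype_fun_eq_card, Fintype.card_sum, Fintype.card_fin, Fintype.card_unit]
  omega

/-- ZJT -/
theorem zjt (ha : Function.Injective a) (hr : 0 < r) (R : Finset (Fin n → ℕ)) (hR : RaySet a R)
    (h : Option R → ℝ) (hgen : ∀ τ, GenericOn (vR (vv a R)) h τ)
    (hgen' : ∀ τ, GenericOn (rv0 R) h τ) (w : Fin n → ℕ) (hw : FacetNormal a w)
    (hs : SimpF a w) (τ : Finset (Fin r)) (hτ : H22.IsFace a τ)
    (hwτ : H22.toReal w ∈ H22.minCone a τ) (𝒟 : H22.FaceCones a τ) :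
    H22.JfunG a τ 𝒟 = JT a R h (vt a τ) := by
  classical
  have hne := zfb_ne a ha hr τ hτ
  obtain ⟨t, ht⟩ := hne
  have hτne : τ.Nonempty := ⟨t.1, vt_mem.1 ht⟩
  rw [jf_tri a R hR (fun w => h (some w)) (ZJT_gen R h hgen') τ hτne hτ 𝒟]
  have hrank := zfb_rank a ha w hw hs τ hτ hwτ
  have hle := ZJT_rank_le a τ
  have hGx := ZJT_Gx a ha R w hw hs τ hτ hwτ ⟨t, ht⟩
  have hmin : ∀ u ∈ raysIn a R τ, ∑ j, a t.1 j * u.1 j = H22.wmin a u.1 := by
    intro u hu
    have h1 := mem_raysIn.1 hu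
    exact (H22.wmin_eq h1 (vt_mem.1 ht)).symm
  have hvec : ∀ u ∈ raysIn a R τ, vR (vv a R) (some u) = ZJT_L a t.1 (rv R u) :=
    fun u hu => ZJT_vec a R t.1 u (hmin u hu)
  have hcard : ∀ σ : Finset R, σ.card + (inL (vt a τ)).card = Fintype.card (Unit ⊕ Fin n) ↔
      σ.card = n + 1 - H22.faceRank a τ := by
    intro σ
    unfold inL
    rw [card_map, ← hrank, Fintype.card_sum, Fintype.card_fin, Fintype.card_unit]
    omega
  have hTT : TT (vv a R) (ph a) h (inL (vt a τ)) =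
      (upT R (fun w => h (some w)) (raysIn a R τ) (n + 1 - H22.faceRank a τ)).map
        (mapEmbedding ZJT_e).toEmbedding := by
    ext σ'
    rw [mem_TT, mem_map, hGx]
    constructor
    · rintro ⟨h1, h2⟩
      obtain ⟨σ, hσ, rfl⟩ := subset_map_iff.1 h1.1
      refine ⟨σ, ?_, rfl⟩
      rw [mem_upT]
      refine ⟨(ZJT_upper (rv R) (vR (vv a R)) _ (ZJT_L_inj a t.1) _ hvec h σ).1 h1, ?_⟩
      rw [card_map] at h2
      exact (hcard σ).1 h2
    · rintro ⟨σ, hσ, rfl⟩
      rw [mem_upT] at hσ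
      refine ⟨(ZJT_upper (rv R) (vR (vv a R)) _ (ZJT_L_inj a t.1) _ hvec h σ).2 hσ.1, ?_⟩
      show (σ.map ZJT_e).card + _ = _
      rw [card_map]
      exact (hcard σ).2 hσ.2
  unfold JT
  rw [hTT, sum_map]
  refine sum_congr rfl fun σ hσ => ?_
  rw [mem_upT] at hσ
  show tm a σ = tmv AA BB (vv a R) (σ.map ZJT_e)
  unfold tm tmv
  rw [zjt_mul a R t.1 σ fun u hu => hmin u (hσ.1.1 hu), prod_map]
  congr 1
  refine prod_congr rfl fun u _ => ?_
  rw [← VL_lf u.1]
  rfl

end Pool.Agent.H37.T5
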