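import Pool.Agent.H37.T5.ZDefs

/-!
# ZLOC: points near a critical ray

`zloc`: `c` critical, `Ω_c = {ω : φ_ω(v_c) = 0}` independent.  For real `x` on `Ω_c` there is a real `y0` with `φ_ω(y0) = x_ω` for `ω ∈ Ω_c` (surjectivity: the functionals `prR (φ ω)`, `ω ∈ Ω_c`, are independent; e.g. the transpose of an injective matrix is surjective, or `LinearMap.dualMap`), and `y = y0 + C v_c` with `C` large has
`φ_ω(y) > 0` for `ω ∉ Ω_c` (`φ_ω(v_c) > 0` there by `nn`).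
`zgx`: `zloc` + `gen`: `y = ∑ x_i v_i`, `x ≥ 0`; for `ω ∈ Ξ`: `0 = φ_ω(y) = ∑ x_i φ_ω(v_i)` with nonnegative terms, so `x_i ≠ 0` only for `i ∈ Gx Ξ`.  (General lemma for `y` in the cone with `φ_Ξ(y) = 0`.)
-/

set_option autoImplicit false

namespace Pool.Agent.H37.T5

open Finset H60.RegTri

variable {ι κ Ω : Type} [Fintype ι] [DecidableEq ι] [Fintype κ] [Fintype Ω] [DecidableEq Ω]
  {v : ι → κ → ℤ} {φ : Ω → κ → ℤ} {A B : κ → ℤ} {s0 : ℂ}

omit [Fintype ι] [DecidableEq ι] in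
theorem prR_vR (x : κ → ℤ) (i : ι) : prR x (vR v i) = (pr x (v i) : ℝ) := by
  simp only [prR, vR, pr]
  push_cast
  rfl

omit [Fintype ι] [DecidableEq ι] [Fintype κ] [Fintype Ω] [DecidableEq Ω] in
/-- Independent functionals take arbitrary values. -/
theorem ZLOC_surj [Fintype κ] {T : Type} [Fintype T] (W : T → κ → ℝ)
    (hW : LinearIndependent ℝ W) (x : T → ℝ) : ∃ y : κ → ℝ, ∀ t, ∑ j, W t j * y j = x t := by
  classical
  have h1 : (Matrix.of W).rank = Fintype.card T := by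
    apply LinearIndependent.rank_matrix
    exact hW
  have h2 : LinearMap.range (Matrix.of W).mulVecLin = ⊤ := by
    apply Submodule.eq_top_of_finrank_eq
    rw [Module.finrank_fintype_fun_eq_card]
    exact h1
  obtain ⟨y, hy⟩ := LinearMap.range_eq_top.1 h2 x
  refine ⟨y, fun t => ?_⟩
  rw [← hy]
  simp [Matrix.mulVec, dotProduct]

omit [Fintype ι] [DecidableEq ι] [Fintype Ω] [DecidableEq Ω] in
theorem ZLOC_prR_add (f : κ → ℤ) (y y' : κ → ℝ) : prR f (y + y') = prR f y + prR f y' := by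
  simp only [prR, Pi.add_apply, mul_add, sum_add_distrib]

omit [Fintype ι] [DecidableEq ι] [Fintype Ω] [DecidableEq Ω] in
theorem ZLOC_prR_smul (f : κ → ℤ) (C : ℝ) (y : κ → ℝ) : prR f (C • y) = C * prR f y := by
  simp only [prR, Pi.smul_apply, smul_eq_mul, mul_sum]
  exact sum_congr rfl fun j _ => by ring

omit [DecidableEq ι] [Fintype Ω] [DecidableEq Ω] in
theorem ZLOC_prR_sum (f : κ → ℤ) (x : ι → ℝ) :
    prR f (∑ i, x i • vR v i) = ∑ i, x i * (pr f (v i) : ℝ) := by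
  have h : ∀ s : Finset ι, prR f (∑ i ∈ s, x i • vR v i) = ∑ i ∈ s, x i * (pr f (v i) : ℝ) := by
    classical
    intro s
    induction s using Finset.induction_on with
    | empty => simp [prR]
    | insert a s ha ih =>
      rw [sum_insert ha, sum_insert ha, ZLOC_prR_add, ZLOC_prR_smul, prR_vR, ih]
  exact h univ

/-- ZLOC -/
theorem zloc (hZ : ZS v φ A B s0) (c : ι) (hc : IsCr A B s0 (v c)) (x : Ω → ℝ) :
    ∃ y : κ → ℝ, (∀ ω, pr (φ ω) (v c) = 0 → prR (φ ω) y = x ω) ∧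
      ∀ ω, pr (φ ω) (v c) ≠ 0 → 0 < prR (φ ω) y := by
  classical
  have hind := hZ.ind c hc
  have hind' : LinearIndependent ℝ
      (fun t : {ω : Ω | pr (φ ω) (v c) = 0} => vR φ (t : Ω)) := hind
  have : Fintype {ω : Ω | pr (φ ω) (v c) = 0} := Fintype.ofFinite _
  obtain ⟨y0, hy0⟩ := ZLOC_surj _ hind' (fun t => x (t : Ω))
  have hy0' : ∀ ω, pr (φ ω) (v c) = 0 → prR (φ ω) y0 = x ω := by
    intro ω hω
    exact hy0 ⟨ω, hω⟩
  refine ⟨y0 + (1 + ∑ ω, |prR (φ ω) y0|) • vR v c, fun ω hω => ?_, fun ω hω => ?_⟩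
  · rw [ZLOC_prR_add, ZLOC_prR_smul, prR_vR, hω, hy0' ω hω]
    simp
  · rw [ZLOC_prR_add, ZLOC_prR_smul, prR_vR]
    have h1 : (1 : ℝ) ≤ (pr (φ ω) (v c) : ℝ) := by
      have h2 := hZ.nn c ω
      have h3 : (1 : ℤ) ≤ pr (φ ω) (v c) := by omega
      exact_mod_cast h3
    have h4 : |prR (φ ω) y0| ≤ ∑ ω, |prR (φ ω) y0| :=
      single_le_sum (f := fun ω => |prR (φ ω) y0|) (fun ω _ => abs_nonneg _) (mem_univ ω)
    have h5 := neg_abs_le (prR (φ ω) y0)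
    have h6 := abs_nonneg (prR (φ ω) y0)
    have h7 : (1 + ∑ ω, |prR (φ ω) y0|) * 1 ≤
        (1 + ∑ ω, |prR (φ ω) y0|) * (pr (φ ω) (v c) : ℝ) :=
      mul_le_mul_of_nonneg_left h1 (by linarith)
    linarith

theorem zcone (hZ : ZS v φ A B s0) (Ξ : Finset Ω) (y : κ → ℝ) (hy : ∀ ω, 0 ≤ prR (φ ω) y)
    (h0 : ∀ ω ∈ Ξ, prR (φ ω) y = 0) :
    ∃ x : ι → ℝ, (∀ i, 0 ≤ x i) ∧ (∀ i, i ∉ Gx v φ Ξ → x i = 0) ∧ y = ∑ i, x i • vR v i := by
  obtain ⟨x, hx, rfl⟩ := hZ.gen y hy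
  refine ⟨x, hx, fun i hi => ?_, rfl⟩
  rw [mem_Gx] at hi
  push Not at hi
  obtain ⟨ω, hω, hne⟩ := hi
  have h1 := h0 ω hω
  rw [ZLOC_prR_sum] at h1
  have h2 := (sum_eq_zero_iff_of_nonneg (fun i _ => mul_nonneg (hx i)
    (by exact_mod_cast hZ.nn i ω))).1 h1 i (mem_univ i)
  rcases mul_eq_zero.1 h2 with h3 | h3
  · exact h3
  · exact absurd (by exact_mod_cast h3) hne

/-- For `ω ∉ Ξ`, both vanishing at a critical ray, some ray of `Gx Ξ` has `φ_ω > 0`. -/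
theorem zgx (hZ : ZS v φ A B s0) (c : ι) (hc : IsCr A B s0 (v c)) (Ξ : Finset Ω)
    (hΞ : c ∈ Gx v φ Ξ) (ω : Ω) (hω : pr (φ ω) (v c) = 0) (hωΞ : ω ∉ Ξ) :
    ∃ u ∈ Gx v φ Ξ, 0 < pr (φ ω) (v u) := by
  obtain ⟨y, hy1, hy2⟩ := zloc hZ c hc (fun ω' => if ω' = ω then 1 else 0)
  have hy : ∀ ω', 0 ≤ prR (φ ω') y := by
    intro ω'
    by_cases h : pr (φ ω') (v c) = 0
    · rw [hy1 ω' h]
      split_ifs
      · norm_num
      · exact le_refl _
    · exact (hy2 ω' h).le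
  have h0 : ∀ ω' ∈ Ξ, prR (φ ω') y = 0 := by
    intro ω' hω'
    rw [hy1 ω' (mem_Gx.1 hΞ ω' hω'), if_neg]
    rintro rfl
    exact hωΞ hω'
  obtain ⟨x, hx, hxG, hyx⟩ := zcone hZ Ξ y hy h0
  have h1 : prR (φ ω) y = 1 := by
    rw [hy1 ω hω, if_pos rfl]
  rw [hyx, ZLOC_prR_sum] at h1
  have h2 : ∃ i ∈ (univ : Finset ι), x i * (pr (φ ω) (v i) : ℝ) ≠ 0 := by
    apply exists_ne_zero_of_sum_ne_zero
    rw [h1]
    norm_num
  obtain ⟨i, -, hi⟩ := h2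
  refine ⟨i, ?_, ?_⟩
  · by_contra hcon
    apply hi
    rw [hxG i hcon, zero_mul]
  · refine lt_of_le_of_ne (hZ.nn i ω) ?_
    intro h3
    apply hi
    rw [← h3]
    simp

end Pool.Agent.H37.T5
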