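import Pool.Agent.H37.T5.ZFB
import Pool.Agent.H22.VolAdd
import Pool.Agent.H56.SMC.ZNL

/-!
# ZNVOL: normalised volumes of simplicial faces

`T' = {i ∈ τ : IsFace a {i}}` (the image of `vt a τ`).  `{T'}` is a `GoodFam a τ` (`Pool.Agent.H22.VolAdd`): `card` by `zfb_rank`, `indep` by `zsd_ind`, `cover`: a nonnegative combination `x` of the rows of `τ` is a nonnegative combination of the rows of `T'` (every `(1, a_i)`, `i ∈ τ`, is a convex combination of the `(1, a_t)`, `t ∈ T'`, by `zfb_cls`/`mem_cls`); if a coefficient at `t ∈ T'` is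
`0` then the point is in the span of `T' \ t`, excluded for generic `x`; so all coefficients are positive.  The `GoodFam` of `𝒯`: `FaceTriang.goodFam`.  `GoodFam.sum_eq`: `nvol 𝒯 = faceVol a T'`, and `faceVol a T' = mulv (ph a) (inL (vt a τ))` (same set of vectors: `znjt_latIndex`-like, `latIndex` depends only on the range).
-/

set_option autoImplicit false

namespace Pool.Agent.H37.T5

open Finset H60.RegTri
open Pool.Agent.H56.SMC

variable {n r : ℕ} (a : Fin r → (Fin n →₀ ℕ))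

/-- The exponents of a set of vertices. -/
theorem ZNVOL_mulv (T : Finset (Vx a)) :
    mulv (ph a) (inL T) = H22.faceVol a (T.image (fun t => t.1)) := by
  classical
  unfold mulv H22.faceVol H22.latIndex
  have h : Set.range (fun i : (inL T : Finset (OmT a)) => ph a i) =
      Set.range (fun i : (T.image (fun t => t.1) : Finset (Fin r)) => H22.homRow a i) := by
    ext z
    simp only [Set.mem_range]
    constructor
    · rintro ⟨⟨i, hi⟩, rfl⟩
      obtain ⟨t, ht, rfl⟩ := Finset.mem_map.1 hi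
      exact ⟨⟨t.1, Finset.mem_image.2 ⟨t, ht, rfl⟩⟩, rfl⟩
    · rintro ⟨⟨i, hi⟩, rfl⟩
      obtain ⟨t, ht, rfl⟩ := Finset.mem_image.1 hi
      exact ⟨⟨Sum.inl t, Finset.mem_map.2 ⟨t, ht, rfl⟩⟩, rfl⟩
  rw [h]

theorem ZNVOL_mem {τ : Finset (Fin r)} {i : Fin r} :
    i ∈ (vt a τ).image (fun t => t.1) ↔ i ∈ τ ∧ H22.IsFace a {i} := by
  rw [Finset.mem_image]
  constructor
  · rintro ⟨t, ht, rfl⟩
    exact ⟨vt_mem.1 ht, t.2⟩
  · rintro ⟨h1, h2⟩
    exact ⟨⟨i, h2⟩, vt_mem.2 h1, rfl⟩

theorem ZNVOL_row (T : Finset (Fin r)) (i : Fin r)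
    (h : H22.pointR a i ∈ convexHull ℝ (H22.pointR a '' (T : Set (Fin r)))) :
    ∃ θ : Fin r → ℝ, (∀ t, 0 ≤ θ t) ∧ H22.rowR a i = ∑ t ∈ T, θ t • H22.rowR a t := by
  classical
  obtain ⟨θ, h1, h2, h3⟩ := H22.exists_of_mem_convexHull _ _ h
  refine ⟨fun t => if t ∈ T then θ t else 0, fun t => ?_, ?_⟩
  · dsimp only
    split_ifs with ht
    · exact h1 t ht
    · exact le_rfl
  · have h4 : ∑ t ∈ T, (if t ∈ T then θ t else 0) • H22.rowR a t =
        ∑ t ∈ T, θ t • H22.rowR a t :=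
      Finset.sum_congr rfl fun t ht => by rw [if_pos ht]
    rw [h4]
    funext y
    rcases y with y | y
    · rw [H22.sum_rowR_inl, h2]
      rfl
    · have h5 := congrFun (H22.sum_rowR_inr a T θ) y
      rw [h5, ← h3]
      rfl

/-- ZNVOL -/
theorem znvol (ha : Function.Injective a) (hr : 0 < r) (w : Fin n → ℕ) (hw : FacetNormal a w)
    (hs : SimpF a w) (τ : Finset (Fin r)) (hτ : H22.IsFace a τ)
    (hwτ : H22.toReal w ∈ H22.minCone a τ) (𝒯 : H22.FaceTriang a τ) :
    H22.nvol 𝒯 = mulv (ph a) (inL (vt a τ)) := by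
  classical
  rw [ZNVOL_mulv]
  set T' : Finset (Fin r) := (vt a τ).image (fun t => t.1) with hT'
  have hsub : T' ⊆ τ := fun i hi => ((ZNVOL_mem a).1 hi).1
  have hcard : T'.card = H22.faceRank a τ := by
    rw [zfb_rank a ha w hw hs τ hτ hwτ, hT']
    exact Finset.card_image_of_injective _ Subtype.val_injective
  have hne : τ.Nonempty := by
    obtain ⟨t, ht⟩ := zfb_ne a ha hr τ hτ
    exact ⟨t.1, vt_mem.1 ht⟩
  have hind : LinearIndependent ℝ (fun i : T' => H22.rowR a i) := by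
    have h1 := zsd_ind a ha w hw hs
    have h2 : ∀ i : T', pr (ph a (Sum.inl ⟨i.1, ((ZNVOL_mem a).1 i.2).2⟩)) (lf a w) = 0 := by
      intro i
      rw [pr_inl_lf, H22.wmin_eq hwτ (hsub i.2)]
      simp
    have h3 := h1.linearIndependent.comp (fun i : T' =>
      (⟨Sum.inl ⟨i.1, ((ZNVOL_mem a).1 i.2).2⟩, h2 i⟩ : {ω | pr (ph a ω) (lf a w) = 0})) (by
        intro i j hij
        have h4 := congrArg Subtype.val hij
        have h5 := Sum.inl_injective h4
        exact Subtype.ext (congrArg (fun t : Vx a => t.1) h5))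
    have h6 : (fun i : T' => H22.rowR a i) = (fun x : {ω | pr (ph a ω) (lf a w) = 0} =>
        vR (ph a) x.1) ∘ (fun i : T' =>
      (⟨Sum.inl ⟨i.1, ((ZNVOL_mem a).1 i.2).2⟩, h2 i⟩ : {ω | pr (ph a ω) (lf a w) = 0})) := by
      funext i
      exact (vR_inl a ⟨i.1, ((ZNVOL_mem a).1 i.2).2⟩).symm
    rw [h6]
    exact h3
  have hrow : ∀ i, ∃ θ : Fin r → ℝ, (∀ t, 0 ≤ θ t) ∧
      (i ∈ τ → H22.rowR a i = ∑ t ∈ T', θ t • H22.rowR a t) := by
    intro i
    by_cases hi : i ∈ τ
    · have h1 : i ∈ cls a (vt a τ) := by rw [zfb_cls a ha w hw hs τ hτ hwτ]; exact hi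
      rw [mem_cls] at h1
      have h2 : {x | ∃ t ∈ vt a τ, x = H22.pointR a t.1} = H22.pointR a '' (T' : Set (Fin r)) := by
        ext x
        constructor
        · rintro ⟨t, ht, rfl⟩
          exact ⟨t.1, Finset.mem_image.2 ⟨t, ht, rfl⟩, rfl⟩
        · rintro ⟨j, hj, rfl⟩
          obtain ⟨t, ht, rfl⟩ := Finset.mem_image.1 hj
          exact ⟨t, ht, rfl⟩
      rw [h2] at h1
      obtain ⟨θ, h3, h4⟩ := ZNVOL_row a T' i h1
      exact ⟨θ, h3, fun _ => h4⟩
    · exact ⟨0, fun _ => le_rfl, fun h => absurd h hi⟩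
  choose θ hθ0 hθ using hrow
  have hgood : H22.GoodFam a τ {T'} := by
    refine ⟨?_, ?_, ?_, ?_, ?_⟩
    · intro σ hσ
      rw [Finset.mem_singleton.1 hσ]; exact hsub
    · intro σ hσ
      rw [Finset.mem_singleton.1 hσ]; exact hcard
    · intro σ hσ
      rw [Finset.mem_singleton.1 hσ]; exact hind
    · intro σ hσ σ' hσ' hne
      exact absurd ((Finset.mem_singleton.1 hσ).trans (Finset.mem_singleton.1 hσ').symm) hne
    · intro x hx hgen
      refine ⟨T', Finset.mem_singleton_self _, ?_⟩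
      set z : Fin r → ℝ := fun t => ∑ i ∈ τ, x i * θ i t with hz
      have hsum : ∑ i ∈ τ, x i • H22.rowR a i = ∑ t ∈ T', z t • H22.rowR a t := by
        rw [Finset.sum_congr rfl (fun i hi => by rw [hθ i hi, Finset.smul_sum])]
        rw [Finset.sum_comm]
        refine Finset.sum_congr rfl fun t _ => ?_
        rw [hz, Finset.sum_smul]
        exact Finset.sum_congr rfl fun i _ => smul_smul _ _ _
      have hz0 : ∀ t, 0 ≤ z t := fun t => Finset.sum_nonneg fun i hi => mul_nonneg (hx i hi) (hθ0 i t)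
      refine ⟨z, fun t ht => ?_, hsum⟩
      refine lt_of_le_of_ne (hz0 t) fun h0 => ?_
      refine hgen (T'.erase t) ((Finset.erase_subset _ _).trans hsub) ?_ ?_
      · rw [Finset.card_erase_of_mem ht, hcard]
        have : 0 < T'.card := Finset.card_pos.2 ⟨t, ht⟩
        omega
      · rw [hsum, ← Finset.add_sum_erase _ _ ht, ← h0, zero_smul, zero_add]
        exact Submodule.sum_mem _ fun i hi => Submodule.smul_mem _ _
          (Submodule.subset_span ⟨i, hi, rfl⟩)
  have h := hgood.sum_eq (H22.FaceTriang.goodFam hne 𝒯) (Finset.mem_singleton_self _)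
  rw [Finset.sum_singleton] at h
  exact h.symm

/-- The multiplicity of a single vertex. -/
theorem znvol_single (q : Vx a) : mulv (ph a) (inL {q}) = 1 := by
  rw [ZNVOL_mulv, Finset.image_singleton]
  exact ZNL_faceVol_single a q.1

end Pool.Agent.H37.T5
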