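import Pool.Agent.H37.T5.ZPS

/-!
# ZPM: adjacent upper simplices

`zpm` (pivot).  For `l ∈ G` let `β^l` be the coefficients of `v l` in the basis `B` (`hfull`), `L l = ∑_{i∈B} β^l i * h i`; `L l ≥ h l` with equality only for `l ∈ B` (`hB`; for `l ∈ B` equality).  On the nonempty finite set `{u ∈ G : β^u b < 0}` (it does not meet `B`) choose `b'` minimising `(L u - h u)/(-β^u b) =: θ(u) > 0`.
`B' = insert b' (B.erase b)` is independent (`β^{b'} b ≠ 0`).  Let `L'(y) = L(y) + θ β_b(y)` with `θ = θ(b')` (linear in `y`, `β_b(y)` the coefficient at `b`): `L' = h` on `B.erase b` and at `b'` (`L b' + θ β^{b'} b = h b'`).  For `l ∈ G`, `l ∉ B'`: `L'(l) ≥ h l`: if `β^l b ≥ 0` then `L'(l) ≥ L(l) ≥ h l` (for `l = b`: `L'(b) = h b + θ > h b`);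
if `β^l b < 0` by the choice of `b'`.  If `v l = ∑_{B'} γ i v i` then `∑_{B'} γ i h i = L'(l) ≥ h l`, and equality is excluded by `hgen` (`B'` independent, `l ∉ B'`).  So `B'` is upper.
Uniqueness: if `b'' ∈ G`, `b'' ∉ B`, `B'' = insert b'' (B.erase b)` upper, `b'' ≠ b'`: by `zps` (with `τ = B.erase b`) applied to `(b, b')` and `(b, b'')` the coefficients of `v b'`, `v b''` at `b` are negative, so `v b'' = (positive) v b' + τ`-part, contradicting `zps` for `(b', b'')`.
-/

set_option autoImplicit false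

namespace Pool.Agent.H37.T5

open Finset H60.RegTri

variable {ι κ : Type} [Fintype ι] [DecidableEq ι] [Fintype κ]

/-- ZPM -/
theorem zpm (v : ι → κ → ℝ) (h : ι → ℝ) (hgen : ∀ τ, GenericOn v h τ) (G B : Finset ι)
    (hB : UpperOn v h G B) (hfull : ∀ l ∈ G, ∃ β : ι → ℝ, v l = ∑ i ∈ B, β i • v i) (b : ι)
    (hb : b ∈ B) (hneg : ∃ u ∈ G, cf v B (v u) b < 0) :
    ∃ b' ∈ G, b' ∉ B ∧ UpperOn v h G (insert b' (B.erase b)) ∧ cf v B (v b') b < 0 ∧
      ∀ b'' ∈ G, b'' ∉ B → UpperOn v h G (insert b'' (B.erase b)) → b'' = b' := by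
  classical
  obtain ⟨hBG, hBi, hBup⟩ := hB
  set c : ι → ι → ℝ := fun u i => cf v B (v u) i with hc
  have hcs : ∀ u ∈ G, v u = ∑ i ∈ B, c u i • v i := fun u hu => cf_sum (hfull u hu)
  have hcB : ∀ u ∈ B, ∀ i ∈ B, c u i = if i = u then 1 else 0 := by
    intro u hu
    apply coeff_unique v B hBi
    rw [← hcs u (hBG hu)]
    simp [hu]
  set L : ι → ℝ := fun u => ∑ i ∈ B, c u i * h i with hL
  have hLB : ∀ u ∈ B, L u = h u := by
    intro u hu
    show ∑ i ∈ B, c u i * h i = h u
    rw [Finset.sum_congr rfl (fun i hi => by rw [hcB u hu i hi])]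
    simp [hu]
  have hLn : ∀ u ∈ G, u ∉ B → h u < L u := fun u hu huB => hBup u hu huB (c u) (hcs u hu)
  have hLle : ∀ u ∈ G, h u ≤ L u := by
    intro u hu
    by_cases huB : u ∈ B
    · exact (hLB u huB).ge
    · exact (hLn u hu huB).le
  set S : Finset ι := G.filter (fun u => c u b < 0) with hS
  have hSne : S.Nonempty := by
    obtain ⟨u, hu, hub⟩ := hneg
    exact ⟨u, Finset.mem_filter.2 ⟨hu, hub⟩⟩
  have hSB : ∀ u ∈ S, u ∉ B := by
    intro u hu huB
    have h1 := (Finset.mem_filter.1 hu).2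
    rw [hcB u huB b hb] at h1
    split_ifs at h1 <;> linarith
  obtain ⟨b', hb'S, hmin⟩ := Finset.exists_min_image S (fun u => (L u - h u) / (-c u b)) hSne
  have hb'G : b' ∈ G := (Finset.mem_filter.1 hb'S).1
  have hb'n : c b' b < 0 := (Finset.mem_filter.1 hb'S).2
  have hb'B : b' ∉ B := hSB b' hb'S
  have hb'e : b' ∉ B.erase b := fun h1 => hb'B (Finset.mem_of_mem_erase h1)
  have hins : insert b (B.erase b) = B := Finset.insert_erase hb
  have hbe : b ∉ B.erase b := Finset.notMem_erase b B
  -- coefficients of a combination of `insert b' (B.erase b)`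
  have hcoef : ∀ (γ : ι → ℝ) (y : κ → ℝ) (x : ι → ℝ), y = ∑ i ∈ B, x i • v i →
      y = ∑ i ∈ insert b' (B.erase b), γ i • v i →
      ∀ i ∈ B, x i = γ b' * c b' i + (if i = b then 0 else γ i) := by
    intro γ y x hx hy
    apply coeff_unique v B hBi
    rw [← hx, hy, Finset.sum_insert hb'e]
    simp only [add_smul, Finset.sum_add_distrib]
    congr 1
    · rw [hcs b' hb'G, Finset.smul_sum]
      refine Finset.sum_congr rfl fun i _ => ?_
      rw [smul_smul]
    · conv_rhs => rw [← hins, Finset.sum_insert hbe]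
      rw [if_pos rfl, zero_smul, zero_add]
      refine Finset.sum_congr rfl fun i hi => ?_
      rw [if_neg (Finset.ne_of_mem_erase hi)]
  -- independence
  have hind : LinearIndepOn ℝ v ((insert b' (B.erase b) : Finset ι) : Set ι) := by
    rw [linearIndepOn_finset_iff]
    intro γ hγ
    have h1 := hcoef γ 0 (fun _ => 0) (by simp) hγ.symm
    have h2 := h1 b hb
    rw [if_pos rfl, add_zero] at h2
    have h3 : γ b' = 0 := by
      rcases mul_eq_zero.1 h2.symm with h4 | h4
      · exact h4
      · exact absurd h4 hb'n.ne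
    intro i hi
    rcases Finset.mem_insert.1 hi with h4 | h4
    · rw [h4, h3]
    · have h5 := h1 i (Finset.mem_of_mem_erase h4)
      rw [h3, zero_mul, zero_add, if_neg (Finset.ne_of_mem_erase h4)] at h5
      exact h5.symm
  have hsub : insert b' (B.erase b) ⊆ G :=
    Finset.insert_subset hb'G ((Finset.erase_subset b B).trans hBG)
  have hup : UpperOn v h G (insert b' (B.erase b)) := by
    refine ⟨hsub, hind, ?_⟩
    intro l hl hlB γ hγ
    have hne := hgen G (insert b' (B.erase b)) hsub hind l hl hlB γ hγ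
    refine lt_of_le_of_ne ?_ hne
    have h1 := hcoef γ (v l) (c l) (hcs l hl) hγ
    have h2 : c l b = γ b' * c b' b := by
      have := h1 b hb
      rwa [if_pos rfl, add_zero] at this
    have h3 : ∑ i ∈ insert b' (B.erase b), γ i * h i = L l - γ b' * (L b' - h b') := by
      rw [Finset.sum_insert hb'e]
      have h4 : L l = γ b' * L b' + ∑ i ∈ B.erase b, γ i * h i := by
        show ∑ i ∈ B, c l i * h i = γ b' * ∑ i ∈ B, c b' i * h i + _
        rw [Finset.sum_congr rfl (fun i hi => by rw [h1 i hi])]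
        simp only [add_mul, Finset.sum_add_distrib, Finset.mul_sum]
        congr 1
        · exact Finset.sum_congr rfl fun i _ => by ring
        · conv_lhs => rw [← hins, Finset.sum_insert hbe]
          rw [if_pos rfl, zero_mul, zero_add]
          refine Finset.sum_congr rfl fun i hi => ?_
          rw [if_neg (Finset.ne_of_mem_erase hi)]
      rw [h4]; ring
    rw [h3]
    have h5 : h b' < L b' := hLn b' hb'G hb'B
    have h6 : h l ≤ L l := hLle l hl
    rcases le_or_gt 0 (c l b) with h7 | h7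
    · -- `γ b' ≤ 0`
      have h8 : γ b' ≤ 0 := by
        by_contra h9
        push Not at h9
        have := mul_neg_of_pos_of_neg h9 hb'n
        linarith
      nlinarith
    · have hlS : l ∈ S := Finset.mem_filter.2 ⟨hl, h7⟩
      have h8 := hmin l hlS
      have h9 : 0 < -c b' b := by linarith
      have h10 : 0 < -c l b := by linarith
      rw [div_le_div_iff₀ h9 h10] at h8
      rw [h2] at h8
      -- `(L b' - h b') * (-(γ b' * c b' b)) ≤ (L l - h l) * (- c b' b)`
      have h11 : (γ b' * (L b' - h b')) * (-c b' b) ≤ (L l - h l) * (-c b' b) := by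
        nlinarith
      have h12 := le_of_mul_le_mul_right h11 h9
      linarith
  refine ⟨b', hb'G, hb'B, hup, hb'n, ?_⟩
  intro b'' hb''G hb''B hup''
  by_contra hne
  have hb''e : b'' ∉ B.erase b := fun h1 => hb''B (Finset.mem_of_mem_erase h1)
  have hb''n : c b'' b < 0 := by
    refine zps v h G (B.erase b) b b'' (fun h1 => hb''B (h1 ▸ hb)) hbe hb''e ?_ hup'' (c b'') ?_
    · rw [hins]; exact ⟨hBG, hBi, hBup⟩
    · rw [hins]; exact hcs b'' hb''G
  set ρ : ℝ := c b'' b / c b' b with hρ
  have hρpos : 0 < ρ := div_pos_of_neg_of_neg hb''n hb'n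
  have h1 := zps v h G (B.erase b) b' b'' (Ne.symm hne) hb'e hb''e hup hup''
    (fun i => if i = b' then ρ else c b'' i - ρ * c b' i) ?_
  · rw [if_pos rfl] at h1
    linarith
  · rw [Finset.sum_insert hb'e, if_pos rfl]
    have h2 : ∑ i ∈ B.erase b, (if i = b' then ρ else c b'' i - ρ * c b' i) • v i =
        ∑ i ∈ B.erase b, (c b'' i - ρ * c b' i) • v i := by
      refine Finset.sum_congr rfl fun i hi => ?_
      rw [if_neg (fun h3 : i = b' => hb'e (h3 ▸ hi))]
    rw [h2]
    have h3 : ρ * c b' b = c b'' b := div_mul_cancel₀ _ hb'n.ne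
    have h4 : v b'' = c b'' b • v b + ∑ i ∈ B.erase b, c b'' i • v i := by
      rw [← Finset.sum_insert (f := fun i => c b'' i • v i) hbe, hins]
      exact hcs b'' hb''G
    have h5 : v b' = c b' b • v b + ∑ i ∈ B.erase b, c b' i • v i := by
      rw [← Finset.sum_insert (f := fun i => c b' i • v i) hbe, hins]
      exact hcs b' hb'G
    have h6 : ∑ i ∈ B.erase b, (c b'' i - ρ * c b' i) • v i =
        ∑ i ∈ B.erase b, c b'' i • v i - ρ • ∑ i ∈ B.erase b, c b' i • v i := by
      rw [Finset.smul_sum, ← Finset.sum_sub_distrib]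
      refine Finset.sum_congr rfl fun i _ => ?_
      rw [sub_smul, smul_smul]
    rw [h6, h4, h5, smul_add, smul_smul, h3]
    abel

end Pool.Agent.H37.T5
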