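import Pool.Agent.H37.T5.ZDefs

/-!
# ZPS: two simplices on the same side

`zps` (same side).  `τ + b1`, `τ + b2` upper in `G`, `b1 ≠ b2` not in `τ`, and `v b2 = β b1 • v b1 + ∑_{i ∈ τ} β i • v i`.  If `β b1 > 0`: `hB1` for `l = b2` (not in `insert b1 τ`) gives `h b2 < β b1 * h b1 + ∑_τ β i h i`;
`v b1 = (1/β b1) v b2 - ∑_τ (β i/β b1) v i`, `hB2` for `l = b1`: `h b1 < (1/β b1) h b2 - ∑_τ (β i/β b1) h i`, i.e. `β b1 h b1 < h b2 - ∑ β i h i`: contradiction.  `β b1 = 0` contradicts the independence of `insert b2 τ`.  So `β b1 < 0`.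
-/

set_option autoImplicit false

namespace Pool.Agent.H37.T5

open Finset H60.RegTri

variable {ι κ : Type} [Fintype ι] [DecidableEq ι] [Fintype κ]

/-- ZPS -/
theorem zps (v : ι → κ → ℝ) (h : ι → ℝ) (G τ : Finset ι) (b1 b2 : ι) (h12 : b1 ≠ b2)
    (h1 : b1 ∉ τ) (h2 : b2 ∉ τ) (hB1 : UpperOn v h G (insert b1 τ))
    (hB2 : UpperOn v h G (insert b2 τ)) (β : ι → ℝ)
    (hβ : v b2 = ∑ i ∈ insert b1 τ, β i • v i) : β b1 < 0 := by
  obtain ⟨hs1, -, hu1⟩ := hB1
  obtain ⟨hs2, hi2, hu2⟩ := hB2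
  have hb1G : b1 ∈ G := hs1 (Finset.mem_insert_self _ _)
  have hb2G : b2 ∈ G := hs2 (Finset.mem_insert_self _ _)
  have hn1 : b2 ∉ insert b1 τ := by
    rw [Finset.mem_insert]; rintro (h3 | h3)
    · exact h12 h3.symm
    · exact h2 h3
  have hn2 : b1 ∉ insert b2 τ := by
    rw [Finset.mem_insert]; rintro (h3 | h3)
    · exact h12 h3
    · exact h1 h3
  have hne : ∀ i ∈ τ, i ≠ b2 := fun i hi h6 => h2 (h6 ▸ hi)
  have hβ' : v b2 = β b1 • v b1 + ∑ i ∈ τ, β i • v i := by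
    rw [hβ, Finset.sum_insert h1]
  rcases lt_trichotomy (β b1) 0 with h0 | h0 | h0
  · exact h0
  · exfalso
    -- `v b2` in the span of `τ`
    have h3 : v b2 = ∑ i ∈ τ, β i • v i := by rw [hβ', h0, zero_smul, zero_add]
    have h4 : ∑ i ∈ insert b2 τ, (if i = b2 then 1 else 0 : ℝ) • v i =
        ∑ i ∈ insert b2 τ, (if i = b2 then 0 else β i) • v i := by
      rw [Finset.sum_insert h2, Finset.sum_insert h2, if_pos rfl, if_pos rfl, one_smul, zero_smul,
        zero_add]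
      have h5 : ∑ i ∈ τ, (if i = b2 then 1 else 0 : ℝ) • v i = 0 := by
        refine Finset.sum_eq_zero fun i hi => ?_
        rw [if_neg (hne i hi), zero_smul]
      have h6 : ∑ i ∈ τ, (if i = b2 then 0 else β i) • v i = ∑ i ∈ τ, β i • v i :=
        Finset.sum_congr rfl fun i hi => by rw [if_neg (hne i hi)]
      rw [h5, h6, add_zero, h3]
    have h7 := coeff_unique v (insert b2 τ) hi2 _ _ h4 b2 (Finset.mem_insert_self _ _)
    rw [if_pos rfl, if_pos rfl] at h7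
    exact one_ne_zero h7
  · exfalso
    have h3 := hu1 b2 hb2G hn1 β hβ
    rw [Finset.sum_insert h1] at h3
    have h4 : v b1 = ∑ i ∈ insert b2 τ, (if i = b2 then (β b1)⁻¹ else -((β b1)⁻¹ * β i)) • v i := by
      rw [Finset.sum_insert h2, if_pos rfl]
      have h6 : ∑ i ∈ τ, (if i = b2 then (β b1)⁻¹ else -((β b1)⁻¹ * β i)) • v i =
          -((β b1)⁻¹ • ∑ i ∈ τ, β i • v i) := by
        rw [Finset.smul_sum, ← Finset.sum_neg_distrib]
        exact Finset.sum_congr rfl fun i hi => by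
          rw [if_neg (hne i hi), neg_smul, smul_smul]
      rw [h6, hβ', smul_add, smul_smul, inv_mul_cancel₀ h0.ne', one_smul]
      abel
    have h5 := hu2 b1 hb1G hn2 _ h4
    rw [Finset.sum_insert h2, if_pos rfl] at h5
    have h6 : ∑ i ∈ τ, (if i = b2 then (β b1)⁻¹ else -((β b1)⁻¹ * β i)) * h i =
        -((β b1)⁻¹ * ∑ i ∈ τ, β i * h i) := by
      rw [Finset.mul_sum, ← Finset.sum_neg_distrib]
      exact Finset.sum_congr rfl fun i hi => by
        rw [if_neg (hne i hi)]; ring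
    rw [h6] at h5
    have h7 : β b1 * h b1 < h b2 - ∑ i ∈ τ, β i * h i := by
      have h8 := mul_lt_mul_of_pos_left h5 h0
      have h9 : β b1 * ((β b1)⁻¹ * h b2 + -((β b1)⁻¹ * ∑ i ∈ τ, β i * h i)) =
          h b2 - ∑ i ∈ τ, β i * h i := by
        field_simp
        ring
      rwa [h9] at h8
    linarith

end Pool.Agent.H37.T5
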