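import Pool.Agent.H37.T5.ZSV

/-!
# ZSD: the functionals vanishing at a critical ray

`σ` from `SimpF`.  `{ω : pr (ph a ω) (lf a w) = 0}` consists of the `inl i` with `i ∈ σ` (`pr_inl_lf`, `zsv_mem`) and the `inr j` with `w j = 0` (`pr_inr_lf`): independent by `zsv_ind` (`vR (ph a) (inl i) = rowR a i`, `vR (ph a) (inr j) = eR j`; reindexing), and their number is `|σ| + #{w_j = 0} = n`.
-/

set_option autoImplicit false

namespace Pool.Agent.H37.T5

open Finset H60.RegTri
open Pool.Agent.H56.SMC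

variable {n r : ℕ} (a : Fin r → (Fin n →₀ ℕ))

theorem vR_inl (i : Vx a) : vR (ph a) (Sum.inl i) = H22.rowR a i.1 := by
  funext y
  rcases y with y | y <;> simp [vR, ph, H22.rowR, H22.homRow]

theorem vR_inr (j : Fin n) : vR (ph a) (Sum.inr j) = eR j := by
  classical
  funext y
  rcases y with y | y
  · simp [vR, ph, eR]
  · by_cases h : y = j <;> simp [vR, ph, eR, Pi.single_apply, h]

theorem ZSD_sum {M : Type} [AddCommMonoid M] (σ : Finset (Fin r))
    (hσ : ∀ b ∈ σ, H22.IsFace a {b}) (F : Fin r → M) (hF : ∀ b, b ∉ σ → F b = 0) :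
    ∑ t : Vx a, F t.1 = ∑ b ∈ σ, F b := by
  classical
  rw [← Finset.sum_filter_add_sum_filter_not univ (fun t : Vx a => t.1 ∈ σ)]
  have h0 : ∑ t ∈ univ.filter (fun t : Vx a => ¬ t.1 ∈ σ), F t.1 = 0 :=
    sum_eq_zero fun t ht => hF _ (mem_filter.1 ht).2
  rw [h0, add_zero]
  refine Finset.sum_bij (fun t _ => t.1) (fun t ht => (mem_filter.1 ht).2) ?_ ?_ (fun _ _ => rfl)
  · intro t _ t' _ h
    exact Subtype.ext h
  · intro b hb
    exact ⟨⟨b, hσ b hb⟩, mem_filter.2 ⟨mem_univ _, hb⟩, rfl⟩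

theorem ZSD_inl (w : Fin n → ℕ) (i : Vx a) :
    pr (ph a (Sum.inl i)) (lf a w) = 0 ↔ ∑ j, a i.1 j * w j = H22.wmin a w := by
  rw [pr_inl_lf]
  constructor
  · intro h
    have : ((∑ j, a i.1 j * w j : ℕ) : ℤ) = (H22.wmin a w : ℤ) := by linarith
    exact_mod_cast this
  · intro h
    rw [h, sub_self]

/-- ZSD -/
theorem zsd_ind (ha : Function.Injective a) (w : Fin n → ℕ) (hw : FacetNormal a w)
    (hs : SimpF a w) : LinearIndepOn ℝ (vR (ph a)) {ω | pr (ph a ω) (lf a w) = 0} := by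
  obtain ⟨σ, hc, hon, hconv⟩ := hs
  have hind := zsv_ind a w hw σ hc hon hconv
  have hmem := zsv_mem a ha w hw σ hc hon hconv
  have h1 : ∀ i : Vx a, pr (ph a (Sum.inl i)) (lf a w) = 0 → i.1 ∈ σ := fun i hi =>
    (hmem i.1).1 ⟨(ZSD_inl a w i).1 hi, i.2⟩
  have h2 : ∀ j : Fin n, pr (ph a (Sum.inr j)) (lf a w) = 0 → w j = 0 := fun j hj => by
    rw [pr_inr_lf] at hj
    exact_mod_cast hj
  let g : {ω : OmT a | pr (ph a ω) (lf a w) = 0} → {b // b ∈ σ} ⊕ {j : Fin n // w j = 0} :=
    fun ω => match ω with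
      | ⟨Sum.inl i, hi⟩ => Sum.inl ⟨i.1, h1 i hi⟩
      | ⟨Sum.inr j, hj⟩ => Sum.inr ⟨j, h2 j hj⟩
  have hg : Function.Injective g := by
    rintro ⟨ω, hω⟩ ⟨ω', hω'⟩ h
    rcases ω with i | j <;> rcases ω' with i' | j'
    · have h3 := Sum.inl_injective h
      have h4 : i.1 = i'.1 := congrArg (fun z : {b // b ∈ σ} => z.1) h3
      have h5 : i = i' := Subtype.ext h4
      subst h5
      rfl
    · exact absurd h (by simp [g])
    · exact absurd h (by simp [g])
    · have h3 := Sum.inr_injective h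
      have h4 : j = j' := congrArg Subtype.val h3
      subst h4
      rfl
  have h3 := hind.comp g hg
  have e : (fun ω : {ω : OmT a | pr (ph a ω) (lf a w) = 0} => vR (ph a) ω.1) =
      (Sum.elim (fun b : σ => H22.rowR a b.1)
      (fun j : {j : Fin n // w j = 0} => (eR j.1 : Unit ⊕ Fin n → ℝ))) ∘ g := by
    funext ω
    obtain ⟨ω, hω⟩ := ω
    rcases ω with i | j
    · exact vR_inl a i
    · exact vR_inr a j
  show LinearIndependent ℝ (fun ω : {ω : OmT a | pr (ph a ω) (lf a w) = 0} => vR (ph a) ω.1)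
  rw [e]
  exact h3

theorem zsd_card (ha : Function.Injective a) (w : Fin n → ℕ) (hw : FacetNormal a w)
    (hs : SimpF a w) : (univ.filter (fun ω => pr (ph a ω) (lf a w) = 0)).card = n := by
  obtain ⟨σ, hc, hon, hconv⟩ := hs
  have hmem := zsv_mem a ha w hw σ hc hon hconv
  rw [Finset.card_filter, Fintype.sum_sum_type]
  have e1 : ∑ i : Vx a, (if pr (ph a (Sum.inl i)) (lf a w) = 0 then 1 else 0) = σ.card := by
    have := ZSD_sum a σ (fun b hb => ((hmem b).2 hb).2)
      (fun b => if b ∈ σ then (1 : ℕ) else 0) (fun b hb => if_neg hb)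
    rw [Finset.sum_ite_mem, Finset.inter_self, Finset.sum_const, smul_eq_mul, mul_one] at this
    rw [← this]
    refine sum_congr rfl fun i _ => ?_
    have h1 : pr (ph a (Sum.inl i)) (lf a w) = 0 ↔ i.1 ∈ σ := by
      rw [ZSD_inl, ← hmem i.1]
      exact ⟨fun h => ⟨h, i.2⟩, fun h => h.1⟩
    by_cases h : i.1 ∈ σ
    · rw [if_pos h, if_pos (h1.2 h)]
    · rw [if_neg h, if_neg (fun h2 => h (h1.1 h2))]
  have e2 : ∑ j : Fin n, (if pr (ph a (Sum.inr j)) (lf a w) = 0 then 1 else 0) =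
      (univ.filter (fun j => w j = 0)).card := by
    rw [Finset.card_filter]
    refine sum_congr rfl fun j _ => ?_
    rw [pr_inr_lf]
    by_cases h : w j = 0
    · rw [if_pos h, if_pos (by rw [h]; rfl)]
    · rw [if_neg h, if_neg (fun h2 => h (by exact_mod_cast h2))]
  rw [e1, e2, hc, supCard, add_comm]
  have := Finset.card_filter_add_card_filter_not (s := (univ : Finset (Fin n)))
    (fun j => w j = 0)
  rw [Finset.card_univ, Fintype.card_fin] at this
  exact this

/-- The exponents on the face of `w` are convex combinations of the vertices on it. -/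
theorem zsd_conv (ha : Function.Injective a) (w : Fin n → ℕ) (hw : FacetNormal a w)
    (hs : SimpF a w) (i : Fin r) (hi : ∑ j, a i j * w j = H22.wmin a w) :
    ∃ θ : Vx a → ℝ, (∀ t, 0 ≤ θ t) ∧ ∑ t, θ t = 1 ∧
      (∀ t, θ t ≠ 0 → ∑ j, a t.1 j * w j = H22.wmin a w) ∧
      H22.rowR a i = ∑ t, θ t • H22.rowR a t.1 := by
  classical
  obtain ⟨σ, hc, hon, hconv⟩ := hs
  have hmem := zsv_mem a ha w hw σ hc hon hconv
  have hp : Function.Injective (H22.pointR a) := by
    intro x y h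
    apply ha
    ext j
    have := congrFun h j
    simpa [H22.pointR] using this
  have h1 := hconv i hi
  rw [← Finset.coe_image, Finset.mem_convexHull'] at h1
  obtain ⟨u, hu0, hu1, hu2⟩ := h1
  rw [Finset.sum_image (fun x _ y _ h => hp h)] at hu1 hu2
  have hf : ∀ b ∈ σ, H22.IsFace a {b} := fun b hb => ((hmem b).2 hb).2
  refine ⟨fun t => if t.1 ∈ σ then u (H22.pointR a t.1) else 0, ?_, ?_, ?_, ?_⟩
  · intro t
    simp only
    split_ifs with h
    · exact hu0 _ (mem_image_of_mem _ h)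
    · exact le_rfl
  · rw [ZSD_sum a σ hf (fun b => if b ∈ σ then u (H22.pointR a b) else 0) (fun b hb => if_neg hb),
      ← hu1]
    exact sum_congr rfl fun b hb => if_pos hb
  · intro t ht
    by_cases h : t.1 ∈ σ
    · exact hon _ h
    · exact absurd (if_neg h) ht
  · rw [ZSD_sum a σ hf (fun b => (if b ∈ σ then u (H22.pointR a b) else 0) • H22.rowR a b)
      (fun b hb => by rw [if_neg hb, zero_smul])]
    have e : ∑ b ∈ σ, (if b ∈ σ then u (H22.pointR a b) else 0) • H22.rowR a b =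
        ∑ b ∈ σ, u (H22.pointR a b) • H22.rowR a b :=
      sum_congr rfl fun b hb => by rw [if_pos hb]
    rw [e]
    funext y
    rcases y with y | j
    · rw [Finset.sum_apply]
      simp only [Pi.smul_apply, H22.rowR, Sum.elim_inl, smul_eq_mul, mul_one]
      exact hu1.symm
    · have h2 := congrFun hu2 j
      rw [Finset.sum_apply] at h2 ⊢
      simp only [Pi.smul_apply, H22.rowR, Sum.elim_inr, smul_eq_mul, H22.pointR] at h2 ⊢
      exact h2.symm

end Pool.Agent.H37.T5
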