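import Pool.Agent.H37.T5.ZGN
import Pool.Agent.H37.T5.ZSD

/-!
# ZZS: the concrete setting satisfies `ZS`

`ne`: `pr AA (lf a w) = wsum w ≠ 0` (`w ≠ 0`), `pr BB rho = -1`.  `nn`: `pr_inl_lf` (`N(w)` is a lower bound), `pr_inr_lf`, `pr_inl_rho`, `pr_inr_rho`.  `gen`: `zgn`.  `ind`, `card`: a critical ray is some `w ∈ R` (`IsCr_rho`, `s0 ≠ 0`), `CritW a s0 w` (`IsCr_lf`, `hR.facet`): `zsd_ind`, `zsd_card`, `card (Unit ⊕ Fin n) = n + 1`.
-/

set_option autoImplicit false

namespace Pool.Agent.H37.T5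

open Finset H60.RegTri
open Pool.Agent.H56.SMC

/-- ZZS -/
theorem zzs {n r : ℕ} (a : Fin r → (Fin n →₀ ℕ)) (ha : Function.Injective a) (hr : 0 < r)
    (R : Finset (Fin n → ℕ)) (hR : RaySet a R) (s0 : ℂ) (hs0 : s0 ≠ 0)
    (hsimp : ∀ w, CritW a s0 w → SimpF a w) : ZS (vv a R) (ph a) AA BB s0 := by
  classical
  have hwmin : ∀ (w : Fin n → ℕ) (i : Fin r), H22.wmin a w ≤ ∑ j, a i j * w j := fun w i =>
    ciInf_le (OrderBot.bddBelow _) i
  have hcr : ∀ i : Option R, IsCr AA BB s0 (vv a R i) → ∃ w : R, i = some w ∧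
      CritW a s0 w.1 := by
    intro i hi
    cases i with
    | none => exact absurd ((IsCr_rho s0).1 hi) hs0
    | some w => exact ⟨w, rfl, (IsCr_lf s0 w.1 (hR.facet w.1 w.2)).1 hi⟩
  refine ⟨?_, ?_, ?_, ?_, ?_⟩
  · intro i
    cases i with
    | none =>
      right
      show pr BB rho ≠ 0
      rw [pr_BB_rho]
      norm_num
    | some w =>
      left
      show pr AA (lf a w.1) ≠ 0
      rw [pr_AA_lf]
      intro h
      apply (hR.facet w.1 w.2).1
      funext j
      have h1 : ∑ j, w.1 j = 0 := by exact_mod_cast h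
      exact (Finset.sum_eq_zero_iff.1 h1) j (mem_univ j)
  · intro i ω
    cases i with
    | none =>
      rcases ω with q | j
      · show 0 ≤ pr (ph a (Sum.inl q)) rho
        rw [pr_inl_rho]
        norm_num
      · show 0 ≤ pr (ph a (Sum.inr j)) rho
        rw [pr_inr_rho]
    | some w =>
      rcases ω with q | j
      · show 0 ≤ pr (ph a (Sum.inl q)) (lf a w.1)
        rw [pr_inl_lf]
        have := hwmin w.1 q.1
        omega
      · show 0 ≤ pr (ph a (Sum.inr j)) (lf a w.1)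
        rw [pr_inr_lf]
        omega
  · exact zgn a ha hr R hR
  · intro i hi
    obtain ⟨w, rfl, hw⟩ := hcr i hi
    exact zsd_ind a ha w.1 hw.1 (hsimp w.1 hw)
  · intro i hi
    obtain ⟨w, rfl, hw⟩ := hcr i hi
    have h1 := zsd_card a ha w.1 hw.1 (hsimp w.1 hw)
    have h2 : Fintype.card (Unit ⊕ Fin n) = n + 1 := by simp [add_comm]
    rw [h2]
    exact congrArg (· + 1) h1

end Pool.Agent.H37.T5
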