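import Pool.Agent.H37.T5.ZNVOL
import Pool.Agent.H37.T5.ZZS
import Pool.Agent.H37.T5.ZEMP
import Pool.Agent.H37.T5.ZPYR

/-!
# ZSE: the empty set of vertices

`zsm_empty`: `-X * JT ∅ ≡ ∑_{q} JT {q}`: `zemp` with `Cl` = all critical rays, `e0 = none`, `VL_rho`, `pr_inl_rho`, `pr_inr_rho`; `JJ Ξ = ν(Ξ)⁻¹ ∑_{TC} tmv ≡ ν(Ξ)⁻¹ ∑_{TT} tmv` (`tm_regv`), `ν(∅) = 1`, `ν({q}) = 1`.
-/

set_option autoImplicit false

namespace Pool.Agent.H37.T5

open Finset H60.RegTri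
open Pool.Agent.H56.SMC

variable {n r : ℕ} (a : Fin r → (Fin n →₀ ℕ))

/-- The critical rays. -/
private noncomputable def ZSE_Cl (R : Finset (Fin n → ℕ)) (s0 : ℂ) : Finset (Option R) := by
  classical
  exact univ.filter (fun i => IsCr AA BB s0 (vv a R i))

private theorem ZSE_mem {R : Finset (Fin n → ℕ)} {s0 : ℂ} {i : Option R} :
    i ∈ ZSE_Cl a R s0 ↔ IsCr AA BB s0 (vv a R i) := by
  classical
  simp [ZSE_Cl]

private theorem ZSE_reg (R : Finset (Fin n → ℕ)) (h : Option R → ℝ) (s0 : ℂ)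
    (hZ : ZS (vv a R) (ph a) AA BB s0) (T : Finset (Vx a)) :
    H37.SM.Reg s0 (JT a R h T -
      ∑ σ ∈ TC (vv a R) (ph a) h (ZSE_Cl a R s0) (inL T), tmv AA BB (vv a R) σ) := by
  classical
  have hsub : TC (vv a R) (ph a) h (ZSE_Cl a R s0) (inL T) ⊆ TT (vv a R) (ph a) h (inL T) :=
    fun σ hσ => (mem_TC.1 hσ).1
  unfold JT
  rw [← Finset.sum_sdiff hsub, add_sub_cancel_right]
  refine H37.SM.Reg.sum _ _ fun σ hσ => ?_
  rw [mem_sdiff, mem_TC, not_and] at hσ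
  unfold tmv
  refine (H37.SM.reg_natCast _).mul (tm_regv hZ σ fun i hi hcr => ?_)
  exact hσ.2 hσ.1 ⟨i, hi, (ZSE_mem a).2 hcr⟩

theorem zsm_empty (R : Finset (Fin n → ℕ))
    (h : Option R → ℝ) (hgen : ∀ τ, GenericOn (vR (vv a R)) h τ)
    (s0 : ℂ) (hs0 : s0 ≠ 0) (hZ : ZS (vv a R) (ph a) AA BB s0)
    (htop : ∀ σ : Finset (Option R), none ∉ σ →
      LinearIndepOn ℝ (vR (vv a R)) (σ : Set (Option R)) → ∀ β : Option R → ℝ,
      vR (vv a R) none = ∑ i ∈ σ, β i • vR (vv a R) i → ∑ i ∈ σ, β i * h i < h none) :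
    H37.SM.Reg s0 (RatFunc.X * JT a R h ∅ + ∑ q : Vx a, JT a R h {q}) := by
  classical
  have hnone : vv a R none = rho := rfl
  have he0 : ¬ IsCr AA BB s0 (vv a R none) := by
    rw [hnone, IsCr_rho]
    exact hs0
  have h1 := zemp hZ h hgen none he0 htop (ZSE_Cl a R s0) (fun c hc => (ZSE_mem a).1 hc)
  rw [hnone, VL_rho, Fintype.sum_sum_type] at h1
  simp only [pr_inl_rho, pr_inr_rho, Int.cast_one, Int.cast_zero, one_mul, zero_mul,
    Finset.sum_const_zero, add_zero] at h1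
  have h2 : JJ (vv a R) (ph a) AA BB h (ZSE_Cl a R s0) ∅
      = ∑ σ ∈ TC (vv a R) (ph a) h (ZSE_Cl a R s0) (inL (∅ : Finset (Vx a))),
        tmv AA BB (vv a R) σ := by
    have h3 : (inL (∅ : Finset (Vx a))) = ∅ := by simp [inL]
    rw [JJ, mulv_empty, h3, Nat.cast_one, inv_one, one_mul]
  have h4 : ∀ q : Vx a, JJ (vv a R) (ph a) AA BB h (ZSE_Cl a R s0) {Sum.inl q}
      = ∑ σ ∈ TC (vv a R) (ph a) h (ZSE_Cl a R s0) (inL {q}), tmv AA BB (vv a R) σ := by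
    intro q
    have h3 : (inL {q} : Finset (OmT a)) = {Sum.inl q} := by simp [inL]
    have h5 := znvol_single a q
    rw [h3] at h5
    rw [JJ, h5, h3, Nat.cast_one, inv_one, one_mul]
  simp only [h2, h4] at h1
  have h6 : RatFunc.X * JT a R h ∅ + ∑ q : Vx a, JT a R h {q}
      = RatFunc.X * (JT a R h ∅ -
        ∑ σ ∈ TC (vv a R) (ph a) h (ZSE_Cl a R s0) (inL (∅ : Finset (Vx a))),
          tmv AA BB (vv a R) σ)
        + ∑ q : Vx a, (JT a R h {q} -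
          ∑ σ ∈ TC (vv a R) (ph a) h (ZSE_Cl a R s0) (inL {q}), tmv AA BB (vv a R) σ) := by
    rw [Finset.sum_sub_distrib, ← h1]
    ring
  rw [h6]
  exact (H37.SM.reg_X.mul (ZSE_reg a R h s0 hZ ∅)).add
    (H37.SM.Reg.sum _ _ fun q _ => ZSE_reg a R h s0 hZ {q})

end Pool.Agent.H37.T5
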