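import Pool.Agent.H37.T5.ZCD
import Pool.Agent.H37.T5.ZSPL

/-!
# ZSR: noncritical sets of vertices

All congruences modulo functions regular at `s0`.  `R` is finite; call a nonempty set `τ` of exponents (resp. `T` of vertices) critical if some `w ∈ R`, `CritW a s0 w`, has `toReal w ∈ minCone a τ` (resp. `a_t·w = N(w)` for all `t ∈ T`).

`zsm_reg`: `T` nonempty, not critical: `JT T` is regular: a critical ray (`IsCr`) in `Gx (inL T)` would be a `some w` (`IsCr_rho`), `CritW` (`IsCr_lf`), with `a_t·w = N(w)` (`pr_inl_lf`); so all `σ ∈ TT` consist of noncritical rays: `tm_regv`.  For a noncritical nonempty face `τ`: `JfunG a τ 𝒟` is regular by `jf_tri` and `tm_reg`.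
-/

set_option autoImplicit false

namespace Pool.Agent.H37.T5

open Finset H60.RegTri
open Pool.Agent.H56.SMC

variable {n r : ℕ} (a : Fin r → (Fin n →₀ ℕ))

theorem zsm_reg (R : Finset (Fin n → ℕ)) (hR : RaySet a R)
    (h : Option R → ℝ) (s0 : ℂ) (hs0 : s0 ≠ 0) (hZ : ZS (vv a R) (ph a) AA BB s0)
    (T : Finset (Vx a)) (hT : T.Nonempty)
    (hno : ¬ ∃ w ∈ R, CritW a s0 w ∧ ∀ t ∈ T, ∑ j, a t.1 j * w j = H22.wmin a w) :
    H37.SM.Reg s0 (JT a R h T) := by
  classical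
  rw [JT]
  refine H37.SM.Reg.sum _ _ fun σ hσ => ?_
  rw [tmv]
  refine (H37.SM.reg_natCast _).mul (tm_regv hZ σ fun i hi hc => ?_)
  have h1 := (mem_TT.1 hσ).1.1 hi
  rw [mem_Gx] at h1
  rcases i with _ | w
  · exact hs0 ((IsCr_rho s0).1 hc)
  · apply hno
    refine ⟨w.1, w.2, (IsCr_lf s0 w.1 (hR.facet w.1 w.2)).1 hc, fun t ht => ?_⟩
    have h2 : pr (ph a (Sum.inl t)) (lf a w.1) = 0 := h1 (Sum.inl t) (mem_map.2 ⟨t, ht, rfl⟩)
    rw [pr_inl_lf] at h2
    have h3 : ((∑ j, a t.1 j * w.1 j : ℕ) : ℤ) = (H22.wmin a w.1 : ℤ) := by linarith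
    exact_mod_cast h3

end Pool.Agent.H37.T5
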