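import Pool.Agent.H37.T5.ZJT
import Pool.Agent.H37.T5.ZSR
import Pool.Agent.H37.T5.ZSE
import Pool.Agent.H56.SMC.ZNQ

/-!
# ZSM: the topological zeta function modulo regular functions

All congruences modulo functions regular at `s0`.  `R` is finite; call a nonempty set `τ` of exponents (resp. `T` of vertices) critical if some `w ∈ R`, `CritW a s0 w`, has `toReal w ∈ minCone a τ` (resp. `a_t·w = N(w)` for all `t ∈ T`).

The faces: the map `τ ↦ vt a τ` is a bijection from the critical faces to the critical nonempty sets of vertices with inverse `T ↦ cls a T` (`zfb_cls`, `zfb_ne`, `zfb_face`, `zfb_vt`, `zfb_mem`; if `w ∈ R` critical, `toReal w ∈ minCone a τ`, then `a_i·w = N(w)` on `τ` by `H22.wmin_eq`), and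
`JfunG a τ 𝒟 = JT (vt a τ)` (`zjt`), `faceRank a τ = |vt a τ|`, `nvol = mulv (ph a) (inL (vt a τ))` (`znvol`).

`zsm`: `Z ≡ ∑_{|T| = 1} JT T + X/(X+1) ∑_{|T| ≥ 2} (-1)^(|T|-1) ν(T) JT T` (sums over all nonempty `T`; the noncritical ones are regular on both sides), and `X/(X+1) * (JT ∅ - ∑_q JT {q}) ≡ X/(X+1) * (-1/X - 1) ∑_q JT {q} = -∑_q JT {q}` (`s0 ≠ 0, -1`; `X/(X+1)` and `1/X` are regular).  So `Z + X/(X+1) ∑_T (-1)^|T| ν(T) JT T ≡ 0`.
-/

set_option autoImplicit false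

namespace Pool.Agent.H37.T5

open Finset H60.RegTri
open Pool.Agent.H56.SMC

variable {n r : ℕ} (a : Fin r → (Fin n →₀ ℕ))

/-- critical sets of vertices -/
def ZSM_cT (R : Finset (Fin n → ℕ)) (s0 : ℂ) (T : Finset (Vx a)) : Prop :=
  ∃ w ∈ R, CritW a s0 w ∧ ∀ t ∈ T, ∑ j, a t.1 j * w j = H22.wmin a w

/-- critical faces -/
def ZSM_cF (R : Finset (Fin n → ℕ)) (s0 : ℂ) (τ : Finset (Fin r)) : Prop :=
  ∃ w ∈ R, CritW a s0 w ∧ H22.toReal w ∈ H22.minCone a τ

/-- noncritical faces have regular `J` -/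
theorem ZSM_regF (R : Finset (Fin n → ℕ)) (hR : RaySet a R) (s0 : ℂ) (τ : Finset (Fin r))
    (hne : τ.Nonempty) (hF : H22.IsFace a τ) (hno : ¬ ZSM_cF a R s0 τ) (𝒟 : H22.FaceCones a τ) :
    H37.SM.Reg s0 (H22.JfunG a τ 𝒟) := by
  classical
  obtain ⟨h, hh⟩ := exists_generic (rv R)
  rw [jf_tri a R hR h hh τ hne hF 𝒟]
  refine H37.SM.Reg.sum _ _ fun σ hσ => tm_reg a R hR s0 σ fun w hw hc => hno ?_
  have h1 := (mem_upT.1 hσ).1.1 hw
  exact ⟨w.1, w.2, hc, mem_raysIn.1 h1⟩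

theorem ZSM_face_ne (hr : 0 < r) (τ : Finset (Fin r)) (hF : H22.IsFace a τ) : τ.Nonempty := by
  obtain ⟨k, -, hk⟩ := hF
  have : Nonempty (Fin r) := ⟨⟨0, hr⟩⟩
  obtain ⟨l, hl⟩ := Finite.exists_min (fun l => ∑ j, (a l j : ℝ) * k j)
  exact ⟨l, (hk l).2 hl⟩

/-- comparison of a sum over faces with a sum over sets of vertices -/
theorem ZSM_cmp (ha : Function.Injective a) (hr : 0 < r) (R : Finset (Fin n → ℕ))
    (hR : RaySet a R) (s0 : ℂ) (hsimp : ∀ w, CritW a s0 w → SimpF a w) (P : ℕ → Prop)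
    [DecidablePred P] (hP : ∀ k, P k → 1 ≤ k)
    (G : Finset (Fin r) → RatFunc ℂ) (H : Finset (Vx a) → RatFunc ℂ)
    (hG : ∀ τ, H22.IsFace a τ → τ.Nonempty → ¬ ZSM_cF a R s0 τ → H37.SM.Reg s0 (G τ))
    (hH : ∀ T, T.Nonempty → ¬ ZSM_cT a R s0 T → H37.SM.Reg s0 (H T))
    (hGH : ∀ τ, H22.IsFace a τ → ∀ w ∈ R, CritW a s0 w → H22.toReal w ∈ H22.minCone a τ →
      G τ = H (vt a τ)) (F : Finset (Finset (Fin r)))
    (hF : ∀ τ, τ ∈ F ↔ H22.IsFace a τ ∧ P (H22.faceRank a τ)) :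
    H37.SM.Reg s0 (∑ τ ∈ F, G τ - ∑ T ∈ univ.filter (fun T : Finset (Vx a) => P T.card), H T) := by
  classical
  set S := univ.filter (fun T : Finset (Vx a) => P T.card) with hS
  have hSm : ∀ T, T ∈ S ↔ P T.card := fun T => by rw [hS, mem_filter]; simp
  rw [← Finset.sum_filter_add_sum_filter_not F (fun τ => ZSM_cF a R s0 τ),
    ← Finset.sum_filter_add_sum_filter_not S (fun T => ZSM_cT a R s0 T)]
  have hbij : ∑ τ ∈ F.filter (fun τ => ZSM_cF a R s0 τ), G τ =
      ∑ T ∈ S.filter (fun T => ZSM_cT a R s0 T), H T := by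
    refine Finset.sum_bij' (fun τ _ => vt a τ) (fun T _ => cls a T) ?_ ?_ ?_ ?_ ?_
    · intro τ hτ
      obtain ⟨h1, w, hw, hc, hm⟩ := mem_filter.1 hτ
      obtain ⟨h2, h3⟩ := (hF τ).1 h1
      rw [mem_filter]
      refine ⟨(hSm _).2 ?_, w, hw, hc, fun t ht => ?_⟩
      · rw [← zfb_rank a ha w (hR.facet w hw) (hsimp w hc) τ h2 hm]
        exact h3
      · exact (H22.wmin_eq hm (vt_mem.1 ht)).symm
    · intro T hT
      obtain ⟨h1, w, hw, hc, hm⟩ := mem_filter.1 hT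
      have h2 := (hSm T).1 h1
      have hne : T.Nonempty := Finset.card_pos.1 (hP _ h2)
      have h3 := zfb_face a ha w (hR.facet w hw) (hsimp w hc) T hne hm
      have h4 := zfb_mem a w T hm
      rw [mem_filter]
      refine ⟨(hF _).2 ⟨h3, ?_⟩, w, hw, hc, h4⟩
      rw [zfb_rank a ha w (hR.facet w hw) (hsimp w hc) _ h3 h4, zfb_vt a ha T]
      exact h2
    · intro τ hτ
      obtain ⟨h1, w, hw, hc, hm⟩ := mem_filter.1 hτ
      exact zfb_cls a ha w (hR.facet w hw) (hsimp w hc) τ ((hF τ).1 h1).1 hm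
    · intro T hT
      exact zfb_vt a ha T
    · intro τ hτ
      obtain ⟨h1, w, hw, hc, hm⟩ := mem_filter.1 hτ
      exact hGH τ ((hF τ).1 h1).1 w hw hc hm
  rw [hbij]
  have e : ∀ A B C : RatFunc ℂ, A + B - (A + C) = B - C := fun A B C => by ring
  rw [e]
  refine H37.SM.Reg.sub (H37.SM.Reg.sum _ _ fun τ hτ => ?_) (H37.SM.Reg.sum _ _ fun T hT => ?_)
  · obtain ⟨h1, h2⟩ := mem_filter.1 hτ
    have h3 := ((hF τ).1 h1).1
    exact hG τ h3 (ZSM_face_ne a hr τ h3) h2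
  · obtain ⟨h1, h2⟩ := mem_filter.1 hT
    exact hH T (Finset.card_pos.1 (hP _ ((hSm T).1 h1))) h2

theorem ZSM_sign (s0 : ℂ) (k : ℕ) : H37.SM.Reg s0 ((-1 : RatFunc ℂ) ^ k) := by
  rcases neg_one_pow_eq_or (RatFunc ℂ) k with h | h
  · rw [h]
    have := H37.SM.reg_natCast (s0 := s0) 1
    rwa [Nat.cast_one] at this
  · rw [h]
    have := H37.SM.reg_natCast (s0 := s0) 1
    rw [Nat.cast_one] at this
    exact this.neg

/-- singletons -/
def ZSM_sg : Vx a ↪ Finset (Vx a) := ⟨fun q => {q}, fun x y hxy => by simpa using hxy⟩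

theorem ZSM_sg_apply (q : Vx a) : ZSM_sg a q = {q} := rfl

/-- ZSM -/
theorem zsm (ha : Function.Injective a) (hr : 0 < r) (R : Finset (Fin n → ℕ)) (hR : RaySet a R)
    (h : Option R → ℝ) (hgen : ∀ τ, GenericOn (vR (vv a R)) h τ)
    (hgen' : ∀ τ, GenericOn (rv0 R) h τ) (s0 : ℂ) (hs0 : s0 ≠ 0) (hs1 : s0 ≠ -1)
    (hsimp : ∀ w, CritW a s0 w → SimpF a w)
    (htop : ∀ σ : Finset (Option R), none ∉ σ →
      LinearIndepOn ℝ (vR (vv a R)) (σ : Set (Option R)) → ∀ β : Option R → ℝ,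
      vR (vv a R) none = ∑ i ∈ σ, β i • vR (vv a R) i → ∑ i ∈ σ, β i * h i < h none)
    (𝒟 : ∀ τ, H22.FaceCones a τ) (𝒯 : ∀ τ, H22.FaceTriang a τ) :
    H37.SM.Reg s0 (H22.topZetaG a 𝒟 𝒯 + RatFunc.X / (RatFunc.X + 1) *
      ∑ T : Finset (Vx a), (-1) ^ T.card * (mulv (ph a) (inL T) : RatFunc ℂ) * JT a R h T) := by
  classical
  have hZ := zzs a ha hr R hR s0 hs0 hsimp
  -- the vertices
  have k1 := ZSM_cmp a ha hr R hR s0 hsimp (fun k => k = 1) (fun k hk => hk.ge)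
    (fun τ => H22.JfunG a τ (𝒟 τ)) (fun T => JT a R h T)
    (fun τ hF hne hno => ZSM_regF a R hR s0 τ hne hF hno (𝒟 τ))
    (fun T hT hno => zsm_reg a R hR h s0 hs0 hZ T hT hno)
    (fun τ hF w hw hc hm => zjt a ha hr R hR h hgen hgen' w (hR.facet w hw) (hsimp w hc) τ hF hm (𝒟 τ))
    (univ.filter (fun τ : Finset (Fin r) => H22.IsFace a τ ∧ H22.faceRank a τ = 1))
    (fun τ => by rw [mem_filter]; simp)
  -- the other faces
  have k2 := ZSM_cmp a ha hr R hR s0 hsimp (fun k => 2 ≤ k) (fun k hk => by omega)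
    (fun τ => (-1) ^ (H22.faceRank a τ - 1) * (H22.nvol (𝒯 τ) : RatFunc ℂ) * H22.JfunG a τ (𝒟 τ))
    (fun T => (-1) ^ (T.card - 1) * (mulv (ph a) (inL T) : RatFunc ℂ) * JT a R h T)
    (fun τ hF hne hno => ((ZSM_sign s0 _).mul (H37.SM.reg_natCast _)).mul
      (ZSM_regF a R hR s0 τ hne hF hno (𝒟 τ)))
    (fun T hT hno => ((ZSM_sign s0 _).mul (H37.SM.reg_natCast _)).mul
      (zsm_reg a R hR h s0 hs0 hZ T hT hno))
    (fun τ hF w hw hc hm => by
      show _ * _ * _ = _ * _ * _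
      rw [zjt a ha hr R hR h hgen hgen' w (hR.facet w hw) (hsimp w hc) τ hF hm (𝒟 τ),
        znvol a ha hr w (hR.facet w hw) (hsimp w hc) τ hF hm (𝒯 τ),
        zfb_rank a ha w (hR.facet w hw) (hsimp w hc) τ hF hm])
    (univ.filter (fun τ : Finset (Fin r) => H22.IsFace a τ ∧ 2 ≤ H22.faceRank a τ))
    (fun τ => by rw [mem_filter]; simp)
  have k3 := zsm_empty a R h hgen s0 hs0 hZ htop
  -- the sum over all sets of vertices
  have hsplit : ∑ T : Finset (Vx a), (-1) ^ T.card * (mulv (ph a) (inL T) : RatFunc ℂ) * JT a R h T =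
      JT a R h ∅ - ∑ q : Vx a, JT a R h {q} -
        ∑ T ∈ univ.filter (fun T : Finset (Vx a) => 2 ≤ T.card),
          (-1) ^ (T.card - 1) * (mulv (ph a) (inL T) : RatFunc ℂ) * JT a R h T := by
    rw [← Finset.sum_filter_add_sum_filter_not univ (fun T : Finset (Vx a) => 2 ≤ T.card)]
    have e1 : ∑ T ∈ univ.filter (fun T : Finset (Vx a) => 2 ≤ T.card),
        (-1) ^ T.card * (mulv (ph a) (inL T) : RatFunc ℂ) * JT a R h T =
        -∑ T ∈ univ.filter (fun T : Finset (Vx a) => 2 ≤ T.card),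
          (-1) ^ (T.card - 1) * (mulv (ph a) (inL T) : RatFunc ℂ) * JT a R h T := by
      rw [← Finset.sum_neg_distrib]
      refine Finset.sum_congr rfl fun T hT => ?_
      have h2 : 2 ≤ T.card := (mem_filter.1 hT).2
      obtain ⟨m, hm⟩ : ∃ m, T.card = m + 1 := ⟨T.card - 1, by omega⟩
      rw [hm, Nat.add_sub_cancel, pow_succ]
      ring
    have e2 : univ.filter (fun T : Finset (Vx a) => ¬ 2 ≤ T.card) =
        insert ∅ ((univ : Finset (Vx a)).map (ZSM_sg a)) := by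
      ext T
      rw [mem_filter, mem_insert, mem_map]
      constructor
      · rintro ⟨-, h2⟩
        rcases Nat.eq_zero_or_pos T.card with h0 | h0
        · exact Or.inl (Finset.card_eq_zero.1 h0)
        · right
          have h1 : T.card = 1 := by omega
          obtain ⟨q, rfl⟩ := Finset.card_eq_one.1 h1
          exact ⟨q, mem_univ _, rfl⟩
      · rintro (rfl | ⟨q, -, rfl⟩)
        · simp
        · rw [ZSM_sg_apply]; simp
    rw [e1, e2, Finset.sum_insert (by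
      rw [mem_map]
      rintro ⟨q, -, hq⟩
      rw [ZSM_sg_apply] at hq
      exact Finset.singleton_ne_empty q hq), Finset.sum_map]
    have e3 : inL (∅ : Finset (Vx a)) = ∅ := by simp [inL]
    rw [e3, mulv_empty]
    have e4 : ∑ q : Vx a, (-1) ^ (({q} : Finset (Vx a)).card) *
        (mulv (ph a) (inL {q}) : RatFunc ℂ) * JT a R h {q} = -∑ q : Vx a, JT a R h {q} := by
      rw [← Finset.sum_neg_distrib]
      refine Finset.sum_congr rfl fun q _ => ?_
      rw [znvol_single, Finset.card_singleton]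
      push_cast
      ring
    have e5 : ∑ x : Vx a, (-1) ^ ((ZSM_sg a x).card) * (mulv (ph a) (inL (ZSM_sg a x)) : RatFunc ℂ) *
        JT a R h (ZSM_sg a x) = -∑ q : Vx a, JT a R h {q} := e4
    rw [e5, Finset.card_empty]
    push_cast
    ring
  -- the single vertices
  have hone : ∑ T ∈ univ.filter (fun T : Finset (Vx a) => T.card = 1), JT a R h T =
      ∑ q : Vx a, JT a R h {q} := by
    have e2 : univ.filter (fun T : Finset (Vx a) => T.card = 1) =
        (univ : Finset (Vx a)).map (ZSM_sg a) := by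
      ext T
      rw [mem_filter, mem_map]
      constructor
      · rintro ⟨-, h1⟩
        obtain ⟨q, rfl⟩ := Finset.card_eq_one.1 h1
        exact ⟨q, mem_univ _, rfl⟩
      · rintro ⟨q, -, rfl⟩
        rw [ZSM_sg_apply]
        simp
    rw [e2, Finset.sum_map]
    rfl
  have hX1 : (RatFunc.X + 1 : RatFunc ℂ) ≠ 0 := by
    have := H37.SM.linear_ne_zero 1 1 one_pos
    push_cast at this
    rw [one_mul, add_comm] at this
    exact this
  have hreg1 : H37.SM.Reg s0 ((RatFunc.X + 1 : RatFunc ℂ)⁻¹) := by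
    have := H37.SM.reg_inv_linear (s0 := s0) 1 1 (by
      push_cast
      intro h0
      apply hs1
      linear_combination h0)
    push_cast at this
    rw [one_mul, add_comm] at this
    exact this
  rw [hsplit]
  rw [hone] at k1
  have hfin := (k1.add ((H37.SM.reg_X_div hs1).mul k2)).add (hreg1.mul k3)
  convert hfin using 1
  unfold H22.topZetaG
  field_simp
  ring

end Pool.Agent.H37.T5
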