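import Pool.Agent.H37.T5.ZSVA

/-!
# ZSV: simplicial facets: vertices

`w` a facet normal, `σ` as in `SimpF`.  (1) `zsv_ind`: the span in `FacetNormal` is spanned by the `(1, a_b)`, `b ∈ σ`, and the `(0, e_j)`, `w_j = 0` (every `(1, a_i)`, `i` on the face, is a convex combination of the `(1, a_b)`), `|σ| + #{w_j = 0} = supCard w + (n - supCard w) = n` vectors spanning a space of dimension `n`: independent.
(2) `zsv_mem`: `i` on the face with `IsFace a {i}`: with weight `k`, `a_i·k < a_l·k` for `l ≠ i`; `a_i = ∑ θ_b a_b` (`θ ≥ 0`, sum `1`): `a_i·k = ∑ θ_b a_b·k`, so `θ_b = 0` for `b ≠ i`, and `i ∈ σ`.  Conversely `b ∈ σ`: by (1) there is a real `y ∈ ℝ^{1+n}` with `(1,a_b)·y = 0`, `(1,a_b')·y = 1` for the other `b' ∈ σ`, `y_j = 1` for `w_j = 0`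
(independent functionals); add a large multiple of `(-N(w); w)`: then moreover `(1,a_i)·y > 0` for `i` off the face and `y_j > 0` for all `j` with `w_j > 0`.  For `i` on the face `(1,a_i)·y = ∑ θ_b' (1,a_b')·y ≥ 0` with equality only if `a_i = a_b`, `i = b` (`ha`).  So the weight `k_j = y_j ≥ 0` has the unique minimiser `b`.
-/

set_option autoImplicit false

namespace Pool.Agent.H37.T5

open Finset H60.RegTri
open Pool.Agent.H56.SMC

variable {n r : ℕ} (a : Fin r → (Fin n →₀ ℕ))

/-- a functional with prescribed values on an independent family -/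
theorem ZSV_functional {ι κ : Type} [Fintype κ] [DecidableEq κ] (v : ι → κ → ℝ)
    (hv : LinearIndependent ℝ v)
    (c : ι → ℝ) : ∃ y : κ → ℝ, ∀ i, ∑ j, v i j * y j = c i := by
  obtain ⟨g, hg⟩ := LinearMap.exists_extend
    ((Finsupp.linearCombination ℝ c) ∘ₗ (hv.repr : _ →ₗ[ℝ] (ι →₀ ℝ)))
  refine ⟨fun j => g (fun j' => if j = j' then 1 else 0), fun i => ?_⟩
  have h1 := LinearMap.pi_apply_eq_sum_univ g (v i)
  have h2 : g (v i) = c i := by
    have h3 := LinearMap.congr_fun hg ⟨v i, Submodule.subset_span ⟨i, rfl⟩⟩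
    simp only [LinearMap.comp_apply, Submodule.subtype_apply] at h3
    rw [h3, hv.repr_eq_single i ⟨v i, Submodule.subset_span ⟨i, rfl⟩⟩ rfl]
    simp
  rw [← h2, h1]
  simp [smul_eq_mul]

theorem ZSV_wmin_le (w : Fin n → ℕ) (l : Fin r) : H22.wmin a w ≤ ∑ j, a l j * w j :=
  ciInf_le (OrderBot.bddBelow _) l

theorem zsv_mem (ha : Function.Injective a) (w : Fin n → ℕ) (hw : FacetNormal a w)
    (σ : Finset (Fin r))
    (hc : σ.card = supCard w) (hon : ∀ b ∈ σ, ∑ j, a b j * w j = H22.wmin a w)
    (hconv : ∀ i, ∑ j, a i j * w j = H22.wmin a w →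
      H22.pointR a i ∈ convexHull ℝ (H22.pointR a '' (σ : Set (Fin r)))) (i : Fin r) :
    (∑ j, a i j * w j = H22.wmin a w ∧ H22.IsFace a {i}) ↔ i ∈ σ := by
  constructor
  · rintro ⟨h1, k, hk0, hk⟩
    by_contra hi
    have hmin := (hk i).1 (mem_singleton_self i)
    have hC : Convex ℝ {y : Fin n → ℝ | ∑ j, (a i j : ℝ) * k j < ∑ j, y j * k j} := by
      intro y hy z hz α β hα hβ hαβ
      simp only [Set.mem_ofPred_eq, Pi.add_apply, Pi.smul_apply, smul_eq_mul] at hy hz ⊢
      have e : ∑ j, (α * y j + β * z j) * k j = α * ∑ j, y j * k j + β * ∑ j, z j * k j := by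
        rw [mul_sum, mul_sum, ← sum_add_distrib]
        exact sum_congr rfl fun j _ => by ring
      rw [e]
      rcases hα.eq_or_lt with h0 | h0
      · have hb1 : β = 1 := by linarith
        rw [← h0, hb1]
        linarith
      · have h2 : α * ∑ j, (a i j : ℝ) * k j < α * ∑ j, y j * k j := mul_lt_mul_of_pos_left hy h0
        have h3 : β * ∑ j, (a i j : ℝ) * k j ≤ β * ∑ j, z j * k j :=
          mul_le_mul_of_nonneg_left hz.le hβ
        have h4 : ∑ j, (a i j : ℝ) * k j = α * ∑ j, (a i j : ℝ) * k j +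
            β * ∑ j, (a i j : ℝ) * k j := by
          rw [← add_mul, hαβ, one_mul]
        linarith
    have hsub : H22.pointR a '' (σ : Set (Fin r)) ⊆
        {y : Fin n → ℝ | ∑ j, (a i j : ℝ) * k j < ∑ j, y j * k j} := by
      rintro _ ⟨b, hb, rfl⟩
      have hbi : b ≠ i := fun h => hi (h ▸ hb)
      have h2 : ¬ ∀ l', ∑ j, (a b j : ℝ) * k j ≤ ∑ j, (a l' j : ℝ) * k j := by
        rw [← hk b]
        simpa using hbi
      push Not at h2
      obtain ⟨l', hl'⟩ := h2
      exact lt_of_le_of_lt (hmin l') hl'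
    have h3 := convexHull_min hsub hC (hconv i h1)
    exact lt_irrefl (∑ j, (a i j : ℝ) * k j) h3
  · intro hi
    refine ⟨hon i hi, ?_⟩
    classical
    obtain ⟨y, hy⟩ := ZSV_functional _ (zsv_ind a w hw σ hc hon hconv)
      (Sum.elim (fun b : σ => if b.1 = i then 0 else 1) (fun _ => 1))
    have hyb : ∀ b ∈ σ, y (Sum.inl ()) + ∑ j, (a b j : ℝ) * y (Sum.inr j) =
        if b = i then 0 else 1 := by
      intro b hb
      have h1 := hy (Sum.inl ⟨b, hb⟩)
      simpa [H22.rowR, Fintype.sum_sum_type] using h1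
    have hyj : ∀ j, w j = 0 → y (Sum.inr j) = 1 := by
      intro j hj
      have h1 := hy (Sum.inr ⟨j, hj⟩)
      simpa [eR, Fintype.sum_sum_type, Pi.single_apply] using h1
    set g : (Fin n → ℝ) → ℝ := fun z => y (Sum.inl ()) + ∑ j, z j * y (Sum.inr j) with hg
    have hgc : ∀ (z z' : Fin n → ℝ) (α β : ℝ), α + β = 1 →
        g (α • z + β • z') = α * g z + β * g z' := by
      intro z z' α β hαβ
      simp only [hg, Pi.add_apply, Pi.smul_apply, smul_eq_mul]
      have e : ∑ j, (α * z j + β * z' j) * y (Sum.inr j) =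
          α * ∑ j, z j * y (Sum.inr j) + β * ∑ j, z' j * y (Sum.inr j) := by
        rw [mul_sum, mul_sum, ← sum_add_distrib]
        exact sum_congr rfl fun j _ => by ring
      rw [e]
      linear_combination (-y (Sum.inl ())) * hαβ
    have hC : Convex ℝ {z : Fin n → ℝ | 0 ≤ g z ∧ (g z = 0 → z = H22.pointR a i)} := by
      intro z hz z' hz' α β hα hβ hαβ
      simp only [Set.mem_ofPred_eq] at hz hz' ⊢
      rw [hgc z z' α β hαβ]
      refine ⟨add_nonneg (mul_nonneg hα hz.1) (mul_nonneg hβ hz'.1), fun h => ?_⟩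
      have h1 : α * g z = 0 := by nlinarith [mul_nonneg hα hz.1, mul_nonneg hβ hz'.1]
      have h2 : β * g z' = 0 := by nlinarith [mul_nonneg hα hz.1, mul_nonneg hβ hz'.1]
      rcases mul_eq_zero.1 h1 with h3 | h3
      · have hb1 : β = 1 := by linarith
        rw [h3, hb1, zero_smul, one_smul, zero_add]
        rw [hb1, one_mul] at h2
        exact hz'.2 h2
      · rcases mul_eq_zero.1 h2 with h4 | h4
        · have ha1 : α = 1 := by linarith
          rw [h4, ha1, zero_smul, one_smul, add_zero]
          exact hz.2 h3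
        · rw [hz.2 h3, hz'.2 h4, ← add_smul, hαβ, one_smul]
    have hsub : H22.pointR a '' (σ : Set (Fin r)) ⊆
        {z : Fin n → ℝ | 0 ≤ g z ∧ (g z = 0 → z = H22.pointR a i)} := by
      rintro _ ⟨b, hb, rfl⟩
      have h1 : g (H22.pointR a b) = if b = i then 0 else 1 := hyb b hb
      simp only [Set.mem_ofPred_eq]
      rw [h1]
      by_cases hbi : b = i
      · rw [if_pos hbi, hbi]
        exact ⟨le_rfl, fun _ => rfl⟩
      · rw [if_neg hbi]
        exact ⟨zero_le_one, fun h => absurd h one_ne_zero⟩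
    have hface : ∀ l, ∑ j, a l j * w j = H22.wmin a w →
        0 ≤ g (H22.pointR a l) ∧ (g (H22.pointR a l) = 0 → l = i) := by
      intro l hl
      have h1 := convexHull_min hsub hC (hconv l hl)
      refine ⟨h1.1, fun h => ha ?_⟩
      have h2 := h1.2 h
      ext j
      have h3 := congrFun h2 j
      simpa [H22.pointR] using h3
    -- the large multiple
    set T : ℝ := (∑ j, |y (Sum.inr j)|) + (∑ l, |g (H22.pointR a l)|) + 1 with hT
    have hTj : ∀ j, |y (Sum.inr j)| ≤ T := by
      intro j
      have h1 : |y (Sum.inr j)| ≤ ∑ j, |y (Sum.inr j)| :=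
        single_le_sum (f := fun j => |y (Sum.inr j)|) (fun j _ => abs_nonneg _) (mem_univ j)
      have h2 : 0 ≤ ∑ l, |g (H22.pointR a l)| := sum_nonneg fun l _ => abs_nonneg _
      linarith
    have hTl : ∀ l, |g (H22.pointR a l)| < T := by
      intro l
      have h1 : |g (H22.pointR a l)| ≤ ∑ l, |g (H22.pointR a l)| :=
        single_le_sum (f := fun l => |g (H22.pointR a l)|) (fun j _ => abs_nonneg _) (mem_univ l)
      have h2 : 0 ≤ ∑ j, |y (Sum.inr j)| := sum_nonneg fun l _ => abs_nonneg _
      linarith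
    have hf : ∀ l, ∑ j, (a l j : ℝ) * (y (Sum.inr j) + T * w j) =
        g (H22.pointR a l) - y (Sum.inl ()) + T * ((∑ j, a l j * w j : ℕ) : ℝ) := by
      intro l
      simp only [hg, H22.pointR]
      push_cast
      rw [mul_sum, add_sub_cancel_left, ← sum_add_distrib]
      exact sum_congr rfl fun j _ => by ring
    refine ⟨fun j => y (Sum.inr j) + T * w j, fun j => ?_, fun l => ?_⟩
    · rcases Nat.eq_zero_or_pos (w j) with h0 | h0
      · show 0 ≤ y (Sum.inr j) + T * w j
        rw [hyj j h0, h0]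
        norm_num
      · have h1 : (1:ℝ) ≤ w j := by exact_mod_cast h0
        have h2 := hTj j
        have h3 : 0 ≤ T := (abs_nonneg _).trans h2
        have h4 : T * 1 ≤ T * w j := mul_le_mul_of_nonneg_left h1 h3
        have h5 := neg_abs_le (y (Sum.inr j))
        show 0 ≤ y (Sum.inr j) + T * w j
        linarith
    · have hgi : g (H22.pointR a i) = 0 := by
        have := hyb i hi
        rw [if_pos rfl] at this
        exact this
      have hgap : ∀ l, ∑ j, a l j * w j ≠ H22.wmin a w →
          0 < g (H22.pointR a l) + T * ((∑ j, a l j * w j : ℕ) : ℝ) - T * (H22.wmin a w : ℝ) := by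
        intro l hl
        have h1 : H22.wmin a w + 1 ≤ ∑ j, a l j * w j := by
          have := ZSV_wmin_le a w l
          omega
        have h2 : ((H22.wmin a w : ℝ)) + 1 ≤ ((∑ j, a l j * w j : ℕ) : ℝ) := by exact_mod_cast h1
        have h3 := hTl l
        have h4 : 0 ≤ T := (abs_nonneg _).trans h3.le
        have h5 := neg_abs_le (g (H22.pointR a l))
        have h6 := mul_le_mul_of_nonneg_left h2 h4
        linarith
      rw [mem_singleton]
      constructor
      · intro hl l'
        rw [hl, hf i, hf l', hgi, hon i hi]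
        by_cases h1 : ∑ j, a l' j * w j = H22.wmin a w
        · rw [h1]
          linarith [(hface l' h1).1]
        · linarith [hgap l' h1]
      · intro hl
        have h1 := hl i
        rw [hf l, hf i, hgi, hon i hi] at h1
        by_cases h2 : ∑ j, a l j * w j = H22.wmin a w
        · rw [h2] at h1
          have h3 := hface l h2
          exact h3.2 (le_antisymm (by linarith) h3.1)
        · exfalso
          linarith [hgap l h2]

end Pool.Agent.H37.T5
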