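import Pool.Agent.H37.T5.ZCD

/-!
# ZSVA: simplicial facets: independence

`w` a facet normal, `σ` as in `SimpF`.  (1) `zsv_ind`: the span in `FacetNormal` is spanned by the `(1, a_b)`, `b ∈ σ`, and the `(0, e_j)`, `w_j = 0` (every `(1, a_i)`, `i` on the face, is a convex combination of the `(1, a_b)`), `|σ| + #{w_j = 0} = supCard w + (n - supCard w) = n` vectors spanning a space of dimension `n`: independent.
-/

set_option autoImplicit false

namespace Pool.Agent.H37.T5

open Finset H60.RegTri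
open Pool.Agent.H56.SMC

variable {n r : ℕ} (a : Fin r → (Fin n →₀ ℕ))

theorem ZSVA_hull (σ : Finset (Fin r)) (x : Fin n → ℝ)
    (hx : x ∈ convexHull ℝ (H22.pointR a '' (σ : Set (Fin r))))
    (M : Submodule ℝ (Unit ⊕ Fin n → ℝ)) (hM : ∀ b ∈ σ, H22.rowR a b ∈ M) :
    (Sum.elim (fun _ => 1) x : Unit ⊕ Fin n → ℝ) ∈ M := by
  have hconvex : Convex ℝ {x : Fin n → ℝ | (Sum.elim (fun _ => 1) x : Unit ⊕ Fin n → ℝ) ∈ M} := by
    intro x hx y hy s t _ _ hst
    have h1 : (Sum.elim (fun _ => 1) (s • x + t • y) : Unit ⊕ Fin n → ℝ) =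
        s • (Sum.elim (fun _ => 1) x : Unit ⊕ Fin n → ℝ) +
          t • (Sum.elim (fun _ => 1) y : Unit ⊕ Fin n → ℝ) := by
      funext k
      rcases k with k | k
      · simp [hst]
      · simp
    show (Sum.elim (fun _ => 1) (s • x + t • y) : Unit ⊕ Fin n → ℝ) ∈ M
    rw [h1]
    exact M.add_mem (M.smul_mem _ hx) (M.smul_mem _ hy)
  refine convexHull_min ?_ hconvex hx
  rintro _ ⟨b, hb, rfl⟩
  exact hM b hb

/-- ZSV -/
theorem zsv_ind (w : Fin n → ℕ) (hw : FacetNormal a w) (σ : Finset (Fin r))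
    (hc : σ.card = supCard w) (hon : ∀ b ∈ σ, ∑ j, a b j * w j = H22.wmin a w)
    (hconv : ∀ i, ∑ j, a i j * w j = H22.wmin a w →
      H22.pointR a i ∈ convexHull ℝ (H22.pointR a '' (σ : Set (Fin r)))) :
    LinearIndependent ℝ (Sum.elim (fun b : σ => H22.rowR a b.1)
      (fun j : {j : Fin n // w j = 0} => (eR j.1 : Unit ⊕ Fin n → ℝ))) := by
  rw [linearIndependent_iff_card_eq_finrank_span]
  have hcard : Fintype.card (σ ⊕ {j : Fin n // w j = 0}) = n := by
    rw [Fintype.card_sum, Fintype.card_coe, hc, supCard, Fintype.card_subtype]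
    have h1 := Finset.card_filter_add_card_filter_not (s := (univ : Finset (Fin n))) (fun j => w j ≠ 0)
    rw [Finset.card_univ, Fintype.card_fin] at h1
    simp only [not_not] at h1
    exact h1
  rw [hcard]
  have h2 := hw.2
  have hspan : Submodule.span ℝ (Set.range (Sum.elim (fun b : σ => H22.rowR a b.1)
      (fun j : {j : Fin n // w j = 0} => (eR j.1 : Unit ⊕ Fin n → ℝ)))) =
      Submodule.span ℝ
    ({y | ∃ i, ∑ j, a i j * w j = H22.wmin a w ∧ y = H22.rowR a i} ∪
      {y | ∃ j, w j = 0 ∧ y = Sum.elim (fun _ => 0) (Pi.single j 1)} :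
        Set (Unit ⊕ Fin n → ℝ)) := by
    apply le_antisymm
    · rw [Submodule.span_le]
      rintro _ ⟨k, rfl⟩
      rcases k with b | j
      · exact Submodule.subset_span (Or.inl ⟨b.1, hon b.1 b.2, rfl⟩)
      · exact Submodule.subset_span (Or.inr ⟨j.1, j.2, rfl⟩)
    · rw [Submodule.span_le]
      rintro y (⟨i, hi, rfl⟩ | ⟨j, hj, rfl⟩)
      · exact ZSVA_hull a σ (H22.pointR a i) (hconv i hi) _
          (fun b hb => Submodule.subset_span ⟨Sum.inl ⟨b, hb⟩, rfl⟩)
      · exact Submodule.subset_span ⟨Sum.inr ⟨j, hj⟩, rfl⟩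
  rw [Set.finrank, hspan, h2]

end Pool.Agent.H37.T5
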