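import Pool.Agent.H37.T5.ZDefs
import Pool.Agent.H22.Lattice

/-!
# ZVOL: multiplicities of a simplex and of the functionals vanishing on it

`zvol`.  `B` independent with `m` elements, `Ξ` independent with `D - m` elements (`D = |κ|`), `φ_ω(v_i) = 0` for `i ∈ B`, `ω ∈ Ξ`.  Let `N = {x ∈ ℤ^κ : φ_ω·x = 0 for all ω ∈ Ξ}` (saturated, of rank `m`; it is the saturation of the span of `v_B`), and a basis of `ℤ^κ` adapted to `v_B`
(`H22.exists_adapted_basis` with `ι = B`, `d = D - m`, basis `E : Fin d ⊕ B`, `v_i = ∑ G i' i • E (inr i')`, `mulv v B = |det G|`).  All `φ_ω` vanish on the `E (inr i')` (`det G ≠ 0`).  In this basis the matrix with columns `v_B`, `u` is block triangular: `|det(v_B, u)| = |det G| |det U|`,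
`U` = the `inl`-coordinates of the `u_ω'` (the base change `E` has determinant `±1`).  `φ_ω(u_ω') = ∑_c φ_ω(E (inl c)) U_{c ω'}`, so `|det(φ_ω(u_ω'))| = |det Φ| |det U|`, `Φ_{ω c} = φ_ω(E (inl c))`.  `mulv φ Ξ = |det Φ|`: in the dual basis `E*` of `ℤ^κ` one has `φ_ω = ∑_c φ_ω(E (inl c)) E*_{inl c}`
(no `inr`-part), the span of the `E*_{inl c}` is saturated, `H22.latIndex_eq_det`.  Multiply.
`mulv_ne`: `Module.Finite` torsion group of a finitely generated abelian group is finite (see also the end of the proof of `H22.latIndex_eq_det`).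
-/

set_option autoImplicit false

namespace Pool.Agent.H37.T5

open Finset H60.RegTri

variable {ι κ Ω : Type} [Fintype ι] [DecidableEq ι] [Fintype κ] [DecidableEq κ] [Fintype Ω]
  [DecidableEq Ω]

/-- Multiplicities are positive: the torsion of a finitely generated abelian group is finite. -/
theorem mulv_ne {ι κ : Type} [Fintype κ] (v : ι → κ → ℤ) (σ : Finset ι) : mulv v σ ≠ 0 := by
  classical
  unfold mulv H22.latIndex
  set S := Submodule.span ℤ (Set.range fun i : σ => v i) with hS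
  have hfin : Module.Finite ℤ (Submodule.torsion ℤ ((κ → ℤ) ⧸ S)) :=
    Module.Finite.of_injective (Submodule.torsion ℤ ((κ → ℤ) ⧸ S)).subtype
      (Submodule.subtype_injective _)
  have : _root_.Finite (Submodule.torsion ℤ ((κ → ℤ) ⧸ S)) :=
    Module.finite_of_fg_torsion _ (Submodule.torsion_isTorsion)
  exact Nat.card_pos.ne'

omit [Fintype ι] [Fintype κ] [DecidableEq ι] [DecidableEq κ] in
private theorem ZVOL_lin {v : ι → κ → ℤ} {B : Finset ι}
    (hB : LinearIndepOn ℝ (vR v) (B : Set ι)) : LinearIndependent ℤ (fun i : B => v i) := by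
  classical
  rw [Fintype.linearIndependent_iff]
  intro g hg i
  have h1 : LinearIndependent ℝ (fun i : B => vR v i) := hB
  rw [Fintype.linearIndependent_iff] at h1
  have h2 := h1 (fun i => (g i : ℝ)) (by
    ext j
    have h3 := congrFun hg j
    simp only [Finset.sum_apply, Pi.smul_apply, smul_eq_mul, Pi.zero_apply, vR] at h3 ⊢
    exact_mod_cast h3) i
  exact_mod_cast h2

omit [DecidableEq κ] in
private theorem ZVOL_pr_sum {β : Type} (s : Finset β) (x : κ → ℤ) (c : β → ℤ) (y : β → κ → ℤ) :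
    pr x (∑ z ∈ s, c z • y z) = ∑ z ∈ s, c z * pr x (y z) := by
  unfold pr
  simp only [Finset.sum_apply, Pi.smul_apply, smul_eq_mul, Finset.mul_sum]
  rw [Finset.sum_comm]
  exact Finset.sum_congr rfl fun z _ => Finset.sum_congr rfl fun j _ => by ring

/-- ZVOL -/
theorem zvol (v : ι → κ → ℤ) (φ : Ω → κ → ℤ) (B : Finset ι) (Ξ : Finset Ω)
    (hB : LinearIndepOn ℝ (vR v) (B : Set ι)) (hΞ : LinearIndepOn ℝ (vR φ) (Ξ : Set Ω))
    (h0 : ∀ i ∈ B, ∀ ω ∈ Ξ, pr (φ ω) (v i) = 0) (hc : B.card + Ξ.card = Fintype.card κ)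
    (e : (B ⊕ Ξ) ≃ κ) (u : Ξ → κ → ℤ) :
    (mulv v B : ℤ) * |(Matrix.of fun ω ω' : Ξ => pr (φ ω) (u ω')).det| =
      (mulv φ Ξ : ℤ) * |(Matrix.of fun x y : B ⊕ Ξ =>
        Sum.elim (fun i : B => v i) (fun ω : Ξ => u ω) x (e y)).det| := by
  classical
  obtain ⟨E0, G, hG, hGdet, hGl⟩ := H22.exists_adapted_basis (fun i : B => v i) (ZVOL_lin hB)
    Ξ.card (by rw [Fintype.card_coe]; omega)
  -- reindex the basis
  let f : Fin Ξ.card ⊕ B ≃ B ⊕ Ξ :=
    (Equiv.sumComm _ _).trans (Equiv.sumCongr (Equiv.refl B) Ξ.equivFin.symm)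
  let E : Module.Basis (B ⊕ Ξ) ℤ (κ → ℤ) := E0.reindex f
  have hE : ∀ i, E (Sum.inl i) = E0 (Sum.inr i) := by
    intro i
    simp [E, f]
  replace hG : ∀ i : B, v i = ∑ i', G i' i • E (Sum.inl i') := by
    intro i
    simp only [hE]
    exact hG i
  clear_value E
  clear hE f
  -- the functionals vanish on the first part
  have hφ0 : ∀ ω : Ξ, ∀ i' : B, pr (φ ω) (E (Sum.inl i')) = 0 := by
    intro ω
    have h1 : Matrix.vecMul (fun i' : B => pr (φ ω) (E (Sum.inl i'))) G = 0 := by
      ext i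
      have h2 := h0 i i.2 ω ω.2
      rw [hG i, ZVOL_pr_sum] at h2
      simp only [Matrix.vecMul, dotProduct, Pi.zero_apply]
      rw [← h2]
      exact Finset.sum_congr rfl fun i' _ => mul_comm _ _
    have h3 := Matrix.eq_zero_of_vecMul_eq_zero hGdet h1
    exact fun i' => congrFun h3 i'
  -- the dual basis
  let R : (B ⊕ Ξ) → κ → ℤ := fun z j => E.repr (Pi.single j 1) z
  have hrepr : ∀ (x : κ → ℤ) z, E.repr x z = ∑ j, x j * R z j := by
    intro x z
    have h1 : x = ∑ j, x j • (Pi.single j 1 : κ → ℤ) := by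
      ext k
      simp [Finset.sum_apply, Pi.single_apply]
    conv_lhs => rw [h1]
    rw [map_sum, Finsupp.finsetSum_apply]
    exact Finset.sum_congr rfl fun j _ => by rw [map_smul]; rfl
  have hRE : ∀ z z', pr (R z) (E z') = if z' = z then 1 else 0 := by
    intro z z'
    have h1 := hrepr (E z') z
    rw [Module.Basis.repr_self, Finsupp.single_apply] at h1
    rw [h1]
    exact Finset.sum_congr rfl fun j _ => mul_comm _ _
  have hER : ∀ x : κ → ℤ, x = ∑ z, pr x (E z) • R z := by
    intro x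
    ext k
    have h1 := congrArg (fun y : κ → ℤ => pr x y) (E.sum_repr (Pi.single k 1))
    have h2 : pr x (Pi.single k 1) = x k := by
      simp [pr, Pi.single_apply]
    simp only [ZVOL_pr_sum, h2] at h1
    rw [← h1]
    simp only [Finset.sum_apply, Pi.smul_apply, smul_eq_mul]
    exact Finset.sum_congr rfl fun j _ => mul_comm _ _
  -- coordinates of `u`
  let U : Matrix Ξ Ξ ℤ := fun ω' ω => E.repr (u ω') (Sum.inr ω)
  let Φ : Matrix Ξ Ξ ℤ := fun ω ω' => pr (φ ω) (E (Sum.inr ω'))
  have hprod : (Matrix.of fun ω ω' : Ξ => pr (φ ω) (u ω')) = Φ * U.transpose := by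
    ext ω ω'
    rw [Matrix.of_apply, Matrix.mul_apply]
    conv_lhs => rw [← E.sum_repr (u ω'), ZVOL_pr_sum, Fintype.sum_sum_type]
    simp only [hφ0, mul_zero, Finset.sum_const_zero, zero_add]
    exact Finset.sum_congr rfl fun ω'' _ => mul_comm _ _
  -- the big matrix
  let P : Matrix (B ⊕ Ξ) (B ⊕ Ξ) ℤ := fun z y => E z (e y)
  let P' : Matrix (B ⊕ Ξ) (B ⊕ Ξ) ℤ := fun y z => R z (e y)
  have hPP : P * P' = 1 := by
    ext z z'
    rw [Matrix.mul_apply, Matrix.one_apply]
    have h1 := hRE z' z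
    simp only [pr] at h1
    rw [← h1]
    rw [← Equiv.sum_comp e]
    exact Finset.sum_congr rfl fun j _ => mul_comm _ _
  have hPu : |P.det| = 1 := by
    have h1 : P.det * P'.det = 1 := by rw [← Matrix.det_mul, hPP, Matrix.det_one]
    exact Int.isUnit_iff_abs_eq.1 (IsUnit.of_mul_eq_one _ h1)
  let W : Matrix Ξ B ℤ := fun ω' i => E.repr (u ω') (Sum.inl i)
  have hbig : (Matrix.of fun x y : B ⊕ Ξ =>
        Sum.elim (fun i : B => v i) (fun ω : Ξ => u ω) x (e y)) =
      Matrix.fromBlocks G.transpose 0 W U * P := by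
    ext x y
    rw [Matrix.of_apply, Matrix.mul_apply, Fintype.sum_sum_type]
    rcases x with i | ω
    · simp only [Sum.elim_inl, Matrix.fromBlocks_apply₁₁, Matrix.fromBlocks_apply₁₂,
        Matrix.transpose_apply, Matrix.zero_apply, zero_mul, Finset.sum_const_zero, add_zero]
      rw [hG i]
      simp only [Finset.sum_apply, Pi.smul_apply, smul_eq_mul]
      rfl
    · simp only [Sum.elim_inr, Matrix.fromBlocks_apply₂₁, Matrix.fromBlocks_apply₂₂]
      conv_lhs => rw [← E.sum_repr (u ω), Fintype.sum_sum_type]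
      simp only [Finset.sum_apply, Pi.smul_apply, smul_eq_mul, Pi.add_apply]
      rfl
  have hbigdet : |(Matrix.of fun x y : B ⊕ Ξ =>
        Sum.elim (fun i : B => v i) (fun ω : Ξ => u ω) x (e y)).det| = |G.det| * |U.det| := by
    rw [hbig, Matrix.det_mul, Matrix.det_fromBlocks_zero₁₂, Matrix.det_transpose, abs_mul, hPu,
      mul_one, abs_mul]
  -- the multiplicity of `φ`
  have hΦdet : Φ.det ≠ 0 := by
    intro hz
    obtain ⟨x, hx0, hx⟩ := Matrix.exists_vecMul_eq_zero_iff.mpr hz
    apply hx0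
    have h1 : ∑ ω : Ξ, x ω • φ ω = 0 := by
      rw [hER (∑ ω : Ξ, x ω • φ ω)]
      refine Finset.sum_eq_zero fun z _ => ?_
      have h2 : pr (∑ ω : Ξ, x ω • φ ω) (E z) = ∑ ω : Ξ, x ω * pr (φ ω) (E z) := by
        unfold pr
        simp only [Finset.sum_apply, Pi.smul_apply, smul_eq_mul, Finset.mul_sum, Finset.sum_mul]
        rw [Finset.sum_comm]
        exact Finset.sum_congr rfl fun _ _ => Finset.sum_congr rfl fun _ _ => by ring
      rw [h2]
      rcases z with i | ω'
      · simp only [hφ0, mul_zero, Finset.sum_const_zero, zero_smul]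
      · have h3 := congrFun hx ω'
        simp only [Matrix.vecMul, dotProduct, Pi.zero_apply, Φ] at h3
        rw [h3, zero_smul]
    exact funext (Fintype.linearIndependent_iff.mp (ZVOL_lin hΞ) x h1)
  let N : Submodule ℤ (κ → ℤ) :=
    { carrier := {x | ∀ i : B, pr x (E (Sum.inl i)) = 0}
      zero_mem' := by intro i; simp [pr]
      add_mem' := by
        intro x y hx hy i
        have h1 := hx i
        have h2 := hy i
        simp only [pr] at h1 h2 ⊢
        simp only [Pi.add_apply, add_mul, Finset.sum_add_distrib, h1, h2, add_zero]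
      smul_mem' := by
        intro c x hx i
        have h1 := hx i
        simp only [pr] at h1 ⊢
        simp only [Pi.smul_apply, smul_eq_mul, mul_assoc, ← Finset.mul_sum, h1, mul_zero] }
  have hmemN : ∀ x, x ∈ N ↔ ∀ i : B, pr x (E (Sum.inl i)) = 0 := fun x => Iff.rfl
  have hRN : ∀ ω : Ξ, R (Sum.inr ω) ∈ N := by
    intro ω i
    rw [hRE, if_neg (by simp)]
  have hlinR : LinearIndependent ℤ (fun ω : Ξ => (⟨R (Sum.inr ω), hRN ω⟩ : N)) := by
    rw [Fintype.linearIndependent_iff]
    intro g hg ω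
    have h1 := congrArg (fun x : N => pr (x : κ → ℤ) (E (Sum.inr ω))) hg
    simp only [Submodule.coe_sum, Submodule.coe_smul, Submodule.coe_zero] at h1
    have h2 : pr (∑ ω' : Ξ, g ω' • R (Sum.inr ω')) (E (Sum.inr ω)) =
        ∑ ω' : Ξ, g ω' * pr (R (Sum.inr ω')) (E (Sum.inr ω)) := by
      unfold pr
      simp only [Finset.sum_apply, Pi.smul_apply, smul_eq_mul, Finset.mul_sum, Finset.sum_mul]
      rw [Finset.sum_comm]
      exact Finset.sum_congr rfl fun _ _ => Finset.sum_congr rfl fun _ _ => by ring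
    rw [h2] at h1
    simp only [hRE, Sum.inr.injEq, mul_ite, mul_one, mul_zero, Finset.sum_ite_eq,
      Finset.mem_univ, if_true] at h1
    rw [h1]
    simp [pr]
  have hspanR : ⊤ ≤ Submodule.span ℤ (Set.range (fun ω : Ξ => (⟨R (Sum.inr ω), hRN ω⟩ : N))) := by
    rintro ⟨x, hx⟩ _
    have h1 : (⟨x, hx⟩ : N) =
        ∑ ω : Ξ, pr x (E (Sum.inr ω)) • (⟨R (Sum.inr ω), hRN ω⟩ : N) := by
      apply Subtype.ext
      simp only [Submodule.coe_sum, Submodule.coe_smul]
      conv_lhs => rw [hER x, Fintype.sum_sum_type]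
      simp only [(hmemN x).1 hx, zero_smul, Finset.sum_const_zero, zero_add]
    rw [h1]
    exact Submodule.sum_mem _ fun ω _ => Submodule.smul_mem _ _ (Submodule.subset_span ⟨ω, rfl⟩)
  let bN : Module.Basis Ξ ℤ N := Module.Basis.mk hlinR hspanR
  have hbN : ∀ ω, ((bN ω : N) : κ → ℤ) = R (Sum.inr ω) := by
    intro ω
    simp [bN]
  have hφl := H22.latIndex_eq_det N (by
    intro k x hk hx i
    have h1 := hx i
    simp only [pr] at h1 ⊢
    simp only [Pi.smul_apply, smul_eq_mul, mul_assoc, ← Finset.mul_sum] at h1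
    exact (mul_eq_zero.1 h1).resolve_left hk) bN (fun ω : Ξ => φ ω) Φ.transpose (by
    intro ω
    simp only [hbN, Matrix.transpose_apply]
    conv_lhs => rw [hER (φ ω), Fintype.sum_sum_type]
    simp only [hφ0, zero_smul, Finset.sum_const_zero, zero_add]
    rfl) (by rw [Matrix.det_transpose]; exact hΦdet)
  have h1 : (mulv v B : ℤ) = |G.det| := by
    unfold mulv
    rw [hGl, Int.natCast_natAbs]
  have h2 : (mulv φ Ξ : ℤ) = |Φ.det| := by
    unfold mulv
    rw [hφl, Int.natCast_natAbs, Matrix.det_transpose]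
  rw [h1, h2, hbigdet, hprod, Matrix.det_mul, Matrix.det_transpose, abs_mul]
  ring


end Pool.Agent.H37.T5
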